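import Pool.Agent.Helper22.PN.Defs
import Pool.Agent.Helper22.ST.A01Forms

/-!
# PN-A01: the polynomial forms of the lengths

`pt x y z t` is the tetrahedron `ST.tet X Y z 1` with `X i = √t * x i`, `Y i = √(t + 1) * y i` (`pt_eq_tet`), so
everything follows from the formulas of `ST/A01Forms.lean` (`len_tet`, `D_tet`, `W_tet`, `Gr_tet` with `h = 1`) and
`cr X Y v = √t √(t+1) cr x y v`, `cr Y z v = √(t+1) cr y z v`, `cr z X v = √t cr z x v` (check the four values of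
`v`), `Real.sq_sqrt`.
-/

open Real Set
open Pool.Agent.Helper1.Tet
open Pool.Agent.Helper22.ST (PP ZZ cr dt ind)

namespace Pool.Agent.Helper22.PN

private theorem A01_st {t : ℝ} (ht : 0 < t) : √t ^ 2 = t ∧ √(t + 1) ^ 2 = t + 1 :=
  ⟨Real.sq_sqrt ht.le, Real.sq_sqrt (by linarith)⟩

theorem pt_eq_tet (x y z : Fin 4 → ℝ) (t : ℝ) :
    pt x y z t = ST.tet (fun i => √t * x i) (fun i => √(t + 1) * y i) z 1 := by
  funext i
  simp only [pt, ST.tet, one_mul]

theorem dist_pt_sq (x y z : Fin 4 → ℝ) {t : ℝ} (ht : 0 < t) (i j : Fin 4) :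
    dist (pt x y z t i) (pt x y z t j) ^ 2 =
      t * (x i - x j) ^ 2 + (t + 1) * (y i - y j) ^ 2 + (z i - z j) ^ 2 := by
  obtain ⟨h1, h2⟩ := A01_st ht
  rw [EuclideanSpace.dist_eq, Real.sq_sqrt (Finset.sum_nonneg fun _ _ => sq_nonneg _),
    Fin.sum_univ_three]
  simp only [pt, Real.dist_eq, sq_abs]
  simp
  linear_combination (x i - x j) ^ 2 * h1 + (y i - y j) ^ 2 * h2

theorem len_pt (x y z : Fin 4 → ℝ) {t : ℝ} (ht : 0 < t) (j : Fin 6) :
    len (pt x y z t) j = √(LL x y z t j) := by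
  obtain ⟨h1, h2⟩ := A01_st ht
  rw [pt_eq_tet, ST.len_tet]
  congr 1
  simp only [LL, PP, ZZ]
  linear_combination (x (ea j) - x (eb j)) ^ 2 * h1 + (y (ea j) - y (eb j)) ^ 2 * h2

private theorem A01_cr1 (x y : Fin 4 → ℝ) (a b : ℝ) (v : Fin 4) :
    cr (fun i => a * x i) (fun i => b * y i) v = a * b * cr x y v := by
  fin_cases v <;> simp [cr] <;> ring

private theorem A01_cr2 (y z : Fin 4 → ℝ) (b : ℝ) (v : Fin 4) :
    cr (fun i => b * y i) z v = b * cr y z v := by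
  fin_cases v <;> simp [cr] <;> ring

private theorem A01_cr3 (z x : Fin 4 → ℝ) (a : ℝ) (v : Fin 4) :
    cr z (fun i => a * x i) v = a * cr z x v := by
  fin_cases v <;> simp [cr] <;> ring

theorem D_pt (x y z : Fin 4 → ℝ) {t : ℝ} (ht : 0 < t) (v : Fin 4) :
    D (len (pt x y z t)) v = 4 * ff x y z t v := by
  obtain ⟨h1, h2⟩ := A01_st ht
  rw [pt_eq_tet, ST.D_tet]
  simp only [ff, ST.QQ, A01_cr2, A01_cr3, mul_pow, h1, h2]
  ring

theorem W_pt (x y z : Fin 4 → ℝ) {t : ℝ} (ht : 0 < t) (j : Fin 6) :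
    W (len (pt x y z t)) j = -4 * gg x y z t j := by
  obtain ⟨h1, h2⟩ := A01_st ht
  rw [pt_eq_tet, ST.W_tet]
  simp only [gg, ST.gm, ST.qq', A01_cr2, A01_cr3]
  linear_combination (-4 * (√(t + 1) ^ 2 * (cr x y (ec j) * cr x y (ed j)) +
      cr z x (ec j) * cr z x (ed j))) * h1 +
    (-4 * (t * (cr x y (ec j) * cr x y (ed j)) + cr y z (ec j) * cr y z (ed j))) * h2

/-- the determinant of the scaled coordinates -/
theorem dt_scale (x y z : Fin 4 → ℝ) (a b c : ℝ) :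
    dt (fun i => a * x i) (fun i => b * y i) (fun i => c * z i) = a * b * c * dt x y z := by
  simp only [dt, A01_cr1]
  ring

theorem Gr_pt (x y z : Fin 4 → ℝ) {t : ℝ} (ht : 0 < t) :
    Gr (len (pt x y z t)) = t * (t + 1) * dt x y z ^ 2 := by
  obtain ⟨h1, h2⟩ := A01_st ht
  have h := dt_scale x y z (√t) (√(t + 1)) 1
  simp only [one_mul, mul_one] at h
  rw [pt_eq_tet, ST.Gr_tet, h, one_pow, one_mul, mul_pow, mul_pow, h1, h2]

end Pool.Agent.Helper22.PN
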