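import Pool.Agent.Helper22.PN.A01Forms
import Pool.Agent.Helper22.ST.A02Ident

/-!
# PN-A02: affine independence, positivity

`pt_indep`, `dt_of_indep`: `pt_eq_tet`, `ST.tet_indep`, `ST.dt_ne` (ST/A03Indep) and `dt_scale` (with `c = 1`).
`pt_mem_TT`: `len_mem_TT`.  `LL_pos`, `ff_pos`: `ST.edge_pos`, `ST.face_pos` for the scaled coordinates, or directly.
`uu_pos`: `LL_pos` at `t = 1`; `not_both`: an edge with `PP x y j = 0` and `PP y z j = 0` is degenerate.
-/

open Real Set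
open Pool.Agent.Helper1.Tet
open Pool.Agent.Helper22.ST (PP ZZ cr dt ind)

namespace Pool.Agent.Helper22.PN

private theorem A02_dt (x y z : Fin 4 → ℝ) (a b : ℝ) :
    dt (fun i => a * x i) (fun i => b * y i) z = a * b * dt x y z := by
  have h := dt_scale x y z a b 1
  simp only [one_mul, mul_one] at h
  exact h

private theorem A02_dt_ne (x y z : Fin 4 → ℝ) (hd : dt x y z ≠ 0) {t : ℝ} (ht : 0 < t) :
    dt (fun i => √t * x i) (fun i => √(t + 1) * y i) z ≠ 0 := by
  rw [A02_dt]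
  have h1 : √t ≠ 0 := (Real.sqrt_pos.2 ht).ne'
  have h2 : √(t + 1) ≠ 0 := (Real.sqrt_pos.2 (by linarith)).ne'
  exact mul_ne_zero (mul_ne_zero h1 h2) hd

theorem pt_indep (x y z : Fin 4 → ℝ) (hd : dt x y z ≠ 0) {t : ℝ} (ht : 0 < t) :
    AffineIndependent ℝ (pt x y z t) := by
  rw [pt_eq_tet]
  exact ST.tet_indep _ _ _ (A02_dt_ne x y z hd ht) one_pos

theorem dt_of_indep (x y z : Fin 4 → ℝ) {t : ℝ} (ht : 0 < t)
    (hp : AffineIndependent ℝ (pt x y z t)) : dt x y z ≠ 0 := by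
  have _ := ht
  rw [pt_eq_tet] at hp
  have h := ST.dt_ne _ _ _ hp
  rw [A02_dt] at h
  exact right_ne_zero_of_mul h

theorem pt_mem_TT (x y z : Fin 4 → ℝ) (hd : dt x y z ≠ 0) {t : ℝ} (ht : 0 < t) :
    len (pt x y z t) ∈ TT := len_mem_TT _ (pt_indep x y z hd ht)

private theorem A02_st {t : ℝ} (ht : 0 < t) : √t ^ 2 = t ∧ √(t + 1) ^ 2 = t + 1 :=
  ⟨Real.sq_sqrt ht.le, Real.sq_sqrt (by linarith)⟩

theorem LL_pos (x y z : Fin 4 → ℝ) (hd : dt x y z ≠ 0) {t : ℝ} (ht : 0 < t) (j : Fin 6) :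
    0 < LL x y z t j := by
  obtain ⟨h1, h2⟩ := A02_st ht
  have h := ST.edge_pos _ _ _ (A02_dt_ne x y z hd ht) one_pos j
  have e : LL x y z t j = PP (fun i => √t * x i) (fun i => √(t + 1) * y i) j + 1 ^ 2 * ZZ z j := by
    simp only [LL, PP, ZZ]
    linear_combination (-(x (ea j) - x (eb j)) ^ 2) * h1 - (y (ea j) - y (eb j)) ^ 2 * h2
  rw [e]
  exact h

private theorem A02_cr2 (y z : Fin 4 → ℝ) (b : ℝ) (v : Fin 4) :
    cr (fun i => b * y i) z v = b * cr y z v := by
  fin_cases v <;> simp [cr] <;> ring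

private theorem A02_cr3 (z x : Fin 4 → ℝ) (a : ℝ) (v : Fin 4) :
    cr z (fun i => a * x i) v = a * cr z x v := by
  fin_cases v <;> simp [cr] <;> ring

theorem ff_pos (x y z : Fin 4 → ℝ) (hd : dt x y z ≠ 0) {t : ℝ} (ht : 0 < t) (v : Fin 4) :
    0 < ff x y z t v := by
  obtain ⟨h1, h2⟩ := A02_st ht
  have h := ST.face_pos _ _ _ (A02_dt_ne x y z hd ht) one_pos v
  have e : ff x y z t v = cr (fun i => √t * x i) (fun i => √(t + 1) * y i) v ^ 2 +
      1 ^ 2 * ST.QQ (fun i => √t * x i) (fun i => √(t + 1) * y i) z v := by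
    simp only [ff, ST.QQ, A02_cr2, A02_cr3, mul_pow, h1, h2]
    ring
  rw [e]
  exact h

theorem uu_pos (x y z : Fin 4 → ℝ) (hd : dt x y z ≠ 0) (j : Fin 6) :
    0 < PP x y j + PP y z j ∧ 0 < uu x y z j := by
  have h := LL_pos x y z hd one_pos j
  have h' : 0 < PP x y j + PP y z j := by
    have e : LL x y z 1 j = PP x y j + PP y z j := by
      simp only [LL, one_mul]
    rw [← e]
    exact h
  exact ⟨h', Real.sqrt_pos.2 h'⟩

/-- no two faces are parallel: the normals at an edge are linearly independent -/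
theorem normals_ne (x y z : Fin 4 → ℝ) (hd : dt x y z ≠ 0) (j : Fin 6) (a b : ℝ)
    (h1 : a * cr y z (ec j) + b * cr y z (ed j) = 0)
    (h2 : a * cr z x (ec j) + b * cr z x (ed j) = 0)
    (h3 : a * cr x y (ec j) + b * cr x y (ed j) = 0) : a = 0 ∧ b = 0 := by
  have hZ := ST.ZZ_dt x y z j
  have hP := ST.PP_dt x y z j
  have hE := ST.edge_pos x y z hd one_pos j
  have hd2 : 0 < dt x y z ^ 2 := by positivity
  simp only [ST.QQ, ST.qq', ST.gm] at hZ hP
  generalize cr y z (ec j) = A at h1 h2 h3 hZ hP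
  generalize cr y z (ed j) = A' at h1 h2 h3 hZ hP
  generalize cr z x (ec j) = B at h1 h2 h3 hZ hP
  generalize cr z x (ed j) = B' at h1 h2 h3 hZ hP
  generalize cr x y (ec j) = C at h1 h2 h3 hZ hP
  generalize cr x y (ed j) = C' at h1 h2 h3 hZ hP
  have key : (PP x y j + 1 ^ 2 * ZZ z j) * dt x y z ^ 2 =
      (A * B' - B * A') ^ 2 + (B * C' - C * B') ^ 2 + (C * A' - A * C') ^ 2 := by
    linear_combination hZ + hP
  have hpos : 0 < (PP x y j + 1 ^ 2 * ZZ z j) * dt x y z ^ 2 := mul_pos hE hd2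
  have ka1 : a * (A * B' - B * A') = 0 := by linear_combination B' * h1 - A' * h2
  have ka2 : a * (B * C' - C * B') = 0 := by linear_combination C' * h2 - B' * h3
  have ka3 : a * (C * A' - A * C') = 0 := by linear_combination A' * h3 - C' * h1
  have kb1 : b * (A * B' - B * A') = 0 := by linear_combination A * h2 - B * h1
  have kb2 : b * (B * C' - C * B') = 0 := by linear_combination B * h3 - C * h2
  have kb3 : b * (C * A' - A * C') = 0 := by linear_combination C * h1 - A * h3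
  have ea : a * ((PP x y j + 1 ^ 2 * ZZ z j) * dt x y z ^ 2) = 0 := by
    rw [key]
    linear_combination (A * B' - B * A') * ka1 + (B * C' - C * B') * ka2 +
      (C * A' - A * C') * ka3
  have eb : b * ((PP x y j + 1 ^ 2 * ZZ z j) * dt x y z ^ 2) = 0 := by
    rw [key]
    linear_combination (A * B' - B * A') * kb1 + (B * C' - C * B') * kb2 +
      (C * A' - A * C') * kb3
  exact ⟨(mul_eq_zero.1 ea).resolve_right hpos.ne', (mul_eq_zero.1 eb).resolve_right hpos.ne'⟩

end Pool.Agent.Helper22.PN
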