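import Pool.Agent.Helper22.PN.A02Indep
import Pool.Agent.Helper22.ST.A04AlForm
import Pool.Agent.Helper1.Tet.TTFacts

/-!
# PN-A03: the dihedral angles

`ST.al_form` (ST/A04AlForm) for the scaled coordinates and `h = 1` (`pt_eq_tet`, `dt_scale`): the numerator
`gm + qq'` becomes `gg x y z t j` and `|dt|` becomes `√t √(t+1) |dt x y z| = √(t (t+1)) |dt x y z|`.
-/

open Real Set
open Pool.Agent.Helper1.Tet
open Pool.Agent.Helper22.ST (PP ZZ cr dt ind)

namespace Pool.Agent.Helper22.PN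

theorem al_pt (x y z : Fin 4 → ℝ) (hd : dt x y z ≠ 0) {t : ℝ} (ht : 0 < t) (j : Fin 6) :
    al (len (pt x y z t)) j = π / 2 + arctan (gg x y z t j /
      (√(t * (t + 1)) * |dt x y z| * √(LL x y z t j))) := by
  obtain ⟨hl, hD, hc, hs, hI, -, -, -, -⟩ := TT_facts (pt_mem_TT x y z hd ht)
  have hlj := hl j
  have hc' := hc j
  have hs' := hs j
  have hI' := hI j
  have e1 : 0 < √(D (len (pt x y z t)) (ec j)) := Real.sqrt_pos.2 (hD _)
  have e2 : 0 < √(D (len (pt x y z t)) (ed j)) := Real.sqrt_pos.2 (hD _)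
  have hdt : 0 < |dt x y z| := abs_pos.2 hd
  have ht0 : 0 < t * (t + 1) := by positivity
  have hst : 0 < √(t * (t + 1)) := Real.sqrt_pos.2 ht0
  have hGr : √(Gr (len (pt x y z t))) = √(t * (t + 1)) * |dt x y z| := by
    rw [Gr_pt x y z ht, Real.sqrt_mul ht0.le, Real.sqrt_sq_eq_abs]
  rw [W_pt x y z ht] at hc'
  rw [hGr] at hs'
  rw [← len_pt x y z ht]
  set l := len (pt x y z t) j with hl'
  set α := al (len (pt x y z t)) j with hα
  have h1 : α - π / 2 ∈ Ioo (-(π / 2)) (π / 2) := ⟨by linarith [hI'.1], by linarith [hI'.2]⟩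
  have h2 : tan (α - π / 2) = gg x y z t j / (√(t * (t + 1)) * |dt x y z| * l) := by
    rw [tan_eq_sin_div_cos, sin_sub_pi_div_two, cos_sub_pi_div_two, hc', hs']
    field_simp
  have h3 := Real.arctan_tan h1.1 h1.2
  rw [← h2, h3]
  ring

end Pool.Agent.Helper22.PN
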