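import Pool.Agent.Helper22.PN.A02Indep
import Pool.Agent.Helper22.ST.A02Ident

/-!
# PN-A04: algebraic identities

`sq_rel`: expand: `ff * ff - gg²` is a combination of the squared components of the cross product of the two normals
at the edge `j`: with `N = N_(ec j)`, `N' = N_(ed j)`
`ff * ff' - gg² = t (t+1) (N1 N2' - N2 N1')² + t (t+1)² (N1 N3' - N3 N1')² + t² (t+1) (N2 N3' - N3 N2')²`, and
`N × N' = ± dt * (p_(ea j) - p_(eb j))` (this is `crossk` in `ST/A02Ident.lean`, private there: copy it for all six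
edges).  So the right hand side is `t (t+1) dt² (Z + (t+1) Y + t X)`.
`face_sum*`: `N_0 + N_1 + N_2 + N_3 = 0` (`ST.cr_sum`).
-/

open Real Set
open Pool.Agent.Helper1.Tet
open Pool.Agent.Helper22.ST (PP ZZ cr dt ind)

namespace Pool.Agent.Helper22.PN

private theorem cr0 (f g : Fin 4 → ℝ) : cr f g 0 = -(cr f g 1 + cr f g 2 + cr f g 3) := rfl

private theorem cr1 (f g : Fin 4 → ℝ) :
    cr f g 1 = (f 2 - f 0) * (g 3 - g 0) - (g 2 - g 0) * (f 3 - f 0) := rfl

private theorem cr2 (f g : Fin 4 → ℝ) :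
    cr f g 2 = (f 3 - f 0) * (g 1 - g 0) - (g 3 - g 0) * (f 1 - f 0) := rfl

private theorem cr3 (f g : Fin 4 → ℝ) :
    cr f g 3 = (f 1 - f 0) * (g 2 - g 0) - (g 1 - g 0) * (f 2 - f 0) := rfl

private theorem dte (x y z : Fin 4 → ℝ) : dt x y z =
    (x 1 - x 0) * cr y z 1 + (y 1 - y 0) * cr z x 1 + (z 1 - z 0) * cr x y 1 := rfl

private theorem dt_cyc (x y z : Fin 4 → ℝ) : dt y z x = dt x y z := by
  rw [dte, dte]
  ring

private theorem x23 (f g k : Fin 4 → ℝ) :
    cr g k 2 * cr k f 3 - cr k f 2 * cr g k 3 = dt f g k * (k 1 - k 0) := by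
  simp only [dte, cr1, cr2, cr3]
  generalize f 1 - f 0 = a1
  generalize f 2 - f 0 = a2
  generalize f 3 - f 0 = a3
  generalize g 1 - g 0 = b1
  generalize g 2 - g 0 = b2
  generalize g 3 - g 0 = b3
  generalize k 1 - k 0 = c1
  generalize k 2 - k 0 = c2
  generalize k 3 - k 0 = c3
  ring

private theorem x13 (f g k : Fin 4 → ℝ) :
    cr g k 1 * cr k f 3 - cr k f 1 * cr g k 3 = -(dt f g k * (k 2 - k 0)) := by
  simp only [dte, cr1, cr2, cr3]
  generalize f 1 - f 0 = a1
  generalize f 2 - f 0 = a2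
  generalize f 3 - f 0 = a3
  generalize g 1 - g 0 = b1
  generalize g 2 - g 0 = b2
  generalize g 3 - g 0 = b3
  generalize k 1 - k 0 = c1
  generalize k 2 - k 0 = c2
  generalize k 3 - k 0 = c3
  ring

private theorem x12 (f g k : Fin 4 → ℝ) :
    cr g k 1 * cr k f 2 - cr k f 1 * cr g k 2 = dt f g k * (k 3 - k 0) := by
  simp only [dte, cr1, cr2, cr3]
  generalize f 1 - f 0 = a1
  generalize f 2 - f 0 = a2
  generalize f 3 - f 0 = a3
  generalize g 1 - g 0 = b1
  generalize g 2 - g 0 = b2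
  generalize g 3 - g 0 = b3
  generalize k 1 - k 0 = c1
  generalize k 2 - k 0 = c2
  generalize k 3 - k 0 = c3
  ring

private theorem crossk (f g k : Fin 4 → ℝ) (j : Fin 6) :
    cr g k (ec j) * cr k f (ed j) - cr k f (ec j) * cr g k (ed j) =
      (![-1, 1, -1, -1, 1, -1] : Fin 6 → ℝ) j * (dt f g k * (k (ea j) - k (eb j))) := by
  have h23 := x23 f g k
  have h13 := x13 f g k
  have h12 := x12 f g k
  fin_cases j
  · show cr g k 2 * cr k f 3 - cr k f 2 * cr g k 3 = (-1) * (dt f g k * (k 0 - k 1))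
    linear_combination h23
  · show cr g k 1 * cr k f 3 - cr k f 1 * cr g k 3 = 1 * (dt f g k * (k 0 - k 2))
    linear_combination h13
  · show cr g k 1 * cr k f 2 - cr k f 1 * cr g k 2 = (-1) * (dt f g k * (k 0 - k 3))
    linear_combination h12
  · show cr g k 0 * cr k f 3 - cr k f 0 * cr g k 3 = (-1) * (dt f g k * (k 1 - k 2))
    rw [cr0 g k, cr0 k f]
    linear_combination -h13 - h23
  · show cr g k 0 * cr k f 2 - cr k f 0 * cr g k 2 = 1 * (dt f g k * (k 1 - k 3))
    rw [cr0 g k, cr0 k f]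
    linear_combination -h12 + h23
  · show cr g k 0 * cr k f 1 - cr k f 0 * cr g k 1 = (-1) * (dt f g k * (k 2 - k 3))
    rw [cr0 g k, cr0 k f]
    linear_combination h12 + h13

private theorem sg_sq (j : Fin 6) : ((![-1, 1, -1, -1, 1, -1] : Fin 6 → ℝ) j) ^ 2 = 1 := by
  fin_cases j <;> norm_num

theorem sq_rel (x y z : Fin 4 → ℝ) (t : ℝ) (j : Fin 6) :
    gg x y z t j ^ 2 + t * (t + 1) * dt x y z ^ 2 * LL x y z t j =
      ff x y z t (ec j) * ff x y z t (ed j) := by
  have h1 := crossk x y z j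
  have h2 := crossk y z x j
  have h3 := crossk z x y j
  rw [dt_cyc x y z] at h2
  rw [dt_cyc y z x, dt_cyc x y z] at h3
  have hs := sg_sq j
  unfold gg LL ff PP
  generalize (![-1, 1, -1, -1, 1, -1] : Fin 6 → ℝ) j = s at h1 h2 h3 hs
  generalize cr y z (ec j) = a at h1 h2 h3 ⊢
  generalize cr y z (ed j) = a' at h1 h2 h3 ⊢
  generalize cr z x (ec j) = b at h1 h2 h3 ⊢
  generalize cr z x (ed j) = b' at h1 h2 h3 ⊢
  generalize cr x y (ec j) = c at h1 h2 h3 ⊢
  generalize cr x y (ed j) = c' at h1 h2 h3 ⊢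
  generalize dt x y z = D at h1 h2 h3 ⊢
  generalize x (ea j) - x (eb j) = X at h1 h2 h3 ⊢
  generalize y (ea j) - y (eb j) = Y at h1 h2 h3 ⊢
  generalize z (ea j) - z (eb j) = Z at h1 h2 h3 ⊢
  linear_combination t * (t + 1) * (-((a * b' - b * a') + s * (D * Z)) * h1 - (D * Z) ^ 2 * hs) +
    t * (t + 1) * (t + 1) * (-((c * a' - a * c') + s * (D * Y)) * h3 - (D * Y) ^ 2 * hs) +
    t * (t + 1) * t * (-((b * c' - c * b') + s * (D * X)) * h2 - (D * X) ^ 2 * hs)

private theorem gg3 (x y z : Fin 4 → ℝ) (t : ℝ) : gg x y z t 3 =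
    (t + 1) * (cr y z 0 * cr y z 3) + t * (cr z x 0 * cr z x 3) +
      t * (t + 1) * (cr x y 0 * cr x y 3) := rfl

private theorem gg4 (x y z : Fin 4 → ℝ) (t : ℝ) : gg x y z t 4 =
    (t + 1) * (cr y z 0 * cr y z 2) + t * (cr z x 0 * cr z x 2) +
      t * (t + 1) * (cr x y 0 * cr x y 2) := rfl

private theorem gg5 (x y z : Fin 4 → ℝ) (t : ℝ) : gg x y z t 5 =
    (t + 1) * (cr y z 0 * cr y z 1) + t * (cr z x 0 * cr z x 1) +
      t * (t + 1) * (cr x y 0 * cr x y 1) := rfl

private theorem gg0 (x y z : Fin 4 → ℝ) (t : ℝ) : gg x y z t 0 =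
    (t + 1) * (cr y z 2 * cr y z 3) + t * (cr z x 2 * cr z x 3) +
      t * (t + 1) * (cr x y 2 * cr x y 3) := rfl

private theorem gg1 (x y z : Fin 4 → ℝ) (t : ℝ) : gg x y z t 1 =
    (t + 1) * (cr y z 1 * cr y z 3) + t * (cr z x 1 * cr z x 3) +
      t * (t + 1) * (cr x y 1 * cr x y 3) := rfl

private theorem gg2 (x y z : Fin 4 → ℝ) (t : ℝ) : gg x y z t 2 =
    (t + 1) * (cr y z 1 * cr y z 2) + t * (cr z x 1 * cr z x 2) +
      t * (t + 1) * (cr x y 1 * cr x y 2) := rfl

theorem face_sum0 (x y z : Fin 4 → ℝ) (t : ℝ) :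
    gg x y z t 3 + gg x y z t 4 + gg x y z t 5 = -ff x y z t 0 := by
  have e1 := ST.cr_sum y z
  have e2 := ST.cr_sum z x
  have e3 := ST.cr_sum x y
  rw [gg3, gg4, gg5, ff]
  linear_combination (t + 1) * cr y z 0 * e1 + t * cr z x 0 * e2 + t * (t + 1) * cr x y 0 * e3

theorem face_sum1 (x y z : Fin 4 → ℝ) (t : ℝ) :
    gg x y z t 1 + gg x y z t 2 + gg x y z t 5 = -ff x y z t 1 := by
  have e1 := ST.cr_sum y z
  have e2 := ST.cr_sum z x
  have e3 := ST.cr_sum x y
  rw [gg1, gg2, gg5, ff]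
  linear_combination (t + 1) * cr y z 1 * e1 + t * cr z x 1 * e2 + t * (t + 1) * cr x y 1 * e3

theorem face_sum2 (x y z : Fin 4 → ℝ) (t : ℝ) :
    gg x y z t 0 + gg x y z t 2 + gg x y z t 4 = -ff x y z t 2 := by
  have e1 := ST.cr_sum y z
  have e2 := ST.cr_sum z x
  have e3 := ST.cr_sum x y
  rw [gg0, gg2, gg4, ff]
  linear_combination (t + 1) * cr y z 2 * e1 + t * cr z x 2 * e2 + t * (t + 1) * cr x y 2 * e3

theorem face_sum3 (x y z : Fin 4 → ℝ) (t : ℝ) :
    gg x y z t 0 + gg x y z t 1 + gg x y z t 3 = -ff x y z t 3 := by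
  have e1 := ST.cr_sum y z
  have e2 := ST.cr_sum z x
  have e3 := ST.cr_sum x y
  rw [gg0, gg1, gg3, ff]
  linear_combination (t + 1) * cr y z 3 * e1 + t * cr z x 3 * e2 + t * (t + 1) * cr x y 3 * e3

/-- the sum over the edges of the face opposite to `v` -/
theorem face_sum (x y z : Fin 4 → ℝ) (t : ℝ) (v : Fin 4) :
    ∑ j, ind (inF v j) (gg x y z t j) = -ff x y z t v := by
  rw [Fin.sum_univ_six]
  fin_cases v
  · change ind (inF 0 0) (gg x y z t 0) + ind (inF 0 1) (gg x y z t 1) +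
      ind (inF 0 2) (gg x y z t 2) + ind (inF 0 3) (gg x y z t 3) +
      ind (inF 0 4) (gg x y z t 4) + ind (inF 0 5) (gg x y z t 5) = -ff x y z t 0
    rw [ST.ind_neg (p := inF 0 0) (by decide), ST.ind_neg (p := inF 0 1) (by decide),
      ST.ind_neg (p := inF 0 2) (by decide), ST.ind_pos (p := inF 0 3) (by decide),
      ST.ind_pos (p := inF 0 4) (by decide), ST.ind_pos (p := inF 0 5) (by decide)]
    linear_combination face_sum0 x y z t
  · change ind (inF 1 0) (gg x y z t 0) + ind (inF 1 1) (gg x y z t 1) +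
      ind (inF 1 2) (gg x y z t 2) + ind (inF 1 3) (gg x y z t 3) +
      ind (inF 1 4) (gg x y z t 4) + ind (inF 1 5) (gg x y z t 5) = -ff x y z t 1
    rw [ST.ind_neg (p := inF 1 0) (by decide), ST.ind_pos (p := inF 1 1) (by decide),
      ST.ind_pos (p := inF 1 2) (by decide), ST.ind_neg (p := inF 1 3) (by decide),
      ST.ind_neg (p := inF 1 4) (by decide), ST.ind_pos (p := inF 1 5) (by decide)]
    linear_combination face_sum1 x y z t
  · change ind (inF 2 0) (gg x y z t 0) + ind (inF 2 1) (gg x y z t 1) +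
      ind (inF 2 2) (gg x y z t 2) + ind (inF 2 3) (gg x y z t 3) +
      ind (inF 2 4) (gg x y z t 4) + ind (inF 2 5) (gg x y z t 5) = -ff x y z t 2
    rw [ST.ind_pos (p := inF 2 0) (by decide), ST.ind_neg (p := inF 2 1) (by decide),
      ST.ind_pos (p := inF 2 2) (by decide), ST.ind_neg (p := inF 2 3) (by decide),
      ST.ind_pos (p := inF 2 4) (by decide), ST.ind_neg (p := inF 2 5) (by decide)]
    linear_combination face_sum2 x y z t
  · change ind (inF 3 0) (gg x y z t 0) + ind (inF 3 1) (gg x y z t 1) +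
      ind (inF 3 2) (gg x y z t 2) + ind (inF 3 3) (gg x y z t 3) +
      ind (inF 3 4) (gg x y z t 4) + ind (inF 3 5) (gg x y z t 5) = -ff x y z t 3
    rw [ST.ind_pos (p := inF 3 0) (by decide), ST.ind_pos (p := inF 3 1) (by decide),
      ST.ind_neg (p := inF 3 2) (by decide), ST.ind_pos (p := inF 3 3) (by decide),
      ST.ind_neg (p := inF 3 4) (by decide), ST.ind_neg (p := inF 3 5) (by decide)]
    linear_combination face_sum3 x y z t

private theorem dt_of_cr (f g k : Fin 4 → ℝ) (h : ∀ v, cr f g v = 0) : dt f g k = 0 := by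
  have e : dt f g k = (k 1 - k 0) * cr f g 1 + (k 2 - k 0) * cr f g 2 + (k 3 - k 0) * cr f g 3 := by
    simp only [dte, cr1, cr2, cr3]
    ring
  rw [e, h 1, h 2, h 3]
  ring

/-- if all normals have vanishing second component, the tetrahedron is degenerate (and similarly for
the other components) -/
theorem comp_ne (x y z : Fin 4 → ℝ) (hd : dt x y z ≠ 0) :
    (∃ v, cr y z v ≠ 0) ∧ (∃ v, cr z x v ≠ 0) ∧ ∃ v, cr x y v ≠ 0 := by
  refine ⟨?_, ?_, ?_⟩
  · by_contra h
    push Not at h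
    exact hd ((dt_cyc x y z).symm.trans (dt_of_cr y z x h))
  · by_contra h
    push Not at h
    exact hd ((dt_cyc x y z).symm.trans ((dt_cyc y z x).symm.trans (dt_of_cr z x y h)))
  · by_contra h
    push Not at h
    exact hd (dt_of_cr x y z h)

end Pool.Agent.Helper22.PN
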