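import Pool.Agent.Helper22.PN.A03Angle
import Pool.Agent.Helper22.PN.A04Sq

/-!
# PN-A05: the derivatives of the dihedral angles

Near `t > 0` the angle is `π / 2 + arctan (gg / M)`, `M = √(t (t + 1)) |dt| √LL`, `M² = ff ff' - gg²`
(`al_pt`, `sq_rel`; use `congr_of_eventuallyEq`).  Derivative of the quotient: `(gg' M - gg M') / M²` and
`1 / (1 + (gg / M)²) = M² / (ff(ec) ff(ed))`, where `M M' = ((ff(ec) ff(ed))' - 2 gg gg') / 2`; so the derivative is
`(gg' M² - gg M M') / (M ff(ec) ff(ed)) = (gg' - gg ff'(ec) / (2 ff(ec)) - gg ff'(ed) / (2 ff(ed))) / M`.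
The polynomials `gg, ff` have the derivatives `gg', ff'` with respect to `t`.
-/

open Real Set
open Pool.Agent.Helper1.Tet
open Pool.Agent.Helper22.ST (PP ZZ cr dt ind)

namespace Pool.Agent.Helper22.PN

theorem ff_deriv (x y z : Fin 4 → ℝ) (t : ℝ) (v : Fin 4) :
    HasDerivAt (fun t => ff x y z t v) (ff' x y z t v) t := by
  have h1 : HasDerivAt (fun t : ℝ => t) 1 t := hasDerivAt_id' t
  have h2 : HasDerivAt (fun t : ℝ => t + 1) 1 t := h1.add_const 1
  have h := ((h2.mul_const (cr y z v ^ 2)).add (h1.mul_const (cr z x v ^ 2))).add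
    ((h1.mul h2).mul_const (cr x y v ^ 2))
  refine h.congr_deriv ?_
  unfold ff'
  ring

theorem gg_deriv (x y z : Fin 4 → ℝ) (t : ℝ) (j : Fin 6) :
    HasDerivAt (fun t => gg x y z t j) (gg' x y z t j) t := by
  have h1 : HasDerivAt (fun t : ℝ => t) 1 t := hasDerivAt_id' t
  have h2 : HasDerivAt (fun t : ℝ => t + 1) 1 t := h1.add_const 1
  have h := ((h2.mul_const (cr y z (ec j) * cr y z (ed j))).add
    (h1.mul_const (cr z x (ec j) * cr z x (ed j)))).add
    ((h1.mul h2).mul_const (cr x y (ec j) * cr x y (ed j)))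
  refine h.congr_deriv ?_
  unfold gg'
  ring

private theorem A05_M (x y z : Fin 4 → ℝ) {t : ℝ} (ht : 0 < t) (j : Fin 6) :
    √(t * (t + 1)) * |dt x y z| * √(LL x y z t j) =
      √(ff x y z t (ec j) * ff x y z t (ed j) - gg x y z t j ^ 2) := by
  have ht0 : 0 ≤ t * (t + 1) := by positivity
  rw [← sq_rel x y z t j, ← Real.sqrt_sq_eq_abs, ← Real.sqrt_mul ht0,
    ← Real.sqrt_mul (mul_nonneg ht0 (sq_nonneg _))]
  congr 1
  ring

theorem al_pt_deriv (x y z : Fin 4 → ℝ) (hd : dt x y z ≠ 0) {t : ℝ} (ht : 0 < t) (j : Fin 6) :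
    HasDerivAt (fun t => al (len (pt x y z t)) j) (dl x y z t j) t := by
  have hL := LL_pos x y z hd ht j
  have hf1 := ff_pos x y z hd ht (ec j)
  have hf2 := ff_pos x y z hd ht (ed j)
  have hM := A05_M x y z ht j
  have hQ : 0 < ff x y z t (ec j) * ff x y z t (ed j) - gg x y z t j ^ 2 := by
    have h1 := sq_rel x y z t j
    have h2 : 0 < t * (t + 1) * dt x y z ^ 2 * LL x y z t j := by
      have : 0 < dt x y z ^ 2 := by positivity
      positivity
    linarith
  have hev : (fun s => al (len (pt x y z s)) j) =ᶠ[nhds t] fun s => π / 2 + arctan (gg x y z s j /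
      √(ff x y z s (ec j) * ff x y z s (ed j) - gg x y z s j ^ 2)) := by
    filter_upwards [lt_mem_nhds ht] with s hs
    rw [al_pt x y z hd hs j, A05_M x y z hs j]
  have d1 := ff_deriv x y z t (ec j)
  have d2 := ff_deriv x y z t (ed j)
  have dg := gg_deriv x y z t j
  have dQ := (d1.mul d2).sub (dg.pow 2)
  have dM := dQ.sqrt hQ.ne'
  have hM0 : √(ff x y z t (ec j) * ff x y z t (ed j) - gg x y z t j ^ 2) ≠ 0 :=
    (Real.sqrt_pos.2 hQ).ne'
  have dR := ((dg.div dM hM0).arctan).const_add (π / 2)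
  refine HasDerivAt.congr_of_eventuallyEq (HasDerivAt.congr_deriv dR ?_) hev
  unfold dl
  rw [hM]
  have hS : √(ff x y z t (ec j) * ff x y z t (ed j) - gg x y z t j ^ 2) ^ 2 =
      ff x y z t (ec j) * ff x y z t (ed j) - gg x y z t j ^ 2 := Real.sq_sqrt hQ.le
  have hf1' := hf1.ne'
  have hf2' := hf2.ne'
  simp only [Pi.pow_apply, Pi.mul_apply, Pi.sub_apply, Pi.div_apply]
  generalize √(ff x y z t (ec j) * ff x y z t (ed j) - gg x y z t j ^ 2) = S at hS hM0 ⊢
  generalize ff x y z t (ec j) = f1 at hS hf1' ⊢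
  generalize ff x y z t (ed j) = f2 at hS hf2' ⊢
  generalize gg x y z t j = g at hS ⊢
  generalize gg' x y z t j = g'
  generalize ff' x y z t (ec j) = f1'
  generalize ff' x y z t (ed j) = f2'
  have h1 : 1 + (g / S) ^ 2 = f1 * f2 / S ^ 2 := by
    rw [div_pow, eq_div_iff (pow_ne_zero 2 hM0), add_mul, div_mul_cancel₀ _ (pow_ne_zero 2 hM0), hS]
    ring
  rw [h1]
  have h2 : (2 : ℕ) - 1 = 1 := rfl
  rw [h2, pow_one, Nat.cast_ofNat]
  clear h1 h2 dR dM dQ d1 d2 dg hev hQ hM hf1 hf2 hL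
  field_simp
  linear_combination (2 * g') * hS

end Pool.Agent.Helper22.PN
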