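import Pool.Agent.Helper22.PN.A03Angle
import Pool.Agent.Helper1.Tet.Analytic

/-!
# PN-A06: analyticity (compare `ST/A06AlAn.lean`)
-/

open Real Set
open Pool.Agent.Helper1.Tet
open Pool.Agent.Helper22.ST (PP ZZ cr dt ind)
open scoped ContDiff

namespace Pool.Agent.Helper22.PN

theorem LL_an (x y z : Fin 4 → ℝ) (hd : dt x y z ≠ 0) (j : Fin 6) :
    AnalyticOnNhd ℝ (fun t => √(LL x y z t j)) (Ioi 0) := by
  intro t ht
  have hE : 0 < LL x y z t j := LL_pos x y z hd ht j
  have h1 : ContDiffAt ℝ ω (fun t : ℝ => LL x y z t j) t := by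
    unfold LL
    fun_prop
  exact (h1.sqrt hE.ne').analyticAt

theorem al_pt_an (x y z : Fin 4 → ℝ) (hd : dt x y z ≠ 0) (j : Fin 6) :
    AnalyticOnNhd ℝ (fun t => al (len (pt x y z t)) j) (Ioi 0) := by
  intro t ht
  have h1 : AnalyticAt ℝ (fun t => len (pt x y z t)) t := by
    rw [analyticAt_pi_iff]
    intro i
    have h2 : (fun t => √(LL x y z t i)) =ᶠ[nhds t] fun t => len (pt x y z t) i := by
      filter_upwards [Ioi_mem_nhds (show (0 : ℝ) < t from ht)] with s hs
      exact (len_pt x y z hs i).symm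
    exact (LL_an x y z hd i t ht).congr h2
  have h3 : AnalyticAt ℝ (fun l : Fin 6 → ℝ => al l j) ((fun t => len (pt x y z t)) t) :=
    analyticAt_al (pt_mem_TT x y z hd ht) j
  exact AnalyticAt.comp (g := fun l : Fin 6 → ℝ => al l j) (f := fun t => len (pt x y z t)) h3 h1

end Pool.Agent.Helper22.PN
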