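import Pool.Agent.Helper22.PN.A06An
import Pool.Agent.Helper13.HT.ConeHull

/-!
# PN-A07: selection of one finite set of relations

Copy `ST/A17SelectInf.lean` (with `pt`, `Tl`, `pt_indep`, `pt_mem_TT`, `al_pt_an` instead of `tet`, `HT`, `tet_indep`,
`tet_mem_TT`, `al_an`); make the auxiliary lemmas private.
-/

open Real Set
open Pool.Agent.Helper1.Tet Pool.Agent.Helper13.HT
open Pool.Agent.Helper22.ST (PP ZZ cr dt ind)

namespace Pool.Agent.Helper22.PN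

private theorem A07_one (x y z : Fin 4 → ℝ) (hd : dt x y z ≠ 0) {h : ℝ} (hh : h ∈ Tl x y z) :
    ∃ U : Finset (Fin 6 → ℝ), (U : Set (Fin 6 → ℝ)) ⊆ {u | HalfNat u} ∧
      len (pt x y z h) ∈ Submodule.span ℝ (U : Set (Fin 6 → ℝ)) ∧
      ∀ u ∈ U, ∑ j, u j * al (len (pt x y z h)) j = π := by
  obtain ⟨h0, hT⟩ := hh
  have hp := pt_indep x y z hd h0
  have hc := tiles_cone _ hp hT
  rw [convexHull_eq_union_convexHull_finite_subsets] at hc
  obtain ⟨U, hU⟩ := mem_iUnion.1 hc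
  obtain ⟨hU1, hU2⟩ := mem_iUnion.1 hU
  refine ⟨U, fun u hu => (hU1 hu).1, ?_, fun u hu => (hU1 hu).2⟩
  obtain ⟨hl, -, -, -, hal, -⟩ := TT_facts (len_mem_TT _ hp)
  have hs0 : 0 < ∑ j, len (pt x y z h) j * al (len (pt x y z h)) j :=
    Finset.sum_pos (fun j _ => mul_pos (hl j) (hal j).1) ⟨0, Finset.mem_univ _⟩
  have h1 : (π / ∑ j, len (pt x y z h) j * al (len (pt x y z h)) j) • len (pt x y z h) ∈
      Submodule.span ℝ (U : Set (Fin 6 → ℝ)) :=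
    convexHull_min Submodule.subset_span (Submodule.span ℝ (U : Set (Fin 6 → ℝ))).convex hU2
  exact (Submodule.smul_mem_iff _ (div_pos pi_pos hs0).ne').1 h1

private theorem A07_eps (x y z : Fin 4 → ℝ) (hd : dt x y z ≠ 0) {a b : ℝ} (ha : 0 < a)
    (hab : a ≤ b) : ∃ ε : ℝ, 0 < ε ∧ ∀ h ∈ Icc a b, ∀ j, ε ≤ al (len (pt x y z h)) j := by
  have hj : ∀ j, ∃ ε : ℝ, 0 < ε ∧ ∀ h ∈ Icc a b, ε ≤ al (len (pt x y z h)) j := by
    intro j
    have hc : ContinuousOn (fun h => al (len (pt x y z h)) j) (Icc a b) := fun h hh =>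
      (al_pt_an x y z hd j h (lt_of_lt_of_le ha hh.1)).continuousAt.continuousWithinAt
    obtain ⟨h0, hh0, hmin⟩ := isCompact_Icc.exists_isMinOn (nonempty_Icc.2 hab) hc
    obtain ⟨-, -, -, -, hal, -⟩ := TT_facts (pt_mem_TT x y z hd (lt_of_lt_of_le ha hh0.1))
    exact ⟨_, (hal j).1, fun h hh => hmin hh⟩
  choose ε hε0 hε using hj
  refine ⟨Finset.univ.inf' Finset.univ_nonempty ε, ?_, fun h hh j =>
    (Finset.inf'_le _ (Finset.mem_univ j)).trans (hε j h hh)⟩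
  rw [Finset.lt_inf'_iff]
  exact fun j _ => hε0 j

private theorem A07_fin (K : ℝ) : {u : Fin 6 → ℝ | HalfNat u ∧ ∀ j, u j ≤ K}.Finite := by
  refine (Set.finite_range (fun k : Fin 6 → Fin (⌈2 * K⌉₊ + 1) =>
    fun i => ((k i : ℕ) : ℝ) / 2)).subset ?_
  rintro u ⟨hu, hK⟩
  choose k hk using hu
  have hb : ∀ i, k i < ⌈2 * K⌉₊ + 1 := by
    intro i
    have h1 : (k i : ℝ) ≤ 2 * K := by
      have := hK i
      rw [hk i] at this
      linarith
    have h2 : (k i : ℝ) ≤ (⌈2 * K⌉₊ : ℝ) := h1.trans (Nat.le_ceil _)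
    have h3 : k i ≤ ⌈2 * K⌉₊ := by exact_mod_cast h2
    omega
  exact ⟨fun i => ⟨k i, hb i⟩, funext fun i => (hk i).symm⟩

theorem pselect_inf (x y z : Fin 4 → ℝ) (hd : dt x y z ≠ 0) {a b : ℝ} (ha : 0 < a)
    (hu : (Tl x y z ∩ Icc a b).Infinite) :
    ∃ (U : Finset (Fin 6 → ℝ)) (H : Set ℝ), H.Infinite ∧ H ⊆ Icc a b ∧ ∀ h ∈ H,
      len (pt x y z h) ∈ Submodule.span ℝ (U : Set (Fin 6 → ℝ)) ∧
      ∀ u ∈ U, ∑ j, u j * al (len (pt x y z h)) j = π := by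
  obtain ⟨h0, hh0⟩ := hu.nonempty
  have hab : a ≤ b := hh0.2.1.trans hh0.2.2
  obtain ⟨ε, hε0, hε⟩ := A07_eps x y z hd ha hab
  have hV := A07_fin (π / ε)
  by_contra hcon
  apply hu
  have hc : ∀ U : Finset (Fin 6 → ℝ), {h : ℝ | h ∈ Icc a b ∧
      len (pt x y z h) ∈ Submodule.span ℝ (U : Set (Fin 6 → ℝ)) ∧
      ∀ u ∈ U, ∑ j, u j * al (len (pt x y z h)) j = π}.Finite := by
    intro U
    by_contra hU
    exact hcon ⟨U, _, hU, fun h hh => hh.1, fun h hh => hh.2⟩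
  refine ((hV.toFinset.powerset).finite_toSet.biUnion (t := fun (U : Finset (Fin 6 → ℝ)) =>
    {h : ℝ | h ∈ Icc a b ∧
      len (pt x y z h) ∈ Submodule.span ℝ (U : Set (Fin 6 → ℝ)) ∧
      ∀ u ∈ U, ∑ j, u j * al (len (pt x y z h)) j = π}) (fun U _ => hc U)).subset ?_
  intro h hh
  obtain ⟨U, hU1, hU2, hU3⟩ := A07_one x y z hd hh.1
  refine mem_iUnion₂.2 ⟨U, ?_, hh.2, hU2, hU3⟩
  rw [Finset.mem_coe, Finset.mem_powerset]
  intro u hu'
  rw [Set.Finite.mem_toFinset]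
  refine ⟨hU1 hu', fun j => ?_⟩
  have hun : ∀ i, 0 ≤ u i := by
    intro i
    obtain ⟨k, hk⟩ := hU1 hu' i
    rw [hk]
    positivity
  have hpos : ∀ i, 0 ≤ u i * al (len (pt x y z h)) i := fun i =>
    mul_nonneg (hun i) (hε0.le.trans (hε h hh.2 i))
  have h1 : u j * al (len (pt x y z h)) j ≤ π := by
    rw [← hU3 u hu']
    exact Finset.single_le_sum (f := fun i => u i * al (len (pt x y z h)) i)
      (fun i _ => hpos i) (Finset.mem_univ j)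
  rw [le_div_iff₀ hε0]
  exact (mul_le_mul_of_nonneg_left (hε h hh.2 j) (hun j)).trans h1

end Pool.Agent.Helper22.PN
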