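import Pool.Agent.Helper22.PN.A05Deriv
import Pool.Agent.Helper22.PN.A07Select
import Pool.Agent.Helper22.ST.A18ZeroInf

/-!
# PN-A08: the orthogonality relation (compare `ST/A19OrthInf.lean`)
-/

open Real Set
open Pool.Agent.Helper1.Tet
open Pool.Agent.Helper22.ST (PP ZZ cr dt ind)

namespace Pool.Agent.Helper22.PN

theorem Hy.ort {x y z : Fin 4 → ℝ} (h : Hy x y z) : Ort x y z := by
  obtain ⟨hd, a, b, ha, hu⟩ := h
  obtain ⟨U, H, hH, hHs, hU⟩ := pselect_inf x y z hd ha hu
  have h1 : ∀ u ∈ U, ∀ h : ℝ, 0 < h → ∑ j, u j * al (len (pt x y z h)) j - π = 0 := by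
    intro u hu'
    have hf : AnalyticOnNhd ℝ (fun h => ∑ j, u j * al (len (pt x y z h)) j - π) (Ioi 0) := by
      intro h hh
      refine AnalyticAt.sub ?_ analyticAt_const
      exact Finset.analyticAt_fun_sum _
        (fun j _ => analyticAt_const.mul (al_pt_an x y z hd j h hh))
    exact ST.zero_of_inf hf ha hH hHs (fun h hh => sub_eq_zero.2 ((hU h hh).2 u hu'))
  have h2 : ∀ u ∈ U, ∀ h : ℝ, 0 < h → ∑ j, u j * dl x y z h j = 0 := by
    intro u hu' h hh
    have hd1 : HasDerivAt (fun h => ∑ j, u j * al (len (pt x y z h)) j - π)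
        (∑ j, u j * dl x y z h j) h := by
      refine HasDerivAt.sub_const _ ?_
      exact HasDerivAt.fun_sum (fun j _ => (al_pt_deriv x y z hd hh j).const_mul (u j))
    have hd2 : HasDerivAt (fun h => ∑ j, u j * al (len (pt x y z h)) j - π) 0 h := by
      refine (hasDerivAt_const h (0 : ℝ)).congr_of_eventuallyEq ?_
      filter_upwards [Ioi_mem_nhds hh] with t ht
      exact h1 u hu' t ht
    exact hd1.unique hd2
  have h3 : ∀ v ∈ Submodule.span ℝ (U : Set (Fin 6 → ℝ)), ∀ h : ℝ, 0 < h →
      ∑ j, v j * dl x y z h j = 0 := by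
    intro v hv h hh
    induction hv using Submodule.span_induction with
    | mem w hw => exact h2 w hw h hh
    | zero => simp
    | add a b _ _ ha hb =>
      simp only [Pi.add_apply, add_mul, Finset.sum_add_distrib, ha, hb, add_zero]
    | smul c a _ ha =>
      simp only [Pi.smul_apply, smul_eq_mul, mul_assoc]
      rw [← Finset.mul_sum, ha, mul_zero]
  intro g h hg hh
  have hf : AnalyticOnNhd ℝ (fun g => ∑ j, √(LL x y z g j) * dl x y z h j) (Ioi 0) := by
    intro t ht
    exact Finset.analyticAt_fun_sum _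
      (fun j _ => (LL_an x y z hd j t ht).mul analyticAt_const)
  refine ST.zero_of_inf hf ha hH hHs (fun t ht => ?_) g hg
  have h4 := h3 _ (hU t ht).1 h hh
  have ht0 : 0 < t := lt_of_lt_of_le ha (hHs ht).1
  simpa only [len_pt x y z ht0] using h4

/-- the sum of lengths of one tetrahedron times the angles of another does not depend on the latter -/
theorem Hy.const {x y z : Fin 4 → ℝ} (h : Hy x y z) {s t : ℝ} (hs : 0 < s) (ht : 0 < t) :
    ∑ j, √(LL x y z s j) * (π - al (len (pt x y z t)) j) = HH (len (pt x y z s)) := by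
  have hd := h.1
  have hort := h.ort
  have key : ∀ u : ℝ, 0 < u → HasDerivAt
      (fun u => ∑ j, √(LL x y z s j) * (π - al (len (pt x y z u)) j)) 0 u := by
    intro u hu
    have h1 : HasDerivAt (fun u => ∑ j, √(LL x y z s j) * (π - al (len (pt x y z u)) j))
        (∑ j, √(LL x y z s j) * (-dl x y z u j)) u :=
      HasDerivAt.fun_sum (fun j _ => ((al_pt_deriv x y z hd hu j).const_sub π).const_mul _)
    have h2 : ∑ j, √(LL x y z s j) * (-dl x y z u j) = 0 := by
      have := hort s u hs hu
      simp only [mul_neg, Finset.sum_neg_distrib, this, neg_zero]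
    rwa [h2] at h1
  obtain ⟨F, hF⟩ : ∃ F : ℝ → ℝ, F = fun u => ∑ j, √(LL x y z s j) *
      (π - al (len (pt x y z u)) j) := ⟨_, rfl⟩
  rw [← hF] at key
  have h1 : F t = F s := by
    refine isOpen_Ioi.is_const_of_deriv_eq_zero isPreconnected_Ioi ?_ ?_
      (show t ∈ Ioi (0 : ℝ) from ht) (show s ∈ Ioi (0 : ℝ) from hs)
    · intro u hu
      exact (key u hu).differentiableAt.differentiableWithinAt
    · intro u hu
      exact (key u hu).deriv
  have h2 : ∑ j, √(LL x y z s j) * (π - al (len (pt x y z t)) j) =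
      ∑ j, √(LL x y z s j) * (π - al (len (pt x y z s)) j) := by
    simpa only [hF] using h1
  rw [h2, HH]
  exact Finset.sum_congr rfl (fun j _ => by rw [len_pt x y z hs])

end Pool.Agent.Helper22.PN
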