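import Pool.Agent.Helper22.PN.Defs
import Pool.Agent.Helper22.ST.A10Sqrt

/-!
# PN-A09: linear independence of the functions `√(s A + C)` up to proportionality

Put `s = r²`.  For the `j` with `C j ≠ 0`: `√(r² A j + C j) = √(C j) √(1 + r² (A j / C j))`; for the `j` with
`C j = 0` (so `A j > 0`): `√(r² A j) = r √(A j)`.  Grouping gives `∑_{q ∈ S} c_q √(1 + r² q) + c_∞ r = 0` for all
`r > 0`, `S` the finite set of the ratios `A j / C j`.  The first sum is an even differentiable function of `r`
(defined for all real `r`), with derivative `0` at `r = 0`, so dividing by `r` and letting `r → 0` (the sum of the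
`c_q` is `0` by continuity) gives `c_∞ = 0`; then `ST.sqrt_indep` (ST/A10Sqrt) gives `c_q = 0`.  Two indices `e, j` are
in the same class (`A e * C j = A j * C e`) iff both `C` vanish or both do not and the ratios agree.  Finally
`√(A j + C j) = √(C j) √(1 + q)` on the class with ratio `q`, resp. `√(A j)`.
-/

open Real Set
open Pool.Agent.Helper1.Tet
open Pool.Agent.Helper22.ST (PP ZZ cr dt ind)

namespace Pool.Agent.Helper22.PN

private theorem A09_zero (f : ℝ → ℝ) (hf : Continuous f) (h : ∀ s : ℝ, 0 < s → f s = 0) :
    f 0 = 0 := by
  have h1 : Filter.Tendsto f (nhdsWithin 0 (Ioi 0)) (nhds (f 0)) :=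
    (hf.tendsto 0).mono_left nhdsWithin_le_nhds
  have h2 : Filter.Tendsto f (nhdsWithin 0 (Ioi 0)) (nhds 0) := by
    refine Filter.Tendsto.congr' ?_ tendsto_const_nhds
    filter_upwards [self_mem_nhdsWithin] with s hs
    exact (h s hs).symm
  exact tendsto_nhds_unique h1 h2

private theorem A09_ind (p : Prop) [Decidable p] (a : ℝ) : ind p a = if p then a else 0 := by
  by_cases hp : p
  · rw [ST.ind_pos hp, if_pos hp]
  · rw [ST.ind_neg hp, if_neg hp]

theorem sqrt_class (A C : Fin 6 → ℝ) (hA : ∀ j, 0 ≤ A j) (hC : ∀ j, 0 ≤ C j)
    (hp : ∀ j, 0 < A j + C j) (c : Fin 6 → ℝ)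
    (h : ∀ s : ℝ, 0 < s → ∑ j, √(s * A j + C j) * c j = 0) (e : Fin 6) :
    ∑ j, ind (A e * C j = A j * C e) (√(A j + C j) * c j) = 0 := by
  classical
  -- the sum over the whole index set at `s = 0`
  have h0 : ∑ j, √(C j) * c j = 0 := by
    have := A09_zero (fun s => ∑ j, √(s * A j + C j) * c j) (by fun_prop) h
    simpa using this
  -- the class with `C j = 0`
  have hK : ∑ j, (if C j = 0 then √(A j) * c j else 0) = 0 := by
    have hc : ∀ j, Continuous (fun r : ℝ => if C j = 0 then √(A j) * c j
        else c j * (r * A j / (√(r ^ 2 * A j + C j) + √(C j)))) := by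
      intro j
      by_cases hj : C j = 0
      · simp only [hj, if_true]
        exact continuous_const
      · simp only [hj, if_false]
        have hpos : 0 < √(C j) := Real.sqrt_pos.2 (lt_of_le_of_ne (hC j) (Ne.symm hj))
        refine continuous_const.mul (Continuous.div (by fun_prop) (by fun_prop) ?_)
        intro r
        have := Real.sqrt_nonneg (r ^ 2 * A j + C j)
        positivity
    have h1 := A09_zero (fun r => ∑ j, if C j = 0 then √(A j) * c j
        else c j * (r * A j / (√(r ^ 2 * A j + C j) + √(C j))))
      (continuous_finset_sum _ (fun j _ => hc j)) (by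
        intro r hr
        have h2 : r * ∑ j, (if C j = 0 then √(A j) * c j
            else c j * (r * A j / (√(r ^ 2 * A j + C j) + √(C j)))) = 0 := by
          have h3 : ∀ j, r * (if C j = 0 then √(A j) * c j
              else c j * (r * A j / (√(r ^ 2 * A j + C j) + √(C j))))
              = √(r ^ 2 * A j + C j) * c j - √(C j) * c j := by
            intro j
            by_cases hj : C j = 0
            · simp only [hj, if_true, Real.sqrt_zero, add_zero, zero_mul, sub_zero]
              rw [Real.sqrt_mul (by positivity), Real.sqrt_sq hr.le]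
              ring
            · simp only [hj, if_false]
              have hpos : 0 < √(C j) := Real.sqrt_pos.2 (lt_of_le_of_ne (hC j) (Ne.symm hj))
              have hn := Real.sqrt_nonneg (r ^ 2 * A j + C j)
              have hne : √(r ^ 2 * A j + C j) + √(C j) ≠ 0 := by positivity
              have e1 : √(r ^ 2 * A j + C j) ^ 2 = r ^ 2 * A j + C j :=
                Real.sq_sqrt (by have := mul_nonneg (sq_nonneg r) (hA j); have := hC j; linarith)
              have e2 : √(C j) ^ 2 = C j := Real.sq_sqrt (hC j)
              field_simp
              linear_combination (c j) * (e2 - e1)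
          rw [Finset.mul_sum, Finset.sum_congr rfl (fun j _ => h3 j), Finset.sum_sub_distrib, h0,
            h (r ^ 2) (by positivity), sub_zero]
        exact (mul_eq_zero.1 h2).resolve_left hr.ne')
    simpa using h1
  -- the classes with `C j ≠ 0`
  have hS : ∀ q ∈ Finset.univ.image (fun j => A j / C j),
      ∑ j, (if C j ≠ 0 ∧ A j / C j = q then √(C j) * c j else 0) = 0 := by
    refine ST.sqrt_indep (Finset.univ.image (fun j => A j / C j)) ?_
      (fun q => ∑ j, (if C j ≠ 0 ∧ A j / C j = q then √(C j) * c j else 0)) ?_
    · intro q hq
      obtain ⟨j, _, rfl⟩ := Finset.mem_image.1 hq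
      exact div_nonneg (hA j) (hC j)
    · intro x hx
      have h1 : ∑ q ∈ Finset.univ.image (fun j => A j / C j),
          (∑ j, (if C j ≠ 0 ∧ A j / C j = q then √(C j) * c j else 0)) * √(1 + x ^ 2 * q)
          = ∑ j, (if C j = 0 then 0 else √(x ^ 2 * A j + C j) * c j) := by
        simp only [Finset.sum_mul]
        rw [Finset.sum_comm]
        apply Finset.sum_congr rfl
        intro j _
        by_cases hj : C j = 0
        · simp [hj]
        · have hpos : 0 < C j := lt_of_le_of_ne (hC j) (Ne.symm hj)
          rw [if_neg hj, Finset.sum_eq_single_of_mem (A j / C j)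
            (Finset.mem_image_of_mem (fun j => A j / C j) (Finset.mem_univ j))]
          · rw [if_pos ⟨hj, rfl⟩]
            have e1 : x ^ 2 * A j + C j = C j * (1 + x ^ 2 * (A j / C j)) := by
              field_simp
              ring
            rw [e1, Real.sqrt_mul hpos.le]
            ring
          · intro q _ hq
            rw [if_neg (fun hh => hq hh.2.symm), zero_mul]
      rw [h1]
      have h2 : ∀ j, (if C j = 0 then 0 else √(x ^ 2 * A j + C j) * c j)
          = √(x ^ 2 * A j + C j) * c j - x * (if C j = 0 then √(A j) * c j else 0) := by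
        intro j
        by_cases hj : C j = 0
        · simp only [hj, if_true, add_zero]
          rw [Real.sqrt_mul (by positivity), Real.sqrt_sq hx.le]
          ring
        · simp only [hj, if_false, mul_zero, sub_zero]
      rw [Finset.sum_congr rfl (fun j _ => h2 j), Finset.sum_sub_distrib, ← Finset.mul_sum, hK,
        h (x ^ 2) (by positivity), mul_zero, sub_zero]
  simp only [A09_ind]
  by_cases he : C e = 0
  · have hAe : A e ≠ 0 := by
      have := hp e
      rw [he, add_zero] at this
      exact this.ne'
    refine Eq.trans (Finset.sum_congr rfl ?_) hK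
    intro j _
    by_cases hj : C j = 0
    · rw [if_pos (by rw [hj, he, mul_zero, mul_zero]), if_pos hj, hj, add_zero]
    · rw [if_neg (by rw [he, mul_zero]; exact mul_ne_zero hAe hj), if_neg hj]
  · have hq := hS (A e / C e) (Finset.mem_image_of_mem (fun j => A j / C j) (Finset.mem_univ e))
    have h1 : ∑ j, (if A e * C j = A j * C e then √(A j + C j) * c j else 0)
        = √(1 + A e / C e) *
          ∑ j, (if C j ≠ 0 ∧ A j / C j = A e / C e then √(C j) * c j else 0) := by
      rw [Finset.mul_sum]
      apply Finset.sum_congr rfl
      intro j _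
      by_cases hj : C j = 0
      · have hAj : A j ≠ 0 := by
          have := hp j
          rw [hj, add_zero] at this
          exact this.ne'
        rw [if_neg (by rw [hj, mul_zero]; exact (mul_ne_zero hAj he).symm),
          if_neg (fun hh => hh.1 hj), mul_zero]
      · have hpos : 0 < C j := lt_of_le_of_ne (hC j) (Ne.symm hj)
        by_cases hc : A e * C j = A j * C e
        · have hr : A j / C j = A e / C e := by
            rw [div_eq_div_iff hj he]
            exact hc.symm
          rw [if_pos hc, if_pos ⟨hj, hr⟩, ← hr]
          have e1 : A j + C j = C j * (1 + A j / C j) := by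
            field_simp
            ring
          rw [e1, Real.sqrt_mul hpos.le]
          ring
        · rw [if_neg hc, if_neg, mul_zero]
          rintro ⟨_, hr⟩
          rw [div_eq_div_iff hj he] at hr
          exact hc hr.symm
    rw [h1, hq, mul_zero]

end Pool.Agent.Helper22.PN
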