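import Pool.Agent.Helper22.PN.A09Class
import Pool.Agent.Helper22.PN.A04Sq

/-!
# PN-A10: the rational relations

Fix `t > 0` and `e`.  `sqrt_class` with `A = PP x y`, `C = PP y z`, `c j = dl x y z t j` gives
`∑_{j ~ e} √(A j + C j) * dl x y z t j = 0`.  For `j ~ e` the quotient `√(A j + C j) / √(LL x y z t j)` does not depend
on `j` (for proportional nonnegative pairs `(A, C)`), so multiplying with the common positive factor
`2 √(t (t + 1)) |dt| √(LL x y z t e) / √(A e + C e)` gives the relation.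
-/

open Real Set
open Pool.Agent.Helper1.Tet
open Pool.Agent.Helper22.ST (PP ZZ cr dt ind)

namespace Pool.Agent.Helper22.PN

private theorem A10_ind_mul (p : Prop) (k a b : ℝ) (h : p → k * a = b) : k * ind p a = ind p b := by
  by_cases hp : p
  · rw [ST.ind_pos hp, ST.ind_pos hp, h hp]
  · rw [ST.ind_neg hp, ST.ind_neg hp, mul_zero]

theorem ratR_of_ort {x y z : Fin 4 → ℝ} (hd : dt x y z ≠ 0) (h : Ort x y z) : RatR x y z := by
  intro e t ht
  have hA : ∀ j, 0 ≤ PP x y j := fun j => by unfold PP; positivity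
  have hC : ∀ j, 0 ≤ PP y z j := fun j => by unfold PP; positivity
  have hL : ∀ j, 0 < LL x y z t j := fun j => LL_pos x y z hd ht j
  have hp : ∀ j, 0 < PP x y j + PP y z j := fun j => by
    have h1 := LL_pos x y z hd (t := 1) one_pos j
    unfold LL at h1
    linarith
  have key := sqrt_class (PP x y) (PP y z) hA hC hp (fun j => dl x y z t j)
    (fun s hs => h s t hs ht) e
  have hK : (2 * (√(t * (t + 1)) * |dt x y z|) * √(LL x y z t e) / √(PP x y e + PP y z e)) *
      ∑ j, ind (PP x y e * PP y z j = PP x y j * PP y z e)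
        (√(PP x y j + PP y z j) * dl x y z t j) = 0 := by rw [key, mul_zero]
  rw [Finset.mul_sum] at hK
  rw [← hK]
  refine Finset.sum_congr rfl (fun j _ => ?_)
  refine (A10_ind_mul _ _ _ _ (fun hj => ?_)).symm
  have hj' : PP x y e * PP y z j = PP x y j * PP y z e := hj
  have h1 : √(PP x y j + PP y z j) * √(LL x y z t e) = √(PP x y e + PP y z e) * √(LL x y z t j) := by
    rw [← Real.sqrt_mul (hp j).le, ← Real.sqrt_mul (hp e).le]
    congr 1
    unfold LL
    linear_combination (t - 1) * hj'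
  have s1 : √(PP x y e + PP y z e) ≠ 0 := (Real.sqrt_pos.2 (hp e)).ne'
  have s2 : √(LL x y z t j) ≠ 0 := (Real.sqrt_pos.2 (hL j)).ne'
  have s3 : √(t * (t + 1)) ≠ 0 := (Real.sqrt_pos.2 (by positivity)).ne'
  have s4 : |dt x y z| ≠ 0 := abs_ne_zero.2 hd
  have f1 : ff x y z t (ec j) ≠ 0 := (ff_pos x y z hd ht _).ne'
  have f2 : ff x y z t (ed j) ≠ 0 := (ff_pos x y z hd ht _).ne'
  have h2 : (2 * (√(t * (t + 1)) * |dt x y z|) * √(LL x y z t e) / √(PP x y e + PP y z e)) *
      (√(PP x y j + PP y z j) * dl x y z t j) =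
      2 * (√(t * (t + 1)) * |dt x y z| * √(LL x y z t j)) * dl x y z t j := by
    rw [div_mul_eq_mul_div, div_eq_iff s1]
    linear_combination 2 * (√(t * (t + 1)) * |dt x y z|) * dl x y z t j * h1
  rw [h2]
  have h3 : √(t * (t + 1)) * |dt x y z| * √(LL x y z t j) ≠ 0 := mul_ne_zero (mul_ne_zero s3 s4) s2
  unfold dl
  rw [mul_assoc, mul_div_cancel₀ _ h3]
  field_simp

end Pool.Agent.Helper22.PN
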