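import Pool.Agent.Helper22.PN.A05Deriv

/-!
# PN-A11: residues: the star relations

`simple_root`: `ff` is a polynomial of degree at most 2 in `t` with `ff(-1) = -N2²`, `ff(0) = N1²` and leading
coefficient `N3²`.  A zero `t ≠ -1` of `ff` with `ff' = 0` would be a double zero: then `N1² = N3² t²` and
`-N2² = N3² (t + 1)²`, so `N2 = 0`, `N3 = 0` and `N1 = 0`, impossible (`normals_ne`, or directly: `ff > 0` for `t > 0`,
`ff_pos`).
`sta_of_ratR`: fix `e`.  (1) The relation `∑_{j ~ e} (2 gg' - gg ff'(ec) / ff(ec) - gg ff'(ed) / ff(ed)) = 0` holds for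
all `t` with `ff t v ≠ 0` for all `v`: multiplied by `∏ v, ff t v` it becomes a polynomial identity which holds for
`t > 0` (write it as a polynomial or use that an analytic function on `ℝ` which vanishes for `t > 0` is zero).
(2) Let `r ≠ -1`.  Multiply by `(t - r)` and let `t → r`, `t ≠ r` (near `r`, `t ≠ r`, all `ff t v ≠ 0`, as `ff · v` is
not the zero polynomial): `(t - r) ff'(t) / ff(t) → 1` if `ff r v = 0` (simple zero: `ff(t) / (t - r) → ff'(r) ≠ 0`,
`hasDerivAt_iff_tendsto_slope`), and `→ 0` otherwise.  The limit is `-∑_{j ~ e} nn r j * gg r j`.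
-/

open Real Set
open Pool.Agent.Helper1.Tet
open Pool.Agent.Helper22.ST (PP ZZ cr dt ind)

namespace Pool.Agent.Helper22.PN

theorem simple_root (x y z : Fin 4 → ℝ) (hd : dt x y z ≠ 0) {t : ℝ} (ht : t ≠ -1) (v : Fin 4)
    (h : ff x y z t v = 0) : ff' x y z t v ≠ 0 := by
  intro h'
  have hp := ff_pos x y z hd one_pos v
  unfold ff at h hp
  unfold ff' at h'
  have h1 : (t + 1) ^ 2 * cr x y v ^ 2 + cr z x v ^ 2 = 0 := by linear_combination (1 + t) * h' - h
  have h2 : cr y z v ^ 2 = t ^ 2 * cr x y v ^ 2 := by linear_combination h - t * h'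
  have h3 : 0 < (t + 1) ^ 2 := by
    have : t + 1 ≠ 0 := fun h => ht (by linarith)
    positivity
  have h4 : cr x y v ^ 2 = 0 := by nlinarith [sq_nonneg (cr x y v), sq_nonneg (cr z x v)]
  have h5 : cr z x v ^ 2 = 0 := by rw [h4] at h1; linarith
  rw [h4] at h2
  rw [h2, h4, h5] at hp
  simp at hp

open Polynomial in
private theorem A11_all {x y z : Fin 4 → ℝ} (h : RatR x y z) (hd : dt x y z ≠ 0) (e : Fin 6)
    (t : ℝ) (ht : ∀ v, ff x y z t v ≠ 0) :
    ∑ j, ind (SC x y z e j)
      (2 * gg' x y z t j - gg x y z t j * ff' x y z t (ec j) / ff x y z t (ec j) -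
        gg x y z t j * ff' x y z t (ed j) / ff x y z t (ed j)) = 0 := by
  classical
  let F : Fin 4 → ℝ[X] := fun v => (X + 1) * C (cr y z v ^ 2) + X * C (cr z x v ^ 2) +
    X * (X + 1) * C (cr x y v ^ 2)
  let F' : Fin 4 → ℝ[X] := fun v => C (cr y z v ^ 2) + C (cr z x v ^ 2) +
    (2 * X + 1) * C (cr x y v ^ 2)
  let g : Fin 6 → ℝ[X] := fun j => (X + 1) * C (cr y z (ec j) * cr y z (ed j)) +
    X * C (cr z x (ec j) * cr z x (ed j)) + X * (X + 1) * C (cr x y (ec j) * cr x y (ed j))
  let g' : Fin 6 → ℝ[X] := fun j => C (cr y z (ec j) * cr y z (ed j)) +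
    C (cr z x (ec j) * cr z x (ed j)) + (2 * X + 1) * C (cr x y (ec j) * cr x y (ed j))
  have hF : ∀ v s, (F v).eval s = ff x y z s v := by intro v s; simp [F, ff]
  have hF' : ∀ v s, (F' v).eval s = ff' x y z s v := by intro v s; simp [F', ff']
  have hg : ∀ v s, (g v).eval s = gg x y z s v := by intro v s; simp [g, gg]
  have hg' : ∀ v s, (g' v).eval s = gg' x y z s v := by intro v s; simp [g', gg']
  let P : ℝ[X] := ∏ v, F v
  let Pe : Fin 4 → ℝ[X] := fun u => ∏ v ∈ Finset.univ.erase u, F v
  have hP : ∀ u s, P.eval s = ff x y z s u * (Pe u).eval s := by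
    intro u s
    have : P = F u * Pe u := (Finset.mul_prod_erase Finset.univ F (Finset.mem_univ u)).symm
    rw [this, eval_mul, hF]
  let Q : ℝ[X] := ∑ j, C (ind (SC x y z e j) 1) * (2 * g' j * P - g j * F' (ec j) * Pe (ec j) -
    g j * F' (ed j) * Pe (ed j))
  have hQ : ∀ s, (∀ v, ff x y z s v ≠ 0) → Q.eval s = P.eval s * ∑ j, ind (SC x y z e j)
      (2 * gg' x y z s j - gg x y z s j * ff' x y z s (ec j) / ff x y z s (ec j) -
        gg x y z s j * ff' x y z s (ed j) / ff x y z s (ed j)) := by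
    intro s hs
    rw [Finset.mul_sum]
    simp only [Q, eval_finsetSum, eval_mul, eval_C, eval_sub, hg, hg', hF', eval_ofNat]
    refine Finset.sum_congr rfl fun j _ => ?_
    by_cases hc : SC x y z e j
    · rw [ST.ind_pos hc, ST.ind_pos hc]
      have h1 := hP (ec j) s
      have h2 := hP (ed j) s
      have e1 : (Pe (ec j)).eval s = P.eval s / ff x y z s (ec j) := by
        rw [h1]; field_simp [hs (ec j)]
      have e2 : (Pe (ed j)).eval s = P.eval s / ff x y z s (ed j) := by
        rw [h2]; field_simp [hs (ed j)]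
      rw [e1, e2]
      have := hs (ec j)
      have := hs (ed j)
      field_simp
    · rw [ST.ind_neg hc, ST.ind_neg hc]; ring
  have hQ0 : Q = 0 := by
    refine Polynomial.eq_zero_of_infinite_isRoot Q ((Ioi_infinite (0 : ℝ)).mono ?_)
    intro s hs
    have hs' : (0 : ℝ) < s := hs
    show Q.eval s = 0
    rw [hQ s (fun v => (ff_pos x y z hd hs' v).ne'), h e s hs', mul_zero]
  have h1 := hQ t ht
  rw [hQ0, eval_zero] at h1
  have hPt : P.eval t ≠ 0 := by
    have : P.eval t = ∏ v, ff x y z t v := by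
      simp only [P, eval_prod, hF]
    rw [this]
    exact Finset.prod_ne_zero_iff.2 fun v _ => ht v
  exact (mul_eq_zero.1 h1.symm).resolve_left hPt

open Filter Topology in
private theorem A11_lim (x y z : Fin 4 → ℝ) (hd : dt x y z ≠ 0) {r : ℝ} (hr : r ≠ -1) (v : Fin 4) :
    Tendsto (fun t => (t - r) * (ff' x y z t v / ff x y z t v)) (𝓝[≠] r)
      (𝓝 (ind (ff x y z r v = 0) 1)) := by
  have hc' : Continuous fun t => ff' x y z t v := by unfold ff'; fun_prop
  have hc : Continuous fun t => ff x y z t v := by unfold ff; fun_prop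
  by_cases h0 : ff x y z r v = 0
  · rw [ST.ind_pos h0]
    have hs := simple_root x y z hd hr v h0
    have hD := hasDerivAt_iff_tendsto_slope.1 (ff_deriv x y z r v)
    have h1 : Tendsto (fun t => (slope (fun t => ff x y z t v) r t)⁻¹ * ff' x y z t v) (𝓝[≠] r)
        (𝓝 ((ff' x y z r v)⁻¹ * ff' x y z r v)) :=
      (hD.inv₀ hs).mul ((hc'.tendsto r).mono_left nhdsWithin_le_nhds)
    rw [inv_mul_cancel₀ hs] at h1
    refine h1.congr fun t => ?_
    rw [slope_def_field, h0, sub_zero, inv_div]
    ring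
  · rw [ST.ind_neg h0]
    have h1 : Tendsto (fun t => (t - r) * (ff' x y z t v / ff x y z t v)) (𝓝 r)
        (𝓝 ((r - r) * (ff' x y z r v / ff x y z r v))) := by
      refine Tendsto.mul ?_ ?_
      · exact (continuous_id.sub continuous_const).tendsto r
      · exact (hc'.tendsto r).div (hc.tendsto r) h0
    rw [sub_self, zero_mul] at h1
    exact h1.mono_left nhdsWithin_le_nhds

open Filter Topology in
private theorem A11_ne (x y z : Fin 4 → ℝ) (hd : dt x y z ≠ 0) {r : ℝ} (hr : r ≠ -1) (v : Fin 4) :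
    ∀ᶠ t in 𝓝[≠] r, ff x y z t v ≠ 0 := by
  have hc : Continuous fun t => ff x y z t v := by unfold ff; fun_prop
  by_cases h0 : ff x y z r v = 0
  · exact (ff_deriv x y z r v).eventually_ne (simple_root x y z hd hr v h0)
  · exact (hc.continuousAt.eventually_ne h0).filter_mono nhdsWithin_le_nhds

open Filter Topology in
theorem sta_of_ratR {x y z : Fin 4 → ℝ} (hd : dt x y z ≠ 0) (h : RatR x y z) : Sta x y z := by
  intro e r hr
  have hl : Tendsto (fun t => ∑ j, ind (SC x y z e j)
      ((t - r) * (2 * gg' x y z t j) - gg x y z t j * ((t - r) * (ff' x y z t (ec j) / ff x y z t (ec j))) -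
        gg x y z t j * ((t - r) * (ff' x y z t (ed j) / ff x y z t (ed j))))) (𝓝[≠] r)
      (𝓝 (∑ j, ind (SC x y z e j) (-(nn x y z r j * gg x y z r j)))) := by
    refine tendsto_finsetSum _ fun j _ => ?_
    by_cases hc : SC x y z e j
    · simp only [ST.ind_pos hc]
      have hg : Continuous fun t => gg x y z t j := by unfold gg; fun_prop
      have hg' : Continuous fun t => (t - r) * (2 * gg' x y z t j) := by unfold gg'; fun_prop
      have h1 := ((hg'.tendsto r).mono_left (nhdsWithin_le_nhds (s := {r}ᶜ)))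
      have h2 := ((hg.tendsto r).mono_left (nhdsWithin_le_nhds (s := {r}ᶜ))).mul
        (A11_lim x y z hd hr (ec j))
      have h3 := ((hg.tendsto r).mono_left (nhdsWithin_le_nhds (s := {r}ᶜ))).mul
        (A11_lim x y z hd hr (ed j))
      have h4 := (h1.sub h2).sub h3
      have e1 : (r - r) * (2 * gg' x y z r j) - gg x y z r j * ind (ff x y z r (ec j) = 0) 1 -
          gg x y z r j * ind (ff x y z r (ed j) = 0) 1 = -(nn x y z r j * gg x y z r j) := by
        unfold nn; ring
      rw [e1] at h4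
      exact h4
    · simp only [ST.ind_neg hc]
      exact tendsto_const_nhds
  have hz : ∀ᶠ t in 𝓝[≠] r, (∑ j, ind (SC x y z e j)
      ((t - r) * (2 * gg' x y z t j) - gg x y z t j * ((t - r) * (ff' x y z t (ec j) / ff x y z t (ec j))) -
        gg x y z t j * ((t - r) * (ff' x y z t (ed j) / ff x y z t (ed j))))) = 0 := by
    filter_upwards [A11_ne x y z hd hr 0, A11_ne x y z hd hr 1, A11_ne x y z hd hr 2,
      A11_ne x y z hd hr 3] with t h0 h1 h2 h3
    have hall : ∀ v, ff x y z t v ≠ 0 := by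
      intro v
      fin_cases v
      · exact h0
      · exact h1
      · exact h2
      · exact h3
    have := A11_all h hd e t hall
    have h5 : (∑ j, ind (SC x y z e j)
      ((t - r) * (2 * gg' x y z t j) - gg x y z t j * ((t - r) * (ff' x y z t (ec j) / ff x y z t (ec j))) -
        gg x y z t j * ((t - r) * (ff' x y z t (ed j) / ff x y z t (ed j))))) =
        (t - r) * ∑ j, ind (SC x y z e j)
      (2 * gg' x y z t j - gg x y z t j * ff' x y z t (ec j) / ff x y z t (ec j) -
        gg x y z t j * ff' x y z t (ed j) / ff x y z t (ed j)) := by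
      rw [Finset.mul_sum]
      refine Finset.sum_congr rfl fun j _ => ?_
      rw [← ST.ind_mul]
      congr 1
      ring
    rw [h5, this, mul_zero]
  have h6 : Tendsto (fun _ : ℝ => (0 : ℝ)) (𝓝[≠] r)
      (𝓝 (∑ j, ind (SC x y z e j) (-(nn x y z r j * gg x y z r j)))) :=
    hl.congr' hz
  have h7 := tendsto_nhds_unique h6 (tendsto_const_nhds (f := 𝓝[≠] r))
  have h8 : ∑ j, ind (SC x y z e j) (-(nn x y z r j * gg x y z r j)) =
      -∑ j, ind (SC x y z e j) (nn x y z r j * gg x y z r j) := by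
    rw [← Finset.sum_neg_distrib]
    refine Finset.sum_congr rfl fun j _ => ?_
    by_cases hc : SC x y z e j
    · rw [ST.ind_pos hc, ST.ind_pos hc]
    · rw [ST.ind_neg hc, ST.ind_neg hc, neg_zero]
  rw [h8] at h7
  linarith

end Pool.Agent.Helper22.PN
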