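import Pool.Agent.Helper22.PN.A03Angle
import Pool.Agent.Helper22.ST.A02Ident

/-!
# PN-A12: the limits of the angles for `t → 0`

`al_pt`: `π - al = π / 2 - arctan (gg / (√(t (t + 1)) |dt| √LL))`.
* `PP y z j = 0`: then `cr y z (ec j) = cr y z (ed j) = 0` (`ST.cr_vert` for the coordinates `y, z`),
  `gg = t (N2 N2' + (t + 1) N3 N3')`, `LL = t PP x y j`, `√(t (t + 1)) √(t PP) = t √(t + 1) √PP`, so the quotient tends to
  `(N2 N2' + N3 N3') / (|dt| √(PP x y j))`.
* `PP y z j ≠ 0`, `N1 N1' = 0`: `gg = t (...)` and `LL → PP y z j > 0`, the quotient is `O(√t)`.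
* `N1 N1' > 0`: the quotient tends to `∞`; `N1 N1' < 0`: to `-∞`.
`HH_end`: let `t → 0` in `Hy.const`.
-/

open Real Set
open Pool.Agent.Helper1.Tet
open Pool.Agent.Helper22.ST (PP ZZ cr dt ind)

namespace Pool.Agent.Helper22.PN

private theorem A12_eq (x y z : Fin 4 → ℝ) (hd : dt x y z ≠ 0) (j : Fin 6) :
    (fun t => π / 2 - arctan (gg x y z t j / (√(t + 1) * |dt x y z| * √(LL x y z t j)) * (√t)⁻¹))
      =ᶠ[nhdsWithin 0 (Ioi 0)] (fun t => π - al (len (pt x y z t)) j) := by
  filter_upwards [self_mem_nhdsWithin] with t ht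
  have ht : 0 < t := ht
  rw [al_pt x y z hd ht j, Real.sqrt_mul ht.le]
  have h1 : √t ≠ 0 := (Real.sqrt_pos.2 ht).ne'
  have e : gg x y z t j / (√(t + 1) * |dt x y z| * √(LL x y z t j)) * (√t)⁻¹ =
      gg x y z t j / (√t * √(t + 1) * |dt x y z| * √(LL x y z t j)) := by
    rw [← div_eq_mul_inv, div_div]
    congr 1
    ring
  rw [e]
  ring

private theorem A12_cont (x y z : Fin 4 → ℝ) (hd : dt x y z ≠ 0) (j : Fin 6) (hp : 0 < PP y z j) :
    Filter.Tendsto (fun t => gg x y z t j / (√(t + 1) * |dt x y z| * √(LL x y z t j)))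
      (nhdsWithin 0 (Ioi 0)) (nhds (cr y z (ec j) * cr y z (ed j) / (|dt x y z| * √(PP y z j)))) := by
  have hdt : 0 < |dt x y z| := abs_pos.2 hd
  have hc : ContinuousAt (fun t => gg x y z t j / (√(t + 1) * |dt x y z| * √(LL x y z t j))) 0 := by
    refine ContinuousAt.div ?_ ?_ ?_
    · unfold gg
      fun_prop
    · unfold LL
      fun_prop
    · have e1 : 0 < √((0 : ℝ) + 1) := Real.sqrt_pos.2 (by norm_num)
      have e2 : 0 < √(LL x y z 0 j) := by
        apply Real.sqrt_pos.2
        unfold LL
        simpa using hp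
      positivity
  have h0 := (hc.tendsto).mono_left (nhdsWithin_le_nhds (s := Ioi (0 : ℝ)))
  have e : gg x y z 0 j / (√(0 + 1) * |dt x y z| * √(LL x y z 0 j)) =
      cr y z (ec j) * cr y z (ed j) / (|dt x y z| * √(PP y z j)) := by
    unfold gg LL
    simp
  rw [e] at h0
  exact h0

private theorem A12_inv : Filter.Tendsto (fun t : ℝ => (√t)⁻¹) (nhdsWithin 0 (Ioi 0)) Filter.atTop := by
  apply Filter.Tendsto.comp tendsto_inv_nhdsGT_zero
  rw [tendsto_nhdsWithin_iff]
  refine ⟨?_, ?_⟩
  · have h : Filter.Tendsto (fun t : ℝ => √t) (nhds 0) (nhds (√0)) :=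
      Real.continuous_sqrt.continuousAt.tendsto
    rw [Real.sqrt_zero] at h
    exact h.mono_left nhdsWithin_le_nhds
  · filter_upwards [self_mem_nhdsWithin] with t ht
    exact Real.sqrt_pos.2 ht

theorem al_pt_lim (x y z : Fin 4 → ℝ) (hd : dt x y z ≠ 0) (j : Fin 6) :
    Filter.Tendsto (fun t => π - al (len (pt x y z t)) j) (nhdsWithin 0 (Ioi 0))
      (nhds (be x y z j)) := by
  classical
  have hdt : 0 < |dt x y z| := abs_pos.2 hd
  have hPP : 0 ≤ PP y z j := by
    unfold PP
    positivity
  refine Filter.Tendsto.congr' (A12_eq x y z hd j) ?_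
  by_cases h0 : PP y z j = 0
  · have hPx : 0 < PP x y j := by
      have := (uu_pos x y z hd j).1
      rw [h0, add_zero] at this
      exact this
    obtain ⟨c1, c2⟩ := ST.cr_vert y z j h0
    have hb : be x y z j = π / 2 - arctan ((cr z x (ec j) * cr z x (ed j) +
      cr x y (ec j) * cr x y (ed j)) / (|dt x y z| * √(PP x y j))) := by
      unfold be
      rw [if_pos h0]
    rw [hb]
    have hc : ContinuousAt (fun t => π / 2 - arctan ((cr z x (ec j) * cr z x (ed j) +
        (t + 1) * (cr x y (ec j) * cr x y (ed j))) / (√(t + 1) * |dt x y z| * √(PP x y j)))) 0 := by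
      refine ContinuousAt.sub continuousAt_const ?_
      refine Real.continuous_arctan.continuousAt.comp ?_
      refine ContinuousAt.div ?_ ?_ ?_
      · fun_prop
      · fun_prop
      · have e1 : 0 < √((0 : ℝ) + 1) := Real.sqrt_pos.2 (by norm_num)
        have e2 : 0 < √(PP x y j) := Real.sqrt_pos.2 hPx
        positivity
    have h1 := (hc.tendsto).mono_left (nhdsWithin_le_nhds (s := Ioi (0 : ℝ)))
    have e0 : π / 2 - arctan ((cr z x (ec j) * cr z x (ed j) +
        ((0 : ℝ) + 1) * (cr x y (ec j) * cr x y (ed j))) / (√((0 : ℝ) + 1) * |dt x y z| * √(PP x y j))) =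
        π / 2 - arctan ((cr z x (ec j) * cr z x (ed j) +
      cr x y (ec j) * cr x y (ed j)) / (|dt x y z| * √(PP x y j))) := by
      simp
    rw [e0] at h1
    refine h1.congr' ?_
    filter_upwards [self_mem_nhdsWithin] with t ht
    have ht : 0 < t := ht
    have hs : √t ≠ 0 := (Real.sqrt_pos.2 ht).ne'
    have hs2 : √t * √t = t := Real.mul_self_sqrt ht.le
    have hs1 : √(t + 1) ≠ 0 := (Real.sqrt_pos.2 (by linarith)).ne'
    have hsp : √(PP x y j) ≠ 0 := (Real.sqrt_pos.2 hPx).ne'
    have e1 : gg x y z t j = t * (cr z x (ec j) * cr z x (ed j) +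
        (t + 1) * (cr x y (ec j) * cr x y (ed j))) := by
      unfold gg
      rw [c1, c2]
      ring
    have e2 : √(LL x y z t j) = √t * √(PP x y j) := by
      unfold LL
      rw [h0, add_zero, Real.sqrt_mul ht.le]
    congr 2
    rw [e1, e2]
    field_simp
    rw [pow_two, hs2]
    ring
  · have hp : 0 < PP y z j := lt_of_le_of_ne hPP (Ne.symm h0)
    have hlim := A12_cont x y z hd j hp
    have hsp : 0 < |dt x y z| * √(PP y z j) := mul_pos hdt (Real.sqrt_pos.2 hp)
    by_cases h1 : cr y z (ec j) * cr y z (ed j) = 0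
    · have hb : be x y z j = π / 2 - arctan 0 := by
        unfold be
        rw [if_neg h0, if_pos h1, arctan_zero, sub_zero]
      rw [hb]
      refine Filter.Tendsto.sub tendsto_const_nhds ?_
      refine (Real.continuous_arctan.tendsto 0).comp ?_
      have hc : ContinuousAt (fun t => √t * ((cr z x (ec j) * cr z x (ed j) +
          (t + 1) * (cr x y (ec j) * cr x y (ed j))) / (√(t + 1) * |dt x y z| * √(LL x y z t j)))) 0 := by
        refine ContinuousAt.mul (by fun_prop) (ContinuousAt.div ?_ ?_ ?_)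
        · fun_prop
        · unfold LL
          fun_prop
        · have e1 : 0 < √((0 : ℝ) + 1) := Real.sqrt_pos.2 (by norm_num)
          have e2 : 0 < √(LL x y z 0 j) := by
            apply Real.sqrt_pos.2
            unfold LL
            simpa using hp
          positivity
      have h2 := (hc.tendsto).mono_left (nhdsWithin_le_nhds (s := Ioi (0 : ℝ)))
      simp only [Real.sqrt_zero, zero_mul] at h2
      refine h2.congr' ?_
      filter_upwards [self_mem_nhdsWithin] with t ht
      have ht : 0 < t := ht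
      have hs : √t ≠ 0 := (Real.sqrt_pos.2 ht).ne'
      have hs2 : √t * √t = t := Real.mul_self_sqrt ht.le
      have e1 : gg x y z t j = t * (cr z x (ec j) * cr z x (ed j) +
          (t + 1) * (cr x y (ec j) * cr x y (ed j))) := by
        unfold gg
        rw [h1]
        ring
      rw [e1]
      have e3 : ∀ A B : ℝ, √t * (A / B) = t * A / B * (√t)⁻¹ := by
        intro A B
        have : t * A / B * (√t)⁻¹ = (√t * √t) * A / B * (√t)⁻¹ := by rw [hs2]
        rw [this]
        field_simp
      exact e3 _ _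
    · by_cases h2 : 0 < cr y z (ec j) * cr y z (ed j)
      · have hb : be x y z j = π / 2 - π / 2 := by
          unfold be
          rw [if_neg h0, if_neg h1, if_pos h2, sub_self]
        rw [hb]
        refine Filter.Tendsto.sub tendsto_const_nhds ?_
        have h3 := Filter.Tendsto.pos_mul_atTop (div_pos h2 hsp) hlim A12_inv
        exact ((tendsto_nhdsWithin_iff.1 Real.tendsto_arctan_atTop).1).comp h3
      · have h2' : cr y z (ec j) * cr y z (ed j) < 0 := lt_of_le_of_ne (not_lt.1 h2) h1
        have hb : be x y z j = π / 2 - -(π / 2) := by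
          unfold be
          rw [if_neg h0, if_neg h1, if_neg h2]
          ring
        rw [hb]
        refine Filter.Tendsto.sub tendsto_const_nhds ?_
        have h3 := Filter.Tendsto.neg_mul_atTop (div_neg_of_neg_of_pos h2' hsp) hlim A12_inv
        exact ((tendsto_nhdsWithin_iff.1 Real.tendsto_arctan_atBot).1).comp h3

end Pool.Agent.Helper22.PN
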