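import Pool.Agent.Helper22.PN.A08Ort
import Pool.Agent.Helper22.PN.A12Limit

/-!
# PN-A13: the relation at the flat end `t → 0`

Let `t → 0` in `Hy.const` (`al_pt_lim`, `tendsto_finset_sum`, uniqueness of limits).
-/

open Real Set
open Pool.Agent.Helper1.Tet
open Pool.Agent.Helper22.ST (PP ZZ cr dt ind)

namespace Pool.Agent.Helper22.PN

theorem Hy.HH_end {x y z : Fin 4 → ℝ} (h : Hy x y z) {s : ℝ} (hs : 0 < s) :
    HH (len (pt x y z s)) = ∑ j, √(LL x y z s j) * be x y z j := by
  have h1 : Filter.Tendsto (fun t => ∑ j, √(LL x y z s j) * (π - al (len (pt x y z t)) j))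
      (nhdsWithin 0 (Ioi 0)) (nhds (∑ j, √(LL x y z s j) * be x y z j)) := by
    apply tendsto_finsetSum
    intro j _
    exact (al_pt_lim x y z h.1 j).const_mul _
  have h2 : Filter.Tendsto (fun t => ∑ j, √(LL x y z s j) * (π - al (len (pt x y z t)) j))
      (nhdsWithin 0 (Ioi 0)) (nhds (HH (len (pt x y z s)))) := by
    apply Filter.Tendsto.congr' _ tendsto_const_nhds
    filter_upwards [self_mem_nhdsWithin] with t ht
    exact (h.const hs ht).symm
  exact tendsto_nhds_unique h2 h1

end Pool.Agent.Helper22.PN
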