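import Pool.Agent.Helper22.PN.A02Indep
import Pool.Agent.Helper13.HT.Congr
import Pool.Agent.Helper13.HT.Hill
import Pool.Agent.Helper22.ST.D01HT

/-!
# PN-A14: invariance of the hypothesis

`Tl_sim`: compare `ST.HT_sim_mem` (ST/D01HT): `congr_tiles` (Helper13/HT/Congr) and `TilesSpace.smul`, `range_smul'`,
`convexHull_smul`, `indep_smul` (Helper13/HT/Hill); by `dist_pt_sq` the distances of `pt x' y' z' t` are `k` times
those of `pt x y z t ∘ σ`.  `dt ≠ 0`: `pt_indep`, `dt_of_indep`, after an argument with signs.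
`Hy.swap`: `dist (pt z y x t⁻¹ i) (pt z y x t⁻¹ j) = dist (pt x y z t i) (pt x y z t j) / √t`; the map `t ↦ t⁻¹` maps
`Tl x y z ∩ Icc a b` injectively into `Tl z y x ∩ Icc b⁻¹ a⁻¹`; `dt z y x = - dt x y z`.
-/

open Real Set
open Pool.Agent.Helper1.Tet Pool.Agent.Helper13.HT
open Pool.Agent.Helper22.ST (PP ZZ cr dt ind)

namespace Pool.Agent.Helper22.PN

open scoped Pointwise in
/-- tilings are invariant under similarities and relabelling -/
theorem tiles_of_dist (p q : Fin 4 → E3) (hp : AffineIndependent ℝ p) (hq : AffineIndependent ℝ q)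
    (σ : Equiv.Perm (Fin 4)) {k : ℝ} (hk : 0 < k)
    (h : ∀ i j, dist (q i) (q j) = k * dist (p (σ i)) (p (σ j)))
    (hT : TilesSpace (convexHull ℝ (range p))) : TilesSpace (convexHull ℝ (range q)) := by
  have hp' : AffineIndependent ℝ (fun i => k • p (σ i)) :=
    indep_smul hk (hp.comp_embedding σ.toEmbedding)
  refine congr_tiles (fun i => k • p (σ i)) q hp' hq ?_ ?_
  · intro i j
    rw [dist_smul₀, Real.norm_of_nonneg hk.le, h i j]
  · have h1 : range (fun i => p (σ i)) = range p := σ.surjective.range_comp p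
    rw [range_smul' k (fun i => p (σ i)), h1, convexHull_smul]
    exact hT.smul hk

private theorem a14_dist (x y z : Fin 4 → ℝ) {t : ℝ} (ht : 0 < t) (i j : Fin 4) :
    dist (pt x y z t i) (pt x y z t j) ^ 2 =
      t * (x i - x j) ^ 2 + (t + 1) * (y i - y j) ^ 2 + (z i - z j) ^ 2 := by
  rw [EuclideanSpace.dist_eq, Real.sq_sqrt (Finset.sum_nonneg fun _ _ => sq_nonneg _),
    Fin.sum_univ_three]
  have h1 : √t ^ 2 = t := Real.sq_sqrt ht.le
  have h2 : √(t + 1) ^ 2 = t + 1 := Real.sq_sqrt (by linarith)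
  have e1 : dist (pt x y z t i 0) (pt x y z t j 0) ^ 2 = (√t * x i - √t * x j) ^ 2 := by
    rw [Real.dist_eq, sq_abs]; rfl
  have e2 : dist (pt x y z t i 1) (pt x y z t j 1) ^ 2 =
      (√(t + 1) * y i - √(t + 1) * y j) ^ 2 := by
    rw [Real.dist_eq, sq_abs]; rfl
  have e3 : dist (pt x y z t i 2) (pt x y z t j 2) ^ 2 = (z i - z j) ^ 2 := by
    rw [Real.dist_eq, sq_abs]; rfl
  rw [e1, e2, e3]
  linear_combination (x i - x j) ^ 2 * h1 + (y i - y j) ^ 2 * h2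

/-- one coordinate: equal squares of all differences -/
private theorem a14_sgn (f g : Fin 4 → ℝ) (h : ∀ i j, (f i - f j) ^ 2 = (g i - g j) ^ 2) :
    ∃ e : ℝ, (e = 1 ∨ e = -1) ∧ ∀ i, f i - f 0 = e * (g i - g 0) := by
  have hm : ∀ i j, (f i - f 0) * (f j - f 0) = (g i - g 0) * (g j - g 0) := by
    intro i j
    have h1 := h i 0
    have h2 := h j 0
    have h3 := h i j
    linear_combination (1 / 2) * h1 + (1 / 2) * h2 - (1 / 2) * h3
  by_cases h0 : ∀ m, g m - g 0 = 0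
  · refine ⟨1, Or.inl rfl, fun i => ?_⟩
    have h1 := h i 0
    rw [h0 i] at h1
    rw [h0 i]
    have : f i - f 0 = 0 := by
      apply pow_eq_zero_iff (two_ne_zero) |>.1
      rw [h1]; ring
    rw [this]; ring
  · push Not at h0
    obtain ⟨m, hm0⟩ := h0
    have h1 := h m 0
    rcases sq_eq_sq_iff_eq_or_eq_neg.1 h1 with h2 | h2
    · refine ⟨1, Or.inl rfl, fun i => ?_⟩
      have h3 := hm i m
      rw [h2] at h3
      rw [one_mul]
      exact mul_right_cancel₀ hm0 h3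
    · refine ⟨-1, Or.inr rfl, fun i => ?_⟩
      have h3 := hm i m
      rw [h2] at h3
      apply mul_right_cancel₀ hm0
      linear_combination -h3

private theorem a14_def (x y z : Fin 4 → ℝ) : dt x y z =
    (x 1 - x 0) * ((y 2 - y 0) * (z 3 - z 0) - (z 2 - z 0) * (y 3 - y 0)) +
      (y 1 - y 0) * ((z 2 - z 0) * (x 3 - x 0) - (x 2 - x 0) * (z 3 - z 0)) +
      (z 1 - z 0) * ((x 2 - x 0) * (y 3 - y 0) - (y 2 - y 0) * (x 3 - x 0)) := rfl

private theorem a14_dt (x y z x' y' z' : Fin 4 → ℝ) (a b c : ℝ)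
    (hx : ∀ i, x' i - x' 0 = a * (x i - x 0)) (hy : ∀ i, y' i - y' 0 = b * (y i - y 0))
    (hz : ∀ i, z' i - z' 0 = c * (z i - z 0)) : dt x' y' z' = a * b * c * dt x y z := by
  rw [a14_def, a14_def, hx 1, hx 2, hx 3, hy 1, hy 2, hy 3, hz 1, hz 2, hz 3]
  ring

private theorem a14_perm (x y z : Fin 4 → ℝ) (hd : dt x y z ≠ 0) (σ : Equiv.Perm (Fin 4)) :
    dt (x ∘ σ) (y ∘ σ) (z ∘ σ) ≠ 0 := by
  refine dt_of_indep _ _ _ one_pos ?_
  exact (pt_indep x y z hd one_pos).comp_embedding σ.toEmbedding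

theorem Hy.sim {x y z x' y' z' : Fin 4 → ℝ} (h : Hy x y z) (hs : PSim x y z x' y' z') :
    Hy x' y' z' := by
  obtain ⟨hd, a, b, ha, hinf⟩ := h
  obtain ⟨σ, k, hk, hs⟩ := hs
  have hd' : dt x' y' z' ≠ 0 := by
    obtain ⟨e1, h1, hx⟩ := a14_sgn x' (fun i => k * x (σ i)) (fun i j => by
      rw [(hs i j).1]; ring)
    obtain ⟨e2, h2, hy⟩ := a14_sgn y' (fun i => k * y (σ i)) (fun i j => by
      rw [(hs i j).2.1]; ring)
    obtain ⟨e3, h3, hz⟩ := a14_sgn z' (fun i => k * z (σ i)) (fun i j => by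
      rw [(hs i j).2.2]; ring)
    rw [a14_dt (x ∘ σ) (y ∘ σ) (z ∘ σ) x' y' z' (e1 * k) (e2 * k) (e3 * k)
      (fun i => by rw [hx i]; simp only [Function.comp_apply]; ring)
      (fun i => by rw [hy i]; simp only [Function.comp_apply]; ring)
      (fun i => by rw [hz i]; simp only [Function.comp_apply]; ring)]
    have n1 : e1 ≠ 0 := by rcases h1 with h | h <;> rw [h] <;> norm_num
    have n2 : e2 ≠ 0 := by rcases h2 with h | h <;> rw [h] <;> norm_num
    have n3 : e3 ≠ 0 := by rcases h3 with h | h <;> rw [h] <;> norm_num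
    have := a14_perm x y z hd σ
    have hk0 := hk.ne'
    positivity
  refine ⟨hd', a, b, ha, hinf.mono ?_⟩
  rintro t ⟨⟨ht, hT⟩, hab⟩
  refine ⟨⟨ht, ?_⟩, hab⟩
  refine tiles_of_dist (pt x y z t) (pt x' y' z' t) (pt_indep x y z hd ht)
    (pt_indep x' y' z' hd' ht) σ hk ?_ hT
  intro i j
  refine (sq_eq_sq₀ dist_nonneg (mul_nonneg hk.le dist_nonneg)).1 ?_
  rw [mul_pow, a14_dist _ _ _ ht, a14_dist _ _ _ ht, (hs i j).1, (hs i j).2.1, (hs i j).2.2]
  ring

theorem Hy.perm {x y z : Fin 4 → ℝ} (h : Hy x y z) (σ : Equiv.Perm (Fin 4)) :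
    Hy (x ∘ σ) (y ∘ σ) (z ∘ σ) := by
  refine h.sim ⟨σ, 1, one_pos, fun i j => ?_⟩
  simp [Function.comp_apply]

theorem Hy.swap {x y z : Fin 4 → ℝ} (h : Hy x y z) : Hy z y x := by
  obtain ⟨hd, a, b, ha, hinf⟩ := h
  have hd' : dt z y x ≠ 0 := by
    have : dt z y x = -dt x y z := by
      rw [a14_def, a14_def]; ring
    rw [this]
    exact neg_ne_zero.2 hd
  have hab : ∀ t ∈ Tl x y z ∩ Icc a b, 0 < t := fun t ht => ht.1.1
  have hb : 0 < b := by
    obtain ⟨t, ht⟩ := hinf.nonempty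
    linarith [ht.2.1, ht.2.2]
  refine ⟨hd', b⁻¹, a⁻¹, inv_pos.2 hb, ?_⟩
  have himg : ((fun t : ℝ => t⁻¹) '' (Tl x y z ∩ Icc a b)).Infinite :=
    hinf.image (fun s _ t _ hst => inv_injective hst)
  refine himg.mono ?_
  rintro _ ⟨t, ⟨⟨ht, hT⟩, h1, h2⟩, rfl⟩
  have ht' : 0 < t⁻¹ := inv_pos.2 ht
  refine ⟨⟨ht', ?_⟩, ?_, ?_⟩
  · have hk : 0 < √(t⁻¹) := Real.sqrt_pos.2 ht'
    refine tiles_of_dist (pt x y z t) (pt z y x t⁻¹) (pt_indep x y z hd ht)
      (pt_indep z y x hd' ht') (Equiv.refl _) hk ?_ hT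
    intro i j
    refine (sq_eq_sq₀ dist_nonneg (mul_nonneg hk.le dist_nonneg)).1 ?_
    rw [mul_pow, a14_dist _ _ _ ht', Equiv.refl_apply, Equiv.refl_apply, a14_dist _ _ _ ht,
      Real.sq_sqrt ht'.le]
    field_simp
    ring
  · exact inv_anti₀ ht h2
  · exact inv_anti₀ ha h1

end Pool.Agent.Helper22.PN
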