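import Pool.Agent.Helper22.PN.A13HHEnd
import Pool.Agent.Helper22.PN.A14Sim
import Pool.Agent.Helper22.ST.A15Pattern
import Pool.Agent.Helper1.Tet.Analytic

/-!
# PN-B01: the two ends

`exists_par`: if all `cr y z v ≠ 0` then all `PP y z j ≠ 0` (`ST.cr_vert`), `be x y z j = ind (N1 N1' < 0) π`, and
`Hy.HH_end` with `s = 1`, `perimeter` and `ST.pattern_aux` (as in `ST.exists_vert`, end of ST/A15Pattern) give a
contradiction.
`HH_end'`: apply `Hy.HH_end` to `h.swap : Hy z y x` at `s⁻¹`: `LL z y x s⁻¹ j = LL x y z s j / s` (`PP` is symmetric in the two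
coordinates), so `len (pt z y x s⁻¹) = (√s)⁻¹ • len (pt x y z s)` and `HH (len (pt z y x s⁻¹)) = HH (len (pt x y z s)) / √s`
(`al_smul`).
`ends`: the difference of the two.
-/

open Real Set
open Pool.Agent.Helper1.Tet
open Pool.Agent.Helper22.ST (PP ZZ cr dt ind)

namespace Pool.Agent.Helper22.PN

private theorem B01_cr_swap (f g : Fin 4 → ℝ) (v : Fin 4) : cr g f v = -cr f g v := by
  fin_cases v <;> simp [cr] <;> ring

private theorem B01_PP_swap (f g : Fin 4 → ℝ) (j : Fin 6) : PP g f j = PP f g j := by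
  simp only [PP]
  ring

private theorem B01_be {x y z : Fin 4 → ℝ} (hc : ∀ v, cr y z v ≠ 0) (j : Fin 6) :
    be x y z j = ind (cr y z (ec j) * cr y z (ed j) < 0) π := by
  have hP : PP y z j ≠ 0 := fun h0 => hc _ (ST.cr_vert y z j h0).1
  have hp : cr y z (ec j) * cr y z (ed j) ≠ 0 := mul_ne_zero (hc _) (hc _)
  unfold be
  rw [if_neg hP, if_neg hp]
  by_cases h : 0 < cr y z (ec j) * cr y z (ed j)
  · rw [if_pos h, ST.ind_neg (not_lt.2 h.le)]
  · rw [if_neg h, ST.ind_pos (lt_of_le_of_ne (not_lt.1 h) hp)]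

/-- some face is parallel to the first axis -/
theorem Hy.exists_par {x y z : Fin 4 → ℝ} (h : Hy x y z) : ∃ v, cr y z v = 0 := by
  by_contra hcon
  have hc : ∀ v, cr y z v ≠ 0 := fun v hv => hcon ⟨v, hv⟩
  have hl := pt_mem_TT x y z h.1 one_pos
  obtain ⟨p1, p2⟩ := perimeter hl
  have hf : HH (len (pt x y z 1)) = π * (∑ j, ind (cr y z (ec j) * cr y z (ed j) < 0)
      (len (pt x y z 1) j)) := by
    rw [h.HH_end one_pos, Finset.mul_sum]
    refine Finset.sum_congr rfl fun j _ => ?_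
    rw [B01_be hc, len_pt x y z one_pos, ← ST.ind_mul, ← ST.ind_mul, mul_comm π]
  rw [Fin.sum_univ_six] at hf
  exact ST.pattern_aux (cr y z) (len (pt x y z 1)) _ (ST.cr_sum y z) (hc 0) (hc 1) (hc 2) (hc 3)
    hf p1 p2

/-- some face is parallel to the third axis -/
theorem Hy.exists_par' {x y z : Fin 4 → ℝ} (h : Hy x y z) : ∃ v, cr x y v = 0 := by
  obtain ⟨v, hv⟩ := h.swap.exists_par
  refine ⟨v, ?_⟩
  rw [B01_cr_swap] at hv
  exact neg_eq_zero.1 hv

private theorem B01_LL (x y z : Fin 4 → ℝ) {s : ℝ} (hs : 0 < s) (j : Fin 6) :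
    LL z y x s⁻¹ j = s⁻¹ * LL x y z s j := by
  simp only [LL, B01_PP_swap y z, B01_PP_swap x y]
  field_simp
  ring

private theorem B01_sqrt (x y z : Fin 4 → ℝ) {s : ℝ} (hs : 0 < s) (j : Fin 6) :
    √(LL z y x s⁻¹ j) = (√s)⁻¹ * √(LL x y z s j) := by
  rw [B01_LL x y z hs, Real.sqrt_mul (inv_pos.2 hs).le, Real.sqrt_inv]

theorem Hy.HH_end' {x y z : Fin 4 → ℝ} (h : Hy x y z) {s : ℝ} (hs : 0 < s) :
    HH (len (pt x y z s)) = ∑ j, √(LL x y z s j) * be z y x j := by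
  have hsi : 0 < s⁻¹ := inv_pos.2 hs
  have hq : 0 < (√s)⁻¹ := inv_pos.2 (Real.sqrt_pos.2 hs)
  have h1 := h.swap.HH_end hsi
  have hlen : len (pt z y x s⁻¹) = (√s)⁻¹ • len (pt x y z s) := by
    funext j
    rw [len_pt z y x hsi, Pi.smul_apply, smul_eq_mul, len_pt x y z hs, B01_sqrt x y z hs]
  have h2 : HH (len (pt z y x s⁻¹)) = (√s)⁻¹ * HH (len (pt x y z s)) := by
    rw [hlen]
    unfold HH
    rw [al_smul hq, Finset.mul_sum]
    refine Finset.sum_congr rfl fun j _ => ?_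
    rw [Pi.smul_apply, smul_eq_mul]
    ring
  have h3 : ∑ j, √(LL z y x s⁻¹ j) * be z y x j =
      (√s)⁻¹ * ∑ j, √(LL x y z s j) * be z y x j := by
    rw [Finset.mul_sum]
    refine Finset.sum_congr rfl fun j _ => ?_
    rw [B01_sqrt x y z hs]
    ring
  rw [h2, h3] at h1
  exact mul_left_cancel₀ hq.ne' h1

theorem Hy.ends {x y z : Fin 4 → ℝ} (h : Hy x y z) {s : ℝ} (hs : 0 < s) :
    ∑ j, √(LL x y z s j) * (be x y z j - be z y x j) = 0 := by
  have h1 := h.HH_end hs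
  have h2 := h.HH_end' hs
  simp only [mul_sub, Finset.sum_sub_distrib]
  rw [← h1, ← h2, sub_self]

end Pool.Agent.Helper22.PN
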