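import Pool.Agent.Helper22.PN.A09Class
import Pool.Agent.Helper22.PN.A02Indep

/-!
# PN-B02: linear relations between the length functions split into classes

`SC_lin`: for proportional pairs `(A_i, C_i)`, `(A_j, C_j)` (nonnegative, not both zero: `uu_pos`) all of `√A`, `√C`, `√(A + C)`
are proportional; square both sides.
`split`: `sqrt_class` for `A = PP x y`, `C = PP y z` (first sum), then multiply by `√A_e / u_e` resp. `√C_e / u_e` (`SC_lin`).
`split_tot`: let `s → 0`, resp. divide by `√s` and let `s → ∞` (or sum `split` over the classes).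
-/

open Real Set
open Pool.Agent.Helper1.Tet
open Pool.Agent.Helper22.ST (PP ZZ cr dt ind)

namespace Pool.Agent.Helper22.PN

private theorem B02_PP (x y : Fin 4 → ℝ) (j : Fin 6) : 0 ≤ PP x y j := by
  unfold PP
  positivity

private theorem B02_zero (f : ℝ → ℝ) (hf : Continuous f) (h : ∀ s : ℝ, 0 < s → f s = 0) :
    f 0 = 0 := by
  have h1 : Filter.Tendsto f (nhdsWithin 0 (Ioi 0)) (nhds (f 0)) :=
    (hf.tendsto 0).mono_left nhdsWithin_le_nhds
  have h2 : Filter.Tendsto f (nhdsWithin 0 (Ioi 0)) (nhds 0) := by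
    refine Filter.Tendsto.congr' ?_ tendsto_const_nhds
    filter_upwards [self_mem_nhdsWithin] with s hs
    exact (h s hs).symm
  exact tendsto_nhds_unique h1 h2

private theorem B02_ind (p : Prop) [Decidable p] (a : ℝ) : ind p a = if p then a else 0 := by
  by_cases hp : p
  · rw [ST.ind_pos hp, if_pos hp]
  · rw [ST.ind_neg hp, if_neg hp]

theorem SC.refl' (x y z : Fin 4 → ℝ) (i : Fin 6) : SC x y z i i := by
  unfold SC
  rfl

theorem SC.symm' {x y z : Fin 4 → ℝ} {i j : Fin 6} (h : SC x y z i j) : SC x y z j i := by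
  unfold SC at h ⊢
  exact h.symm

theorem SC.trans' {x y z : Fin 4 → ℝ} (hd : dt x y z ≠ 0) {i j k : Fin 6} (h : SC x y z i j)
    (h' : SC x y z j k) : SC x y z i k := by
  have hp := (uu_pos x y z hd j).1
  unfold SC at h h' ⊢
  have h1 : (PP x y j + PP y z j) * (PP x y i * PP y z k - PP x y k * PP y z i) = 0 := by
    linear_combination (PP x y i + PP y z i) * h' + (PP x y k + PP y z k) * h
  have h2 := (mul_eq_zero.1 h1).resolve_left hp.ne'
  linarith

theorem SC_lin {x y z : Fin 4 → ℝ} (hd : dt x y z ≠ 0) {i j : Fin 6} (h : SC x y z i j) :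
    √(PP x y i) * uu x y z j = √(PP x y j) * uu x y z i ∧
      √(PP y z i) * uu x y z j = √(PP y z j) * uu x y z i := by
  have _ := hd
  have h' := h
  unfold SC at h'
  unfold uu
  rw [← Real.sqrt_mul (B02_PP x y i), ← Real.sqrt_mul (B02_PP x y j),
    ← Real.sqrt_mul (B02_PP y z i), ← Real.sqrt_mul (B02_PP y z j)]
  constructor
  · congr 1
    linear_combination h'
  · congr 1
    linear_combination -h'

/-- equal functions -/
theorem SC_eq {x y z : Fin 4 → ℝ} (hd : dt x y z ≠ 0) {i j : Fin 6} (h : SC x y z i j)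
    (hu : uu x y z i = uu x y z j) : PP x y i = PP x y j ∧ PP y z i = PP y z j := by
  obtain ⟨h1, h2⟩ := SC_lin hd h
  have hj := (uu_pos x y z hd j).2
  rw [hu] at h1 h2
  have h3 := mul_right_cancel₀ hj.ne' h1
  have h4 := mul_right_cancel₀ hj.ne' h2
  exact ⟨(Real.sqrt_inj (B02_PP x y i) (B02_PP x y j)).1 h3,
    (Real.sqrt_inj (B02_PP y z i) (B02_PP y z j)).1 h4⟩

theorem split {x y z : Fin 4 → ℝ} (hd : dt x y z ≠ 0) (c : Fin 6 → ℝ)
    (h : ∀ s : ℝ, 0 < s → ∑ j, √(LL x y z s j) * c j = 0) (e : Fin 6) :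
    ∑ j, ind (SC x y z e j) (uu x y z j * c j) = 0 ∧
      ∑ j, ind (SC x y z e j) (√(PP x y j) * c j) = 0 ∧
        ∑ j, ind (SC x y z e j) (√(PP y z j) * c j) = 0 := by
  classical
  have h0 : ∑ j, ind (SC x y z e j) (uu x y z j * c j) = 0 :=
    sqrt_class (PP x y) (PP y z) (B02_PP x y) (B02_PP y z) (fun j => (uu_pos x y z hd j).1) c
      (fun s hs => h s hs) e
  have he := (uu_pos x y z hd e).2
  refine ⟨h0, ?_, ?_⟩
  · have h1 : uu x y z e * ∑ j, ind (SC x y z e j) (√(PP x y j) * c j) =
        √(PP x y e) * ∑ j, ind (SC x y z e j) (uu x y z j * c j) := by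
      rw [Finset.mul_sum, Finset.mul_sum]
      apply Finset.sum_congr rfl
      intro j _
      rw [B02_ind, B02_ind]
      by_cases hj : SC x y z e j
      · rw [if_pos hj, if_pos hj]
        linear_combination (-c j) * (SC_lin hd hj).1
      · rw [if_neg hj, if_neg hj, mul_zero, mul_zero]
    rw [h0, mul_zero] at h1
    exact (mul_eq_zero.1 h1).resolve_left he.ne'
  · have h1 : uu x y z e * ∑ j, ind (SC x y z e j) (√(PP y z j) * c j) =
        √(PP y z e) * ∑ j, ind (SC x y z e j) (uu x y z j * c j) := by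
      rw [Finset.mul_sum, Finset.mul_sum]
      apply Finset.sum_congr rfl
      intro j _
      rw [B02_ind, B02_ind]
      by_cases hj : SC x y z e j
      · rw [if_pos hj, if_pos hj]
        linear_combination (-c j) * (SC_lin hd hj).2
      · rw [if_neg hj, if_neg hj, mul_zero, mul_zero]
    rw [h0, mul_zero] at h1
    exact (mul_eq_zero.1 h1).resolve_left he.ne'

theorem split_tot {x y z : Fin 4 → ℝ} (hd : dt x y z ≠ 0) (c : Fin 6 → ℝ)
    (h : ∀ s : ℝ, 0 < s → ∑ j, √(LL x y z s j) * c j = 0) :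
    ∑ j, √(PP x y j) * c j = 0 ∧ ∑ j, √(PP y z j) * c j = 0 := by
  have _ := hd
  constructor
  · have h1 := B02_zero (fun r => ∑ j, √(PP x y j + r * PP y z j) * c j) (by fun_prop) (by
      intro r hr
      have h2 := h r⁻¹ (inv_pos.2 hr)
      have h3 : ∀ j, √(PP x y j + r * PP y z j) * c j = √r * (√(LL x y z r⁻¹ j) * c j) := by
        intro j
        have e1 : PP x y j + r * PP y z j = r * LL x y z r⁻¹ j := by
          unfold LL
          field_simp
        rw [e1, Real.sqrt_mul hr.le]
        ring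
      show ∑ j, √(PP x y j + r * PP y z j) * c j = 0
      rw [Finset.sum_congr rfl (fun j _ => h3 j), ← Finset.mul_sum, h2, mul_zero])
    simpa using h1
  · have h1 := B02_zero (fun s => ∑ j, √(s * PP x y j + PP y z j) * c j) (by fun_prop)
      (fun s hs => h s hs)
    simpa using h1

/-- two equal length functions -/
theorem eq_of_LL {x y z : Fin 4 → ℝ} {i j : Fin 6}
    (h : ∀ s : ℝ, 0 < s → √(LL x y z s i) = √(LL x y z s j)) :
    PP x y i = PP x y j ∧ PP y z i = PP y z j := by
  have hn : ∀ (s : ℝ), 0 < s → ∀ k, 0 ≤ LL x y z s k := by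
    intro s hs k
    have h1 := B02_PP x y k
    have h2 := B02_PP y z k
    unfold LL
    positivity
  have h1 := (Real.sqrt_inj (hn 1 one_pos i) (hn 1 one_pos j)).1 (h 1 one_pos)
  have h2 := (Real.sqrt_inj (hn 2 two_pos i) (hn 2 two_pos j)).1 (h 2 two_pos)
  unfold LL at h1 h2
  constructor <;> linarith

end Pool.Agent.Helper22.PN
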