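import Pool.Agent.Helper22.PN.Defs
import Pool.Agent.Helper22.ST.A02Ident

/-!
# PN-B03: flat configurations (only coordinates, no tilings)

`par_edge`: if two different faces `v, w` have `cr f g v = cr f g w = 0` then the common edge `j` (`{ec j, ed j} = {v, w}`) has
`PP f g j = 0`: the cross product of the two normals is `± dt` times the edge vector (see `crossk` in ST/A02Ident), its first
two components vanish.
`flat_or`: otherwise exactly one `V` has `cr f g V = 0`; the other three values are nonzero with sum `0` (`ST.cr_sum`), so two have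
the same sign and the third one, `m`, the opposite sign.
`Flat.swap`: `cr g f v = - cr f g v`.
`Flat.pos`: the points are different; `flat_mid`: the point `m` is between `p` and `r`: from `cr f g V = 0` and the signs:
`m = (1 - λ) p + λ r` with `λ = cr p / (cr p + cr r)` or so.  `dd f g i j` is the distance in the plane.  The strict triangle
inequalities follow from `cr f g r ≠ 0` (the points `V, p, m` are not collinear) etc.  `stewart`: Stewart's theorem.
-/

open Real Set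
open Pool.Agent.Helper1.Tet
open Pool.Agent.Helper22.ST (PP ZZ cr dt ind)

namespace Pool.Agent.Helper22.PN

set_option linter.unusedSimpArgs false

/-- distance in the plane with coordinates `f, g` -/
noncomputable def dd (f g : Fin 4 → ℝ) (i j : Fin 4) : ℝ := √((f i - f j) ^ 2 + (g i - g j) ^ 2)

theorem dd_PP (f g : Fin 4 → ℝ) (j : Fin 6) : dd f g (ea j) (eb j) = √(PP f g j) := rfl

theorem dd_comm (f g : Fin 4 → ℝ) (i j : Fin 4) : dd f g i j = dd f g j i := by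
  unfold dd
  congr 1
  ring

theorem par_edge {f g k : Fin 4 → ℝ} (hd : dt f g k ≠ 0) (j : Fin 6) (h : cr f g (ec j) = 0)
    (h' : cr f g (ed j) = 0) : PP f g j = 0 := by
  have e := ST.PP_dt f g k j
  unfold ST.gm at e
  rw [h, h'] at e
  have e2 : PP f g j * dt f g k ^ 2 = 0 := by rw [e]; ring
  exact (mul_eq_zero.mp e2).resolve_right (pow_ne_zero 2 hd)

private theorem b03_edge (v w : Fin 4) (h : v ≠ w) : ∃ j : Fin 6, (ec j = v ∧ ed j = w) ∨
    (ec j = w ∧ ed j = v) := by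
  revert h
  revert v w
  decide

private theorem b03_edge' (p r : Fin 4) (h : p ≠ r) : ∃ j : Fin 6, ((ea j = p ∧ eb j = r) ∨
    (ea j = r ∧ eb j = p)) ∧ ∀ v, v ≠ p → v ≠ r → v = ec j ∨ v = ed j := by
  revert h
  revert p r
  decide

private theorem b03_four (V : Fin 4) : ∃ a b c : Fin 4, a ≠ V ∧ b ≠ V ∧ c ≠ V ∧ a ≠ b ∧ a ≠ c ∧
    b ≠ c ∧ ∀ v, v = V ∨ v = a ∨ v = b ∨ v = c := by
  revert V
  decide

private theorem b03_sum {f g : Fin 4 → ℝ} {V a b c : Fin 4} (h1 : a ≠ V) (h2 : b ≠ V) (h3 : c ≠ V)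
    (h4 : a ≠ b) (h5 : a ≠ c) (h6 : b ≠ c) : cr f g V + cr f g a + cr f g b + cr f g c = 0 := by
  have e := ST.cr_sum f g
  have key : ∀ V a b c : Fin 4, a ≠ V → b ≠ V → c ≠ V → a ≠ b → a ≠ c → b ≠ c →
      ({V, a, b, c} : Finset (Fin 4)) = Finset.univ := by decide
  have hs : ∑ v, cr f g v = 0 := by
    rw [Fin.sum_univ_four]; exact e
  rw [← key V a b c h1 h2 h3 h4 h5 h6] at hs
  rw [Finset.sum_insert (by simp [Ne.symm h1, Ne.symm h2, Ne.symm h3]),
    Finset.sum_insert (by simp [h4, h5]), Finset.sum_insert (by simp [h6]),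
    Finset.sum_singleton] at hs
  linarith

private theorem b03_sumf {f g : Fin 4 → ℝ} {V a b c : Fin 4} (h1 : a ≠ V) (h2 : b ≠ V) (h3 : c ≠ V)
    (h4 : a ≠ b) (h5 : a ≠ c) (h6 : b ≠ c) :
    cr f g V * f V + cr f g a * f a + cr f g b * f b + cr f g c * f c = 0 ∧
    cr f g V * g V + cr f g a * g a + cr f g b * g b + cr f g c * g c = 0 := by
  have key : ∀ V a b c : Fin 4, a ≠ V → b ≠ V → c ≠ V → a ≠ b → a ≠ c → b ≠ c →
      ({V, a, b, c} : Finset (Fin 4)) = Finset.univ := by decide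
  have hf : ∑ v, cr f g v * f v = 0 := by
    rw [Fin.sum_univ_four]
    show -(((f 2 - f 0) * (g 3 - g 0) - (g 2 - g 0) * (f 3 - f 0)) +
      ((f 3 - f 0) * (g 1 - g 0) - (g 3 - g 0) * (f 1 - f 0)) +
      ((f 1 - f 0) * (g 2 - g 0) - (g 1 - g 0) * (f 2 - f 0))) * f 0 +
      ((f 2 - f 0) * (g 3 - g 0) - (g 2 - g 0) * (f 3 - f 0)) * f 1 +
      ((f 3 - f 0) * (g 1 - g 0) - (g 3 - g 0) * (f 1 - f 0)) * f 2 +
      ((f 1 - f 0) * (g 2 - g 0) - (g 1 - g 0) * (f 2 - f 0)) * f 3 = 0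
    ring
  have hg : ∑ v, cr f g v * g v = 0 := by
    rw [Fin.sum_univ_four]
    show -(((f 2 - f 0) * (g 3 - g 0) - (g 2 - g 0) * (f 3 - f 0)) +
      ((f 3 - f 0) * (g 1 - g 0) - (g 3 - g 0) * (f 1 - f 0)) +
      ((f 1 - f 0) * (g 2 - g 0) - (g 1 - g 0) * (f 2 - f 0))) * g 0 +
      ((f 2 - f 0) * (g 3 - g 0) - (g 2 - g 0) * (f 3 - f 0)) * g 1 +
      ((f 3 - f 0) * (g 1 - g 0) - (g 3 - g 0) * (f 1 - f 0)) * g 2 +
      ((f 1 - f 0) * (g 2 - g 0) - (g 1 - g 0) * (f 2 - f 0)) * g 3 = 0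
    ring
  rw [← key V a b c h1 h2 h3 h4 h5 h6] at hf hg
  rw [Finset.sum_insert (by simp [Ne.symm h1, Ne.symm h2, Ne.symm h3]),
    Finset.sum_insert (by simp [h4, h5]), Finset.sum_insert (by simp [h6]),
    Finset.sum_singleton] at hf hg
  constructor
  · linarith
  · linarith

private theorem b03_mk {f g : Fin 4 → ℝ} {V a b c : Fin 4} (h1 : a ≠ V)
    (hV : cr f g V = 0) (hne : ∀ v, v ≠ V → cr f g v ≠ 0)
    (hall : ∀ v, v = V ∨ v = a ∨ v = b ∨ v = c)
    (hab : cr f g a * cr f g b < 0) (hac : cr f g a * cr f g c < 0)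
    (hbc : 0 < cr f g b * cr f g c) : Flat f g V a := by
  refine ⟨h1.symm, hV, hne, ?_⟩
  intro p r hp hr hpa hra hpr
  rcases hall p with h | h | h | h
  · exact absurd h hp
  · exact absurd h hpa
  · rcases hall r with h' | h' | h' | h'
    · exact absurd h' hr
    · exact absurd h' hra
    · exact absurd (h.trans h'.symm) hpr
    · subst h; subst h'
      exact ⟨hbc, by rw [mul_comm]; exact hab⟩
  · rcases hall r with h' | h' | h' | h'
    · exact absurd h' hr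
    · exact absurd h' hra
    · subst h; subst h'
      exact ⟨by rw [mul_comm]; exact hbc, by rw [mul_comm]; exact hac⟩
    · exact absurd (h.trans h'.symm) hpr

theorem flat_or {f g k : Fin 4 → ℝ} (hd : dt f g k ≠ 0) (h : ∃ v, cr f g v = 0) :
    (∃ V m, Flat f g V m) ∨ ∃ j, PP f g j = 0 := by
  obtain ⟨V, hV⟩ := h
  by_cases hne : ∀ v, v ≠ V → cr f g v ≠ 0
  · left
    obtain ⟨a, b, c, h1, h2, h3, h4, h5, h6, hall⟩ := b03_four V
    have hs := b03_sum (f := f) (g := g) h1 h2 h3 h4 h5 h6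
    rw [hV, zero_add] at hs
    have ha := hne a h1
    have hb := hne b h2
    have hc := hne c h3
    have hallb : ∀ v, v = V ∨ v = b ∨ v = a ∨ v = c := by
      intro v
      rcases hall v with h | h | h | h
      · exact Or.inl h
      · exact Or.inr (Or.inr (Or.inl h))
      · exact Or.inr (Or.inl h)
      · exact Or.inr (Or.inr (Or.inr h))
    have hallc : ∀ v, v = V ∨ v = c ∨ v = a ∨ v = b := by
      intro v
      rcases hall v with h | h | h | h
      · exact Or.inl h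
      · exact Or.inr (Or.inr (Or.inl h))
      · exact Or.inr (Or.inr (Or.inr h))
      · exact Or.inr (Or.inl h)
    rcases lt_or_gt_of_ne ha with ha' | ha' <;> rcases lt_or_gt_of_ne hb with hb' | hb' <;>
      rcases lt_or_gt_of_ne hc with hc' | hc'
    · exfalso; linarith
    · exact ⟨V, c, b03_mk h3 hV hne hallc (mul_neg_of_pos_of_neg hc' ha')
        (mul_neg_of_pos_of_neg hc' hb') (mul_pos_of_neg_of_neg ha' hb')⟩
    · exact ⟨V, b, b03_mk h2 hV hne hallb (mul_neg_of_pos_of_neg hb' ha')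
        (mul_neg_of_pos_of_neg hb' hc') (mul_pos_of_neg_of_neg ha' hc')⟩
    · exact ⟨V, a, b03_mk h1 hV hne hall (mul_neg_of_neg_of_pos ha' hb')
        (mul_neg_of_neg_of_pos ha' hc') (mul_pos hb' hc')⟩
    · exact ⟨V, a, b03_mk h1 hV hne hall (mul_neg_of_pos_of_neg ha' hb')
        (mul_neg_of_pos_of_neg ha' hc') (mul_pos_of_neg_of_neg hb' hc')⟩
    · exact ⟨V, b, b03_mk h2 hV hne hallb (mul_neg_of_neg_of_pos hb' ha')
        (mul_neg_of_neg_of_pos hb' hc') (mul_pos ha' hc')⟩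
    · exact ⟨V, c, b03_mk h3 hV hne hallc (mul_neg_of_neg_of_pos hc' ha')
        (mul_neg_of_neg_of_pos hc' hb') (mul_pos ha' hb')⟩
    · exfalso; linarith
  · right
    push Not at hne
    obtain ⟨w, hw, hw0⟩ := hne
    obtain ⟨j, hj⟩ := b03_edge V w hw.symm
    refine ⟨j, par_edge hd j ?_ ?_⟩
    · rcases hj with ⟨h1, h2⟩ | ⟨h1, h2⟩
      · rw [h1]; exact hV
      · rw [h1]; exact hw0
    · rcases hj with ⟨h1, h2⟩ | ⟨h1, h2⟩
      · rw [h2]; exact hw0
      · rw [h2]; exact hV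

private theorem b03_swap (f g : Fin 4 → ℝ) (v : Fin 4) : cr g f v = -cr f g v := by
  fin_cases v
  · show -(((g 2 - g 0) * (f 3 - f 0) - (f 2 - f 0) * (g 3 - g 0)) +
      ((g 3 - g 0) * (f 1 - f 0) - (f 3 - f 0) * (g 1 - g 0)) +
      ((g 1 - g 0) * (f 2 - f 0) - (f 1 - f 0) * (g 2 - g 0))) =
      -(-(((f 2 - f 0) * (g 3 - g 0) - (g 2 - g 0) * (f 3 - f 0)) +
      ((f 3 - f 0) * (g 1 - g 0) - (g 3 - g 0) * (f 1 - f 0)) +
      ((f 1 - f 0) * (g 2 - g 0) - (g 1 - g 0) * (f 2 - f 0))))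
    ring
  · show (g 2 - g 0) * (f 3 - f 0) - (f 2 - f 0) * (g 3 - g 0) =
      -((f 2 - f 0) * (g 3 - g 0) - (g 2 - g 0) * (f 3 - f 0))
    ring
  · show (g 3 - g 0) * (f 1 - f 0) - (f 3 - f 0) * (g 1 - g 0) =
      -((f 3 - f 0) * (g 1 - g 0) - (g 3 - g 0) * (f 1 - f 0))
    ring
  · show (g 1 - g 0) * (f 2 - f 0) - (f 1 - f 0) * (g 2 - g 0) =
      -((f 1 - f 0) * (g 2 - g 0) - (g 1 - g 0) * (f 2 - f 0))
    ring

theorem Flat.swap {f g : Fin 4 → ℝ} {V m : Fin 4} (h : Flat f g V m) : Flat g f V m := by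
  obtain ⟨h1, h2, h3, h4⟩ := h
  refine ⟨h1, by rw [b03_swap, h2, neg_zero], ?_, ?_⟩
  · intro v hv
    rw [b03_swap]
    exact neg_ne_zero.mpr (h3 v hv)
  · intro p r hp hr hpm hrm hpr
    have := h4 p r hp hr hpm hrm hpr
    rw [b03_swap f g p, b03_swap f g r, b03_swap f g m, neg_mul_neg, neg_mul_neg]
    exact this

private theorem b03_cr0 (f g : Fin 4 → ℝ) : cr f g 0 =
    -(((f 2 - f 0) * (g 3 - g 0) - (g 2 - g 0) * (f 3 - f 0)) +
      ((f 3 - f 0) * (g 1 - g 0) - (g 3 - g 0) * (f 1 - f 0)) +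
      ((f 1 - f 0) * (g 2 - g 0) - (g 1 - g 0) * (f 2 - f 0))) := rfl

private theorem b03_cr1 (f g : Fin 4 → ℝ) :
    cr f g 1 = (f 2 - f 0) * (g 3 - g 0) - (g 2 - g 0) * (f 3 - f 0) := rfl

private theorem b03_cr2 (f g : Fin 4 → ℝ) :
    cr f g 2 = (f 3 - f 0) * (g 1 - g 0) - (g 3 - g 0) * (f 1 - f 0) := rfl

private theorem b03_cr3 (f g : Fin 4 → ℝ) :
    cr f g 3 = (f 1 - f 0) * (g 2 - g 0) - (g 1 - g 0) * (f 2 - f 0) := rfl

private theorem b03_sw01 (f g : Fin 4 → ℝ) (v : Fin 4) :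
    cr (f ∘ Equiv.swap 0 1) (g ∘ Equiv.swap 0 1) v = -cr f g (Equiv.swap 0 1 v) := by
  have e0 : Equiv.swap (0 : Fin 4) 1 0 = 1 := by decide
  have e1 : Equiv.swap (0 : Fin 4) 1 1 = 0 := by decide
  have e2 : Equiv.swap (0 : Fin 4) 1 2 = 2 := by decide
  have e3 : Equiv.swap (0 : Fin 4) 1 3 = 3 := by decide
  have kv : ∀ v : Fin 4, v = 0 ∨ v = 1 ∨ v = 2 ∨ v = 3 := by decide
  rcases kv v with rfl | rfl | rfl | rfl
  · rw [e0]
    simp only [b03_cr0, b03_cr1, b03_cr2, b03_cr3, Function.comp_apply, e0, e1, e2, e3]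
    ring
  · rw [e1]
    simp only [b03_cr0, b03_cr1, b03_cr2, b03_cr3, Function.comp_apply, e0, e1, e2, e3]
    ring
  · rw [e2]
    simp only [b03_cr0, b03_cr1, b03_cr2, b03_cr3, Function.comp_apply, e0, e1, e2, e3]
    ring
  · rw [e3]
    simp only [b03_cr0, b03_cr1, b03_cr2, b03_cr3, Function.comp_apply, e0, e1, e2, e3]
    ring

private theorem b03_sw02 (f g : Fin 4 → ℝ) (v : Fin 4) :
    cr (f ∘ Equiv.swap 0 2) (g ∘ Equiv.swap 0 2) v = -cr f g (Equiv.swap 0 2 v) := by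
  have e0 : Equiv.swap (0 : Fin 4) 2 0 = 2 := by decide
  have e1 : Equiv.swap (0 : Fin 4) 2 1 = 1 := by decide
  have e2 : Equiv.swap (0 : Fin 4) 2 2 = 0 := by decide
  have e3 : Equiv.swap (0 : Fin 4) 2 3 = 3 := by decide
  have kv : ∀ v : Fin 4, v = 0 ∨ v = 1 ∨ v = 2 ∨ v = 3 := by decide
  rcases kv v with rfl | rfl | rfl | rfl
  · rw [e0]
    simp only [b03_cr0, b03_cr1, b03_cr2, b03_cr3, Function.comp_apply, e0, e1, e2, e3]
    ring
  · rw [e1]
    simp only [b03_cr0, b03_cr1, b03_cr2, b03_cr3, Function.comp_apply, e0, e1, e2, e3]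
    ring
  · rw [e2]
    simp only [b03_cr0, b03_cr1, b03_cr2, b03_cr3, Function.comp_apply, e0, e1, e2, e3]
    ring
  · rw [e3]
    simp only [b03_cr0, b03_cr1, b03_cr2, b03_cr3, Function.comp_apply, e0, e1, e2, e3]
    ring

private theorem b03_sw03 (f g : Fin 4 → ℝ) (v : Fin 4) :
    cr (f ∘ Equiv.swap 0 3) (g ∘ Equiv.swap 0 3) v = -cr f g (Equiv.swap 0 3 v) := by
  have e0 : Equiv.swap (0 : Fin 4) 3 0 = 3 := by decide
  have e1 : Equiv.swap (0 : Fin 4) 3 1 = 1 := by decide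
  have e2 : Equiv.swap (0 : Fin 4) 3 2 = 2 := by decide
  have e3 : Equiv.swap (0 : Fin 4) 3 3 = 0 := by decide
  have kv : ∀ v : Fin 4, v = 0 ∨ v = 1 ∨ v = 2 ∨ v = 3 := by decide
  rcases kv v with rfl | rfl | rfl | rfl
  · rw [e0]
    simp only [b03_cr0, b03_cr1, b03_cr2, b03_cr3, Function.comp_apply, e0, e1, e2, e3]
    ring
  · rw [e1]
    simp only [b03_cr0, b03_cr1, b03_cr2, b03_cr3, Function.comp_apply, e0, e1, e2, e3]
    ring
  · rw [e2]
    simp only [b03_cr0, b03_cr1, b03_cr2, b03_cr3, Function.comp_apply, e0, e1, e2, e3]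
    ring
  · rw [e3]
    simp only [b03_cr0, b03_cr1, b03_cr2, b03_cr3, Function.comp_apply, e0, e1, e2, e3]
    ring

private theorem b03_sw12 (f g : Fin 4 → ℝ) (v : Fin 4) :
    cr (f ∘ Equiv.swap 1 2) (g ∘ Equiv.swap 1 2) v = -cr f g (Equiv.swap 1 2 v) := by
  have e0 : Equiv.swap (1 : Fin 4) 2 0 = 0 := by decide
  have e1 : Equiv.swap (1 : Fin 4) 2 1 = 2 := by decide
  have e2 : Equiv.swap (1 : Fin 4) 2 2 = 1 := by decide
  have e3 : Equiv.swap (1 : Fin 4) 2 3 = 3 := by decide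
  have kv : ∀ v : Fin 4, v = 0 ∨ v = 1 ∨ v = 2 ∨ v = 3 := by decide
  rcases kv v with rfl | rfl | rfl | rfl
  · rw [e0]
    simp only [b03_cr0, b03_cr1, b03_cr2, b03_cr3, Function.comp_apply, e0, e1, e2, e3]
    ring
  · rw [e1]
    simp only [b03_cr0, b03_cr1, b03_cr2, b03_cr3, Function.comp_apply, e0, e1, e2, e3]
    ring
  · rw [e2]
    simp only [b03_cr0, b03_cr1, b03_cr2, b03_cr3, Function.comp_apply, e0, e1, e2, e3]
    ring
  · rw [e3]
    simp only [b03_cr0, b03_cr1, b03_cr2, b03_cr3, Function.comp_apply, e0, e1, e2, e3]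
    ring

private theorem b03_sw13 (f g : Fin 4 → ℝ) (v : Fin 4) :
    cr (f ∘ Equiv.swap 1 3) (g ∘ Equiv.swap 1 3) v = -cr f g (Equiv.swap 1 3 v) := by
  have e0 : Equiv.swap (1 : Fin 4) 3 0 = 0 := by decide
  have e1 : Equiv.swap (1 : Fin 4) 3 1 = 3 := by decide
  have e2 : Equiv.swap (1 : Fin 4) 3 2 = 2 := by decide
  have e3 : Equiv.swap (1 : Fin 4) 3 3 = 1 := by decide
  have kv : ∀ v : Fin 4, v = 0 ∨ v = 1 ∨ v = 2 ∨ v = 3 := by decide
  rcases kv v with rfl | rfl | rfl | rfl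
  · rw [e0]
    simp only [b03_cr0, b03_cr1, b03_cr2, b03_cr3, Function.comp_apply, e0, e1, e2, e3]
    ring
  · rw [e1]
    simp only [b03_cr0, b03_cr1, b03_cr2, b03_cr3, Function.comp_apply, e0, e1, e2, e3]
    ring
  · rw [e2]
    simp only [b03_cr0, b03_cr1, b03_cr2, b03_cr3, Function.comp_apply, e0, e1, e2, e3]
    ring
  · rw [e3]
    simp only [b03_cr0, b03_cr1, b03_cr2, b03_cr3, Function.comp_apply, e0, e1, e2, e3]
    ring

private theorem b03_sw23 (f g : Fin 4 → ℝ) (v : Fin 4) :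
    cr (f ∘ Equiv.swap 2 3) (g ∘ Equiv.swap 2 3) v = -cr f g (Equiv.swap 2 3 v) := by
  have e0 : Equiv.swap (2 : Fin 4) 3 0 = 0 := by decide
  have e1 : Equiv.swap (2 : Fin 4) 3 1 = 1 := by decide
  have e2 : Equiv.swap (2 : Fin 4) 3 2 = 3 := by decide
  have e3 : Equiv.swap (2 : Fin 4) 3 3 = 2 := by decide
  have kv : ∀ v : Fin 4, v = 0 ∨ v = 1 ∨ v = 2 ∨ v = 3 := by decide
  rcases kv v with rfl | rfl | rfl | rfl
  · rw [e0]
    simp only [b03_cr0, b03_cr1, b03_cr2, b03_cr3, Function.comp_apply, e0, e1, e2, e3]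
    ring
  · rw [e1]
    simp only [b03_cr0, b03_cr1, b03_cr2, b03_cr3, Function.comp_apply, e0, e1, e2, e3]
    ring
  · rw [e2]
    simp only [b03_cr0, b03_cr1, b03_cr2, b03_cr3, Function.comp_apply, e0, e1, e2, e3]
    ring
  · rw [e3]
    simp only [b03_cr0, b03_cr1, b03_cr2, b03_cr3, Function.comp_apply, e0, e1, e2, e3]
    ring

private theorem b03_sw (f g : Fin 4 → ℝ) (a b : Fin 4) (hab : a ≠ b) (v : Fin 4) :
    cr (f ∘ Equiv.swap a b) (g ∘ Equiv.swap a b) v = -cr f g (Equiv.swap a b v) := by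
  have key : ∀ a b : Fin 4, a ≠ b → (a = 0 ∧ b = 1) ∨ (a = 0 ∧ b = 2) ∨ (a = 0 ∧ b = 3) ∨
      (a = 1 ∧ b = 2) ∨ (a = 1 ∧ b = 3) ∨ (a = 2 ∧ b = 3) ∨ (a = 1 ∧ b = 0) ∨ (a = 2 ∧ b = 0) ∨
      (a = 3 ∧ b = 0) ∨ (a = 2 ∧ b = 1) ∨ (a = 3 ∧ b = 1) ∨ (a = 3 ∧ b = 2) := by decide
  rcases key a b hab with ⟨rfl, rfl⟩ | ⟨rfl, rfl⟩ | ⟨rfl, rfl⟩ | ⟨rfl, rfl⟩ | ⟨rfl, rfl⟩ |
    ⟨rfl, rfl⟩ | ⟨rfl, rfl⟩ | ⟨rfl, rfl⟩ | ⟨rfl, rfl⟩ | ⟨rfl, rfl⟩ | ⟨rfl, rfl⟩ | ⟨rfl, rfl⟩
  · exact b03_sw01 f g v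
  · exact b03_sw02 f g v
  · exact b03_sw03 f g v
  · exact b03_sw12 f g v
  · exact b03_sw13 f g v
  · exact b03_sw23 f g v
  · rw [Equiv.swap_comm]; exact b03_sw01 f g v
  · rw [Equiv.swap_comm]; exact b03_sw02 f g v
  · rw [Equiv.swap_comm]; exact b03_sw03 f g v
  · rw [Equiv.swap_comm]; exact b03_sw12 f g v
  · rw [Equiv.swap_comm]; exact b03_sw13 f g v
  · rw [Equiv.swap_comm]; exact b03_sw23 f g v

private theorem b03_perm (σ : Equiv.Perm (Fin 4)) : ∀ f g : Fin 4 → ℝ, ∃ s : ℝ, s ^ 2 = 1 ∧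
    ∀ v, cr (f ∘ σ) (g ∘ σ) v = s * cr f g (σ v) := by
  induction σ using Equiv.Perm.swap_induction_on with
  | one =>
    intro f g
    refine ⟨1, by norm_num, fun v => ?_⟩
    rw [one_mul]
    rfl
  | swap_mul τ a b hab ih =>
    intro f g
    obtain ⟨s, hs, h⟩ := ih (f ∘ Equiv.swap a b) (g ∘ Equiv.swap a b)
    refine ⟨-s, by rw [neg_sq]; exact hs, fun v => ?_⟩
    have e := h v
    rw [b03_sw f g a b hab] at e
    have e2 : cr (f ∘ (Equiv.swap a b * τ : Equiv.Perm (Fin 4)))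
      (g ∘ (Equiv.swap a b * τ : Equiv.Perm (Fin 4))) v = s * -cr f g (Equiv.swap a b (τ v)) := e
    rw [e2]
    show s * -cr f g (Equiv.swap a b (τ v)) = -s * cr f g (Equiv.swap a b (τ v))
    ring

theorem Flat.perm {f g : Fin 4 → ℝ} {V m : Fin 4} (h : Flat f g V m) (σ : Equiv.Perm (Fin 4)) :
    Flat (f ∘ σ) (g ∘ σ) (σ.symm V) (σ.symm m) := by
  obtain ⟨h1, h2, h3, h4⟩ := h
  obtain ⟨s, hs, hc⟩ := b03_perm σ f g
  have hs0 : s ≠ 0 := by
    rintro rfl
    norm_num at hs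
  have hss : s * s = 1 := by rw [← sq]; exact hs
  refine ⟨fun e => h1 (σ.symm.injective e), ?_, ?_, ?_⟩
  · rw [hc, Equiv.apply_symm_apply, h2, mul_zero]
  · intro v hv
    rw [hc]
    exact mul_ne_zero hs0 (h3 _ (fun e => hv (by rw [← e, Equiv.symm_apply_apply])))
  · intro p r hp hr hpm hrm hpr
    have := h4 (σ p) (σ r) (fun e => hp (by rw [← e, Equiv.symm_apply_apply]))
      (fun e => hr (by rw [← e, Equiv.symm_apply_apply]))
      (fun e => hpm (by rw [← e, Equiv.symm_apply_apply]))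
      (fun e => hrm (by rw [← e, Equiv.symm_apply_apply])) (fun e => hpr (σ.injective e))
    rw [hc, hc, hc, Equiv.apply_symm_apply]
    constructor
    · calc (0 : ℝ) < cr f g (σ p) * cr f g (σ r) := this.1
        _ = s * s * (cr f g (σ p) * cr f g (σ r)) := by rw [hss, one_mul]
        _ = _ := by ring
    · calc s * cr f g (σ p) * (s * cr f g m) = s * s * (cr f g (σ p) * cr f g m) := by ring
        _ = cr f g (σ p) * cr f g m := by rw [hss, one_mul]
        _ < 0 := this.2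

/-- the affine relation on the line -/
private theorem b03_mid {f g : Fin 4 → ℝ} {V m p r : Fin 4} (h : Flat f g V m) (hp : p ≠ V)
    (hr : r ≠ V) (hpm : p ≠ m) (hrm : r ≠ m) (hpr : p ≠ r) : ∃ l : ℝ, 0 < l ∧ l < 1 ∧
      f m = f p + l * (f r - f p) ∧ g m = g p + l * (g r - g p) := by
  obtain ⟨h1, h2, h3, h4⟩ := h
  obtain ⟨h5, h6⟩ := h4 p r hp hr hpm hrm hpr
  have hs := b03_sum (f := f) (g := g) hp h1.symm hr hpm hpr hrm.symm
  obtain ⟨e1, e2⟩ := b03_sumf (f := f) (g := g) hp h1.symm hr hpm hpr hrm.symm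
  rw [h2] at hs e1 e2
  have hp0 := h3 p hp
  have hr0 := h3 r hr
  have hm0 := h3 m h1.symm
  have hM : cr f g m = -(cr f g p + cr f g r) := by linarith
  have hsum : cr f g p + cr f g r ≠ 0 := by
    intro e
    apply hm0
    rw [hM, e, neg_zero]
  rw [hM] at e1 e2
  have hpos : 0 < (cr f g p + cr f g r) ^ 2 := by positivity
  refine ⟨cr f g r / (cr f g p + cr f g r), ?_, ?_, ?_, ?_⟩
  · have : cr f g r / (cr f g p + cr f g r) =
        (cr f g r * (cr f g p + cr f g r)) / (cr f g p + cr f g r) ^ 2 := by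
      field_simp
    rw [this]
    apply div_pos _ hpos
    nlinarith [sq_nonneg (cr f g r)]
  · have : 1 - cr f g r / (cr f g p + cr f g r) =
        (cr f g p * (cr f g p + cr f g r)) / (cr f g p + cr f g r) ^ 2 := by
      field_simp
      ring
    have h7 : 0 < (cr f g p * (cr f g p + cr f g r)) / (cr f g p + cr f g r) ^ 2 := by
      apply div_pos _ hpos
      nlinarith [sq_nonneg (cr f g p)]
    linarith
  · field_simp
    linarith
  · field_simp
    linarith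

private theorem b03_ne {f g : Fin 4 → ℝ} {V m p r : Fin 4} (h : Flat f g V m) (q : Fin 4)
    (hqV : q ≠ V) (hqp : q ≠ p) (hqr : q ≠ r) (hpr : p ≠ r) :
    0 < (f p - f r) ^ 2 + (g p - g r) ^ 2 := by
  by_contra hcon
  obtain ⟨j, hj, hv⟩ := b03_edge' p r hpr
  have hPP : PP f g j = (f p - f r) ^ 2 + (g p - g r) ^ 2 := by
    unfold PP
    rcases hj with ⟨h1, h2⟩ | ⟨h1, h2⟩
    · rw [h1, h2]
    · rw [h1, h2]; ring
  have h0 : PP f g j = 0 := by
    have := ST.PP_nonneg f g j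
    rw [hPP] at this ⊢
    linarith [not_lt.mp hcon]
  obtain ⟨h1, h2⟩ := ST.cr_vert f g j h0
  rcases hv q hqp hqr with e | e
  · exact h.2.2.1 q hqV (by rw [e]; exact h1)
  · exact h.2.2.1 q hqV (by rw [e]; exact h2)

theorem flat_mid {f g : Fin 4 → ℝ} {V m p r : Fin 4} (h : Flat f g V m) (hp : p ≠ V) (hr : r ≠ V)
    (hpm : p ≠ m) (hrm : r ≠ m) (hpr : p ≠ r) :
    0 < dd f g p m ∧ 0 < dd f g m r ∧ dd f g p r = dd f g p m + dd f g m r := by
  obtain ⟨l, hl0, hl1, e1, e2⟩ := b03_mid h hp hr hpm hrm hpr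
  have hne := b03_ne h m h.1.symm hpm.symm hrm.symm hpr
  have hD : 0 < dd f g p r := Real.sqrt_pos.mpr hne
  have h1 : dd f g p m = l * dd f g p r := by
    unfold dd
    rw [e1, e2]
    rw [show (f p - (f p + l * (f r - f p))) ^ 2 + (g p - (g p + l * (g r - g p))) ^ 2 =
      l ^ 2 * ((f p - f r) ^ 2 + (g p - g r) ^ 2) by ring, Real.sqrt_mul (sq_nonneg l),
      Real.sqrt_sq hl0.le]
  have h2 : dd f g m r = (1 - l) * dd f g p r := by
    unfold dd
    rw [e1, e2]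
    rw [show (f p + l * (f r - f p) - f r) ^ 2 + (g p + l * (g r - g p) - g r) ^ 2 =
      (1 - l) ^ 2 * ((f p - f r) ^ 2 + (g p - g r) ^ 2) by ring, Real.sqrt_mul (sq_nonneg (1 - l)),
      Real.sqrt_sq (by linarith)]
  refine ⟨by rw [h1]; positivity, by rw [h2]; exact mul_pos (by linarith) hD, ?_⟩
  rw [h1, h2]
  ring

private theorem b03_tri (a b c d : ℝ) (h : a * d - b * c ≠ 0) :
    √((a + c) ^ 2 + (b + d) ^ 2) < √(a ^ 2 + b ^ 2) + √(c ^ 2 + d ^ 2) := by
  have h1 : 0 ≤ a ^ 2 + b ^ 2 := by positivity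
  have h2 : 0 ≤ c ^ 2 + d ^ 2 := by positivity
  have h3 : 0 < (a * d - b * c) ^ 2 := by positivity
  have h4 : a * c + b * d < √(a ^ 2 + b ^ 2) * √(c ^ 2 + d ^ 2) := by
    rw [← Real.sqrt_mul h1]
    apply Real.lt_sqrt_of_sq_lt
    nlinarith
  have h5 := Real.sqrt_nonneg (a ^ 2 + b ^ 2)
  have h6 := Real.sqrt_nonneg (c ^ 2 + d ^ 2)
  rw [Real.sqrt_lt' (by
    by_contra hc
    have h7 : √(a ^ 2 + b ^ 2) = 0 := by linarith
    have h8 : √(c ^ 2 + d ^ 2) = 0 := by linarith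
    have h9 : a ^ 2 + b ^ 2 = 0 := by rw [← Real.sq_sqrt h1, h7]; ring
    have ha : a = 0 := by nlinarith [sq_nonneg a, sq_nonneg b]
    have hb : b = 0 := by nlinarith [sq_nonneg a, sq_nonneg b]
    apply h
    rw [ha, hb]
    ring)]
  have h7 := Real.sq_sqrt h1
  have h8 := Real.sq_sqrt h2
  nlinarith

private theorem b03_area {f g : Fin 4 → ℝ} (V p r q : Fin 4) (h1 : p ≠ V) (h2 : r ≠ V)
    (h3 : q ≠ V) (h4 : p ≠ r) (h5 : q ≠ p) (h6 : q ≠ r) :
    cr f g q ^ 2 = ((f p - f V) * (g r - g V) - (g p - g V) * (f r - f V)) ^ 2 := by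
  have hinj : Function.Injective (![V, p, r, q] : Fin 4 → Fin 4) := by
    intro i j hij
    have kv : ∀ v : Fin 4, v = 0 ∨ v = 1 ∨ v = 2 ∨ v = 3 := by decide
    rcases kv i with rfl | rfl | rfl | rfl <;> rcases kv j with rfl | rfl | rfl | rfl
    · rfl
    · exact absurd hij h1.symm
    · exact absurd hij h2.symm
    · exact absurd hij h3.symm
    · exact absurd hij h1
    · rfl
    · exact absurd hij h4
    · exact absurd hij h5.symm
    · exact absurd hij h2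
    · exact absurd hij h4.symm
    · rfl
    · exact absurd hij h6.symm
    · exact absurd hij h3
    · exact absurd hij h5
    · exact absurd hij h6
    · rfl
  have hbij := Finite.injective_iff_bijective.mp hinj
  obtain ⟨s, hs, h⟩ := b03_perm (Equiv.ofBijective _ hbij) f g
  have h7 : (f p - f V) * (g r - g V) - (g p - g V) * (f r - f V) = s * cr f g q := h 3
  rw [h7, mul_pow, hs, one_mul]

private theorem b03_third (V p r : Fin 4) (h1 : p ≠ V) (h2 : r ≠ V) (h3 : p ≠ r) :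
    ∃ q, q ≠ V ∧ q ≠ p ∧ q ≠ r := by
  revert h1 h2 h3
  revert V p r
  decide

theorem flat_tri {f g : Fin 4 → ℝ} {V m p r : Fin 4} (h : Flat f g V m) (hp : p ≠ V) (hr : r ≠ V)
    (hpr : p ≠ r) :
    0 < dd f g V p ∧ dd f g V p < dd f g V r + dd f g r p ∧
      dd f g p r < dd f g V p + dd f g V r := by
  obtain ⟨q, hqV, hqp, hqr⟩ := b03_third V p r hp hr hpr
  have ha := b03_area (f := f) (g := g) V p r q hp hr hqV hpr hqp hqr
  have hq := h.2.2.1 q hqV
  have hA : (f p - f V) * (g r - g V) - (g p - g V) * (f r - f V) ≠ 0 := by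
    intro e
    rw [e] at ha
    apply hq
    have : cr f g q ^ 2 = 0 := by rw [ha]; ring
    exact pow_eq_zero_iff (two_ne_zero) |>.mp this
  refine ⟨?_, ?_, ?_⟩
  · apply Real.sqrt_pos.mpr
    by_contra hcon
    have h0 : (f V - f p) ^ 2 + (g V - g p) ^ 2 = 0 :=
      le_antisymm (not_lt.mp hcon) (by positivity)
    have e1 : f V - f p = 0 := by nlinarith [sq_nonneg (f V - f p), sq_nonneg (g V - g p)]
    have e2 : g V - g p = 0 := by nlinarith [sq_nonneg (f V - f p), sq_nonneg (g V - g p)]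
    apply hA
    rw [show f p - f V = 0 by linarith, show g p - g V = 0 by linarith]
    ring
  · have := b03_tri (f V - f r) (g V - g r) (f r - f p) (g r - g p) (by
      intro e
      apply hA
      linear_combination -e)
    unfold dd
    rw [show f V - f r + (f r - f p) = f V - f p by ring,
      show g V - g r + (g r - g p) = g V - g p by ring] at this
    exact this
  · have := b03_tri (f p - f V) (g p - g V) (f V - f r) (g V - g r) (by
      intro e
      apply hA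
      linear_combination -e)
    rw [dd_comm f g V p]
    unfold dd
    rw [show f p - f V + (f V - f r) = f p - f r by ring,
      show g p - g V + (g V - g r) = g p - g r by ring] at this
    exact this

theorem stewart {f g : Fin 4 → ℝ} {V m p r : Fin 4} (h : Flat f g V m) (hp : p ≠ V) (hr : r ≠ V)
    (hpm : p ≠ m) (hrm : r ≠ m) (hpr : p ≠ r) :
    dd f g V p ^ 2 * dd f g m r + dd f g V r ^ 2 * dd f g p m =
      dd f g p r * (dd f g V m ^ 2 + dd f g p m * dd f g m r) := by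
  obtain ⟨l, hl0, hl1, e1, e2⟩ := b03_mid h hp hr hpm hrm hpr
  have h1 : dd f g p m = l * dd f g p r := by
    unfold dd
    rw [e1, e2]
    rw [show (f p - (f p + l * (f r - f p))) ^ 2 + (g p - (g p + l * (g r - g p))) ^ 2 =
      l ^ 2 * ((f p - f r) ^ 2 + (g p - g r) ^ 2) by ring, Real.sqrt_mul (sq_nonneg l),
      Real.sqrt_sq hl0.le]
  have h2 : dd f g m r = (1 - l) * dd f g p r := by
    unfold dd
    rw [e1, e2]
    rw [show (f p + l * (f r - f p) - f r) ^ 2 + (g p + l * (g r - g p) - g r) ^ 2 =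
      (1 - l) ^ 2 * ((f p - f r) ^ 2 + (g p - g r) ^ 2) by ring, Real.sqrt_mul (sq_nonneg (1 - l)),
      Real.sqrt_sq (by linarith)]
  have hsq : ∀ i j, dd f g i j ^ 2 = (f i - f j) ^ 2 + (g i - g j) ^ 2 := by
    intro i j
    unfold dd
    exact Real.sq_sqrt (by positivity)
  rw [h1, h2]
  have h3 := hsq p r
  rw [show dd f g V p ^ 2 * ((1 - l) * dd f g p r) + dd f g V r ^ 2 * (l * dd f g p r) =
      dd f g p r * (dd f g V p ^ 2 * (1 - l) + dd f g V r ^ 2 * l) by ring,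
    show l * dd f g p r * ((1 - l) * dd f g p r) = l * (1 - l) * dd f g p r ^ 2 by ring,
    hsq V p, hsq V r, hsq V m, h3, e1, e2]
  ring

end Pool.Agent.Helper22.PN
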