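import Pool.Agent.Helper22.PN.B03Flat

/-!
# PN-B04: the limits of the exterior angles in the two situations

`be_flat`: no edge has `PP y z j = 0` (else two faces have `cr y z = 0`, `ST.cr_vert`); an edge not at `V` lies in the face opposite
to `V`; the edge `V m` is between the faces opposite to the two other vertices `p, r` (product positive: `0`), the edge
`V p` between the faces opposite to `m` and `r` (product negative: `π`).
`be_double`: exactly the two faces at the edge `j` have `cr y z = 0`; the two other values are opposite and nonzero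
(`ST.cr_sum`; if they vanish then `dt = 0`), these are the faces at the opposite edge `j.rev = 5 - j`; every other edge is
in one of the two faces at `j` and has `PP y z ≠ 0`.  `arctan` has values in `(-π/2, π/2)` and vanishes only at `0`.
-/

open Real Set
open Pool.Agent.Helper1.Tet
open Pool.Agent.Helper22.ST (PP ZZ cr dt ind)

namespace Pool.Agent.Helper22.PN

private theorem b04_sw (f g : Fin 4 → ℝ) (v : Fin 4) : cr g f v = -cr f g v := by
  fin_cases v
  · show -(((g 2 - g 0) * (f 3 - f 0) - (f 2 - f 0) * (g 3 - g 0)) +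
      ((g 3 - g 0) * (f 1 - f 0) - (f 3 - f 0) * (g 1 - g 0)) +
      ((g 1 - g 0) * (f 2 - f 0) - (f 1 - f 0) * (g 2 - g 0))) =
      -(-(((f 2 - f 0) * (g 3 - g 0) - (g 2 - g 0) * (f 3 - f 0)) +
      ((f 3 - f 0) * (g 1 - g 0) - (g 3 - g 0) * (f 1 - f 0)) +
      ((f 1 - f 0) * (g 2 - g 0) - (g 1 - g 0) * (f 2 - f 0))))
    ring
  · show (g 2 - g 0) * (f 3 - f 0) - (f 2 - f 0) * (g 3 - g 0) =
      -((f 2 - f 0) * (g 3 - g 0) - (g 2 - g 0) * (f 3 - f 0))
    ring
  · show (g 3 - g 0) * (f 1 - f 0) - (f 3 - f 0) * (g 1 - g 0) =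
      -((f 3 - f 0) * (g 1 - g 0) - (g 3 - g 0) * (f 1 - f 0))
    ring
  · show (g 1 - g 0) * (f 2 - f 0) - (f 1 - f 0) * (g 2 - g 0) =
      -((f 1 - f 0) * (g 2 - g 0) - (g 1 - g 0) * (f 2 - f 0))
    ring

private theorem b04_dt (x y z : Fin 4 → ℝ) : dt x y z =
    (x 1 - x 0) * cr y z 1 + (x 2 - x 0) * cr y z 2 + (x 3 - x 0) * cr y z 3 := by
  show (x 1 - x 0) * ((y 2 - y 0) * (z 3 - z 0) - (z 2 - z 0) * (y 3 - y 0)) +
      (y 1 - y 0) * ((z 2 - z 0) * (x 3 - x 0) - (x 2 - x 0) * (z 3 - z 0)) +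
      (z 1 - z 0) * ((x 2 - x 0) * (y 3 - y 0) - (y 2 - y 0) * (x 3 - x 0)) =
    (x 1 - x 0) * ((y 2 - y 0) * (z 3 - z 0) - (z 2 - z 0) * (y 3 - y 0)) +
      (x 2 - x 0) * ((y 3 - y 0) * (z 1 - z 0) - (z 3 - z 0) * (y 1 - y 0)) +
      (x 3 - x 0) * ((y 1 - y 0) * (z 2 - z 0) - (z 1 - z 0) * (y 2 - y 0))
  ring

private theorem b04_dt_sw (x y z : Fin 4 → ℝ) : dt z y x = -dt x y z := by
  show (z 1 - z 0) * ((y 2 - y 0) * (x 3 - x 0) - (x 2 - x 0) * (y 3 - y 0)) +
      (y 1 - y 0) * ((x 2 - x 0) * (z 3 - z 0) - (z 2 - z 0) * (x 3 - x 0)) +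
      (x 1 - x 0) * ((z 2 - z 0) * (y 3 - y 0) - (y 2 - y 0) * (z 3 - z 0)) =
    -((x 1 - x 0) * ((y 2 - y 0) * (z 3 - z 0) - (z 2 - z 0) * (y 3 - y 0)) +
      (y 1 - y 0) * ((z 2 - z 0) * (x 3 - x 0) - (x 2 - x 0) * (z 3 - z 0)) +
      (z 1 - z 0) * ((x 2 - x 0) * (y 3 - y 0) - (y 2 - y 0) * (x 3 - x 0)))
  ring

private theorem b04_sum4 (c : Fin 4 → ℝ) (h : c 0 + c 1 + c 2 + c 3 = 0) (j : Fin 6) :
    c (ea j) + c (eb j) + (c (ec j) + c (ed j)) = 0 := by
  fin_cases j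
  · show c 0 + c 1 + (c 2 + c 3) = 0
    linarith
  · show c 0 + c 2 + (c 1 + c 3) = 0
    linarith
  · show c 0 + c 3 + (c 1 + c 2) = 0
    linarith
  · show c 1 + c 2 + (c 0 + c 3) = 0
    linarith
  · show c 1 + c 3 + (c 0 + c 2) = 0
    linarith
  · show c 2 + c 3 + (c 0 + c 1) = 0
    linarith

private theorem b04_all (c : Fin 4 → ℝ) (j : Fin 6) (h1 : c (ea j) = 0) (h2 : c (eb j) = 0)
    (h3 : c (ec j) = 0) (h4 : c (ed j) = 0) (v : Fin 4) : c v = 0 := by
  have h : ∀ (j : Fin 6) (v : Fin 4), v = ea j ∨ v = eb j ∨ v = ec j ∨ v = ed j := by decide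
  rcases h j v with h | h | h | h
  · rw [h, h1]
  · rw [h, h2]
  · rw [h, h3]
  · rw [h, h4]

private theorem b04_be_pos (x y z : Fin 4 → ℝ) {j : Fin 6} (h : PP y z j ≠ 0)
    (h' : 0 < cr y z (ec j) * cr y z (ed j)) : be x y z j = 0 := by
  unfold be
  rw [if_neg h, if_neg h'.ne', if_pos h']

private theorem b04_be_neg (x y z : Fin 4 → ℝ) {j : Fin 6} (h : PP y z j ≠ 0)
    (h' : cr y z (ec j) * cr y z (ed j) < 0) : be x y z j = π := by
  unfold be
  rw [if_neg h, if_neg h'.ne, if_neg (not_lt.2 h'.le)]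

private theorem b04_be_zero (x y z : Fin 4 → ℝ) {j : Fin 6} (h : PP y z j ≠ 0)
    (h' : cr y z (ec j) * cr y z (ed j) = 0) : be x y z j = π / 2 := by
  unfold be
  rw [if_neg h, if_pos h']

theorem be_flat {x y z : Fin 4 → ℝ} {V m : Fin 4} (h : Flat y z V m) (j : Fin 6) :
    be x y z j = pat V m j := by
  obtain ⟨hVm, hV, hne, hpr⟩ := h
  have d1 : ∀ j : Fin 6, ec j ≠ ed j := by decide
  have d2 : ∀ (j : Fin 6) (V : Fin 4), ¬ (ea j = V ∨ eb j = V) → ec j = V ∨ ed j = V := by decide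
  have d3 : ∀ (j : Fin 6) (V : Fin 4), (ea j = V ∨ eb j = V) → ec j ≠ V ∧ ed j ≠ V := by decide
  have d4 : ∀ V m p : Fin 4, ∃ r, r ≠ V ∧ r ≠ m ∧ r ≠ p := by decide
  have hP : PP y z j ≠ 0 := by
    intro h0
    obtain ⟨h1, h2⟩ := ST.cr_vert y z j h0
    have h3 : ec j = V := by
      by_contra h4
      exact hne _ h4 h1
    have h5 : ed j = V := by
      by_contra h4
      exact hne _ h4 h2
    exact d1 j (h3.trans h5.symm)
  unfold pat
  by_cases h1 : ea j = V ∨ eb j = V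
  · rw [if_pos h1]
    obtain ⟨h2, h3⟩ := d3 j V h1
    by_cases h4 : ea j = m ∨ eb j = m
    · rw [if_pos h4]
      obtain ⟨h5, h6⟩ := d3 j m h4
      exact b04_be_pos x y z hP (hpr _ _ h2 h3 h5 h6 (d1 j)).1
    · rw [if_neg h4]
      refine b04_be_neg x y z hP ?_
      rcases d2 j m h4 with h5 | h5
      · obtain ⟨r, hr1, hr2, hr3⟩ := d4 V m (ed j)
        have h6 : ed j ≠ m := fun h => d1 j (h5.trans h.symm)
        have h7 := (hpr (ed j) r h3 hr1 h6 hr2 hr3.symm).2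
        rw [h5, mul_comm]
        exact h7
      · obtain ⟨r, hr1, hr2, hr3⟩ := d4 V m (ec j)
        have h6 : ec j ≠ m := fun h => d1 j (h.trans h5.symm)
        have h7 := (hpr (ec j) r h2 hr1 h6 hr2 hr3.symm).2
        rw [h5]
        exact h7
  · rw [if_neg h1]
    refine b04_be_zero x y z hP ?_
    rcases d2 j V h1 with h2 | h2
    · rw [h2, hV, zero_mul]
    · rw [h2, hV, mul_zero]

theorem be_flat' {x y z : Fin 4 → ℝ} {V m : Fin 4} (h : Flat x y V m) (j : Fin 6) :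
    be z y x j = pat V m j := be_flat h.swap j

theorem be_double {x y z : Fin 4 → ℝ} (hd : dt x y z ≠ 0) {j : Fin 6} (h : PP y z j = 0) :
    0 < be x y z j ∧ be x y z j < π ∧
      (be x y z j = π / 2 ↔
        cr z x (ec j) * cr z x (ed j) + cr x y (ec j) * cr x y (ed j) = 0) ∧
      be x y z j.rev = π ∧ ∀ k, k ≠ j → k ≠ j.rev → be x y z k = π / 2 := by
  obtain ⟨hc, hd'⟩ := ST.cr_vert y z j h
  have hs := b04_sum4 (cr y z) (ST.cr_sum y z) j
  have ha : cr y z (ea j) ≠ 0 := by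
    intro h0
    have h1 : cr y z (eb j) = 0 := by linarith
    have h2 := b04_all (cr y z) j h0 h1 hc hd'
    apply hd
    rw [b04_dt, h2 1, h2 2, h2 3]
    ring
  have hb : cr y z (eb j) = -cr y z (ea j) := by linarith
  have hb' : cr y z (eb j) ≠ 0 := by
    rw [hb]
    exact neg_ne_zero.2 ha
  have hPx : 0 < PP x y j := by
    have h1 := ST.edge_pos x y z hd one_pos j
    have h2 : ZZ z j = 0 := by
      unfold PP at h
      unfold ZZ
      nlinarith [sq_nonneg (y (ea j) - y (eb j)), sq_nonneg (z (ea j) - z (eb j))]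
    rw [h2] at h1
    linarith
  have hD : |dt x y z| * √(PP x y j) ≠ 0 :=
    mul_ne_zero (abs_ne_zero.2 hd) (Real.sqrt_pos.2 hPx).ne'
  have hbe : be x y z j = π / 2 - arctan ((cr z x (ec j) * cr z x (ed j) +
      cr x y (ec j) * cr x y (ed j)) / (|dt x y z| * √(PP x y j))) := by
    unfold be
    rw [if_pos h]
  have hrev : ∀ j : Fin 6, (ec j.rev = ea j ∧ ed j.rev = eb j) ∨
      (ec j.rev = eb j ∧ ed j.rev = ea j) := by decide
  have hoth : ∀ j k : Fin 6, k ≠ j → k ≠ j.rev →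
      ((ec k = ec j ∨ ec k = ed j) ∧ (ed k = ea j ∨ ed k = eb j)) ∨
      ((ed k = ec j ∨ ed k = ed j) ∧ (ec k = ea j ∨ ec k = eb j)) := by decide
  refine ⟨?_, ?_, ?_, ?_, ?_⟩
  · rw [hbe]
    linarith [Real.arctan_lt_pi_div_two ((cr z x (ec j) * cr z x (ed j) +
      cr x y (ec j) * cr x y (ed j)) / (|dt x y z| * √(PP x y j)))]
  · rw [hbe]
    linarith [Real.neg_pi_div_two_lt_arctan ((cr z x (ec j) * cr z x (ed j) +
      cr x y (ec j) * cr x y (ed j)) / (|dt x y z| * √(PP x y j)))]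
  · rw [hbe]
    constructor
    · intro h1
      have h2 : arctan ((cr z x (ec j) * cr z x (ed j) +
          cr x y (ec j) * cr x y (ed j)) / (|dt x y z| * √(PP x y j))) = 0 := by linarith
      rw [Real.arctan_eq_zero_iff, div_eq_zero_iff] at h2
      exact h2.resolve_right hD
    · intro h1
      rw [h1, zero_div, Real.arctan_zero, sub_zero]
  · have hneg : cr y z (ec j.rev) * cr y z (ed j.rev) < 0 := by
      have h1 : 0 < cr y z (ea j) ^ 2 := by positivity
      rcases hrev j with ⟨e1, e2⟩ | ⟨e1, e2⟩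
      · rw [e1, e2, hb]
        nlinarith
      · rw [e1, e2, hb]
        nlinarith
    have hP : PP y z j.rev ≠ 0 := by
      intro h0
      have h1 := (ST.cr_vert y z j.rev h0).1
      rw [h1, zero_mul] at hneg
      exact lt_irrefl _ hneg
    exact b04_be_neg x y z hP hneg
  · intro k hk1 hk2
    have key : (cr y z (ec k) = 0 ∧ cr y z (ed k) ≠ 0) ∨
        (cr y z (ed k) = 0 ∧ cr y z (ec k) ≠ 0) := by
      rcases hoth j k hk1 hk2 with ⟨h1, h2⟩ | ⟨h1, h2⟩
      · left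
        constructor
        · rcases h1 with h1 | h1 <;> rw [h1] <;> assumption
        · rcases h2 with h2 | h2 <;> rw [h2] <;> assumption
      · right
        constructor
        · rcases h1 with h1 | h1 <;> rw [h1] <;> assumption
        · rcases h2 with h2 | h2 <;> rw [h2] <;> assumption
    have hP : PP y z k ≠ 0 := by
      intro h0
      obtain ⟨h1, h2⟩ := ST.cr_vert y z k h0
      rcases key with ⟨_, h3⟩ | ⟨_, h3⟩
      · exact h3 h2
      · exact h3 h1
    refine b04_be_zero x y z hP ?_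
    rcases key with ⟨h3, _⟩ | ⟨h3, _⟩
    · rw [h3, zero_mul]
    · rw [h3, mul_zero]

theorem be_double' {x y z : Fin 4 → ℝ} (hd : dt x y z ≠ 0) {j : Fin 6} (h : PP x y j = 0) :
    0 < be z y x j ∧ be z y x j < π ∧
      (be z y x j = π / 2 ↔
        cr z x (ec j) * cr z x (ed j) + cr y z (ec j) * cr y z (ed j) = 0) ∧
      be z y x j.rev = π ∧ ∀ k, k ≠ j → k ≠ j.rev → be z y x k = π / 2 := by
  have hd2 : dt z y x ≠ 0 := by
    rw [b04_dt_sw]
    exact neg_ne_zero.2 hd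
  have h2 : PP y x j = 0 := by
    rw [← h]
    unfold PP
    ring
  obtain ⟨h3, h4, h5, h6, h7⟩ := be_double hd2 h2
  refine ⟨h3, h4, ?_, h6, h7⟩
  rw [h5, b04_sw z x (ec j), b04_sw z x (ed j), b04_sw y z (ec j), b04_sw y z (ed j)]
  constructor
  · intro h8
    linarith
  · intro h8
    linarith

end Pool.Agent.Helper22.PN
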