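import Pool.Agent.Helper22.PN.A04Sq
import Pool.Agent.Helper22.PN.B02Split

/-!
# PN-B05: the values of `gg` at a zero of `ff`

`gg_sq`: `sq_rel`.
`double_ne`, `one_zero`: the bilinear form with matrix `diag (t + 1, t, t (t + 1))` is nondegenerate for `t ≠ 0, -1`.  If `ff t v = 0`
and two of the three `gg` at the face `v` vanish then all three do (`face_sum`), and `N_v` is orthogonal to all four normals, which
span the space (`dt ≠ 0`); so `N_v = 0`, impossible.  If both faces at `j` have `ff = 0` and `gg t j = 0` then the form vanishes on the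
plane spanned by the two normals; its signature is `(+,-,-)` or `(-,-,+)` (`t < 0`; for `t > 0` it is positive definite, `ff_pos`),
so this is impossible: e.g. by `sq_rel` also `LL t j = 0`, and a combination of the two normals has first component `0`
(for `-1 < t < 0`), so the form is negative definite there; for `t < -1` take third component `0`.
`SC_abs`: `gg_sq` for both edges and `SC_LL`.
-/

open Real Set
open Pool.Agent.Helper1.Tet
open Pool.Agent.Helper22.ST (PP ZZ cr dt ind)

namespace Pool.Agent.Helper22.PN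

variable {x y z : Fin 4 → ℝ}

theorem gg_sq {t : ℝ} {j : Fin 6} (h : ff x y z t (ec j) = 0 ∨ ff x y z t (ed j) = 0) :
    gg x y z t j ^ 2 = -(t * (t + 1) * dt x y z ^ 2 * LL x y z t j) := by
  have h1 := sq_rel x y z t j
  have h2 : ff x y z t (ec j) * ff x y z t (ed j) = 0 := mul_eq_zero.2 h
  rw [h2] at h1
  linarith

private theorem b05_comb (p p' : ℝ) : ∃ a b : ℝ, (a ≠ 0 ∨ b ≠ 0) ∧ a * p + b * p' = 0 := by
  by_cases hp : p = 0
  · exact ⟨1, 0, Or.inl one_ne_zero, by rw [hp]; ring⟩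
  · exact ⟨p', -p, Or.inr (neg_ne_zero.2 hp), by ring⟩

theorem double_ne (hd : dt x y z ≠ 0) {t : ℝ} (h0 : t ≠ 0) (h1 : t ≠ -1) {j : Fin 6}
    (h : ff x y z t (ec j) = 0) (h' : ff x y z t (ed j) = 0) : gg x y z t j ≠ 0 := by
  intro hg
  have ht : t < 0 := by
    rcases lt_trichotomy t 0 with h2 | h2 | h2
    · exact h2
    · exact absurd h2 h0
    · exact absurd h (ff_pos x y z hd h2 _).ne'
  have key := normals_ne x y z hd j
  unfold ff at h h'
  unfold gg at hg
  generalize cr y z (ec j) = p at h hg key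
  generalize cr y z (ed j) = p' at h' hg key
  generalize cr z x (ec j) = q at h hg key
  generalize cr z x (ed j) = q' at h' hg key
  generalize cr x y (ec j) = r at h hg key
  generalize cr x y (ed j) = r' at h' hg key
  have form : ∀ a b : ℝ, (t + 1) * (a * p + b * p') ^ 2 + t * (a * q + b * q') ^ 2 +
      t * (t + 1) * (a * r + b * r') ^ 2 = 0 := by
    intro a b
    linear_combination a ^ 2 * h + b ^ 2 * h' + 2 * a * b * hg
  rcases lt_or_gt_of_ne h1 with h2 | h2
  · -- `t < -1`: third component zero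
    obtain ⟨a, b, hab, hr⟩ := b05_comb r r'
    have f := form a b
    rw [hr] at f
    have s1 := sq_nonneg (a * p + b * p')
    have s2 := sq_nonneg (a * q + b * q')
    have e1 : (a * p + b * p') ^ 2 = 0 := by nlinarith
    have e2 : (a * q + b * q') ^ 2 = 0 := by nlinarith
    obtain ⟨ha, hb⟩ := key a b (pow_eq_zero_iff (two_ne_zero) |>.1 e1)
      (pow_eq_zero_iff (two_ne_zero) |>.1 e2) hr
    rcases hab with k | k
    · exact k ha
    · exact k hb
  · -- `-1 < t < 0`: first component zero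
    obtain ⟨a, b, hab, hp⟩ := b05_comb p p'
    have f := form a b
    rw [hp] at f
    have s1 := sq_nonneg (a * q + b * q')
    have s2 := sq_nonneg (a * r + b * r')
    have f2 : t * ((a * q + b * q') ^ 2 + (t + 1) * (a * r + b * r') ^ 2) = 0 := by
      linear_combination f
    have f3 : (a * q + b * q') ^ 2 + (t + 1) * (a * r + b * r') ^ 2 = 0 :=
      (mul_eq_zero.1 f2).resolve_left h0
    have h3 : 0 < t + 1 := by linarith
    have s3 : 0 ≤ (t + 1) * (a * r + b * r') ^ 2 := mul_nonneg h3.le s2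
    have e1 : (a * q + b * q') ^ 2 = 0 := by linarith
    have e2' : (t + 1) * (a * r + b * r') ^ 2 = 0 := by linarith
    have e2 : (a * r + b * r') ^ 2 = 0 := (mul_eq_zero.1 e2').resolve_left h3.ne'
    obtain ⟨ha, hb⟩ := key a b hp (pow_eq_zero_iff (two_ne_zero) |>.1 e1)
      (pow_eq_zero_iff (two_ne_zero) |>.1 e2)
    rcases hab with k | k
    · exact k ha
    · exact k hb

/-- the normals span the space -/
private theorem b05_span (hd : dt x y z ≠ 0) {A B C : ℝ}
    (h1 : A * cr y z 1 + B * cr z x 1 + C * cr x y 1 = 0)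
    (h2 : A * cr y z 2 + B * cr z x 2 + C * cr x y 2 = 0)
    (h3 : A * cr y z 3 + B * cr z x 3 + C * cr x y 3 = 0) : A = 0 ∧ B = 0 ∧ C = 0 := by
  have c1 : ∀ f g : Fin 4 → ℝ,
      cr f g 1 = (f 2 - f 0) * (g 3 - g 0) - (g 2 - g 0) * (f 3 - f 0) := fun _ _ => rfl
  have c2 : ∀ f g : Fin 4 → ℝ,
      cr f g 2 = (f 3 - f 0) * (g 1 - g 0) - (g 3 - g 0) * (f 1 - f 0) := fun _ _ => rfl
  have c3 : ∀ f g : Fin 4 → ℝ,
      cr f g 3 = (f 1 - f 0) * (g 2 - g 0) - (g 1 - g 0) * (f 2 - f 0) := fun _ _ => rfl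
  have dte : dt x y z =
    (x 1 - x 0) * cr y z 1 + (y 1 - y 0) * cr z x 1 + (z 1 - z 0) * cr x y 1 := rfl
  rw [c1, c1, c1] at h1
  rw [c2, c2, c2] at h2
  rw [c3, c3, c3] at h3
  rw [c1, c1, c1] at dte
  have eA : dt x y z * A = 0 := by
    rw [dte]
    linear_combination (x 1 - x 0) * h1 + (x 2 - x 0) * h2 + (x 3 - x 0) * h3
  have eB : dt x y z * B = 0 := by
    rw [dte]
    linear_combination (y 1 - y 0) * h1 + (y 2 - y 0) * h2 + (y 3 - y 0) * h3
  have eC : dt x y z * C = 0 := by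
    rw [dte]
    linear_combination (z 1 - z 0) * h1 + (z 2 - z 0) * h2 + (z 3 - z 0) * h3
  exact ⟨(mul_eq_zero.1 eA).resolve_left hd, (mul_eq_zero.1 eB).resolve_left hd,
    (mul_eq_zero.1 eC).resolve_left hd⟩

/-- the bilinear form of two normals -/
private def bf (x y z : Fin 4 → ℝ) (t : ℝ) (v w : Fin 4) : ℝ :=
  (t + 1) * (cr y z v * cr y z w) + t * (cr z x v * cr z x w) + t * (t + 1) * (cr x y v * cr x y w)

private theorem b05_all (hd : dt x y z ≠ 0) {t : ℝ} (h0 : t ≠ 0) (h1 : t ≠ -1) {v : Fin 4}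
    (e1 : bf x y z t v 1 = 0) (e2 : bf x y z t v 2 = 0) (e3 : bf x y z t v 3 = 0) : False := by
  have h1' : t + 1 ≠ 0 := fun h => h1 (by linarith)
  unfold bf at e1 e2 e3
  obtain ⟨a, b, c⟩ := b05_span hd (A := (t + 1) * cr y z v) (B := t * cr z x v)
    (C := t * (t + 1) * cr x y v) (by linear_combination e1) (by linear_combination e2)
    (by linear_combination e3)
  have a' : cr y z v = 0 := (mul_eq_zero.1 a).resolve_left h1'
  have b' : cr z x v = 0 := (mul_eq_zero.1 b).resolve_left h0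
  have c' : cr x y v = 0 := (mul_eq_zero.1 c).resolve_left (mul_ne_zero h0 h1')
  have hex : ∃ j : Fin 6, ec j = v ∨ ed j = v := by
    fin_cases v
    · exact ⟨3, Or.inl rfl⟩
    · exact ⟨1, Or.inl rfl⟩
    · exact ⟨0, Or.inl rfl⟩
    · exact ⟨0, Or.inr rfl⟩
  obtain ⟨j, hj | hj⟩ := hex
  · have k := (normals_ne x y z hd j 1 0 (by rw [hj, a']; ring) (by rw [hj, b']; ring)
      (by rw [hj, c']; ring)).1
    exact one_ne_zero k
  · have k := (normals_ne x y z hd j 0 1 (by rw [hj, a']; ring) (by rw [hj, b']; ring)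
      (by rw [hj, c']; ring)).2
    exact one_ne_zero k

private theorem bf_comm (x y z : Fin 4 → ℝ) (t : ℝ) (v w : Fin 4) :
    bf x y z t v w = bf x y z t w v := by
  unfold bf
  ring

private theorem bf_sum (x y z : Fin 4 → ℝ) (t : ℝ) (v : Fin 4) :
    bf x y z t v 0 + bf x y z t v 1 + bf x y z t v 2 + bf x y z t v 3 = 0 := by
  have s1 := ST.cr_sum y z
  have s2 := ST.cr_sum z x
  have s3 := ST.cr_sum x y
  unfold bf
  linear_combination (t + 1) * cr y z v * s1 + t * cr z x v * s2 + t * (t + 1) * cr x y v * s3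

private theorem bf_ff (x y z : Fin 4 → ℝ) (t : ℝ) (v : Fin 4) :
    bf x y z t v v = ff x y z t v := by
  unfold bf ff
  ring

private theorem bf_gg (x y z : Fin 4 → ℝ) (t : ℝ) (j : Fin 6) :
    gg x y z t j = bf x y z t (ec j) (ed j) := rfl

theorem one_zero (hd : dt x y z ≠ 0) {t : ℝ} (h0 : t ≠ 0) (h1 : t ≠ -1) {v : Fin 4}
    (hv : ff x y z t v = 0) {i j : Fin 6} (hi : inF v i) (hj : inF v j) (hij : i ≠ j) :
    gg x y z t i ≠ 0 ∨ gg x y z t j ≠ 0 := by
  by_contra hcon
  have hgi : gg x y z t i = 0 := by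
    by_contra k
    exact hcon (Or.inl k)
  have hgj : gg x y z t j = 0 := by
    by_contra k
    exact hcon (Or.inr k)
  rw [← bf_ff] at hv
  have hs := bf_sum x y z t v
  -- the three other faces
  have key : ∀ a b : Fin 4, a ≠ v → b ≠ v → a ≠ b → bf x y z t v a = 0 → bf x y z t v b = 0 →
      False := by
    intro a b ha hb hab ea' eb'
    have h4 : ∀ w : Fin 4, bf x y z t v w = 0 := by
      intro w
      fin_cases v <;> fin_cases a <;> fin_cases b <;> fin_cases w <;>
        first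
          | exact absurd rfl ha
          | exact absurd rfl hb
          | exact absurd rfl hab
          | exact hv
          | exact ea'
          | exact eb'
          | (simp only [Fin.zero_eta, Fin.mk_one, Fin.reduceFinMk] at hv ea' eb' hs ⊢; linarith)
    exact b05_all hd h0 h1 (h4 1) (h4 2) (h4 3)
  have oth : ∀ k : Fin 6, inF v k → gg x y z t k = 0 →
      ∃ w : Fin 4, w ≠ v ∧ bf x y z t v w = 0 ∧ (ec k = v ∧ ed k = w ∨ ec k = w ∧ ed k = v) := by
    intro k hk hg
    have hne : ec k ≠ ed k := by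
      fin_cases k <;> decide
    rw [bf_gg] at hg
    rcases hk with e | e
    · exact ⟨ed k, fun h => hne (e.trans h.symm), by rw [← e]; exact hg, Or.inl ⟨e, rfl⟩⟩
    · exact ⟨ec k, fun h => hne (h.trans e.symm), by rw [bf_comm, ← e]; exact hg, Or.inr ⟨rfl, e⟩⟩
  obtain ⟨a, ha, ea', ka⟩ := oth i hi hgi
  obtain ⟨b, hb, eb', kb⟩ := oth j hj hgj
  refine key a b ha hb ?_ ea' eb'
  intro hab
  apply hij
  subst hab
  revert ka kb ha
  clear * -
  revert i j v a
  decide

theorem gg_zero_iff (hd : dt x y z ≠ 0) {t : ℝ} (h0 : t ≠ 0) (h1 : t ≠ -1) {j : Fin 6}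
    (h : ff x y z t (ec j) = 0 ∨ ff x y z t (ed j) = 0) :
    gg x y z t j = 0 ↔ LL x y z t j = 0 := by
  have h2 := gg_sq h
  have h1' : t + 1 ≠ 0 := fun h => h1 (by linarith)
  constructor
  · intro hg
    rw [hg] at h2
    have h3 : t * (t + 1) * dt x y z ^ 2 * LL x y z t j = 0 := by linarith
    exact (mul_eq_zero.1 h3).resolve_left (mul_ne_zero (mul_ne_zero h0 h1') (pow_ne_zero 2 hd))
  · intro hl
    rw [hl] at h2
    have h3 : gg x y z t j ^ 2 = 0 := by linarith
    exact pow_eq_zero_iff (two_ne_zero) |>.1 h3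

theorem SC_LL {i j : Fin 6} (h : SC x y z i j) (t : ℝ) :
    LL x y z t i * (PP x y j + PP y z j) = LL x y z t j * (PP x y i + PP y z i) := by
  unfold SC at h
  unfold LL
  linear_combination (t - 1) * h

theorem SC_zero (hd : dt x y z ≠ 0) {i j : Fin 6} (h : SC x y z i j) {t : ℝ} :
    LL x y z t i = 0 ↔ LL x y z t j = 0 := by
  have h1 := SC_LL h t
  have hi := (uu_pos x y z hd i).1
  have hj := (uu_pos x y z hd j).1
  constructor
  · intro k
    rw [k, zero_mul] at h1
    exact (mul_eq_zero.1 h1.symm).resolve_right hi.ne'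
  · intro k
    rw [k, zero_mul] at h1
    exact (mul_eq_zero.1 h1).resolve_right hj.ne'

theorem SC_abs (hd : dt x y z ≠ 0) {t : ℝ} {i j : Fin 6} (h : SC x y z i j)
    (hi : ff x y z t (ec i) = 0 ∨ ff x y z t (ed i) = 0)
    (hj : ff x y z t (ec j) = 0 ∨ ff x y z t (ed j) = 0) :
    |gg x y z t i| * uu x y z j = |gg x y z t j| * uu x y z i := by
  have h1 := SC_LL h t
  have pi := (uu_pos x y z hd i).1
  have pj := (uu_pos x y z hd j).1
  have ui : uu x y z i ^ 2 = PP x y i + PP y z i := Real.sq_sqrt pi.le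
  have uj : uu x y z j ^ 2 = PP x y j + PP y z j := Real.sq_sqrt pj.le
  have gi := gg_sq hi
  have gj := gg_sq hj
  have n1 : 0 ≤ |gg x y z t i| * uu x y z j := mul_nonneg (abs_nonneg _) (Real.sqrt_nonneg _)
  have n2 : 0 ≤ |gg x y z t j| * uu x y z i := mul_nonneg (abs_nonneg _) (Real.sqrt_nonneg _)
  refine (sq_eq_sq₀ n1 n2).1 ?_
  rw [mul_pow, mul_pow, sq_abs, sq_abs, ui, uj, gi, gj]
  linear_combination (-(t * (t + 1) * dt x y z ^ 2)) * h1

theorem LL_two (hd : dt x y z ≠ 0) {s t : ℝ} (hst : s ≠ t) {j : Fin 6}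
    (h : LL x y z s j = 0) (h' : LL x y z t j = 0) : False := by
  have hp := (uu_pos x y z hd j).1
  unfold LL at h h'
  have h1 : (s - t) * PP x y j = 0 := by linear_combination h - h'
  have h2 : PP x y j = 0 := (mul_eq_zero.1 h1).resolve_left (sub_ne_zero.2 hst)
  rw [h2] at h hp
  linarith

private theorem b05_heron {a b c : ℝ} (ha : 0 < a) (hb : 0 < b) (hc : 0 < c)
    (h : 0 < heron a b c) : a < b + c ∧ b < a + c ∧ c < a + b := by
  unfold heron at h
  have hs : 0 < a + b + c := by linarith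
  have h1 : 0 < (a + b - c) * (a - b + c) * (-a + b + c) := by
    have e : (a + b + c) * (a + b - c) * (a - b + c) * (-a + b + c) =
      (a + b + c) * ((a + b - c) * (a - b + c) * (-a + b + c)) := by ring
    rw [e] at h
    exact (mul_pos_iff_of_pos_left hs).1 h
  refine ⟨?_, ?_, ?_⟩
  · by_contra k
    have k1 : -a + b + c ≤ 0 := by linarith
    have k2 : 0 ≤ (a + b - c) * (a - b + c) := mul_nonneg (by linarith) (by linarith)
    have := mul_nonpos_of_nonneg_of_nonpos k2 k1
    linarith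
  · by_contra k
    have k1 : a - b + c ≤ 0 := by linarith
    have k2 : 0 ≤ (a + b - c) * (-a + b + c) := mul_nonneg (by linarith) (by linarith)
    have := mul_nonpos_of_nonneg_of_nonpos k2 k1
    nlinarith
  · by_contra k
    have k1 : a + b - c ≤ 0 := by linarith
    have k2 : 0 ≤ (a - b + c) * (-a + b + c) := mul_nonneg (by linarith) (by linarith)
    have := mul_nonpos_of_nonneg_of_nonpos k2 k1
    nlinarith

/-- strict triangle inequalities for `uu` in the four faces -/
theorem uu_tri (hd : dt x y z ≠ 0) :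
    (uu x y z 3 < uu x y z 4 + uu x y z 5 ∧ uu x y z 4 < uu x y z 3 + uu x y z 5 ∧
      uu x y z 5 < uu x y z 3 + uu x y z 4) ∧
    (uu x y z 1 < uu x y z 2 + uu x y z 5 ∧ uu x y z 2 < uu x y z 1 + uu x y z 5 ∧
      uu x y z 5 < uu x y z 1 + uu x y z 2) ∧
    (uu x y z 0 < uu x y z 2 + uu x y z 4 ∧ uu x y z 2 < uu x y z 0 + uu x y z 4 ∧
      uu x y z 4 < uu x y z 0 + uu x y z 2) ∧
    (uu x y z 0 < uu x y z 1 + uu x y z 3 ∧ uu x y z 1 < uu x y z 0 + uu x y z 3 ∧
      uu x y z 3 < uu x y z 0 + uu x y z 1) := by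
  have hl : ∀ j, len (pt x y z 1) j = uu x y z j := by
    intro j
    rw [len_pt x y z one_pos j]
    unfold LL uu
    rw [one_mul]
  have hD : ∀ v, 0 < D (len (pt x y z 1)) v := by
    intro v
    rw [D_pt x y z one_pos v]
    have := ff_pos x y z hd one_pos v
    linarith
  have u := fun j => (uu_pos x y z hd j).2
  have d0 : 0 < heron (uu x y z 3) (uu x y z 4) (uu x y z 5) := by
    have := hD 0
    rw [← hl 3, ← hl 4, ← hl 5]
    exact this
  have d1 : 0 < heron (uu x y z 1) (uu x y z 2) (uu x y z 5) := by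
    have := hD 1
    rw [← hl 1, ← hl 2, ← hl 5]
    exact this
  have d2 : 0 < heron (uu x y z 0) (uu x y z 2) (uu x y z 4) := by
    have := hD 2
    rw [← hl 0, ← hl 2, ← hl 4]
    exact this
  have d3 : 0 < heron (uu x y z 0) (uu x y z 1) (uu x y z 3) := by
    have := hD 3
    rw [← hl 0, ← hl 1, ← hl 3]
    exact this
  exact ⟨b05_heron (u 3) (u 4) (u 5) d0, b05_heron (u 1) (u 2) (u 5) d1,
    b05_heron (u 0) (u 2) (u 4) d2, b05_heron (u 0) (u 1) (u 3) d3⟩

end Pool.Agent.Helper22.PN
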