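import Pool.Agent.Helper22.PN.A02Indep

/-!
# PN-B06: the zeros of `ff`

`ff t v = (t + 1) N1² + t N2² + t (t + 1) N3²` with `ff 0 = N1²`, `ff (-1) = -N2²`, leading coefficient `N3²`.
`root_unique*`: two different zeros `r, s` give `ff = N3² (t - r) (t - s)`, so `ff (-1) > 0` if both are on the same side of `-1`
(and `N3 ≠ 0`; for `N3 = 0` the polynomial is of degree one; it is not the zero polynomial: `ff_pos`).
`share_two`: `ff t v = N3² (t - r) (t - s)`, so `N1² = N3² r s`, `N1² + N2² + N3² = - N3² (r + s)`, for both faces.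
`special`: if `ff t v ≠ 0` for all `t ≠ 0, -1`, `N1 ≠ 0`, `N3 ≠ 0`, then `N2 = 0` and `N1² = N3²`.
-/

open Real Set
open Pool.Agent.Helper1.Tet
open Pool.Agent.Helper22.ST (PP ZZ cr dt ind)

namespace Pool.Agent.Helper22.PN

variable {x y z : Fin 4 → ℝ}

private theorem b6sq {a : ℝ} (h : a ≠ 0) : 0 < a ^ 2 := by positivity

theorem two_roots {v : Fin 4} (n1 : cr y z v ≠ 0) (n2 : cr z x v ≠ 0) (n3 : cr x y v ≠ 0) :
    ∃ r s : ℝ, -1 < r ∧ r < 0 ∧ s < -1 ∧ ff x y z r v = 0 ∧ ff x y z s v = 0 := by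
  have p1 := b6sq n1
  have p2 := b6sq n2
  have p3 := b6sq n3
  have hc : Continuous fun t => ff x y z t v := by
    unfold ff
    fun_prop
  have h0 : 0 < ff x y z 0 v := by
    unfold ff
    linarith
  have h1 : ff x y z (-1) v < 0 := by
    unfold ff
    linarith
  obtain ⟨M, hM⟩ : ∃ M : ℝ, (M - 1) * cr x y v ^ 2 = cr y z v ^ 2 + cr z x v ^ 2 := by
    refine ⟨1 + (cr y z v ^ 2 + cr z x v ^ 2) / cr x y v ^ 2, ?_⟩
    field_simp
    ring
  have hM1 : 1 < M := by
    by_contra hh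
    push Not at hh
    have : (M - 1) * cr x y v ^ 2 ≤ 0 := mul_nonpos_of_nonpos_of_nonneg (by linarith) p3.le
    linarith
  have h2 : 0 < ff x y z (-M) v := by
    have : ff x y z (-M) v = cr y z v ^ 2 := by
      unfold ff
      linear_combination M * hM
    rw [this]
    exact p1
  have i1 := intermediate_value_Ioo (a := (-1 : ℝ)) (b := 0) (by norm_num) hc.continuousOn
  have i2 := intermediate_value_Ioo' (a := -M) (b := (-1 : ℝ)) (by linarith) hc.continuousOn
  obtain ⟨r, hr, er⟩ := i1 ⟨h1, h0⟩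
  obtain ⟨s, hs, es⟩ := i2 ⟨h1, h2⟩
  exact ⟨r, s, hr.1, hr.2, hs.2, er, es⟩

/-- a face parallel to the third axis only -/
theorem root_pos {v : Fin 4} (n1 : cr y z v ≠ 0) (n2 : cr z x v ≠ 0) (n3 : cr x y v = 0) :
    ∃ r : ℝ, -1 < r ∧ r < 0 ∧ ff x y z r v = 0 := by
  have p1 := b6sq n1
  have p2 := b6sq n2
  have p : 0 < cr y z v ^ 2 + cr z x v ^ 2 := by linarith
  refine ⟨-(cr y z v ^ 2 / (cr y z v ^ 2 + cr z x v ^ 2)), ?_, ?_, ?_⟩
  · rw [neg_lt_neg_iff, div_lt_one p]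
    linarith
  · rw [neg_lt_zero]
    exact div_pos p1 p
  · unfold ff
    rw [n3]
    field_simp
    ring

/-- a face parallel to the first axis only -/
theorem root_neg {v : Fin 4} (n1 : cr y z v = 0) (n2 : cr z x v ≠ 0) (n3 : cr x y v ≠ 0) :
    ∃ s : ℝ, s < -1 ∧ ff x y z s v = 0 := by
  have p2 := b6sq n2
  have p3 := b6sq n3
  refine ⟨-1 - cr z x v ^ 2 / cr x y v ^ 2, ?_, ?_⟩
  · have := div_pos p2 p3
    linarith
  · unfold ff
    rw [n1]
    field_simp
    ring

private theorem b6prod (hd : dt x y z ≠ 0) {v : Fin 4} {r s : ℝ} (hp : 0 < (1 + r) * (1 + s))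
    (h : ff x y z r v = 0) (h' : ff x y z s v = 0) : r = s := by
  by_contra hrs
  have hf := ff_pos x y z hd one_pos v
  unfold ff at h h' hf
  have e1 : cr y z v ^ 2 + cr z x v ^ 2 + (r + s + 1) * cr x y v ^ 2 = 0 := by
    have : (r - s) * (cr y z v ^ 2 + cr z x v ^ 2 + (r + s + 1) * cr x y v ^ 2) = 0 := by
      linear_combination h - h'
    exact (mul_eq_zero.1 this).resolve_left (sub_ne_zero.2 hrs)
  have e2 : cr z x v ^ 2 + (1 + r) * (1 + s) * cr x y v ^ 2 = 0 := by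
    linear_combination (1 + r) * e1 - h
  have q3 : cr x y v ^ 2 = 0 := by
    have a1 := sq_nonneg (cr x y v)
    have a2 := sq_nonneg (cr z x v)
    have a3 := mul_nonneg hp.le a1
    have a4 : (1 + r) * (1 + s) * cr x y v ^ 2 = 0 := by linarith
    exact (mul_eq_zero.1 a4).resolve_left hp.ne'
  have q2 : cr z x v ^ 2 = 0 := by
    rw [q3] at e2
    linarith
  have q1 : cr y z v ^ 2 = 0 := by
    rw [q3, q2] at e1
    linarith
  rw [q1, q2, q3] at hf
  norm_num at hf

theorem root_unique_pos (hd : dt x y z ≠ 0) {v : Fin 4} {r s : ℝ} (hr : -1 < r) (hs : -1 < s)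
    (h : ff x y z r v = 0) (h' : ff x y z s v = 0) : r = s :=
  b6prod hd (mul_pos (by linarith) (by linarith)) h h'

theorem root_unique_neg (hd : dt x y z ≠ 0) {v : Fin 4} {r s : ℝ} (hr : r < -1) (hs : s < -1)
    (h : ff x y z r v = 0) (h' : ff x y z s v = 0) : r = s :=
  b6prod hd (mul_pos_of_neg_of_neg (by linarith) (by linarith)) h h'

theorem root_nonpos (hd : dt x y z ≠ 0) {v : Fin 4} {t : ℝ} (h : ff x y z t v = 0) : t ≤ 0 := by
  by_contra hh
  push Not at hh
  exact (ff_pos x y z hd hh v).ne' h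

private theorem b6vieta {v : Fin 4} {r s : ℝ} (hrs : r ≠ s) (hr : ff x y z r v = 0)
    (hs : ff x y z s v = 0) :
    cr y z v ^ 2 = r * s * cr x y v ^ 2 ∧ cr z x v ^ 2 = -((1 + r) * (1 + s)) * cr x y v ^ 2 := by
  unfold ff at hr hs
  have e1 : cr y z v ^ 2 + cr z x v ^ 2 + (r + s + 1) * cr x y v ^ 2 = 0 := by
    have : (r - s) * (cr y z v ^ 2 + cr z x v ^ 2 + (r + s + 1) * cr x y v ^ 2) = 0 := by
      linear_combination hr - hs
    exact (mul_eq_zero.1 this).resolve_left (sub_ne_zero.2 hrs)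
  constructor
  · linear_combination hr - r * e1
  · linear_combination (1 + r) * e1 - hr

theorem share_two {v w : Fin 4} (n3 : cr x y v ≠ 0) (n3' : cr x y w ≠ 0)
    {r s : ℝ} (hrs : r ≠ s) (hr : ff x y z r v = 0) (hs : ff x y z s v = 0)
    (hr' : ff x y z r w = 0) (hs' : ff x y z s w = 0) :
    cr y z v ^ 2 * cr x y w ^ 2 = cr y z w ^ 2 * cr x y v ^ 2 ∧
      cr z x v ^ 2 * cr x y w ^ 2 = cr z x w ^ 2 * cr x y v ^ 2 := by
  obtain ⟨a, b⟩ := b6vieta hrs hr hs
  obtain ⟨a', b'⟩ := b6vieta hrs hr' hs'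
  rw [a, b, a', b']
  constructor <;> ring

theorem special {v : Fin 4} (n1 : cr y z v ≠ 0) (n3 : cr x y v ≠ 0)
    (h : ∀ t : ℝ, t ≠ 0 → t ≠ -1 → ff x y z t v ≠ 0) :
    cr z x v = 0 ∧ cr y z v ^ 2 = cr x y v ^ 2 := by
  have n2 : cr z x v = 0 := by
    by_contra n2
    obtain ⟨r, s, h1, h2, h3, h4, h5⟩ := two_roots n1 n2 n3
    exact h r h2.ne h1.ne' h4
  refine ⟨n2, ?_⟩
  have p1 := b6sq n1
  have p3 := b6sq n3
  by_contra hne
  refine h (-(cr y z v ^ 2 / cr x y v ^ 2)) ?_ ?_ ?_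
  · exact neg_ne_zero.2 (div_pos p1 p3).ne'
  · intro hh
    rw [neg_inj, div_eq_one_iff_eq p3.ne'] at hh
    exact hne hh
  · unfold ff
    rw [n2]
    field_simp
    ring

/-- signs at a common zero in `(-1, 0)`: reversed Cauchy-Schwarz inequality -/
theorem sign_pos (hd : dt x y z ≠ 0) {t : ℝ} (h0 : -1 < t) (h1 : t < 0) {j : Fin 6}
    (h : ff x y z t (ec j) = 0) (h' : ff x y z t (ed j) = 0) :
    0 < gg x y z t j * (cr y z (ec j) * cr y z (ed j)) := by
  have hn := normals_ne x y z hd j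
  unfold ff at h h'
  unfold gg
  generalize cr y z (ec j) = p at *
  generalize cr y z (ed j) = p' at *
  generalize cr z x (ec j) = q at *
  generalize cr z x (ed j) = q' at *
  generalize cr x y (ec j) = r at *
  generalize cr x y (ed j) = r' at *
  have hb : 0 < -t := by linarith
  have hc : 0 < -t * (t + 1) := mul_pos hb (by linarith)
  have key : 2 * (((t + 1) * (p * p') + t * (q * q') + t * (t + 1) * (r * r')) * (p * p')) =
      -t * (q * p' - q' * p) ^ 2 + -t * (t + 1) * (r * p' - r' * p) ^ 2 := by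
    linear_combination p' ^ 2 * h + p ^ 2 * h'
  by_contra hh
  push Not at hh
  have s1 := mul_nonneg hb.le (sq_nonneg (q * p' - q' * p))
  have s2 := mul_nonneg hc.le (sq_nonneg (r * p' - r' * p))
  have z1 : -t * (q * p' - q' * p) ^ 2 = 0 := by linarith
  have z2 : -t * (t + 1) * (r * p' - r' * p) ^ 2 = 0 := by linarith
  have w1 : q * p' - q' * p = 0 :=
    pow_eq_zero_iff (two_ne_zero) |>.1 ((mul_eq_zero.1 z1).resolve_left hb.ne')
  have w2 : r * p' - r' * p = 0 :=
    pow_eq_zero_iff (two_ne_zero) |>.1 ((mul_eq_zero.1 z2).resolve_left hc.ne')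
  obtain ⟨a1, a2⟩ := hn p' (-p) (by ring) (by linear_combination w1) (by linear_combination w2)
  have a2' : p = 0 := by linarith
  rw [a2'] at h
  have t1 : 0 ≤ -t * q ^ 2 := mul_nonneg hb.le (sq_nonneg q)
  have t2 : 0 ≤ -t * (t + 1) * r ^ 2 := mul_nonneg hc.le (sq_nonneg r)
  have y1 : -t * q ^ 2 = 0 := by linarith
  have y2 : -t * (t + 1) * r ^ 2 = 0 := by linarith
  have b1 : q = 0 := pow_eq_zero_iff (two_ne_zero) |>.1 ((mul_eq_zero.1 y1).resolve_left hb.ne')
  have b2 : r = 0 := pow_eq_zero_iff (two_ne_zero) |>.1 ((mul_eq_zero.1 y2).resolve_left hc.ne')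
  have := (hn 1 0 (by rw [a2']; ring) (by rw [b1]; ring) (by rw [b2]; ring)).1
  exact one_ne_zero this

/-- signs at a common zero `t < -1` -/
theorem sign_neg (hd : dt x y z ≠ 0) {t : ℝ} (h1 : t < -1) {j : Fin 6}
    (h : ff x y z t (ec j) = 0) (h' : ff x y z t (ed j) = 0) :
    0 < gg x y z t j * (cr x y (ec j) * cr x y (ed j)) := by
  have hn := normals_ne x y z hd j
  unfold ff at h h'
  unfold gg
  generalize cr y z (ec j) = p at *
  generalize cr y z (ed j) = p' at *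
  generalize cr z x (ec j) = q at *
  generalize cr z x (ed j) = q' at *
  generalize cr x y (ec j) = r at *
  generalize cr x y (ed j) = r' at *
  have hb : 0 < -t := by linarith
  have ha : 0 < -(t + 1) := by linarith
  have key : 2 * (((t + 1) * (p * p') + t * (q * q') + t * (t + 1) * (r * r')) * (r * r')) =
      -(t + 1) * (p * r' - p' * r) ^ 2 + -t * (q * r' - q' * r) ^ 2 := by
    linear_combination r' ^ 2 * h + r ^ 2 * h'
  by_contra hh
  push Not at hh
  have s1 := mul_nonneg ha.le (sq_nonneg (p * r' - p' * r))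
  have s2 := mul_nonneg hb.le (sq_nonneg (q * r' - q' * r))
  have z1 : -(t + 1) * (p * r' - p' * r) ^ 2 = 0 := by linarith
  have z2 : -t * (q * r' - q' * r) ^ 2 = 0 := by linarith
  have w1 : p * r' - p' * r = 0 :=
    pow_eq_zero_iff (two_ne_zero) |>.1 ((mul_eq_zero.1 z1).resolve_left ha.ne')
  have w2 : q * r' - q' * r = 0 :=
    pow_eq_zero_iff (two_ne_zero) |>.1 ((mul_eq_zero.1 z2).resolve_left hb.ne')
  obtain ⟨a1, a2⟩ := hn r' (-r) (by linear_combination w1) (by linear_combination w2) (by ring)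
  have a2' : r = 0 := by linarith
  rw [a2'] at h
  have t1 : 0 ≤ -(t + 1) * p ^ 2 := mul_nonneg ha.le (sq_nonneg p)
  have t2 : 0 ≤ -t * q ^ 2 := mul_nonneg hb.le (sq_nonneg q)
  have y1 : -(t + 1) * p ^ 2 = 0 := by linarith
  have y2 : -t * q ^ 2 = 0 := by linarith
  have b1 : p = 0 := pow_eq_zero_iff (two_ne_zero) |>.1 ((mul_eq_zero.1 y1).resolve_left ha.ne')
  have b2 : q = 0 := pow_eq_zero_iff (two_ne_zero) |>.1 ((mul_eq_zero.1 y2).resolve_left hb.ne')
  have := (hn 1 0 (by rw [b1]; ring) (by rw [b2]; ring) (by rw [a2']; ring)).1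
  exact one_ne_zero this

end Pool.Agent.Helper22.PN
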