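import Pool.Agent.Helper22.PN.B05Root

/-!
# PN-B07: a face which is alone

Let `t ≠ 0, -1` be a zero of `ff · v` and of no other `ff · w`.  Then `nn t j = 1` for the three edges of the face `v` and
`nn t j = 0` for the others, so by `Sta` (at `e` = an edge of the face) the sum of the `gg t j` over the edges of the face in the
class of `e` is `0`; the sum of all three is `0` (`face_sum`).  If none of the three is zero then no class contains exactly one
of them, so all three are in one class: `three_same`.  So some `gg t a = 0` (only one, `one_zero`), `LL t a = 0`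
(`gg_zero_iff`), and `gg t b = - gg t c ≠ 0`; `b, c` are in the same class (the class of `b` does not contain `a`, by `SC_zero`,
and must contain `c`), `uu b = uu c` by `SC_abs`, and `SC_eq`.
`three_same`: if all three edges are in the same class then none of the three `gg` vanishes (`SC_zero`, `one_zero`), by `SC_abs`
they are `± κ uu`, and `± uu ± uu ± uu = 0` contradicts `uu_tri`.
`two_alone`: at both zeros there are `a, b, c`; if the two `a` coincide: `LL_two`; otherwise all three edges have the same `PP`, so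
`LL t` vanishes for all three, contradiction to `one_zero`.
-/

open Real Set
open Pool.Agent.Helper1.Tet
open Pool.Agent.Helper22.ST (PP ZZ cr dt ind)

namespace Pool.Agent.Helper22.PN

variable {x y z : Fin 4 → ℝ}

/-- the three edges of a face -/
private theorem b07_tri (hd : dt x y z ≠ 0) (v : Fin 4) : ∃ a b c : Fin 6,
    (a ≠ b ∧ b ≠ c ∧ a ≠ c) ∧ (inF v a ∧ inF v b ∧ inF v c) ∧
    (∀ j, inF v j → j = a ∨ j = b ∨ j = c) ∧
    (∀ f : Fin 6 → ℝ, ∑ j, ind (inF v j) (f j) = f a + f b + f c) ∧
    (uu x y z a < uu x y z b + uu x y z c ∧ uu x y z b < uu x y z a + uu x y z c ∧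
      uu x y z c < uu x y z a + uu x y z b) := by
  obtain ⟨u0, u1, u2, u3⟩ := uu_tri (x := x) (y := y) (z := z) hd
  fin_cases v
  · refine ⟨3, 4, 5, by decide, by decide, by decide, ?_, u0⟩
    intro f
    rw [Fin.sum_univ_six]
    change ind (inF 0 0) (f 0) + ind (inF 0 1) (f 1) + ind (inF 0 2) (f 2) + ind (inF 0 3) (f 3) +
      ind (inF 0 4) (f 4) + ind (inF 0 5) (f 5) = _
    rw [ST.ind_neg (p := inF 0 0) (by decide), ST.ind_neg (p := inF 0 1) (by decide),
      ST.ind_neg (p := inF 0 2) (by decide), ST.ind_pos (p := inF 0 3) (by decide),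
      ST.ind_pos (p := inF 0 4) (by decide), ST.ind_pos (p := inF 0 5) (by decide)]
    ring
  · refine ⟨1, 2, 5, by decide, by decide, by decide, ?_, u1⟩
    intro f
    rw [Fin.sum_univ_six]
    change ind (inF 1 0) (f 0) + ind (inF 1 1) (f 1) + ind (inF 1 2) (f 2) + ind (inF 1 3) (f 3) +
      ind (inF 1 4) (f 4) + ind (inF 1 5) (f 5) = _
    rw [ST.ind_neg (p := inF 1 0) (by decide), ST.ind_pos (p := inF 1 1) (by decide),
      ST.ind_pos (p := inF 1 2) (by decide), ST.ind_neg (p := inF 1 3) (by decide),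
      ST.ind_neg (p := inF 1 4) (by decide), ST.ind_pos (p := inF 1 5) (by decide)]
    ring
  · refine ⟨0, 2, 4, by decide, by decide, by decide, ?_, u2⟩
    intro f
    rw [Fin.sum_univ_six]
    change ind (inF 2 0) (f 0) + ind (inF 2 1) (f 1) + ind (inF 2 2) (f 2) + ind (inF 2 3) (f 3) +
      ind (inF 2 4) (f 4) + ind (inF 2 5) (f 5) = _
    rw [ST.ind_pos (p := inF 2 0) (by decide), ST.ind_neg (p := inF 2 1) (by decide),
      ST.ind_pos (p := inF 2 2) (by decide), ST.ind_neg (p := inF 2 3) (by decide),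
      ST.ind_pos (p := inF 2 4) (by decide), ST.ind_neg (p := inF 2 5) (by decide)]
    ring
  · refine ⟨0, 1, 3, by decide, by decide, by decide, ?_, u3⟩
    intro f
    rw [Fin.sum_univ_six]
    change ind (inF 3 0) (f 0) + ind (inF 3 1) (f 1) + ind (inF 3 2) (f 2) + ind (inF 3 3) (f 3) +
      ind (inF 3 4) (f 4) + ind (inF 3 5) (f 5) = _
    rw [ST.ind_pos (p := inF 3 0) (by decide), ST.ind_pos (p := inF 3 1) (by decide),
      ST.ind_neg (p := inF 3 2) (by decide), ST.ind_pos (p := inF 3 3) (by decide),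
      ST.ind_neg (p := inF 3 4) (by decide), ST.ind_neg (p := inF 3 5) (by decide)]
    ring

private theorem b07_or {t : ℝ} {v : Fin 4} (hv : ff x y z t v = 0) {j : Fin 6} (hj : inF v j) :
    ff x y z t (ec j) = 0 ∨ ff x y z t (ed j) = 0 := by
  rcases hj with h | h
  · left
    rw [h]
    exact hv
  · right
    rw [h]
    exact hv

/-- if `A + B + C = 0` then one absolute value is the sum of the two others -/
private theorem b07_abs {A B C : ℝ} (h : A + B + C = 0) :
    |A| = |B| + |C| ∨ |B| = |A| + |C| ∨ |C| = |A| + |B| := by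
  rcases abs_cases A with ⟨h1, h1'⟩ | ⟨h1, h1'⟩ <;> rcases abs_cases B with ⟨h2, h2'⟩ | ⟨h2, h2'⟩ <;>
    rcases abs_cases C with ⟨h3, h3'⟩ | ⟨h3, h3'⟩ <;> rw [h1, h2, h3]
  · left; linarith
  · right; right; linarith
  · right; left; linarith
  · left; linarith
  · left; linarith
  · right; left; linarith
  · right; right; linarith
  · left; linarith

theorem three_same (hd : dt x y z ≠ 0) {t : ℝ} (h0 : t ≠ 0) (h1 : t ≠ -1) {v : Fin 4}
    (hv : ff x y z t v = 0) (hall : ∀ i j, inF v i → inF v j → SC x y z i j) : False := by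
  obtain ⟨a, b, c, ⟨hab, hbc, hac⟩, ⟨ha, hb, hc⟩, -, hsum, u1, u2, u3⟩ := b07_tri hd v
  have hs := face_sum x y z t v
  rw [hsum, hv, neg_zero] at hs
  have oa := b07_or hv ha
  have ob := b07_or hv hb
  have oc := b07_or hv hc
  have ga : gg x y z t a ≠ 0 := by
    intro hg
    have hl := (gg_zero_iff hd h0 h1 oa).1 hg
    have hl' := (SC_zero hd (hall a b ha hb) (t := t)).1 hl
    have hg' := (gg_zero_iff hd h0 h1 ob).2 hl'
    rcases one_zero hd h0 h1 hv ha hb hab with k | k
    · exact k hg
    · exact k hg'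
  have s1 := SC_abs hd (hall a b ha hb) oa ob
  have s2 := SC_abs hd (hall a c ha hc) oa oc
  have pa := (uu_pos x y z hd a).2
  have gpos : 0 < |gg x y z t a| := abs_pos.2 ga
  rcases b07_abs hs with k | k | k
  · -- |ga| = |gb| + |gc|
    have e : |gg x y z t a| * uu x y z a = |gg x y z t a| * (uu x y z b + uu x y z c) := by
      rw [mul_add, s1, s2, ← add_mul, ← k]
    have e' := mul_left_cancel₀ gpos.ne' e
    linarith
  · have e : |gg x y z t a| * uu x y z b = |gg x y z t a| * (uu x y z a + uu x y z c) := by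
      rw [mul_add, s1, s2, k]
      ring
    have e' := mul_left_cancel₀ gpos.ne' e
    linarith
  · have e : |gg x y z t a| * uu x y z c = |gg x y z t a| * (uu x y z a + uu x y z b) := by
      rw [mul_add, s1, s2, k]
      ring
    have e' := mul_left_cancel₀ gpos.ne' e
    linarith

/-- the star relation for a zero of only one `ff` -/
private theorem b07_sta (hs : Sta x y z) {t : ℝ} (h1 : t ≠ -1) {v : Fin 4}
    (hv : ff x y z t v = 0) (ho : ∀ w, w ≠ v → ff x y z t w ≠ 0) (e : Fin 6) :
    ∑ j, ind (inF v j) (ind (SC x y z e j) (gg x y z t j)) = 0 := by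
  have h := hs e t h1
  rw [← h]
  apply Finset.sum_congr rfl
  intro j _
  have hff : ∀ w, ff x y z t w = 0 ↔ w = v := by
    intro w
    constructor
    · intro hw
      by_contra hne
      exact ho w hne hw
    · intro hw
      rw [hw]
      exact hv
  have hne : ec j ≠ ed j := by
    fin_cases j <;> decide
  have hnn : nn x y z t j = ind (inF v j) 1 := by
    unfold nn
    rw [ST.ind_congr (hff (ec j)), ST.ind_congr (hff (ed j))]
    by_cases p : ec j = v
    · have q : ed j ≠ v := fun q => hne (p.trans q.symm)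
      rw [ST.ind_pos p, ST.ind_neg q, ST.ind_pos (show inF v j from Or.inl p), add_zero]
    · by_cases q : ed j = v
      · rw [ST.ind_neg p, ST.ind_pos q, ST.ind_pos (show inF v j from Or.inr q), zero_add]
      · rw [ST.ind_neg p, ST.ind_neg q, ST.ind_neg (show ¬ inF v j from fun h => h.elim p q),
          add_zero]
  rw [hnn]
  by_cases p : inF v j
  · rw [ST.ind_pos p, ST.ind_pos p, one_mul]
  · rw [ST.ind_neg p, ST.ind_neg p, zero_mul]
    by_cases q : SC x y z e j
    · rw [ST.ind_pos q]
    · rw [ST.ind_neg q]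

/-- the case where the edge `a` has `gg = 0` -/
private theorem b07_fin (hd : dt x y z ≠ 0) {t : ℝ} (h0 : t ≠ 0) (h1 : t ≠ -1) {v : Fin 4}
    (hv : ff x y z t v = 0) {a b c : Fin 6} (hab : a ≠ b) (ha : inF v a)
    (hb : inF v b) (hc : inF v c) (hs : gg x y z t a + gg x y z t b + gg x y z t c = 0)
    (hst : ind (SC x y z b a) (gg x y z t a) + ind (SC x y z b b) (gg x y z t b) +
      ind (SC x y z b c) (gg x y z t c) = 0) (hg : gg x y z t a = 0) :
    LL x y z t a = 0 ∧ PP x y b = PP x y c ∧ PP y z b = PP y z c := by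
  have oa := b07_or hv ha
  have ob := b07_or hv hb
  have oc := b07_or hv hc
  have gb : gg x y z t b ≠ 0 := by
    rcases one_zero hd h0 h1 hv ha hb hab with k | k
    · exact absurd hg k
    · exact k
  have hz : ∀ p : Prop, ind p (0 : ℝ) = 0 := by
    intro p
    by_cases hp : p
    · exact ST.ind_pos hp 0
    · exact ST.ind_neg hp 0
  rw [hg, hz, ST.ind_pos (SC.refl' x y z b), zero_add] at hst
  have hbc : SC x y z b c := by
    by_contra hn
    rw [ST.ind_neg hn, add_zero] at hst
    exact gb hst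
  rw [hg, zero_add] at hs
  have habs : |gg x y z t b| = |gg x y z t c| := by
    have e : gg x y z t b = -gg x y z t c := by linarith
    rw [e, abs_neg]
  have s := SC_abs hd hbc ob oc
  rw [← habs] at s
  have gpos : 0 < |gg x y z t b| := abs_pos.2 gb
  have hu := mul_left_cancel₀ gpos.ne' s
  obtain ⟨e1, e2⟩ := SC_eq hd hbc hu.symm
  exact ⟨(gg_zero_iff hd h0 h1 oa).1 hg, e1, e2⟩

theorem alone (hd : dt x y z ≠ 0) (hs : Sta x y z) {t : ℝ} (h0 : t ≠ 0) (h1 : t ≠ -1) {v : Fin 4}
    (hv : ff x y z t v = 0) (ho : ∀ w, w ≠ v → ff x y z t w ≠ 0) :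
    ∃ a b c : Fin 6, a ≠ b ∧ b ≠ c ∧ a ≠ c ∧ inF v a ∧ inF v b ∧ inF v c ∧
      LL x y z t a = 0 ∧ PP x y b = PP x y c ∧ PP y z b = PP y z c := by
  obtain ⟨a, b, c, ⟨hab, hbc, hac⟩, ⟨ha, hb, hc⟩, hcov, hsum, -⟩ := b07_tri (x := x) (y := y)
    (z := z) hd v
  have hf := face_sum x y z t v
  rw [hsum, hv, neg_zero] at hf
  have hst : ∀ e, ind (SC x y z e a) (gg x y z t a) + ind (SC x y z e b) (gg x y z t b) +
      ind (SC x y z e c) (gg x y z t c) = 0 := by
    intro e
    have h := b07_sta hs h1 hv ho e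
    rw [hsum] at h
    exact h
  by_cases ga : gg x y z t a = 0
  · obtain ⟨k1, k2, k3⟩ := b07_fin hd h0 h1 hv hab ha hb hc hf (hst b) ga
    exact ⟨a, b, c, hab, hbc, hac, ha, hb, hc, k1, k2, k3⟩
  by_cases gb : gg x y z t b = 0
  · obtain ⟨k1, k2, k3⟩ := b07_fin hd h0 h1 hv hbc hb hc ha (by linarith)
      (by have := hst c; linarith) gb
    exact ⟨b, c, a, hbc, hac.symm, hab.symm, hb, hc, ha, k1, k2, k3⟩
  by_cases gc : gg x y z t c = 0
  · obtain ⟨k1, k2, k3⟩ := b07_fin hd h0 h1 hv hac.symm hc ha hb (by linarith)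
      (by have := hst a; linarith) gc
    exact ⟨c, a, b, hac.symm, hab, hbc.symm, hc, ha, hb, k1, k2, k3⟩
  -- no zero
  exfalso
  have h := hst a
  rw [ST.ind_pos (SC.refl' x y z a)] at h
  by_cases p : SC x y z a b
  · by_cases q : SC x y z a c
    · apply three_same hd h0 h1 hv
      have r : ∀ j, inF v j → SC x y z a j := by
        intro j hj
        rcases hcov j hj with e | e | e
        · rw [e]; exact SC.refl' x y z a
        · rw [e]; exact p
        · rw [e]; exact q
      intro i j hi hj
      exact SC.trans' hd (SC.symm' (r i hi)) (r j hj)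
    · rw [ST.ind_pos p, ST.ind_neg q] at h
      exact gc (by linarith)
  · by_cases q : SC x y z a c
    · rw [ST.ind_neg p, ST.ind_pos q] at h
      exact gb (by linarith)
    · rw [ST.ind_neg p, ST.ind_neg q] at h
      exact ga (by linarith)

theorem two_alone (hd : dt x y z ≠ 0) (hs : Sta x y z) {s t : ℝ} (hst : s ≠ t) (s0 : s ≠ 0)
    (s1 : s ≠ -1) (t0 : t ≠ 0) (t1 : t ≠ -1) {v : Fin 4}
    (hv : ff x y z s v = 0) (ho : ∀ w, w ≠ v → ff x y z s w ≠ 0)
    (hv' : ff x y z t v = 0) (ho' : ∀ w, w ≠ v → ff x y z t w ≠ 0) : False := by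
  obtain ⟨a, b, c, hab, hbc, hac, ha, hb, hc, hl, e1, e2⟩ := alone hd hs s0 s1 hv ho
  obtain ⟨a', b', c', hab', hbc', hac', ha', hb', hc', hl', e1', e2'⟩ :=
    alone hd hs t0 t1 hv' ho'
  by_cases haa : a = a'
  · subst haa
    exact LL_two hd hst hl hl'
  -- all the three edges have the same `PP`
  have key : ∀ (v : Fin 4) (a b c j : Fin 6), a ≠ b → b ≠ c → a ≠ c → inF v a → inF v b →
      inF v c → inF v j → j = a ∨ j = b ∨ j = c := by
    decide
  have kb := key v a b c b' hab hbc hac ha hb hc hb'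
  have kc := key v a b c c' hab hbc hac ha hb hc hc'
  have ka := key v a b c a' hab hbc hac ha hb hc ha'
  have k : (a = b' ∧ (c' = b ∨ c' = c)) ∨ (a = c' ∧ (b' = b ∨ b' = c)) := by
    rcases kb with e | e | e
    · left
      refine ⟨e.symm, ?_⟩
      rcases kc with e' | e' | e'
      · exact absurd (e.trans e'.symm) hbc'
      · exact Or.inl e'
      · exact Or.inr e'
    · right
      refine ⟨?_, Or.inl e⟩
      rcases kc with e' | e' | e'
      · exact e'.symm
      · exact absurd (e.trans e'.symm) hbc'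
      · rcases ka with e'' | e'' | e''
        · exact absurd e''.symm haa
        · exact absurd (e''.trans e.symm) hab'
        · exact absurd (e''.trans e'.symm) hac'
    · right
      refine ⟨?_, Or.inr e⟩
      rcases kc with e' | e' | e'
      · exact e'.symm
      · rcases ka with e'' | e'' | e''
        · exact absurd e''.symm haa
        · exact absurd (e''.trans e'.symm) hac'
        · exact absurd (e''.trans e.symm) hab'
      · exact absurd (e.trans e'.symm) hbc'
  have hPP : PP x y a = PP x y b ∧ PP y z a = PP y z b := by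
    rcases k with ⟨k1, k2 | k2⟩ | ⟨k1, k2 | k2⟩
    · subst k1; subst k2
      exact ⟨e1', e2'⟩
    · subst k1; subst k2
      exact ⟨e1'.trans e1.symm, e2'.trans e2.symm⟩
    · subst k1; subst k2
      exact ⟨e1'.symm, e2'.symm⟩
    · subst k1; subst k2
      exact ⟨e1'.symm.trans e1.symm, e2'.symm.trans e2.symm⟩
  have hl2 : LL x y z s b = 0 := by
    unfold LL at hl ⊢
    rw [← hPP.1, ← hPP.2]
    exact hl
  have g1 := (gg_zero_iff hd s0 s1 (b07_or hv ha)).2 hl
  have g2 := (gg_zero_iff hd s0 s1 (b07_or hv hb)).2 hl2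
  rcases one_zero hd s0 s1 hv ha hb hab with k | k
  · exact k g1
  · exact k g2

end Pool.Agent.Helper22.PN
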