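import Pool.Agent.Helper22.PN.A08Ort
import Pool.Agent.Helper22.PN.A10Rat
import Pool.Agent.Helper22.PN.A11Sta

/-!
# PN-B08: the star relations
-/

open Real Set
open Pool.Agent.Helper1.Tet
open Pool.Agent.Helper22.ST (PP ZZ cr dt ind)

namespace Pool.Agent.Helper22.PN

theorem Hy.sta {x y z : Fin 4 → ℝ} (h : Hy x y z) : Sta x y z :=
  sta_of_ratR h.1 (ratR_of_ort h.1 h.ort)

end Pool.Agent.Helper22.PN
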