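import Pool.Agent.Helper22.PN.B05Root

/-!
# PN-B09: the star relations, explicitly

`tf x y z t v = 1` if the face `v` is tangent at `t` (`ff x y z t v = 0`), otherwise `0`.  `Fin.sum_univ_six`, `nn`.
`in_faces`: the three edges of each face.
`SC_pm`: `SC_abs` without absolute values, for two edges on tangent faces, in a form convenient for `linarith`.
-/

open Real Set
open Pool.Agent.Helper1.Tet
open Pool.Agent.Helper22.ST (PP ZZ cr dt ind)

namespace Pool.Agent.Helper22.PN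

variable {x y z : Fin 4 → ℝ}

/-- `1` if the face `v` is tangent at `t`, otherwise `0` -/
noncomputable def tf (x y z : Fin 4 → ℝ) (t : ℝ) (v : Fin 4) : ℝ := ind (ff x y z t v = 0) 1

theorem tf_one {t : ℝ} {v : Fin 4} (h : ff x y z t v = 0) : tf x y z t v = 1 := by
  unfold tf ind
  rw [if_pos h]

theorem tf_zero {t : ℝ} {v : Fin 4} (h : ff x y z t v ≠ 0) : tf x y z t v = 0 := by
  unfold tf ind
  rw [if_neg h]

theorem sta_six (hs : Sta x y z) (e : Fin 6) {t : ℝ} (ht : t ≠ -1) :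
    ind (SC x y z e 0) ((tf x y z t 2 + tf x y z t 3) * gg x y z t 0) +
    ind (SC x y z e 1) ((tf x y z t 1 + tf x y z t 3) * gg x y z t 1) +
    ind (SC x y z e 2) ((tf x y z t 1 + tf x y z t 2) * gg x y z t 2) +
    ind (SC x y z e 3) ((tf x y z t 0 + tf x y z t 3) * gg x y z t 3) +
    ind (SC x y z e 4) ((tf x y z t 0 + tf x y z t 2) * gg x y z t 4) +
    ind (SC x y z e 5) ((tf x y z t 0 + tf x y z t 1) * gg x y z t 5) = 0 := by
  have h := hs e t ht
  rw [Fin.sum_univ_six] at h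
  exact h

theorem in_faces (j : Fin 6) : (inF 0 j ↔ j = 3 ∨ j = 4 ∨ j = 5) ∧
    (inF 1 j ↔ j = 1 ∨ j = 2 ∨ j = 5) ∧ (inF 2 j ↔ j = 0 ∨ j = 2 ∨ j = 4) ∧
    (inF 3 j ↔ j = 0 ∨ j = 1 ∨ j = 3) := by
  revert j
  decide

theorem SC_pm (hd : dt x y z ≠ 0) {t : ℝ} {i j : Fin 6} (h : SC x y z i j)
    (hi : ff x y z t (ec i) = 0 ∨ ff x y z t (ed i) = 0)
    (hj : ff x y z t (ec j) = 0 ∨ ff x y z t (ed j) = 0) :
    gg x y z t i * uu x y z j = gg x y z t j * uu x y z i ∨
      gg x y z t i * uu x y z j = -(gg x y z t j * uu x y z i) := by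
  have h1 := SC_abs hd h hi hj
  have hui := (uu_pos x y z hd i).2
  have huj := (uu_pos x y z hd j).2
  rw [← abs_eq_abs, abs_mul, abs_mul (gg x y z t j), abs_of_pos huj, abs_of_pos hui]
  exact h1

end Pool.Agent.Helper22.PN
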