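import Pool.Agent.Helper22.PN.B01Ends
import Pool.Agent.Helper22.PN.B04Be

/-!
# PN-C01: opposite edges parallel to the first and the third axis

`be_double` (edge `j`) and `be_double'` (edge `j.rev`; `Fin.rev_rev`): all terms of `Hy.ends` cancel except those of `j` and
`j.rev`: `√(LL s j) (be x y z j - π) + √(LL s j.rev) (π - be z y x j.rev) = 0`, where `LL s j = s PP x y j` (as `PP y z j = 0`) and
`LL s j.rev = PP y z j.rev`, both positive.  With `s = 1` and `s = 4` we get `be x y z j = π`, a contradiction.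
-/

open Real Set
open Pool.Agent.Helper1.Tet
open Pool.Agent.Helper22.ST (PP ZZ cr dt ind)

namespace Pool.Agent.Helper22.PN

theorem no_opposite {x y z : Fin 4 → ℝ} (h : Hy x y z) {j : Fin 6} (h1 : PP y z j = 0)
    (h2 : PP x y j.rev = 0) : False := by
  have hd : dt x y z ≠ 0 := h.1
  obtain ⟨_, a2, _, a4, a5⟩ := be_double hd h1
  obtain ⟨_, _, _, b4, b5⟩ := be_double' hd h2
  rw [Fin.rev_rev] at b4 b5
  have hne : ∀ j : Fin 6, j ≠ j.rev := by decide
  have hPx : 0 < PP x y j := by
    have h3 := ST.edge_pos x y z hd one_pos j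
    have h4 : ZZ z j = 0 := by
      unfold PP at h1
      unfold ZZ
      nlinarith [sq_nonneg (y (ea j) - y (eb j)), sq_nonneg (z (ea j) - z (eb j))]
    rw [h4] at h3
    linarith
  have key : ∀ s : ℝ, 0 < s → √(s * PP x y j) * (be x y z j - π) +
      √(PP y z j.rev) * (π - be z y x j.rev) = 0 := by
    intro s hs
    have h3 := h.ends hs
    rw [Fintype.sum_eq_add j j.rev (hne j)] at h3
    · rw [a4, b4] at h3
      unfold LL at h3
      rw [h1, h2, mul_zero, add_zero, zero_add] at h3
      exact h3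
    · intro k hk
      rw [a5 k hk.1 hk.2, b5 k hk.2 hk.1, sub_self, mul_zero]
  have k1 := key 1 one_pos
  have k4 := key 4 (by norm_num)
  have h4 : √(4 * PP x y j) = 2 * √(PP x y j) := by
    rw [show (4 : ℝ) = 2 ^ 2 by norm_num, Real.sqrt_mul (by norm_num), Real.sqrt_sq (by norm_num)]
  rw [one_mul] at k1
  rw [h4] at k4
  have h5 : √(PP x y j) * (be x y z j - π) = 0 := by linarith
  have h6 : 0 < √(PP x y j) := Real.sqrt_pos.2 hPx
  rcases mul_eq_zero.1 h5 with h7 | h7
  · exact h6.ne' h7
  · linarith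

end Pool.Agent.Helper22.PN
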