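import Pool.Agent.Helper22.PN.B01Ends
import Pool.Agent.Helper22.PN.B02Split
import Pool.Agent.Helper22.PN.B04Be

/-!
# PN-C02: the edge 01 is parallel to the first axis, the edge 02 to the third axis

`be x y z`: `θ` at the edge 0 (= 01), `π` at 5 (= 23), `π/2` else.  `be z y x`: `θ'` at the edge 1 (= 02), `π` at 4 (= 13), `π/2` else.
So (`Hy.ends`) with `l_j = √(LL x y z s j)`: `(θ - π/2) l_0 + (π/2 - θ') l_1 - (π/2) l_4 + (π/2) l_5 = 0` for all `s > 0`.
`split` at `e = 0`: the class of the edge 0 (`PP y z 0 = 0`) consists of the edge 0 only (no other edge has `PP y z j = 0`: two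
such edges would give three faces with `cr y z = 0`, and `dt = 0`), so `θ = π/2`; `split` at `e = 1`: `θ' = π/2`.  So
`l_4 = l_5` for all `s`, `eq_of_LL`: `PP x y 4 = PP x y 5`.
`y 0 = y 1 = y 2`, `z 0 = z 1`, `x 0 = x 2`.  By `be_double`, `θ = π/2` gives
`cr z x 2 * cr z x 3 + cr x y 2 * cr x y 3 = 0`; here `cr x y 3 = 0` and `cr z x 2 * cr z x 3` is `(x 1 - x 0)² (z 2 - z 0) (z 3 - z 0)`
up to sign, so `z 3 = z 0`.  Similarly `θ' = π/2` gives `x 3 = x 0`.  Then `PP x y 4 - PP x y 5 = (x 1 - x 0)² ≠ 0`.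
-/

open Real Set
open Pool.Agent.Helper1.Tet
open Pool.Agent.Helper22.ST (PP ZZ cr dt ind)

namespace Pool.Agent.Helper22.PN

private theorem c02_PP (f g : Fin 4 → ℝ) : PP f g 0 = (f 0 - f 1) ^ 2 + (g 0 - g 1) ^ 2 ∧
    PP f g 1 = (f 0 - f 2) ^ 2 + (g 0 - g 2) ^ 2 ∧ PP f g 2 = (f 0 - f 3) ^ 2 + (g 0 - g 3) ^ 2 ∧
    PP f g 3 = (f 1 - f 2) ^ 2 + (g 1 - g 2) ^ 2 ∧ PP f g 4 = (f 1 - f 3) ^ 2 + (g 1 - g 3) ^ 2 ∧
    PP f g 5 = (f 2 - f 3) ^ 2 + (g 2 - g 3) ^ 2 := ⟨rfl, rfl, rfl, rfl, rfl, rfl⟩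

private theorem c02_cr (f g : Fin 4 → ℝ) :
    cr f g 1 = (f 2 - f 0) * (g 3 - g 0) - (g 2 - g 0) * (f 3 - f 0) ∧
    cr f g 2 = (f 3 - f 0) * (g 1 - g 0) - (g 3 - g 0) * (f 1 - f 0) ∧
    cr f g 3 = (f 1 - f 0) * (g 2 - g 0) - (g 1 - g 0) * (f 2 - f 0) := ⟨rfl, rfl, rfl⟩

private theorem c02_sq {a b : ℝ} (h : a ^ 2 + b ^ 2 = 0) : a = 0 ∧ b = 0 := by
  constructor <;> nlinarith [sq_nonneg a, sq_nonneg b]

private theorem c02_pos {a b : ℝ} (h : a ≠ 0 ∨ b ≠ 0) : a ^ 2 + b ^ 2 ≠ 0 := by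
  intro h0
  obtain ⟨ha, hb⟩ := c02_sq h0
  rcases h with h | h
  · exact h ha
  · exact h hb

theorem no_adjacent {x y z : Fin 4 → ℝ} (h : Hy x y z) (h1 : PP y z 0 = 0)
    (h2 : PP x y 1 = 0) : False := by
  have hd := h.1
  have hd' : dt z y x ≠ 0 := h.swap.1
  have h2' : PP y x 1 = 0 := by
    rw [(c02_PP y x).2.1, add_comm, ← (c02_PP x y).2.1]
    exact h2
  have e1 := h1
  rw [(c02_PP y z).1] at e1
  obtain ⟨ey1, ez1⟩ := c02_sq e1
  have e2 := h2
  rw [(c02_PP x y).2.1] at e2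
  obtain ⟨ex2, ey2⟩ := c02_sq e2
  have y1 : y 1 = y 0 := by linarith
  have y2 : y 2 = y 0 := by linarith
  have z1 : z 1 = z 0 := by linarith
  have x2 : x 2 = x 0 := by linarith
  have hdt : dt x y z = -((x 1 - x 0) * (z 2 - z 0) * (y 3 - y 0)) := by
    unfold dt
    rw [(c02_cr y z).1, (c02_cr z x).1, (c02_cr x y).1, y1, y2, z1, x2]
    ring
  have hx : x 1 - x 0 ≠ 0 := by
    intro h0
    apply hd
    rw [hdt, h0]
    ring
  have hz : z 2 - z 0 ≠ 0 := by
    intro h0
    apply hd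
    rw [hdt, h0]
    ring
  have hy : y 3 - y 0 ≠ 0 := by
    intro h0
    apply hd
    rw [hdt, h0]
    ring
  have hy' : y 0 - y 3 ≠ 0 := by
    intro h0
    apply hy
    linarith
  obtain ⟨-, -, bA, bR, bO⟩ := be_double hd h1
  obtain ⟨-, -, bA', bR', bO'⟩ := be_double hd' h2'
  have r0 : (0 : Fin 6).rev = 5 := by decide
  have r1 : (1 : Fin 6).rev = 4 := by decide
  rw [r0] at bR bO
  rw [r1] at bR' bO'
  have hends : ∀ s : ℝ, 0 < s → ∑ j, √(LL x y z s j) * (be x y z j - be z y x j) = 0 :=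
    fun s hs => h.ends hs
  have k0 := (split hd _ hends 0).1
  have k1 := (split hd _ hends 1).1
  -- the class of the edge 0
  have s0 : ∀ j : Fin 6, j ≠ 0 → ¬ SC x y z 0 j := by
    intro j hj hs
    unfold SC at hs
    rw [h1, mul_zero] at hs
    have hP : PP x y 0 ≠ 0 := by
      rw [(c02_PP x y).1]
      refine c02_pos (Or.inl ?_)
      intro h0
      apply hx
      linarith
    have h3 : PP y z j = 0 := (mul_eq_zero.1 hs).resolve_left hP
    obtain ⟨p0, p1, p2, p3, p4, p5⟩ := c02_PP y z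
    fin_cases j
    · exact hj rfl
    · rw [show PP y z ((fun i => i) (⟨1, by decide⟩ : Fin 6)) = PP y z 1 from rfl, p1] at h3
      have := (c02_sq h3).2
      apply hz
      linarith
    · rw [show PP y z ((fun i => i) (⟨2, by decide⟩ : Fin 6)) = PP y z 2 from rfl, p2] at h3
      exact hy' (c02_sq h3).1
    · rw [show PP y z ((fun i => i) (⟨3, by decide⟩ : Fin 6)) = PP y z 3 from rfl, p3] at h3
      have := (c02_sq h3).2
      apply hz
      linarith
    · rw [show PP y z ((fun i => i) (⟨4, by decide⟩ : Fin 6)) = PP y z 4 from rfl, p4] at h3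
      have := (c02_sq h3).1
      apply hy'
      linarith
    · rw [show PP y z ((fun i => i) (⟨5, by decide⟩ : Fin 6)) = PP y z 5 from rfl, p5] at h3
      have := (c02_sq h3).1
      apply hy'
      linarith
  have s1 : ∀ j : Fin 6, j ≠ 1 → ¬ SC x y z 1 j := by
    intro j hj hs
    unfold SC at hs
    rw [h2, zero_mul] at hs
    have hP : PP y z 1 ≠ 0 := by
      rw [(c02_PP y z).2.1]
      refine c02_pos (Or.inr ?_)
      intro h0
      apply hz
      linarith
    have h3 : PP x y j = 0 := (mul_eq_zero.1 hs.symm).resolve_right hP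
    obtain ⟨p0, p1, p2, p3, p4, p5⟩ := c02_PP x y
    fin_cases j
    · rw [show PP x y ((fun i => i) (⟨0, by decide⟩ : Fin 6)) = PP x y 0 from rfl, p0] at h3
      have := (c02_sq h3).1
      apply hx
      linarith
    · exact hj rfl
    · rw [show PP x y ((fun i => i) (⟨2, by decide⟩ : Fin 6)) = PP x y 2 from rfl, p2] at h3
      exact hy' (c02_sq h3).2
    · rw [show PP x y ((fun i => i) (⟨3, by decide⟩ : Fin 6)) = PP x y 3 from rfl, p3] at h3
      have := (c02_sq h3).1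
      apply hx
      linarith
    · rw [show PP x y ((fun i => i) (⟨4, by decide⟩ : Fin 6)) = PP x y 4 from rfl, p4] at h3
      have := (c02_sq h3).2
      apply hy'
      linarith
    · rw [show PP x y ((fun i => i) (⟨5, by decide⟩ : Fin 6)) = PP x y 5 from rfl, p5] at h3
      have := (c02_sq h3).2
      apply hy'
      linarith
  have t0 : be x y z 0 = π / 2 := by
    have k : ∑ j, ind (SC x y z 0 j) (uu x y z j * (be x y z j - be z y x j)) =
        uu x y z 0 * (be x y z 0 - be z y x 0) := by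
      rw [Finset.sum_eq_single 0]
      · exact ST.ind_pos (SC.refl' x y z 0) _
      · intro j _ hj
        exact ST.ind_neg (s0 j hj) _
      · intro h0
        exact absurd (Finset.mem_univ _) h0
    rw [k] at k0
    have h3 := (mul_eq_zero.1 k0).resolve_left (uu_pos x y z hd 0).2.ne'
    rw [bO' 0 (by decide) (by decide)] at h3
    linarith
  have t1 : be z y x 1 = π / 2 := by
    have k : ∑ j, ind (SC x y z 1 j) (uu x y z j * (be x y z j - be z y x j)) =
        uu x y z 1 * (be x y z 1 - be z y x 1) := by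
      rw [Finset.sum_eq_single 1]
      · exact ST.ind_pos (SC.refl' x y z 1) _
      · intro j _ hj
        exact ST.ind_neg (s1 j hj) _
      · intro h0
        exact absurd (Finset.mem_univ _) h0
    rw [k] at k1
    have h3 := (mul_eq_zero.1 k1).resolve_left (uu_pos x y z hd 1).2.ne'
    rw [bO 1 (by decide) (by decide)] at h3
    linarith
  have hLL : ∀ s : ℝ, 0 < s → √(LL x y z s 4) = √(LL x y z s 5) := by
    intro s hs
    have h3 := hends s hs
    rw [Fin.sum_univ_six, t0, t1, bR, bR', bO 1 (by decide) (by decide), bO 2 (by decide) (by decide),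
      bO 3 (by decide) (by decide), bO 4 (by decide) (by decide), bO' 0 (by decide) (by decide),
      bO' 2 (by decide) (by decide), bO' 3 (by decide) (by decide),
      bO' 5 (by decide) (by decide)] at h3
    have h4 : π * (√(LL x y z s 5) - √(LL x y z s 4)) = 0 := by linarith
    have h5 := (mul_eq_zero.1 h4).resolve_left pi_pos.ne'
    linarith
  obtain ⟨h45, -⟩ := eq_of_LL hLL
  have g0 := bA.1 t0
  rw [show (ec 0 : Fin 4) = 2 from rfl, show (ed 0 : Fin 4) = 3 from rfl, (c02_cr z x).2.1,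
    (c02_cr z x).2.2, (c02_cr x y).2.1, (c02_cr x y).2.2, y1, y2, z1, x2] at g0
  have g1 := bA'.1 t1
  rw [show (ec 1 : Fin 4) = 1 from rfl, show (ed 1 : Fin 4) = 3 from rfl, (c02_cr x z).1,
    (c02_cr x z).2.2, (c02_cr z y).1, (c02_cr z y).2.2, y1, y2, z1, x2] at g1
  have z3 : (x 3 - x 0) = 0 := by
    have h6 : (x 1 - x 0) * ((z 2 - z 0) * ((z 2 - z 0) * (x 3 - x 0))) = 0 := by linarith
    exact (mul_eq_zero.1 ((mul_eq_zero.1 ((mul_eq_zero.1 h6).resolve_left hx)).resolve_left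
      hz)).resolve_left hz
  rw [(c02_PP x y).2.2.2.2.1, (c02_PP x y).2.2.2.2.2, y1, y2, x2] at h45
  have h7 : (x 1 - x 0) ^ 2 = 0 := by
    have h8 : x 3 = x 0 := by linarith
    rw [h8] at h45
    linarith
  exact hx (pow_eq_zero_iff (two_ne_zero) |>.1 h7)

end Pool.Agent.Helper22.PN
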