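import Pool.Agent.Helper22.PN.C01Opp
import Pool.Agent.Helper22.PN.C02Adj

/-!
# PN-C03: no edge parallel to the first axis together with an edge parallel to the third axis

`j = k`: the edge would be degenerate.  `k = j.rev`: `no_opposite`.  Otherwise the two edges have exactly one common vertex: choose the
permutation `σ` which maps `0` to the common vertex, `1` to the other end of `j`, `2` to the other end of `k`, and apply
`no_adjacent` to `h.perm σ` (`PP (y ∘ σ) (z ∘ σ) 0 = PP y z j` etc.; 24 cases, or use a general lemma on `PP` and permutations).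
-/

open Real Set
open Pool.Agent.Helper1.Tet
open Pool.Agent.Helper22.ST (PP ZZ cr dt ind)

namespace Pool.Agent.Helper22.PN

private theorem sq2 {a b : ℝ} (h : a ^ 2 + b ^ 2 = 0) : a = 0 ∧ b = 0 := by
  constructor
  · have : a ^ 2 = 0 := by nlinarith [sq_nonneg a, sq_nonneg b]
    exact pow_eq_zero_iff (two_ne_zero) |>.1 this
  · have : b ^ 2 = 0 := by nlinarith [sq_nonneg a, sq_nonneg b]
    exact pow_eq_zero_iff (two_ne_zero) |>.1 this

private theorem ex_perm : ∀ a b c : Fin 4, a ≠ b → a ≠ c → b ≠ c →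
    ∃ σ : Equiv.Perm (Fin 4), σ 0 = a ∧ σ 1 = b ∧ σ 2 = c := by
  decide

private theorem ex_abc : ∀ j k : Fin 6, k = j ∨ k = j.rev ∨
    ∃ a b c : Fin 4, (a ≠ b ∧ a ≠ c ∧ b ≠ c) ∧
      ((ea j = a ∧ eb j = b) ∨ (ea j = b ∧ eb j = a)) ∧
      ((ea k = a ∧ eb k = c) ∨ (ea k = c ∧ eb k = a)) := by
  decide

private theorem dt_zero {x y z : Fin 4 → ℝ} : ∀ j : Fin 6, x (ea j) = x (eb j) →
    y (ea j) = y (eb j) → z (ea j) = z (eb j) → dt x y z = 0 := by
  intro j hx hy hz
  fin_cases j <;> simp [ea, eb] at hx hy hz <;>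
    simp [Pool.Agent.Helper22.ST.dt, Pool.Agent.Helper22.ST.cr, hx, hy, hz] <;> ring

theorem no_dd {x y z : Fin 4 → ℝ} (h : Hy x y z) {j k : Fin 6} (h1 : PP y z j = 0)
    (h2 : PP x y k = 0) : False := by
  have e1 := sq2 h1
  have e2 := sq2 h2
  rcases ex_abc j k with hk | hk | ⟨a, b, c, ⟨hab, hac, hbc⟩, hj, hk⟩
  · subst hk
    exact h.1 (dt_zero k (by linarith [e2.1]) (by linarith [e1.1]) (by linarith [e1.2]))
  · subst hk
    exact no_opposite h h1 h2
  · obtain ⟨σ, s0, s1, s2⟩ := ex_perm a b c hab hac hbc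
    refine no_adjacent (h.perm σ) ?_ ?_
    · have hy : y a - y b = 0 := by
        rcases hj with ⟨u, v⟩ | ⟨u, v⟩ <;> rw [u, v] at e1 <;> linarith [e1.1]
      have hz : z a - z b = 0 := by
        rcases hj with ⟨u, v⟩ | ⟨u, v⟩ <;> rw [u, v] at e1 <;> linarith [e1.2]
      simp [Pool.Agent.Helper22.ST.PP, ea, eb, s0, s1, hy, hz]
    · have hx : x a - x c = 0 := by
        rcases hk with ⟨u, v⟩ | ⟨u, v⟩ <;> rw [u, v] at e2 <;> linarith [e2.1]
      have hy : y a - y c = 0 := by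
        rcases hk with ⟨u, v⟩ | ⟨u, v⟩ <;> rw [u, v] at e2 <;> linarith [e2.2]
      simp [Pool.Agent.Helper22.ST.PP, ea, eb, s0, s2, hx, hy]

end Pool.Agent.Helper22.PN
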