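import Pool.Agent.Helper22.PN.B01Ends
import Pool.Agent.Helper22.PN.B04Be
import Pool.Agent.Helper22.PN.B06Roots
import Pool.Agent.Helper22.PN.B07Alone
import Pool.Agent.Helper22.PN.B08Sta

/-!
# PN-C04: the edge 01 is parallel to the first axis, `Flat x y 2 1`

`be x y z` (`be_double`): `θ` at the edge 0, `π` at 5, `π/2` else.  `be z y x = pat 2 1` (`be_flat'`): `π/2, π, π/2, 0, π/2, π` for the
edges `0, ..., 5`.  `Hy.ends` with `l_j = √(LL x y z s j)`: `(θ - π/2) l_0 - (π/2) l_1 + (π/2) l_3 = 0`.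
`split` at `e = 0`: the class of 0 is `{0}` (no other edge has `PP y z j = 0`), so `θ = π/2`; then `l_1 = l_3`
for all `s`, so (`eq_of_LL`) `PP x y 1 = PP x y 3`.
`θ = π/2`: `cr z x 2 * cr z x 3 + cr x y 2 * cr x y 3 = 0` with `cr x y 2 = 0`; `cr y z 2 = cr y z 3 = 0` (faces at the edge 0); so
`cr z x 2 ≠ 0` and `cr z x 3 = 0`: the face 2 has the normal `(0, *, 0)`, the face 3 the normal `(0, 0, *)`, so
`y 0 = y 1 = y 3` and `z 0 = z 1 = z 2`.  `PP x y 1 = PP x y 3` gives `(x 0 - x 2)² = (x 1 - x 2)²`, so `x 0 - x 2 = -(x 1 - x 2)`.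
Then `cr y z 0 = - cr y z 1 ≠ 0`, `cr z x 0 = cr z x 1 ≠ 0`, and `cr x y 0 ^ 2 ≠ cr x y 1 ^ 2` (`cr x y 0 + cr x y 1 + cr x y 3 = 0`, where
`cr x y 1` has the opposite sign to the two others, all nonzero: `Flat x y 2 1`).
The faces 0 and 1 have two zeros each (`two_roots`), one in `(-1, 0)`, one `< -1`; for `t ≠ 0, -1` `ff t 2 ≠ 0`, `ff t 3 ≠ 0` and
`ff t 0 - ff t 1 = t (t + 1) (cr x y 0 ^ 2 - cr x y 1 ^ 2) ≠ 0`.  So at both zeros of the face 0 it is alone: `two_alone`.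
-/

open Real Set
open Pool.Agent.Helper1.Tet
open Pool.Agent.Helper22.ST (PP ZZ cr dt ind)

namespace Pool.Agent.Helper22.PN

private theorem c04_sq {a b : ℝ} (h : a ^ 2 + b ^ 2 = 0) : a = 0 ∧ b = 0 := by
  have h1 : a ^ 2 = 0 := by nlinarith [sq_nonneg a, sq_nonneg b]
  have h2 : b ^ 2 = 0 := by nlinarith [sq_nonneg a, sq_nonneg b]
  exact ⟨pow_eq_zero_iff two_ne_zero |>.1 h1, pow_eq_zero_iff two_ne_zero |>.1 h2⟩

theorem no_df1 {x y z : Fin 4 → ℝ} (h : Hy x y z) (h1 : PP y z 0 = 0) (h2 : Flat x y 2 1) :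
    False := by
  have hd : dt x y z ≠ 0 := h.1
  -- coordinates
  have hyz : y 0 = y 1 ∧ z 0 = z 1 := by
    have h3 : (y 0 - y 1) ^ 2 + (z 0 - z 1) ^ 2 = 0 := h1
    obtain ⟨h4, h5⟩ := c04_sq h3
    exact ⟨sub_eq_zero.1 h4, sub_eq_zero.1 h5⟩
  obtain ⟨hy, hz⟩ := hyz
  have c2 : cr x y 2 = 0 := h2.2.1
  have c0 : cr x y 0 ≠ 0 := h2.2.2.1 0 (by decide)
  have c1 : cr x y 1 ≠ 0 := h2.2.2.1 1 (by decide)
  have c3 : cr x y 3 ≠ 0 := h2.2.2.1 3 (by decide)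
  have c03 : 0 < cr x y 0 * cr x y 3 := (h2.2.2.2 0 3 (by decide) (by decide) (by decide)
    (by decide) (by decide)).1
  -- the limits of the angles
  obtain ⟨b0, b1, b2, b3, b4⟩ := be_double hd h1
  have hb : ∀ j, be z y x j = pat 2 1 j := fun j => be_flat' h2 j
  have hb' : be z y x 0 = π / 2 ∧ be z y x 1 = π ∧ be z y x 2 = π / 2 ∧ be z y x 3 = 0 ∧
      be z y x 4 = π / 2 ∧ be z y x 5 = π := by
    refine ⟨?_, ?_, ?_, ?_, ?_, ?_⟩ <;> rw [hb] <;> simp [pat, ea, eb]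
  obtain ⟨e0, e1, e2, e3, e4, e5⟩ := hb'
  have a5 : be x y z 5 = π := b3
  have a1 : be x y z 1 = π / 2 := b4 1 (by decide) (by decide)
  have a2 : be x y z 2 = π / 2 := b4 2 (by decide) (by decide)
  have a3 : be x y z 3 = π / 2 := b4 3 (by decide) (by decide)
  have a4 : be x y z 4 = π / 2 := b4 4 (by decide) (by decide)
  -- formulas
  have q2 : cr y z 2 = 0 := by
    show (y 3 - y 0) * (z 1 - z 0) - (z 3 - z 0) * (y 1 - y 0) = 0
    rw [hy, hz]; ring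
  have q3 : cr y z 3 = 0 := by
    show (y 1 - y 0) * (z 2 - z 0) - (z 1 - z 0) * (y 2 - y 0) = 0
    rw [hy, hz]; ring
  have hPP0 : PP x y 0 ≠ 0 := by
    intro h0
    have := (uu_pos x y z hd 0).1
    rw [h0, h1] at this
    simp at this
  have hnd : ∀ j : Fin 6, (j = 1 ∨ j = 3) → PP y z j ≠ 0 := by
    intro j hj hj0
    apply hd
    have h4 : y 2 = y 0 ∧ z 2 = z 0 := by
      rcases hj with rfl | rfl
      · have h3 : (y 0 - y 2) ^ 2 + (z 0 - z 2) ^ 2 = 0 := hj0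
        obtain ⟨h4, h5⟩ := c04_sq h3
        exact ⟨(sub_eq_zero.1 h4).symm, (sub_eq_zero.1 h5).symm⟩
      · have h3 : (y 1 - y 2) ^ 2 + (z 1 - z 2) ^ 2 = 0 := hj0
        obtain ⟨h4, h5⟩ := c04_sq h3
        exact ⟨(sub_eq_zero.1 h4).symm.trans hy.symm, (sub_eq_zero.1 h5).symm.trans hz.symm⟩
    have hdt : dt x y z =
      (x 1 - x 0) * cr y z 1 + (y 1 - y 0) * cr z x 1 + (z 1 - z 0) * cr x y 1 := rfl
    have hk : cr y z 1 = (y 2 - y 0) * (z 3 - z 0) - (z 2 - z 0) * (y 3 - y 0) := rfl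
    rw [hdt, hk, h4.1, h4.2, ← hy, ← hz]; ring
  have hSC : ∀ j : Fin 6, (j = 1 ∨ j = 3) → ¬ SC x y z 0 j := by
    intro j hj hs
    unfold SC at hs
    rw [h1, mul_zero] at hs
    rcases mul_eq_zero.1 hs with h3 | h3
    · exact hPP0 h3
    · exact hnd j hj h3
  have hsplit := (split hd (fun j => be x y z j - be z y x j) (fun s hs => h.ends hs) 0).1
  have hth : be x y z 0 = π / 2 := by
    have w0 := Pool.Agent.Helper22.ST.ind_pos (SC.refl' x y z 0)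
      (uu x y z 0 * (be x y z 0 - be z y x 0))
    have w1 := Pool.Agent.Helper22.ST.ind_neg (hSC 1 (Or.inl rfl))
      (uu x y z 1 * (be x y z 1 - be z y x 1))
    have w3 := Pool.Agent.Helper22.ST.ind_neg (hSC 3 (Or.inr rfl))
      (uu x y z 3 * (be x y z 3 - be z y x 3))
    have hi : ∀ (p : Prop) (a b : ℝ), b = 0 → ind p (a * b) = 0 := by
      intro p a b hb0
      by_cases hp : p
      · rw [Pool.Agent.Helper22.ST.ind_pos hp, hb0, mul_zero]
      · exact Pool.Agent.Helper22.ST.ind_neg hp _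
    have w2 := hi (SC x y z 0 2) (uu x y z 2) (be x y z 2 - be z y x 2)
      (by rw [a2, e2, sub_self])
    have w4 := hi (SC x y z 0 4) (uu x y z 4) (be x y z 4 - be z y x 4)
      (by rw [a4, e4, sub_self])
    have w5 := hi (SC x y z 0 5) (uu x y z 5) (be x y z 5 - be z y x 5)
      (by rw [a5, e5, sub_self])
    rw [Fin.sum_univ_six] at hsplit
    rw [w0, w1, w2, w3, w4, w5, e0] at hsplit
    rw [add_zero, add_zero, add_zero, add_zero, add_zero] at hsplit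
    rcases mul_eq_zero.1 hsplit with h3 | h3
    · exact absurd h3 (uu_pos x y z hd 0).2.ne'
    · linarith
  have hPP : PP x y 1 = PP x y 3 := by
    refine (eq_of_LL (x := x) (y := y) (z := z) (i := 1) (j := 3) fun s hs => ?_).1
    have h3 := h.ends hs
    rw [Fin.sum_univ_six] at h3
    simp only [hth, a1, a2, a3, a4, a5, e0, e1, e2, e3, e4, e5] at h3
    have hpi := Real.pi_pos
    have h4 : π / 2 * (√(LL x y z s 3) - √(LL x y z s 1)) = 0 := by linarith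
    rcases mul_eq_zero.1 h4 with h5 | h5
    · linarith
    · linarith
  have hzx : cr z x 2 * cr z x 3 = 0 := by
    have h3 : cr z x 2 * cr z x 3 + cr x y 2 * cr x y 3 = 0 := b2.1 hth
    rw [c2] at h3
    linarith
  have hzx2 : cr z x 2 ≠ 0 := by
    intro h3
    have h4 := normals_ne x y z hd 0 1 0 (by show 1 * cr y z 2 + 0 * cr y z 3 = 0; rw [q2]; ring)
      (by show 1 * cr z x 2 + 0 * cr z x 3 = 0; rw [h3]; ring)
      (by show 1 * cr x y 2 + 0 * cr x y 3 = 0; rw [c2]; ring)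
    exact one_ne_zero h4.1
  have hzx3 : cr z x 3 = 0 := by
    rcases mul_eq_zero.1 hzx with h3 | h3
    · exact absurd h3 hzx2
    · exact h3
  -- coordinates
  have g1 : cr x y 2 = -((y 3 - y 0) * (x 1 - x 0)) := by
    show (x 3 - x 0) * (y 1 - y 0) - (y 3 - y 0) * (x 1 - x 0) = _
    rw [hy]; ring
  have g2 : cr x y 3 = (x 1 - x 0) * (y 2 - y 0) := by
    show (x 1 - x 0) * (y 2 - y 0) - (y 1 - y 0) * (x 2 - x 0) = _
    rw [hy]; ring
  have g3 : cr z x 3 = -((x 1 - x 0) * (z 2 - z 0)) := by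
    show (z 1 - z 0) * (x 2 - x 0) - (x 1 - x 0) * (z 2 - z 0) = _
    rw [hz]; ring
  have X1 : x 1 - x 0 ≠ 0 := by
    intro h3
    rw [g2, h3] at c3
    simp at c3
  have Y2 : y 2 - y 0 ≠ 0 := by
    intro h3
    rw [g2, h3] at c3
    simp at c3
  have hy3 : y 3 = y 0 := by
    rw [g1] at c2
    rcases mul_eq_zero.1 (neg_eq_zero.1 c2) with h3 | h3
    · linarith
    · exact absurd h3 X1
  have hz2 : z 2 = z 0 := by
    rw [g3] at hzx3
    rcases mul_eq_zero.1 (neg_eq_zero.1 hzx3) with h3 | h3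
    · exact absurd h3 X1
    · linarith
  have g4 : cr z x 2 = (z 3 - z 0) * (x 1 - x 0) := by
    show (z 3 - z 0) * (x 1 - x 0) - (x 3 - x 0) * (z 1 - z 0) = _
    rw [hz]; ring
  have Z3 : z 3 - z 0 ≠ 0 := by
    intro h3
    rw [g4, h3] at hzx2
    simp at hzx2
  have hx : x 1 - x 0 = 2 * (x 2 - x 0) := by
    have h3 : (x 0 - x 2) ^ 2 + (y 0 - y 2) ^ 2 = (x 1 - x 2) ^ 2 + (y 1 - y 2) ^ 2 := hPP
    rw [← hy] at h3
    have h4 : (x 1 - x 0) * ((x 1 - x 0) - 2 * (x 2 - x 0)) = 0 := by linarith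
    rcases mul_eq_zero.1 h4 with h5 | h5
    · exact absurd h5 X1
    · linarith
  have X2 : x 2 - x 0 ≠ 0 := by
    intro h3
    rw [hx, h3] at X1
    simp at X1
  have k1 : cr y z 1 = (y 2 - y 0) * (z 3 - z 0) := by
    show (y 2 - y 0) * (z 3 - z 0) - (z 2 - z 0) * (y 3 - y 0) = _
    rw [hz2]; ring
  have k0 : cr y z 0 = -((y 2 - y 0) * (z 3 - z 0)) := by
    show -(((y 2 - y 0) * (z 3 - z 0) - (z 2 - z 0) * (y 3 - y 0)) +
      ((y 3 - y 0) * (z 1 - z 0) - (z 3 - z 0) * (y 1 - y 0)) +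
      ((y 1 - y 0) * (z 2 - z 0) - (z 1 - z 0) * (y 2 - y 0))) = _
    rw [hz2, ← hy, ← hz]; ring
  have l1 : cr z x 1 = -((x 2 - x 0) * (z 3 - z 0)) := by
    show (z 2 - z 0) * (x 3 - x 0) - (x 2 - x 0) * (z 3 - z 0) = _
    rw [hz2]; ring
  have l0 : cr z x 0 = -((x 2 - x 0) * (z 3 - z 0)) := by
    show -(((z 2 - z 0) * (x 3 - x 0) - (x 2 - x 0) * (z 3 - z 0)) +
      ((z 3 - z 0) * (x 1 - x 0) - (x 3 - x 0) * (z 1 - z 0)) +
      ((z 1 - z 0) * (x 2 - x 0) - (x 1 - x 0) * (z 2 - z 0))) = _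
    rw [hz2, hx, ← hz]; ring
  have m1 : cr x y 1 = -((y 2 - y 0) * (x 3 - x 0)) := by
    show (x 2 - x 0) * (y 3 - y 0) - (y 2 - y 0) * (x 3 - x 0) = _
    rw [hy3]; ring
  have m0 : cr x y 0 = (y 2 - y 0) * ((x 3 - x 0) - 2 * (x 2 - x 0)) := by
    show -(((x 2 - x 0) * (y 3 - y 0) - (y 2 - y 0) * (x 3 - x 0)) +
      ((x 3 - x 0) * (y 1 - y 0) - (y 3 - y 0) * (x 1 - x 0)) +
      ((x 1 - x 0) * (y 2 - y 0) - (y 1 - y 0) * (x 2 - x 0))) = _
    rw [hy3, hx, ← hy]; ring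
  have hne : cr x y 0 ^ 2 - cr x y 1 ^ 2 ≠ 0 := by
    intro h3
    rw [m0, m1] at h3
    have h4 : (y 2 - y 0) ^ 2 * ((x 2 - x 0) * ((x 3 - x 0) - (x 2 - x 0))) = 0 := by linarith
    have h5 : (x 3 - x 0) - (x 2 - x 0) = 0 := by
      rcases mul_eq_zero.1 h4 with h6 | h6
      · exact absurd h6 (pow_ne_zero 2 Y2)
      · rcases mul_eq_zero.1 h6 with h7 | h7
        · exact absurd h7 X2
        · exact h7
    have h6 : x 3 - x 0 = x 2 - x 0 := by linarith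
    rw [m0, g2, hx, h6] at c03
    have h7 : 0 < (y 2 - y 0) ^ 2 * (x 2 - x 0) ^ 2 := by positivity
    nlinarith
  -- the zeros of the face 0
  have n1 : cr y z 0 ≠ 0 := by
    rw [k0]; exact neg_ne_zero.2 (mul_ne_zero Y2 Z3)
  have n2 : cr z x 0 ≠ 0 := by
    rw [l0]; exact neg_ne_zero.2 (mul_ne_zero X2 Z3)
  obtain ⟨r, s, hr1, hr2, hs1, hr, hs⟩ := two_roots n1 n2 c0
  have key : ∀ t : ℝ, t ≠ 0 → t ≠ -1 → ff x y z t 0 = 0 → ∀ w, w ≠ 0 → ff x y z t w ≠ 0 := by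
    intro t t0 t1 ht w hw
    have t2 : t + 1 ≠ 0 := fun h3 => t1 (by linarith)
    fin_cases w
    · exact absurd rfl hw
    · intro h3
      have h3' : ff x y z t 1 = 0 := h3
      have h4 : ff x y z t 0 - ff x y z t 1 = t * (t + 1) * (cr x y 0 ^ 2 - cr x y 1 ^ 2) := by
        unfold ff
        rw [k0, k1, l0, l1]
        ring
      rw [ht, h3', sub_zero] at h4
      exact mul_ne_zero (mul_ne_zero t0 t2) hne h4.symm
    · intro h3
      have h3' : ff x y z t 2 = 0 := h3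
      unfold ff at h3'
      rw [q2, c2] at h3'
      have h4 : t * cr z x 2 ^ 2 = 0 := by linarith
      exact mul_ne_zero t0 (pow_ne_zero 2 hzx2) h4
    · intro h3
      have h3' : ff x y z t 3 = 0 := h3
      unfold ff at h3'
      rw [q3, hzx3] at h3'
      have h4 : t * (t + 1) * cr x y 3 ^ 2 = 0 := by linarith
      exact mul_ne_zero (mul_ne_zero t0 t2) (pow_ne_zero 2 c3) h4
  have r0 : r ≠ 0 := hr2.ne
  have r1 : r ≠ -1 := hr1.ne'
  have s0 : s ≠ 0 := (by linarith : s < 0).ne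
  have s1 : s ≠ -1 := hs1.ne
  exact two_alone hd h.sta (s := r) (t := s) (hs1.trans hr1).ne' r0 r1 s0 s1 hr (key r r0 r1 hr) hs
    (key s s0 s1 hs)

end Pool.Agent.Helper22.PN
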