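import Pool.Agent.Helper22.PN.B01Ends
import Pool.Agent.Helper22.PN.B02Split
import Pool.Agent.Helper22.PN.B04Be

/-!
# PN-C05: the edge 01 is parallel to the first axis, `Flat x y 2 3`

`be x y z` (`be_double`): `θ` at the edge 0, `π` at 5, `π/2` else.  `be z y x = pat 2 3`: `π/2, π, π/2, π, π/2, 0`.  `Hy.ends` with
`l_j = √(LL x y z s j)`: `(θ - π/2) l_0 - (π/2) l_1 - (π/2) l_3 + π l_5 = 0`.  As in C04: `θ = π/2`, so
(as in C04) `y 0 = y 1 = y 3` and `z 0 = z 1 = z 2`.  `split` at `e = 1` and `e = 3`: the coefficients of the edges 1 and 3 are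
negative, so the edge 5 is in the class of the edge 1 and in the class of 3; `split` at `e = 5` (third sum):
`2 √(PP y z 5) = √(PP y z 1) + √(PP y z 3)` (or use `split_tot`).  Here `PP y z 1 = PP y z 3 = (y 0 - y 2)²` and
`PP y z 5 = (y 0 - y 2)² + (z 0 - z 3)²`; so `z 3 = z 0`, all `z` are equal, `dt = 0`.
(With `split_tot` the classes are not needed: second sum `∑ √(PP y z j) c j = 0`, where `PP y z 0 = 0`.)
-/

open Real Set
open Pool.Agent.Helper1.Tet
open Pool.Agent.Helper22.ST (PP ZZ cr dt ind)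

namespace Pool.Agent.Helper22.PN

private theorem c05_PP (f g : Fin 4 → ℝ) :
    PP f g 0 = (f 0 - f 1) ^ 2 + (g 0 - g 1) ^ 2 ∧ PP f g 1 = (f 0 - f 2) ^ 2 + (g 0 - g 2) ^ 2 ∧
    PP f g 2 = (f 0 - f 3) ^ 2 + (g 0 - g 3) ^ 2 ∧ PP f g 3 = (f 1 - f 2) ^ 2 + (g 1 - g 2) ^ 2 ∧
    PP f g 4 = (f 1 - f 3) ^ 2 + (g 1 - g 3) ^ 2 ∧ PP f g 5 = (f 2 - f 3) ^ 2 + (g 2 - g 3) ^ 2 :=
  ⟨rfl, rfl, rfl, rfl, rfl, rfl⟩

private theorem c05_sq {a b : ℝ} (h : a ^ 2 + b ^ 2 = 0) : a = 0 ∧ b = 0 := by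
  constructor
  · nlinarith [sq_nonneg a, sq_nonneg b]
  · nlinarith [sq_nonneg a, sq_nonneg b]

private theorem c05_cr1 (f g : Fin 4 → ℝ) :
    cr f g 1 = (f 2 - f 0) * (g 3 - g 0) - (g 2 - g 0) * (f 3 - f 0) := rfl

private theorem c05_cr2 (f g : Fin 4 → ℝ) :
    cr f g 2 = (f 3 - f 0) * (g 1 - g 0) - (g 3 - g 0) * (f 1 - f 0) := rfl

private theorem c05_cr3 (f g : Fin 4 → ℝ) :
    cr f g 3 = (f 1 - f 0) * (g 2 - g 0) - (g 1 - g 0) * (f 2 - f 0) := rfl

private theorem c05_pat : pat 2 3 0 = π / 2 ∧ pat 2 3 1 = π ∧ pat 2 3 2 = π / 2 ∧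
    pat 2 3 3 = π ∧ pat 2 3 4 = π / 2 ∧ pat 2 3 5 = 0 := by
  unfold pat
  refine ⟨?_, ?_, ?_, ?_, ?_, ?_⟩
  · rw [if_neg (by decide)]
  · rw [if_pos (by decide), if_neg (by decide)]
  · rw [if_neg (by decide)]
  · rw [if_pos (by decide), if_neg (by decide)]
  · rw [if_neg (by decide)]
  · rw [if_pos (by decide), if_pos (by decide)]

theorem no_df3 {x y z : Fin 4 → ℝ} (h : Hy x y z) (h1 : PP y z 0 = 0) (h2 : Flat x y 2 3) :
    False := by
  have hd : dt x y z ≠ 0 := h.1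
  obtain ⟨P0, P1, P2, P3, P4, P5⟩ := c05_PP y z
  have h1' := h1
  rw [P0] at h1'
  obtain ⟨ey, ez⟩ := c05_sq h1'
  have hdt : dt x y z = (x 1 - x 0) * ((y 2 - y 0) * (z 3 - z 0) - (z 2 - z 0) * (y 3 - y 0)) := by
    have e1 : dt x y z = (x 1 - x 0) * cr y z 1 + (y 1 - y 0) * cr z x 1 +
      (z 1 - z 0) * cr x y 1 := rfl
    rw [e1, c05_cr1 y z]
    have e2 : y 1 - y 0 = 0 := by linarith
    have e3 : z 1 - z 0 = 0 := by linarith
    rw [e2, e3]
    ring
  have hx : x 1 - x 0 ≠ 0 := by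
    intro h0
    apply hd
    rw [hdt, h0, zero_mul]
  have hD : (y 2 - y 0) * (z 3 - z 0) - (z 2 - z 0) * (y 3 - y 0) ≠ 0 := by
    intro h0
    apply hd
    rw [hdt, h0, mul_zero]
  have hy1 : y 1 = y 0 := by linarith
  have hz1 : z 1 = z 0 := by linarith
  obtain ⟨hb0, hb0', hbh, hb5, hbo⟩ := be_double hd h1
  have r0 : (0 : Fin 6).rev = 5 := by decide
  rw [r0] at hb5 hbo
  have b1 := hbo 1 (by decide) (by decide)
  have b2 := hbo 2 (by decide) (by decide)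
  have b3 := hbo 3 (by decide) (by decide)
  have b4 := hbo 4 (by decide) (by decide)
  obtain ⟨p0, p1, p2, p3, p4, p5⟩ := c05_pat
  have hends : ∀ s : ℝ, 0 < s → ∑ j, √(LL x y z s j) * (be x y z j - be z y x j) = 0 :=
    fun s hs => h.ends hs
  have hpi := Real.pi_pos
  -- the class of the edge 0 is alone
  have hPx0 : PP x y 0 ≠ 0 := by
    obtain ⟨Q0, -⟩ := c05_PP x y
    rw [Q0]
    have : 0 < (x 1 - x 0) ^ 2 := by positivity
    nlinarith [sq_nonneg (y 0 - y 1)]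
  have hne1 : PP y z 1 ≠ 0 := by
    rw [P1]
    intro h0
    obtain ⟨a, b⟩ := c05_sq h0
    apply hD
    have a' : y 2 - y 0 = 0 := by linarith
    have b' : z 2 - z 0 = 0 := by linarith
    rw [a', b']
    ring
  have hne2 : PP y z 2 ≠ 0 := by
    rw [P2]
    intro h0
    obtain ⟨a, b⟩ := c05_sq h0
    apply hD
    have a' : y 3 - y 0 = 0 := by linarith
    have b' : z 3 - z 0 = 0 := by linarith
    rw [a', b']
    ring
  have hne3 : PP y z 3 ≠ 0 := by
    rw [P3, hy1, hz1, ← P1]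
    exact hne1
  have hne4 : PP y z 4 ≠ 0 := by
    rw [P4, hy1, hz1, ← P2]
    exact hne2
  have hne5 : PP y z 5 ≠ 0 := by
    rw [P5]
    intro h0
    obtain ⟨a, b⟩ := c05_sq h0
    apply hD
    have a' : y 2 = y 3 := by linarith
    have b' : z 2 = z 3 := by linarith
    rw [a', b']
    ring
  have hSC : ∀ j, PP y z j ≠ 0 → ¬ SC x y z 0 j := by
    intro j hj hs
    unfold SC at hs
    rw [h1, mul_zero] at hs
    rcases mul_eq_zero.1 hs with h0 | h0
    · exact hPx0 h0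
    · exact hj h0
  have hs0 := (split hd _ hends 0).1
  rw [Fin.sum_univ_six] at hs0
  rw [ST.ind_neg (hSC 1 hne1), ST.ind_neg (hSC 2 hne2), ST.ind_neg (hSC 3 hne3),
    ST.ind_neg (hSC 4 hne4), ST.ind_neg (hSC 5 hne5), ST.ind_pos (SC.refl' x y z 0)] at hs0
  have hu := (uu_pos x y z hd 0).2
  have hth : be x y z 0 = π / 2 := by
    have e1 : uu x y z 0 * (be x y z 0 - be z y x 0) = 0 := by linarith
    rcases mul_eq_zero.1 e1 with h0 | h0
    · exact absurd h0 hu.ne'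
    · have e2 := be_flat' (x := x) (y := y) (z := z) h2 0
      rw [p0] at e2
      linarith
  have hcc := hbh.1 hth
  have hc2 : cr x y 2 = 0 := h2.2.1
  have hec : ec 0 = 2 := rfl
  have hed : ed 0 = 3 := rfl
  rw [hec, hed, hc2, zero_mul, add_zero] at hcc
  -- coordinates
  have hy3 : y 3 = y 0 := by
    rw [c05_cr2] at hc2
    have e1 : (y 3 - y 0) * (x 1 - x 0) = 0 := by
      rw [hy1] at hc2
      linarith
    rcases mul_eq_zero.1 e1 with h0 | h0
    · linarith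
    · exact absurd h0 hx
  have hz2 : z 2 = z 0 := by
    rw [c05_cr2, c05_cr3, hz1, sub_self, zero_mul, mul_zero] at hcc
    have e1 : (z 3 - z 0) * (z 2 - z 0) * ((x 1 - x 0) * (x 1 - x 0)) = 0 := by linarith
    rcases mul_eq_zero.1 e1 with h0 | h0
    · rcases mul_eq_zero.1 h0 with h3 | h3
      · exfalso
        apply hD
        rw [h3, hy3]
        ring
      · linarith
    · exact absurd h0 (mul_ne_zero hx hx)
  -- the total relation
  have ht := (split_tot hd _ hends).2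
  rw [Fin.sum_univ_six, be_flat' h2 0, be_flat' h2 1, be_flat' h2 2, be_flat' h2 3, be_flat' h2 4,
    be_flat' h2 5, p0, p1, p2, p3, p4, p5, hth, b1, b2, b3, b4, hb5] at ht
  have e31 : PP y z 3 = PP y z 1 := by
    rw [P3, P1, hy1, hz1]
  rw [e31] at ht
  have e4 : √(PP y z 5) = √(PP y z 1) := by
    have : π * (√(PP y z 5) - √(PP y z 1)) = 0 := by linarith
    rcases mul_eq_zero.1 this with h0 | h0
    · exact absurd h0 hpi.ne'
    · linarith
  have e5 : PP y z 5 = PP y z 1 := by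
    have a := Real.sq_sqrt (ST.PP_nonneg y z 5)
    have b := Real.sq_sqrt (ST.PP_nonneg y z 1)
    rw [e4] at a
    linarith
  rw [P5, P1, hy3, hz2] at e5
  apply hD
  have e6 : (z 0 - z 3) ^ 2 = 0 := by nlinarith
  have e7 : z 0 - z 3 = 0 := by
    exact pow_eq_zero_iff (two_ne_zero) |>.1 e6
  have e8 : z 3 - z 0 = 0 := by linarith
  rw [e8, hz2]
  ring

end Pool.Agent.Helper22.PN
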