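import Pool.Agent.Helper22.PN.C04DF1
import Pool.Agent.Helper22.PN.C05DF3

/-!
# PN-C06: no edge parallel to the first axis together with `Flat x y W m`, and the mirror statement

Relabel (`Hy.perm`, `Flat.perm`) such that `j = 0` (`σ 0 = ea j`, `σ 1 = eb j`).  `split` at `e = 0` (the class of 0 is `{0}`): the
coefficient `be x y z 0 - pat W m 0` is `0`; `0 < be < π` (`be_double`), so `pat W m 0 = π/2`, so `W ∉ {0, 1}`.  Exchange 2 and 3 such that
`W = 2`; then `m = 3`: `no_df3`; `m = 1`: `no_df1`; `m = 0`: exchange 0 and 1 and use `no_df1`.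
`no_fd`: apply `no_df` to `h.swap` (`PP y x = PP x y`, `Flat.swap`).
-/

open Real Set
open Pool.Agent.Helper1.Tet
open Pool.Agent.Helper22.ST (PP ZZ cr dt ind)

namespace Pool.Agent.Helper22.PN

private theorem c06_sq {a b : ℝ} (h : a ^ 2 + b ^ 2 = 0) : a = 0 ∧ b = 0 := by
  constructor
  · nlinarith [sq_nonneg a, sq_nonneg b]
  · nlinarith [sq_nonneg a, sq_nonneg b]

private theorem c06_dt {x y z : Fin 4 → ℝ} (h1 : PP y z 0 = 0) : dt x y z =
    (x 1 - x 0) * ((y 2 - y 0) * (z 3 - z 0) - (z 2 - z 0) * (y 3 - y 0)) ∧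
      y 1 = y 0 ∧ z 1 = z 0 := by
  have h3 : (y 0 - y 1) ^ 2 + (z 0 - z 1) ^ 2 = 0 := h1
  obtain ⟨ey, ez⟩ := c06_sq h3
  have hy : y 1 = y 0 := by linarith
  have hz : z 1 = z 0 := by linarith
  refine ⟨?_, hy, hz⟩
  have e1 : dt x y z = (x 1 - x 0) * cr y z 1 + (y 1 - y 0) * cr z x 1 +
    (z 1 - z 0) * cr x y 1 := rfl
  have e2 : cr y z 1 = (y 2 - y 0) * (z 3 - z 0) - (z 2 - z 0) * (y 3 - y 0) := rfl
  rw [e1, e2, hy, hz]
  ring

private theorem c06_ne {x y z : Fin 4 → ℝ} (hd : dt x y z ≠ 0) (h1 : PP y z 0 = 0) :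
    ∀ j : Fin 6, j ≠ 0 → PP y z j ≠ 0 := by
  obtain ⟨hdt, hy1, hz1⟩ := c06_dt (x := x) h1
  have hD : (y 2 - y 0) * (z 3 - z 0) - (z 2 - z 0) * (y 3 - y 0) ≠ 0 := by
    intro h0
    exact hd (by rw [hdt, h0, mul_zero])
  have k2 : ¬ (y 2 = y 0 ∧ z 2 = z 0) := by
    rintro ⟨a, b⟩
    apply hD
    rw [a, b]; ring
  have k3 : ¬ (y 3 = y 0 ∧ z 3 = z 0) := by
    rintro ⟨a, b⟩
    apply hD
    rw [a, b]; ring
  have k23 : ¬ (y 2 = y 3 ∧ z 2 = z 3) := by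
    rintro ⟨a, b⟩
    apply hD
    rw [a, b]; ring
  intro j hj h0
  fin_cases j
  · exact hj rfl
  · have h3 : (y 0 - y 2) ^ 2 + (z 0 - z 2) ^ 2 = 0 := h0
    obtain ⟨a, b⟩ := c06_sq h3
    exact k2 ⟨by linarith, by linarith⟩
  · have h3 : (y 0 - y 3) ^ 2 + (z 0 - z 3) ^ 2 = 0 := h0
    obtain ⟨a, b⟩ := c06_sq h3
    exact k3 ⟨by linarith, by linarith⟩
  · have h3 : (y 1 - y 2) ^ 2 + (z 1 - z 2) ^ 2 = 0 := h0
    obtain ⟨a, b⟩ := c06_sq h3
    exact k2 ⟨by linarith, by linarith⟩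
  · have h3 : (y 1 - y 3) ^ 2 + (z 1 - z 3) ^ 2 = 0 := h0
    obtain ⟨a, b⟩ := c06_sq h3
    exact k3 ⟨by linarith, by linarith⟩
  · have h3 : (y 2 - y 3) ^ 2 + (z 2 - z 3) ^ 2 = 0 := h0
    obtain ⟨a, b⟩ := c06_sq h3
    exact k23 ⟨by linarith, by linarith⟩

/-- the angle at the edge 0 is the one of the pattern -/
private theorem c06_pat {x y z : Fin 4 → ℝ} (h : Hy x y z) {W m : Fin 4} (h1 : PP y z 0 = 0)
    (h2 : Flat x y W m) : W ≠ 0 ∧ W ≠ 1 := by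
  have hd : dt x y z ≠ 0 := h.1
  have hne := c06_ne hd h1
  obtain ⟨b0, b0', -, -, -⟩ := be_double hd h1
  have hPx0 : PP x y 0 ≠ 0 := by
    intro h0
    have h3 := (uu_pos x y z hd 0).1
    rw [h0, h1] at h3
    simp at h3
  have hSC : ∀ j, j ≠ 0 → ¬ SC x y z 0 j := by
    intro j hj hs
    unfold SC at hs
    rw [h1, mul_zero] at hs
    rcases mul_eq_zero.1 hs with h3 | h3
    · exact hPx0 h3
    · exact hne j hj h3
  have hsplit := (split hd (fun j => be x y z j - be z y x j) (fun s hs => h.ends hs) 0).1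
  have hn : ∀ j : Fin 6, j ≠ 0 → ind (SC x y z 0 j) (uu x y z j * (be x y z j - be z y x j)) = 0 :=
    fun j hj => Pool.Agent.Helper22.ST.ind_neg (hSC j hj) _
  have h0 := Pool.Agent.Helper22.ST.ind_pos (SC.refl' x y z 0)
    (uu x y z 0 * (be x y z 0 - be z y x 0))
  rw [Fin.sum_univ_six, h0, hn 1 (by decide), hn 2 (by decide), hn 3 (by decide),
    hn 4 (by decide), hn 5 (by decide)] at hsplit
  have hb : be x y z 0 = pat W m 0 := by
    rw [← be_flat' h2 0]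
    have h3 : uu x y z 0 * (be x y z 0 - be z y x 0) = 0 := by linarith
    rcases mul_eq_zero.1 h3 with h4 | h4
    · exact absurd h4 (uu_pos x y z hd 0).2.ne'
    · linarith
  have key : ¬ (ea 0 = W ∨ eb 0 = W) := by
    intro hW
    unfold pat at hb
    rw [if_pos hW] at hb
    by_cases hm : ea 0 = m ∨ eb 0 = m
    · rw [if_pos hm] at hb; linarith
    · rw [if_neg hm] at hb; linarith
  constructor
  · rintro rfl
    exact key (Or.inl rfl)
  · rintro rfl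
    exact key (Or.inr rfl)

private theorem c06_two {x y z : Fin 4 → ℝ} (h : Hy x y z) {m : Fin 4} (h1 : PP y z 0 = 0)
    (h2 : Flat x y 2 m) : False := by
  have hm : m = 0 ∨ m = 1 ∨ m = 3 := by
    have h3 := h2.1
    revert h3
    clear h2
    revert m
    decide
  rcases hm with rfl | rfl | rfl
  · have h3 := h.perm (Equiv.swap 0 1)
    have h4 := h2.perm (Equiv.swap 0 1)
    have e1 : (Equiv.swap (0 : Fin 4) 1).symm 2 = 2 := by decide
    have e2 : (Equiv.swap (0 : Fin 4) 1).symm 0 = 1 := by decide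
    rw [e1, e2] at h4
    refine no_df1 h3 ?_ h4
    have h5 : (y 0 - y 1) ^ 2 + (z 0 - z 1) ^ 2 = 0 := h1
    have s0 : (Equiv.swap (0 : Fin 4) 1) 0 = 1 := by decide
    have s1 : (Equiv.swap (0 : Fin 4) 1) 1 = 0 := by decide
    show (y ((Equiv.swap (0 : Fin 4) 1) 0) - y ((Equiv.swap (0 : Fin 4) 1) 1)) ^ 2 +
      (z ((Equiv.swap (0 : Fin 4) 1) 0) - z ((Equiv.swap (0 : Fin 4) 1) 1)) ^ 2 = 0
    rw [s0, s1]
    linarith
  · exact no_df1 h h1 h2
  · exact no_df3 h h1 h2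

private theorem c06_zero {x y z : Fin 4 → ℝ} (h : Hy x y z) {W m : Fin 4} (h1 : PP y z 0 = 0)
    (h2 : Flat x y W m) : False := by
  obtain ⟨hW0, hW1⟩ := c06_pat h h1 h2
  have hW : W = 2 ∨ W = 3 := by
    clear h2
    revert W
    decide
  rcases hW with rfl | rfl
  · exact c06_two h h1 h2
  · have h3 := h.perm (Equiv.swap 2 3)
    have h4 := h2.perm (Equiv.swap 2 3)
    have e1 : (Equiv.swap (2 : Fin 4) 3).symm 3 = 2 := by decide
    rw [e1] at h4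
    refine c06_two h3 ?_ h4
    have s0 : (Equiv.swap (2 : Fin 4) 3) 0 = 0 := by decide
    have s1 : (Equiv.swap (2 : Fin 4) 3) 1 = 1 := by decide
    show (y ((Equiv.swap (2 : Fin 4) 3) 0) - y ((Equiv.swap (2 : Fin 4) 3) 1)) ^ 2 +
      (z ((Equiv.swap (2 : Fin 4) 3) 0) - z ((Equiv.swap (2 : Fin 4) 3) 1)) ^ 2 = 0
    rw [s0, s1]
    exact h1

private theorem c06_perm (a b : Fin 4) (hab : a ≠ b) :
    ∃ σ : Equiv.Perm (Fin 4), σ 0 = a ∧ σ 1 = b := by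
  refine ⟨Equiv.swap 0 a * Equiv.swap 1 (Equiv.swap 0 a b), ?_⟩
  revert a b
  decide

theorem no_df {x y z : Fin 4 → ℝ} (h : Hy x y z) {j : Fin 6} {W m : Fin 4} (h1 : PP y z j = 0)
    (h2 : Flat x y W m) : False := by
  have hj : ea j ≠ eb j := by
    have h3 : ∀ i : Fin 6, ea i ≠ eb i := by decide
    exact h3 j
  obtain ⟨σ, hσ0, hσ1⟩ := c06_perm (ea j) (eb j) hj
  refine c06_zero (h.perm σ) ?_ (h2.perm σ)
  show (y (σ 0) - y (σ 1)) ^ 2 + (z (σ 0) - z (σ 1)) ^ 2 = 0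
  rw [hσ0, hσ1]
  exact h1

theorem no_fd {x y z : Fin 4 → ℝ} (h : Hy x y z) {j : Fin 6} {V m : Fin 4} (h1 : Flat y z V m)
    (h2 : PP x y j = 0) : False := by
  refine no_df h.swap (j := j) (W := V) (m := m) ?_ h1.swap
  have h3 : (x (ea j) - x (eb j)) ^ 2 + (y (ea j) - y (eb j)) ^ 2 = 0 := h2
  show (y (ea j) - y (eb j)) ^ 2 + (x (ea j) - x (eb j)) ^ 2 = 0
  linarith

end Pool.Agent.Helper22.PN
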