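import Pool.Agent.Helper22.PN.A14Sim
import Pool.Agent.Helper22.PN.B03Flat

/-!
# PN-C10: normal form when the face opposite to the vertex 0 is parallel to both axes

`cr y z 0 = 0` and `cr x y 0 = 0`: the normal of the face `123` is `(0, *, 0)`, so `y 1 = y 2 = y 3 ≠ y 0`.  Translate the vertex `0` to
`(0, 1, 0)` and the face to the plane `y = 0`, dividing by `k = |y 0 - y 1|`: `a i = (x (i + 1) - x 0) / k`,
`c i = (z (i + 1) - z 0) / k`; `PSim` with `σ = 1` and factor `1 / k`, `Hy.sim`.  `Flat` is invariant under translations and scaling.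
-/

open Real Set
open Pool.Agent.Helper1.Tet
open Pool.Agent.Helper22.ST (PP ZZ cr dt ind)

namespace Pool.Agent.Helper22.PN

/-- coordinates `0, a 0, a 1, a 2` -/
def n3 (a : Fin 3 → ℝ) : Fin 4 → ℝ := ![0, a 0, a 1, a 2]

/-- coordinates `1, 0, 0, 0` -/
def ny : Fin 4 → ℝ := ![1, 0, 0, 0]

private theorem cr_scale (f g : Fin 4 → ℝ) (α β p q : ℝ) (v : Fin 4) :
    cr (fun i => (f i - α) * p) (fun i => (g i - β) * q) v = p * q * cr f g v := by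
  fin_cases v <;> simp [cr] <;> ring

private theorem flat_scale {f g f' g' : Fin 4 → ℝ} {μ : ℝ} (hμ : μ ≠ 0)
    (h : ∀ v, cr f' g' v = μ * cr f g v) {V m : Fin 4} (hF : Flat f g V m) : Flat f' g' V m := by
  obtain ⟨h1, h2, h3, h4⟩ := hF
  have hμ2 : 0 < μ ^ 2 := by positivity
  refine ⟨h1, by rw [h, h2, mul_zero], fun v hv => ?_, fun p r hp hr hpm hrm hpr => ?_⟩
  · rw [h]; exact mul_ne_zero hμ (h3 v hv)
  · obtain ⟨h5, h6⟩ := h4 p r hp hr hpm hrm hpr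
    rw [h, h, h]
    constructor
    · have h7 := mul_pos hμ2 h5
      have h8 : μ * cr f g p * (μ * cr f g r) = μ ^ 2 * (cr f g p * cr f g r) := by ring
      rw [h8]; exact h7
    · have h7 := mul_neg_of_pos_of_neg hμ2 h6
      have h8 : μ * cr f g p * (μ * cr f g m) = μ ^ 2 * (cr f g p * cr f g m) := by ring
      rw [h8]; exact h7

theorem norm_VV {x y z : Fin 4 → ℝ} (h : Hy x y z) (h1 : cr y z 0 = 0) (h2 : cr x y 0 = 0) :
    ∃ a c : Fin 3 → ℝ, Hy (n3 a) ny (n3 c) ∧ (∀ m, Flat y z 0 m → Flat ny (n3 c) 0 m) ∧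
      ∀ m, Flat x y 0 m → Flat (n3 a) ny 0 m := by
  have hd := h.1
  -- the face opposite to the vertex 0 is parallel to both axes
  have e1 : dt x y z = -(y 1 - y 0) * cr z x 0 := by
    have : dt x y z = -((x 1 - x 0) * cr y z 0 + (y 1 - y 0) * cr z x 0 +
        (z 1 - z 0) * cr x y 0) := by
      simp only [dt, cr, Matrix.cons_val_zero, Matrix.cons_val_one]
      ring
    rw [this, h1, h2]; ring
  have hc : cr z x 0 ≠ 0 := by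
    intro h0; apply hd; rw [e1, h0, mul_zero]
  have h01 : y 0 - y 1 ≠ 0 := by
    intro h0; apply hd; rw [e1]
    have : y 1 - y 0 = 0 := by linarith
    rw [this]; ring
  have h12 : y 1 = y 2 := by
    have : (x 1 - x 2) * cr y z 0 + (y 1 - y 2) * cr z x 0 + (z 1 - z 2) * cr x y 0 = 0 := by
      simp only [cr, Matrix.cons_val_zero]
      ring
    rw [h1, h2, mul_zero, mul_zero, zero_add, add_zero] at this
    have := (mul_eq_zero.1 this).resolve_right hc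
    linarith
  have h13 : y 1 = y 3 := by
    have : (x 1 - x 3) * cr y z 0 + (y 1 - y 3) * cr z x 0 + (z 1 - z 3) * cr x y 0 = 0 := by
      simp only [cr, Matrix.cons_val_zero]
      ring
    rw [h1, h2, mul_zero, mul_zero, zero_add, add_zero] at this
    have := (mul_eq_zero.1 this).resolve_right hc
    linarith
  set k : ℝ := |y 0 - y 1| with hk
  have hk0 : 0 < k := abs_pos.2 h01
  have hk2 : k ^ 2 = (y 0 - y 1) ^ 2 := sq_abs _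
  have hn : ∀ w : Fin 4 → ℝ, n3 (fun i => (w i.succ - w 0) * k⁻¹) =
      fun i => (w i - w 0) * k⁻¹ := by
    intro w
    funext i
    fin_cases i
    · simp [n3]
    · rfl
    · rfl
    · rfl
  have hny : ny = fun i => (y i - y 1) * (y 0 - y 1)⁻¹ := by
    funext i
    fin_cases i
    · change (1 : ℝ) = (y 0 - y 1) * (y 0 - y 1)⁻¹
      rw [mul_inv_cancel₀ h01]
    · change (0 : ℝ) = (y 1 - y 1) * (y 0 - y 1)⁻¹
      ring
    · change (0 : ℝ) = (y 2 - y 1) * (y 0 - y 1)⁻¹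
      rw [h12]; ring
    · change (0 : ℝ) = (y 3 - y 1) * (y 0 - y 1)⁻¹
      rw [h13]; ring
  refine ⟨fun i => (x i.succ - x 0) * k⁻¹, fun i => (z i.succ - z 0) * k⁻¹, ?_, ?_, ?_⟩
  · refine h.sim ⟨1, k⁻¹, inv_pos.2 hk0, fun i j => ?_⟩
    rw [hn, hn, hny]
    refine ⟨?_, ?_, ?_⟩
    · simp only [Equiv.Perm.coe_one, id_eq]; ring
    · simp only [Equiv.Perm.coe_one, id_eq]
      rw [inv_pow, hk2, ← inv_pow]
      ring
    · simp only [Equiv.Perm.coe_one, id_eq]; ring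
  · intro m hF
    rw [hn, hny]
    exact flat_scale (mul_ne_zero (inv_ne_zero h01) (inv_ne_zero hk0.ne'))
      (fun v => cr_scale y z (y 1) (z 0) _ _ v) hF
  · intro m hF
    rw [hn, hny]
    exact flat_scale (mul_ne_zero (inv_ne_zero hk0.ne') (inv_ne_zero h01))
      (fun v => cr_scale x y (x 0) (y 1) _ _ v) hF

/-- values in the normal form -/
theorem cr_norm (a c : Fin 3 → ℝ) :
    (cr ny (n3 c) 0 = 0 ∧ cr ny (n3 c) 1 = c 1 - c 2 ∧ cr ny (n3 c) 2 = c 2 - c 0 ∧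
      cr ny (n3 c) 3 = c 0 - c 1) ∧
    (cr (n3 a) ny 0 = 0 ∧ cr (n3 a) ny 1 = a 2 - a 1 ∧ cr (n3 a) ny 2 = a 0 - a 2 ∧
      cr (n3 a) ny 3 = a 1 - a 0) ∧
    (cr (n3 c) (n3 a) 1 = c 1 * a 2 - a 1 * c 2 ∧ cr (n3 c) (n3 a) 2 = c 2 * a 0 - a 2 * c 0 ∧
      cr (n3 c) (n3 a) 3 = c 0 * a 1 - a 0 * c 1 ∧
      cr (n3 c) (n3 a) 0 = -((c 1 * a 2 - a 1 * c 2) + (c 2 * a 0 - a 2 * c 0) +
        (c 0 * a 1 - a 0 * c 1))) := by
  have e0 : ∀ b : Fin 3 → ℝ, n3 b 0 = 0 := fun b => rfl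
  have e1 : ∀ b : Fin 3 → ℝ, n3 b 1 = b 0 := fun b => rfl
  have e2 : ∀ b : Fin 3 → ℝ, n3 b 2 = b 1 := fun b => rfl
  have e3 : ∀ b : Fin 3 → ℝ, n3 b 3 = b 2 := fun b => rfl
  have y0 : ny 0 = 1 := rfl
  have y1 : ny 1 = 0 := rfl
  have y2 : ny 2 = 0 := rfl
  have y3 : ny 3 = 0 := rfl
  have c0 : ∀ f g : Fin 4 → ℝ, cr f g 0 = -(((f 2 - f 0) * (g 3 - g 0) -
      (g 2 - g 0) * (f 3 - f 0)) + ((f 3 - f 0) * (g 1 - g 0) - (g 3 - g 0) * (f 1 - f 0)) +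
      ((f 1 - f 0) * (g 2 - g 0) - (g 1 - g 0) * (f 2 - f 0))) := fun _ _ => rfl
  have c1 : ∀ f g : Fin 4 → ℝ, cr f g 1 = (f 2 - f 0) * (g 3 - g 0) -
      (g 2 - g 0) * (f 3 - f 0) := fun _ _ => rfl
  have c2 : ∀ f g : Fin 4 → ℝ, cr f g 2 = (f 3 - f 0) * (g 1 - g 0) -
      (g 3 - g 0) * (f 1 - f 0) := fun _ _ => rfl
  have c3 : ∀ f g : Fin 4 → ℝ, cr f g 3 = (f 1 - f 0) * (g 2 - g 0) -
      (g 1 - g 0) * (f 2 - f 0) := fun _ _ => rfl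
  refine ⟨⟨?_, ?_, ?_, ?_⟩, ⟨?_, ?_, ?_, ?_⟩, ?_, ?_, ?_, ?_⟩ <;>
    simp only [c0, c1, c2, c3, e0, e1, e2, e3, y0, y1, y2, y3] <;> ring

theorem PP_norm (a c : Fin 3 → ℝ) :
    (PP (n3 a) ny 0 = 1 + a 0 ^ 2 ∧ PP (n3 a) ny 1 = 1 + a 1 ^ 2 ∧ PP (n3 a) ny 2 = 1 + a 2 ^ 2 ∧
      PP (n3 a) ny 3 = (a 0 - a 1) ^ 2 ∧ PP (n3 a) ny 4 = (a 0 - a 2) ^ 2 ∧
      PP (n3 a) ny 5 = (a 1 - a 2) ^ 2) ∧
    (PP ny (n3 c) 0 = 1 + c 0 ^ 2 ∧ PP ny (n3 c) 1 = 1 + c 1 ^ 2 ∧ PP ny (n3 c) 2 = 1 + c 2 ^ 2 ∧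
      PP ny (n3 c) 3 = (c 0 - c 1) ^ 2 ∧ PP ny (n3 c) 4 = (c 0 - c 2) ^ 2 ∧
      PP ny (n3 c) 5 = (c 1 - c 2) ^ 2) := by
  refine ⟨⟨?_, ?_, ?_, ?_, ?_, ?_⟩, ?_, ?_, ?_, ?_, ?_, ?_⟩ <;>
    simp [PP, ea, eb, n3, ny] <;> ring

theorem dt_norm (a c : Fin 3 → ℝ) : dt (n3 a) ny (n3 c) = -(
    (c 1 * a 2 - a 1 * c 2) + (c 2 * a 0 - a 2 * c 0) + (c 0 * a 1 - a 0 * c 1)) := by
  obtain ⟨⟨-, h1, -, -⟩, ⟨-, h2, -, -⟩, h3, -, -, -⟩ := cr_norm a c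
  have hz : cr (n3 c) (n3 a) 1 = c 1 * a 2 - a 1 * c 2 := h3
  have e0 : ∀ b : Fin 3 → ℝ, n3 b 0 = 0 := fun b => rfl
  have e1 : ∀ b : Fin 3 → ℝ, n3 b 1 = b 0 := fun b => rfl
  have y0 : ny 0 = 1 := rfl
  have y1 : ny 1 = 0 := rfl
  rw [dt, h1, h2, hz, e0, e0, e1, e1, y0, y1]
  ring

end Pool.Agent.Helper22.PN
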