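import Pool.Agent.Helper22.PN.B01Ends
import Pool.Agent.Helper22.PN.B02Split
import Pool.Agent.Helper22.PN.B04Be
import Pool.Agent.Helper22.PN.B06Roots
import Pool.Agent.Helper22.PN.B07Alone
import Pool.Agent.Helper22.PN.B08Sta
import Pool.Agent.Helper22.PN.C10Norm

/-!
# PN-C11: same apex, different middle points

`Hy.ends` with `be = pat 0 2`, `be' = pat 0 3` (`be_flat`, `be_flat'`): `√(LL s 1) = √(LL s 2)` for all `s > 0`, so (`eq_of_LL`, `PP_norm`)
`a 1 ^ 2 = a 2 ^ 2`, `c 1 ^ 2 = c 2 ^ 2`, and `a 1 ≠ a 2`, `c 1 ≠ c 2` (`Flat`, `cr_norm`), so `a 1 = - a 2`, `c 1 = - c 2`.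
Face 1: normal `(-2 c2, 0, 2 a2)` (indices: `c2 = c 2`), `ff t 1 = (t + 1) (4 c2² + t 4 a2²)`: only one zero `≠ -1`.
Faces 2, 3: the second components of the normals are equal, `ω = c 2 * a 0 - a 2 * c 0 ≠ 0` (otherwise `dt = 0`, `dt_norm`),
`ff t 2 - ff t 3 = -4 (t + 1) (c 0 * c 2 + t * a 0 * a 2)`, where `c 0 * c 2 < 0` (`Flat ny (n3 c) 0 2`:
`(c 1 - c 2) * (c 0 - c 1) > 0`) and `a 0 * a 2 > 0` (`Flat (n3 a) ny 0 3`: `(a 2 - a 1) * (a 0 - a 2) > 0`), so there is no common zero `t < 0`,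
`t ≠ -1`.  Face 0: `ff t 0 = t * (cr z x 0)² ≠ 0` for `t ≠ 0`.
The face 2 has two zeros (`two_roots`); by `two_alone` it is not alone at both, so at one of them the face 1 is tangent; the same for
the face 3.  The face 1 has only one zero `≠ -1`, so this is a common zero of the faces 2 and 3, a contradiction.
-/

open Real Set
open Pool.Agent.Helper1.Tet
open Pool.Agent.Helper22.ST (PP ZZ cr dt ind)

namespace Pool.Agent.Helper22.PN

private theorem c11_in {V m : Fin 4} {j : Fin 6} (h : ea j = V ∨ eb j = V)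
    (h' : ea j = m ∨ eb j = m) : pat V m j = 0 := by
  unfold pat
  rw [if_pos h, if_pos h']

private theorem c11_out {V m : Fin 4} {j : Fin 6} (h : ea j = V ∨ eb j = V)
    (h' : ¬ (ea j = m ∨ eb j = m)) : pat V m j = π := by
  unfold pat
  rw [if_pos h, if_neg h']

private theorem c11_half {V m : Fin 4} {j : Fin 6} (h : ¬ (ea j = V ∨ eb j = V)) :
    pat V m j = π / 2 := by
  unfold pat
  rw [if_neg h]

private theorem c11_LL (x y z : Fin 4 → ℝ)
    (h : ∀ s : ℝ, 0 < s → ∑ j, √(LL x y z s j) * (pat 0 2 j - pat 0 3 j) = 0) (s : ℝ) (hs : 0 < s) :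
    √(LL x y z s 1) = √(LL x y z s 2) := by
  have e := h s hs
  have p0 : pat 0 2 0 - pat 0 3 0 = 0 := by
    rw [c11_out (by decide) (by decide), c11_out (by decide) (by decide), sub_self]
  have p1 : pat 0 2 1 - pat 0 3 1 = -π := by
    rw [c11_in (by decide) (by decide), c11_out (by decide) (by decide), zero_sub]
  have p2 : pat 0 2 2 - pat 0 3 2 = π := by
    rw [c11_out (by decide) (by decide), c11_in (by decide) (by decide), sub_zero]
  have p3 : pat 0 2 3 - pat 0 3 3 = 0 := by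
    rw [c11_half (by decide), c11_half (by decide), sub_self]
  have p4 : pat 0 2 4 - pat 0 3 4 = 0 := by
    rw [c11_half (by decide), c11_half (by decide), sub_self]
  have p5 : pat 0 2 5 - pat 0 3 5 = 0 := by
    rw [c11_half (by decide), c11_half (by decide), sub_self]
  rw [Fin.sum_univ_six, p0, p1, p2, p3, p4, p5] at e
  have e2 : π * (√(LL x y z s 2) - √(LL x y z s 1)) = 0 := by linear_combination e
  have e3 := (mul_eq_zero.1 e2).resolve_left Real.pi_ne_zero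
  linarith

theorem no_c (a c : Fin 3 → ℝ) (h : Hy (n3 a) ny (n3 c)) (h1 : Flat ny (n3 c) 0 2)
    (h2 : Flat (n3 a) ny 0 3) : False := by
  have hd := h.1
  have hsta := h.sta
  have hl := c11_LL (n3 a) ny (n3 c) (fun s hs => by
    have e := h.ends hs
    simpa only [be_flat h1, be_flat' h2] using e)
  obtain ⟨q1, q2⟩ := eq_of_LL hl
  obtain ⟨⟨-, pa1, pa2, -, -, -⟩, -, pc1, pc2, -, -, -⟩ := PP_norm a c
  rw [pa1, pa2] at q1
  rw [pc1, pc2] at q2
  obtain ⟨⟨y0, y1, y2, y3⟩, ⟨x0, x1, x2, x3⟩, z1, z2, z3, z0⟩ := cr_norm a c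
  have n1 := h1.2.2.1 1 (by decide)
  have n1' := h2.2.2.1 1 (by decide)
  rw [y1] at n1
  rw [x1] at n1'
  have ha : a 1 = -a 2 := by
    have e : (a 1 - a 2) * (a 1 + a 2) = 0 := by linear_combination q1
    have := (mul_eq_zero.1 e).resolve_left (fun h => n1' (by linear_combination -h))
    linarith
  have hc : c 1 = -c 2 := by
    have e : (c 1 - c 2) * (c 1 + c 2) = 0 := by linear_combination q2
    have := (mul_eq_zero.1 e).resolve_left n1
    linarith
  have ha2 : a 2 ≠ 0 := by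
    intro h0
    apply n1'
    rw [ha, h0]; ring
  have hc2 : c 2 ≠ 0 := by
    intro h0
    apply n1
    rw [hc, h0]; ring
  have hw : c 2 * a 0 - a 2 * c 0 ≠ 0 := by
    intro h0
    apply hd
    rw [dt_norm, ha, hc]
    linear_combination (-2 : ℝ) * h0
  -- signs
  have s1 := (h1.2.2.2 1 3 (by decide) (by decide) (by decide) (by decide) (by decide)).1
  rw [y1, y3, hc] at s1
  have s1' := (h1.2.2.2 1 3 (by decide) (by decide) (by decide) (by decide) (by decide)).2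
  rw [y1, y2, hc] at s1'
  have s2 := (h2.2.2.2 1 2 (by decide) (by decide) (by decide) (by decide) (by decide)).1
  rw [x1, x2, ha] at s2
  have s2' := (h2.2.2.2 1 2 (by decide) (by decide) (by decide) (by decide) (by decide)).2
  rw [x1, x3, ha] at s2'
  have hcc : c 0 * c 2 < 0 := by nlinarith [sq_nonneg (c 2)]
  have haa : 0 < a 0 * a 2 := by nlinarith [sq_nonneg (a 2)]
  -- the forms
  have f0 : ∀ t, ff (n3 a) ny (n3 c) t 0 = t * (2 * (c 2 * a 0 - a 2 * c 0)) ^ 2 := by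
    intro t
    rw [ff, y0, x0, z0, ha, hc]; ring
  have f1 : ∀ t, ff (n3 a) ny (n3 c) t 1 = 4 * (t + 1) * (c 2 ^ 2 + t * a 2 ^ 2) := by
    intro t
    rw [ff, y1, x1, z1, ha, hc]; ring
  have f23 : ∀ t, ff (n3 a) ny (n3 c) t 2 - ff (n3 a) ny (n3 c) t 3 =
      -4 * (t + 1) * (c 0 * c 2 + t * (a 0 * a 2)) := by
    intro t
    rw [ff, ff, y2, x2, z2, y3, x3, z3, ha, hc]; ring
  have no0 : ∀ t, t ≠ 0 → ff (n3 a) ny (n3 c) t 0 ≠ 0 := by
    intro t ht
    rw [f0]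
    exact mul_ne_zero ht (pow_ne_zero 2 (mul_ne_zero two_ne_zero hw))
  have no23 : ∀ t, t < 0 → t ≠ -1 → ff (n3 a) ny (n3 c) t 2 = 0 → ff (n3 a) ny (n3 c) t 3 = 0 →
      False := by
    intro t ht ht1 e2 e3
    have e := f23 t
    rw [e2, e3, sub_zero] at e
    have h3 : c 0 * c 2 + t * (a 0 * a 2) < 0 := by
      have := mul_neg_of_neg_of_pos ht haa
      linarith
    have h4 : t + 1 ≠ 0 := fun h => ht1 (by linarith)
    exact (mul_ne_zero (mul_ne_zero (by norm_num) h4) h3.ne) e.symm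
  have uni : ∀ t, t ≠ -1 → ff (n3 a) ny (n3 c) t 1 = 0 → t * a 2 ^ 2 = -c 2 ^ 2 := by
    intro t ht e
    rw [f1] at e
    have h4 : t + 1 ≠ 0 := fun h => ht (by linarith)
    have := (mul_eq_zero.1 e).resolve_left (mul_ne_zero (by norm_num) h4)
    linarith
  have key : ∀ v w : Fin 4, (v = 2 ∧ w = 3 ∨ v = 3 ∧ w = 2) →
      ∃ t, t < 0 ∧ t ≠ -1 ∧ ff (n3 a) ny (n3 c) t v = 0 ∧ t * a 2 ^ 2 = -c 2 ^ 2 := by
    intro v w hvw
    have hv0 : v ≠ 0 := by rcases hvw with ⟨rfl, -⟩ | ⟨rfl, -⟩ <;> decide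
    have m1 := h1.2.2.1 v hv0
    have m3 := h2.2.2.1 v hv0
    have m2 : cr (n3 c) (n3 a) v ≠ 0 := by
      rcases hvw with ⟨rfl, -⟩ | ⟨rfl, -⟩
      · rw [z2]; exact hw
      · rw [z3, ha, hc]
        intro h0
        apply hw
        linear_combination h0
    obtain ⟨r, s, hr1, hr0, hs, er, es⟩ := two_roots m1 m2 m3
    have hne : ¬ ((∀ w, w ≠ v → ff (n3 a) ny (n3 c) r w ≠ 0) ∧
        ∀ w, w ≠ v → ff (n3 a) ny (n3 c) s w ≠ 0) := by
      rintro ⟨g1, g2⟩
      exact two_alone hd hsta (s := r) (t := s) (by linarith [hr1, hs] : r ≠ s) hr0.ne hr1.ne'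
        (by linarith : s ≠ 0) hs.ne er g1 es g2
    have fin : ∀ t, t < 0 → t ≠ -1 → ff (n3 a) ny (n3 c) t v = 0 →
        ¬ (∀ w, w ≠ v → ff (n3 a) ny (n3 c) t w ≠ 0) →
        ∃ t, t < 0 ∧ t ≠ -1 ∧ ff (n3 a) ny (n3 c) t v = 0 ∧ t * a 2 ^ 2 = -c 2 ^ 2 := by
      intro t ht ht1 et hn
      push Not at hn
      obtain ⟨u, hu, eu⟩ := hn
      refine ⟨t, ht, ht1, et, uni t ht1 ?_⟩
      have hall : ∀ u v w : Fin 4, (v = 2 ∧ w = 3 ∨ v = 3 ∧ w = 2) →
          u = 0 ∨ u = 1 ∨ u = v ∨ u = w := by decide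
      have hu4 := hall u v w hvw
      rcases hu4 with rfl | rfl | hu4 | hu4
      · exact absurd eu (no0 t ht.ne)
      · exact eu
      · exact absurd hu4 hu
      · exfalso
        rw [hu4] at eu
        rcases hvw with ⟨rfl, rfl⟩ | ⟨rfl, rfl⟩
        · exact no23 t ht ht1 et eu
        · exact no23 t ht ht1 eu et
    by_cases g1 : ∀ w, w ≠ v → ff (n3 a) ny (n3 c) r w ≠ 0
    · refine fin s (by linarith) hs.ne es (fun g2 => hne ⟨g1, g2⟩)
    · exact fin r hr0 hr1.ne' er g1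
  obtain ⟨t, ht, ht1, e2, u2⟩ := key 2 3 (Or.inl ⟨rfl, rfl⟩)
  obtain ⟨t', ht', ht1', e3, u3⟩ := key 3 2 (Or.inr ⟨rfl, rfl⟩)
  have htt : t = t' := by
    have : a 2 ^ 2 ≠ 0 := pow_ne_zero 2 ha2
    exact mul_right_cancel₀ this (u2.trans u3.symm)
  subst htt
  exact no23 t ht ht1 e2 e3

end Pool.Agent.Helper22.PN
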