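import Pool.Agent.Helper22.PN.B06Roots
import Pool.Agent.Helper22.PN.B08Sta
import Pool.Agent.Helper22.PN.B09Six
import Pool.Agent.Helper22.PN.C10Norm

/-!
# PN-C12: same apex, same middle point: definitions and basic facts

The vertex `i + 1` is the point `i` (`i = 0, 1, 2`) of the plane of the face 0.  Edges: `0, 1, 2` = from the apex to the points `0, 1, 2`;
`3` = points `0 1` (face 3), `4` = points `0 2` (face 2), `5` = points `1 2` (face 1).
`TA.perm`: `n3 (a ∘ τ) = n3 a ∘ σ` with `σ` fixing `0`; `PSim` or `Hy.perm`.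
`ta_of_flat`: with `p = c 0 - c 1`, `q = c 1 - c 2`, `p' = a 0 - a 1`, `q' = a 1 - a 2`: `p q > 0`, `p' q' > 0` (from the two `Flat`) and
`dt ≠ 0` gives `p q' - q p' ≠ 0`; the three ratios `p / p'`, `q / q'` and `(p + q) / (p' + q')` are different (the third is strictly
between the others) and of the same sign, so their squares are different.
Facts: `cr_norm`, `PP_norm`, `share_two`.
-/

open Real Set
open Pool.Agent.Helper1.Tet
open Pool.Agent.Helper22.ST (PP ZZ cr dt ind)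

namespace Pool.Agent.Helper22.PN

structure TA (a c : Fin 3 → ℝ) : Prop where
  hy : Hy (n3 a) ny (n3 c)
  na : ∀ i j, i ≠ j → a i ≠ a j
  nc : ∀ i j, i ≠ j → c i ≠ c j
  ms : ∀ i j k, i ≠ j → j ≠ k → i ≠ k →
    (c i - c j) ^ 2 * (a j - a k) ^ 2 ≠ (a i - a j) ^ 2 * (c j - c k) ^ 2

/-- twice the area of the triangle formed by the origin and the points `i`, `j` -/
def om (a c : Fin 3 → ℝ) (i j : Fin 3) : ℝ := c i * a j - a i * c j

private theorem C12_ne {X Y : ℝ} (hne : X ≠ Y) (hpos : 0 < X * Y) : X ^ 2 ≠ Y ^ 2 := by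
  intro h
  rcases sq_eq_sq_iff_eq_or_eq_neg.1 h with h1 | h1
  · exact hne h1
  · rw [h1] at hpos
    nlinarith [sq_nonneg Y]

private theorem C12_all {P : Fin 3 → Fin 3 → Fin 3 → Prop} (h1 : P 0 1 2) (h2 : P 0 2 1)
    (h3 : P 1 0 2) (h4 : P 1 2 0) (h5 : P 2 0 1) (h6 : P 2 1 0) :
    ∀ i j k, i ≠ j → j ≠ k → i ≠ k → P i j k := by
  intro i j k hij hjk hik
  fin_cases i <;> fin_cases j <;> fin_cases k <;>
    first
      | exact absurd rfl hij
      | exact absurd rfl hjk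
      | exact absurd rfl hik
      | exact h1
      | exact h2
      | exact h3
      | exact h4
      | exact h5
      | exact h6

private theorem C12_two {P : Fin 3 → Fin 3 → Prop} (h1 : P 0 1) (h2 : P 0 2) (h3 : P 1 0)
    (h4 : P 1 2) (h5 : P 2 0) (h6 : P 2 1) : ∀ i j, i ≠ j → P i j := by
  intro i j hij
  fin_cases i <;> fin_cases j <;>
    first
      | exact absurd rfl hij
      | exact h1
      | exact h2
      | exact h3
      | exact h4
      | exact h5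
      | exact h6

theorem ta_of_flat {a c : Fin 3 → ℝ} (h : Hy (n3 a) ny (n3 c)) (h1 : Flat ny (n3 c) 0 2)
    (h2 : Flat (n3 a) ny 0 2) : TA a c := by
  have hd := h.1
  rw [dt_norm] at hd
  obtain ⟨⟨-, c1, c2, c3⟩, ⟨-, a1, a2, a3⟩, -⟩ := cr_norm a c
  obtain ⟨-, -, hc, hc'⟩ := h1
  obtain ⟨-, -, ha, ha'⟩ := h2
  have hc1 := hc 1 (by decide)
  have hc2 := hc 2 (by decide)
  have hc3 := hc 3 (by decide)
  have ha1 := ha 1 (by decide)
  have ha2 := ha 2 (by decide)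
  have ha3 := ha 3 (by decide)
  have hcp := (hc' 1 3 (by decide) (by decide) (by decide) (by decide) (by decide)).1
  have hap := (ha' 1 3 (by decide) (by decide) (by decide) (by decide) (by decide)).1
  rw [c1] at hc1
  rw [c2] at hc2
  rw [c3] at hc3
  rw [a1] at ha1
  rw [a2] at ha2
  rw [a3] at ha3
  rw [c1, c3] at hcp
  rw [a1, a3] at hap
  have n01 : c 0 ≠ c 1 := fun e => hc3 (by rw [e, sub_self])
  have n12 : c 1 ≠ c 2 := fun e => hc1 (by rw [e, sub_self])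
  have n02 : c 0 ≠ c 2 := fun e => hc2 (by rw [e, sub_self])
  have m01 : a 0 ≠ a 1 := fun e => ha3 (by rw [e, sub_self])
  have m12 : a 1 ≠ a 2 := fun e => ha1 (by rw [e, sub_self])
  have m02 : a 0 ≠ a 2 := fun e => ha2 (by rw [e, sub_self])
  have hpq : (c 0 - c 1) * (a 1 - a 2) ≠ (a 0 - a 1) * (c 1 - c 2) := by
    intro e
    apply hd
    linear_combination -e
  have P1 : 0 < (c 0 - c 1) * (c 1 - c 2) := by linarith
  have P2 : 0 < (a 0 - a 1) * (a 1 - a 2) := by linarith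
  have s1 : 0 < (c 0 - c 1) ^ 2 := by
    have : c 0 - c 1 ≠ 0 := sub_ne_zero.2 n01
    positivity
  have s2 : 0 < (c 1 - c 2) ^ 2 := by
    have : c 1 - c 2 ≠ 0 := sub_ne_zero.2 n12
    positivity
  have s3 : 0 < (a 0 - a 1) ^ 2 := by
    have : a 0 - a 1 ≠ 0 := sub_ne_zero.2 m01
    positivity
  have s4 : 0 < (a 1 - a 2) ^ 2 := by
    have : a 1 - a 2 ≠ 0 := sub_ne_zero.2 m12
    positivity
  have K1 := C12_ne hpq (by
    have := mul_pos P1 P2
    have e : (c 0 - c 1) * (a 1 - a 2) * ((a 0 - a 1) * (c 1 - c 2)) =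
      (c 0 - c 1) * (c 1 - c 2) * ((a 0 - a 1) * (a 1 - a 2)) := by ring
    rw [e]
    exact this)
  have K2 : ((c 0 - c 1) * (a 0 - a 2)) ^ 2 ≠ ((a 0 - a 1) * (c 0 - c 2)) ^ 2 := by
    refine C12_ne ?_ ?_
    · intro e
      apply hpq
      linear_combination e
    · have := mul_pos (add_pos s1 P1) (add_pos s3 P2)
      have e : (c 0 - c 1) * (a 0 - a 2) * ((a 0 - a 1) * (c 0 - c 2)) =
        ((c 0 - c 1) ^ 2 + (c 0 - c 1) * (c 1 - c 2)) *
          ((a 0 - a 1) ^ 2 + (a 0 - a 1) * (a 1 - a 2)) := by ring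
      rw [e]
      exact this
  have K3 : ((c 1 - c 2) * (a 0 - a 2)) ^ 2 ≠ ((a 1 - a 2) * (c 0 - c 2)) ^ 2 := by
    refine C12_ne ?_ ?_
    · intro e
      apply hpq
      linear_combination -e
    · have := mul_pos (add_pos s2 P1) (add_pos s4 P2)
      have e : (c 1 - c 2) * (a 0 - a 2) * ((a 1 - a 2) * (c 0 - c 2)) =
        ((c 1 - c 2) ^ 2 + (c 0 - c 1) * (c 1 - c 2)) *
          ((a 1 - a 2) ^ 2 + (a 0 - a 1) * (a 1 - a 2)) := by ring
      rw [e]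
      exact this
  refine ⟨h, C12_two m01 m02 m01.symm m12 m02.symm m12.symm,
    C12_two n01 n02 n01.symm n12 n02.symm n12.symm, C12_all ?_ ?_ ?_ ?_ ?_ ?_⟩
  · intro e; apply K1; linear_combination e
  · intro e; apply K3; linear_combination -e
  · intro e; apply K2; linear_combination e
  · intro e; apply K3; linear_combination e
  · intro e; apply K2; linear_combination -e
  · intro e; apply K1; linear_combination -e

variable {a c : Fin 3 → ℝ}

private theorem C12_n3 (b : Fin 3 → ℝ) (i : Fin 3) : n3 b i.succ = b i := by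
  fin_cases i <;> rfl

private theorem C12_ny (i : Fin 3) : ny i.succ = 0 := by
  fin_cases i <;> rfl

private theorem C12_perm (b : Fin 3 → ℝ) (τ : Equiv.Perm (Fin 3)) :
    n3 (b ∘ τ) = n3 b ∘ (Equiv.Perm.decomposeFin.symm (0, τ)) := by
  funext i
  refine Fin.cases ?_ (fun i => ?_) i
  · rw [Function.comp_apply, Equiv.Perm.decomposeFin_symm_apply_zero]
    rfl
  · rw [Function.comp_apply, Equiv.Perm.decomposeFin_symm_apply_succ, Equiv.swap_self,
      Equiv.refl_apply, C12_n3, C12_n3]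
    rfl

private theorem C12_permy (τ : Equiv.Perm (Fin 3)) :
    ny = ny ∘ (Equiv.Perm.decomposeFin.symm (0, τ)) := by
  funext i
  refine Fin.cases ?_ (fun i => ?_) i
  · rw [Function.comp_apply, Equiv.Perm.decomposeFin_symm_apply_zero]
  · rw [Function.comp_apply, Equiv.Perm.decomposeFin_symm_apply_succ, Equiv.swap_self,
      Equiv.refl_apply, C12_ny, C12_ny]

theorem TA.perm (h : TA a c) (τ : Equiv.Perm (Fin 3)) : TA (a ∘ τ) (c ∘ τ) := by
  refine ⟨?_, fun i j hij => h.na _ _ (fun e => hij (τ.injective e)),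
    fun i j hij => h.nc _ _ (fun e => hij (τ.injective e)), fun i j k hij hjk hik =>
    h.ms _ _ _ (fun e => hij (τ.injective e)) (fun e => hjk (τ.injective e))
      (fun e => hik (τ.injective e))⟩
  rw [C12_perm a τ, C12_perm c τ, C12_permy τ]
  exact h.hy.perm _

/-- the determinant -/
private theorem C12_dt (h : TA a c) : cr (n3 c) (n3 a) 0 ≠ 0 := by
  have hd := h.hy.1
  rw [dt_norm] at hd
  rw [(cr_norm a c).2.2.2.2.2]
  exact hd

/-- the base face is never tangent -/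
theorem TA.ff0 (h : TA a c) {t : ℝ} (ht : t ≠ 0) : ff (n3 a) ny (n3 c) t 0 ≠ 0 := by
  obtain ⟨⟨c0, -, -, -⟩, ⟨a0, -, -, -⟩, -⟩ := cr_norm a c
  have e : ff (n3 a) ny (n3 c) t 0 = t * cr (n3 c) (n3 a) 0 ^ 2 := by
    unfold ff
    rw [c0, a0]
    ring
  rw [e]
  exact mul_ne_zero ht (pow_ne_zero 2 (C12_dt h))

/-- the three edges of the base are in different classes -/
theorem TA.base (h : TA a c) : ¬ SC (n3 a) ny (n3 c) 3 4 ∧ ¬ SC (n3 a) ny (n3 c) 3 5 ∧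
    ¬ SC (n3 a) ny (n3 c) 4 5 := by
  obtain ⟨⟨-, -, -, a3, a4, a5⟩, -, -, -, c3, c4, c5⟩ := PP_norm a c
  unfold SC
  rw [a3, a4, a5, c3, c4, c5]
  refine ⟨fun e => h.ms 1 0 2 (by decide) (by decide) (by decide) ?_,
    fun e => h.ms 0 1 2 (by decide) (by decide) (by decide) ?_,
    fun e => h.ms 0 2 1 (by decide) (by decide) (by decide) ?_⟩
  · linear_combination -e
  · linear_combination -e
  · linear_combination -e

/-- the base edges do not touch unless `om = 0` -/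
theorem TA.gg_base (h : TA a c) {t : ℝ} (ht : t ≠ 0) :
    (gg (n3 a) ny (n3 c) t 3 = 0 ↔ om a c 0 1 = 0) ∧
      (gg (n3 a) ny (n3 c) t 4 = 0 ↔ om a c 0 2 = 0) ∧
        (gg (n3 a) ny (n3 c) t 5 = 0 ↔ om a c 1 2 = 0) := by
  obtain ⟨⟨c0, -, -, -⟩, ⟨a0, -, -, -⟩, z1, z2, z3, -⟩ := cr_norm a c
  have hz := C12_dt h
  have e3 : gg (n3 a) ny (n3 c) t 3 = t * cr (n3 c) (n3 a) 0 * om a c 0 1 := by
    have : gg (n3 a) ny (n3 c) t 3 = (t + 1) * (cr ny (n3 c) 0 * cr ny (n3 c) 3) +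
      t * (cr (n3 c) (n3 a) 0 * cr (n3 c) (n3 a) 3) +
      t * (t + 1) * (cr (n3 a) ny 0 * cr (n3 a) ny 3) := rfl
    rw [this, c0, a0, z3]
    unfold om
    ring
  have e4 : gg (n3 a) ny (n3 c) t 4 = -(t * cr (n3 c) (n3 a) 0) * om a c 0 2 := by
    have : gg (n3 a) ny (n3 c) t 4 = (t + 1) * (cr ny (n3 c) 0 * cr ny (n3 c) 2) +
      t * (cr (n3 c) (n3 a) 0 * cr (n3 c) (n3 a) 2) +
      t * (t + 1) * (cr (n3 a) ny 0 * cr (n3 a) ny 2) := rfl
    rw [this, c0, a0, z2]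
    unfold om
    ring
  have e5 : gg (n3 a) ny (n3 c) t 5 = t * cr (n3 c) (n3 a) 0 * om a c 1 2 := by
    have : gg (n3 a) ny (n3 c) t 5 = (t + 1) * (cr ny (n3 c) 0 * cr ny (n3 c) 1) +
      t * (cr (n3 c) (n3 a) 0 * cr (n3 c) (n3 a) 1) +
      t * (t + 1) * (cr (n3 a) ny 0 * cr (n3 a) ny 1) := rfl
    rw [this, c0, a0, z1]
    unfold om
    ring
  have hk : t * cr (n3 c) (n3 a) 0 ≠ 0 := mul_ne_zero ht hz
  refine ⟨?_, ?_, ?_⟩
  · rw [e3]
    exact ⟨fun k => (mul_eq_zero.1 k).resolve_left hk, fun k => by rw [k, mul_zero]⟩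
  · rw [e4]
    exact ⟨fun k => (mul_eq_zero.1 k).resolve_left (neg_ne_zero.2 hk), fun k => by rw [k, mul_zero]⟩
  · rw [e5]
    exact ⟨fun k => (mul_eq_zero.1 k).resolve_left hk, fun k => by rw [k, mul_zero]⟩

/-- no two of the faces 1, 2, 3 have two common zeros -/
theorem TA.share (h : TA a c) {v w : Fin 4} (hv : v ≠ 0) (hw : w ≠ 0) (hvw : v ≠ w) {r s : ℝ}
    (hrs : r ≠ s) (hr : ff (n3 a) ny (n3 c) r v = 0) (hs : ff (n3 a) ny (n3 c) s v = 0)
    (hr' : ff (n3 a) ny (n3 c) r w = 0) (hs' : ff (n3 a) ny (n3 c) s w = 0) : False := by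
  obtain ⟨⟨-, c1, c2, c3⟩, ⟨-, a1, a2, a3⟩, -⟩ := cr_norm a c
  have na : ∀ u : Fin 4, u ≠ 0 → cr (n3 a) ny u ≠ 0 := by
    intro u hu
    fin_cases u
    · exact absurd rfl hu
    · change cr (n3 a) ny 1 ≠ 0
      rw [a1]; exact sub_ne_zero.2 (h.na 2 1 (by decide))
    · change cr (n3 a) ny 2 ≠ 0
      rw [a2]; exact sub_ne_zero.2 (h.na 0 2 (by decide))
    · change cr (n3 a) ny 3 ≠ 0
      rw [a3]; exact sub_ne_zero.2 (h.na 1 0 (by decide))
  have k := (share_two (na v hv) (na w hw) hrs hr hs hr' hs').1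
  have g12 : ¬ cr ny (n3 c) 1 ^ 2 * cr (n3 a) ny 2 ^ 2 = cr ny (n3 c) 2 ^ 2 * cr (n3 a) ny 1 ^ 2 := by
    rw [c1, c2, a1, a2]
    intro e
    exact h.ms 1 2 0 (by decide) (by decide) (by decide) (by linear_combination e)
  have g13 : ¬ cr ny (n3 c) 1 ^ 2 * cr (n3 a) ny 3 ^ 2 = cr ny (n3 c) 3 ^ 2 * cr (n3 a) ny 1 ^ 2 := by
    rw [c1, c3, a1, a3]
    intro e
    exact h.ms 2 1 0 (by decide) (by decide) (by decide) (by linear_combination e)
  have g23 : ¬ cr ny (n3 c) 2 ^ 2 * cr (n3 a) ny 3 ^ 2 = cr ny (n3 c) 3 ^ 2 * cr (n3 a) ny 2 ^ 2 := by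
    rw [c2, c3, a2, a3]
    intro e
    exact h.ms 2 0 1 (by decide) (by decide) (by decide) (by linear_combination e)
  fin_cases v <;> fin_cases w <;>
    first
      | exact absurd rfl hv
      | exact absurd rfl hw
      | exact absurd rfl hvw
      | exact g12 k
      | exact g13 k
      | exact g23 k
      | exact g12 k.symm
      | exact g13 k.symm
      | exact g23 k.symm

/-- two zeros of the face 1 -/
theorem TA.roots1 (h : TA a c) (ho : om a c 1 2 ≠ 0) : ∃ r s : ℝ, -1 < r ∧ r < 0 ∧ s < -1 ∧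
    ff (n3 a) ny (n3 c) r 1 = 0 ∧ ff (n3 a) ny (n3 c) s 1 = 0 := by
  obtain ⟨⟨-, c1, -, -⟩, ⟨-, a1, -, -⟩, z1, -, -, -⟩ := cr_norm a c
  refine two_roots ?_ ?_ ?_
  · rw [c1]; exact sub_ne_zero.2 (h.nc 1 2 (by decide))
  · rw [z1]; exact ho
  · rw [a1]; exact sub_ne_zero.2 (h.na 2 1 (by decide))

theorem TA.roots2 (h : TA a c) (ho : om a c 0 2 ≠ 0) : ∃ r s : ℝ, -1 < r ∧ r < 0 ∧ s < -1 ∧
    ff (n3 a) ny (n3 c) r 2 = 0 ∧ ff (n3 a) ny (n3 c) s 2 = 0 := by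
  obtain ⟨⟨-, -, c2, -⟩, ⟨-, -, a2, -⟩, -, z2, -, -⟩ := cr_norm a c
  refine two_roots ?_ ?_ ?_
  · rw [c2]; exact sub_ne_zero.2 (h.nc 2 0 (by decide))
  · rw [z2]
    intro e
    apply ho
    unfold om
    linear_combination -e
  · rw [a2]; exact sub_ne_zero.2 (h.na 0 2 (by decide))

theorem TA.roots3 (h : TA a c) (ho : om a c 0 1 ≠ 0) : ∃ r s : ℝ, -1 < r ∧ r < 0 ∧ s < -1 ∧
    ff (n3 a) ny (n3 c) r 3 = 0 ∧ ff (n3 a) ny (n3 c) s 3 = 0 := by
  obtain ⟨⟨-, -, -, c3⟩, ⟨-, -, -, a3⟩, -, -, z3, -⟩ := cr_norm a c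
  refine two_roots ?_ ?_ ?_
  · rw [c3]; exact sub_ne_zero.2 (h.nc 0 1 (by decide))
  · rw [z3]; exact ho
  · rw [a3]; exact sub_ne_zero.2 (h.na 1 0 (by decide))

private theorem C12_symm {i j : Fin 6} (h : SC (n3 a) ny (n3 c) i j) : SC (n3 a) ny (n3 c) j i := by
  unfold SC at h ⊢
  linear_combination -h

private theorem C12_refl (i : Fin 6) : SC (n3 a) ny (n3 c) i i := by
  unfold SC
  ring

/-- the class of a base edge with `om ≠ 0` contains an edge at the apex -/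
theorem TA.partner1 (h : TA a c) (ho : om a c 1 2 ≠ 0) : SC (n3 a) ny (n3 c) 5 0 ∨
    SC (n3 a) ny (n3 c) 5 1 ∨ SC (n3 a) ny (n3 c) 5 2 := by
  by_contra hcon
  push Not at hcon
  obtain ⟨g0, g1, g2⟩ := hcon
  obtain ⟨r, -, h1, h2, -, h3, -⟩ := h.roots1 ho
  obtain ⟨b1, b2, b3⟩ := h.base
  have hs := sta_six h.hy.sta 5 h1.ne'
  have f3 : ¬ SC (n3 a) ny (n3 c) 5 3 := fun k => b2 (C12_symm k)
  have f4 : ¬ SC (n3 a) ny (n3 c) 5 4 := fun k => b3 (C12_symm k)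
  rw [ST.ind_neg g0, ST.ind_neg g1, ST.ind_neg g2, ST.ind_neg f3, ST.ind_neg f4,
    ST.ind_pos (C12_refl 5), tf_zero (h.ff0 h2.ne), tf_one h3] at hs
  exact ho ((h.gg_base h2.ne).2.2.1 (by linarith))

theorem TA.partner2 (h : TA a c) (ho : om a c 0 2 ≠ 0) : SC (n3 a) ny (n3 c) 4 0 ∨
    SC (n3 a) ny (n3 c) 4 1 ∨ SC (n3 a) ny (n3 c) 4 2 := by
  by_contra hcon
  push Not at hcon
  obtain ⟨g0, g1, g2⟩ := hcon
  obtain ⟨r, -, h1, h2, -, h3, -⟩ := h.roots2 ho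
  obtain ⟨b1, b2, b3⟩ := h.base
  have hs := sta_six h.hy.sta 4 h1.ne'
  have f3 : ¬ SC (n3 a) ny (n3 c) 4 3 := fun k => b1 (C12_symm k)
  rw [ST.ind_neg g0, ST.ind_neg g1, ST.ind_neg g2, ST.ind_neg f3, ST.ind_neg b3,
    ST.ind_pos (C12_refl 4), tf_zero (h.ff0 h2.ne), tf_one h3] at hs
  exact ho ((h.gg_base h2.ne).2.1.1 (by linarith))

theorem TA.partner3 (h : TA a c) (ho : om a c 0 1 ≠ 0) : SC (n3 a) ny (n3 c) 3 0 ∨
    SC (n3 a) ny (n3 c) 3 1 ∨ SC (n3 a) ny (n3 c) 3 2 := by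
  by_contra hcon
  push Not at hcon
  obtain ⟨g0, g1, g2⟩ := hcon
  obtain ⟨r, -, h1, h2, -, h3, -⟩ := h.roots3 ho
  obtain ⟨b1, b2, b3⟩ := h.base
  have hs := sta_six h.hy.sta 3 h1.ne'
  rw [ST.ind_neg g0, ST.ind_neg g1, ST.ind_neg g2, ST.ind_neg b1, ST.ind_neg b2,
    ST.ind_pos (C12_refl 3), tf_zero (h.ff0 h2.ne), tf_one h3] at hs
  exact ho ((h.gg_base h2.ne).1.1 (by linarith))

end Pool.Agent.Helper22.PN
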