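import Pool.Agent.Helper22.PN.C12TA

/-!
# PN-C13: base edges with only one partner at the apex

Let `t` be one of the two zeros of the face 1 (`TA.roots1`; edges 1, 2, 5), write `g j = gg t j`, `T v = tf t v`; `T 0 = 0`, `T 1 = 1`.
`g 5 ≠ 0` (`TA.gg_base`).
`adj2`: only the edge 2 (and none of 0, 1; 3, 4 by `TA.base`) is in the class of 5.  `sta_six` with `e = 5`:
`(1 + T 2) g 2 + g 5 = 0`, so `uu 5 = (1 + T 2) uu 2` (`SC_abs`); hence `T 2` has the same value at both zeros.  If it is `1`: the faces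
1 and 2 have two common zeros (`TA.share`).  If it is `0`: `g 5 = - g 2`, so `g 1 = 0` (`face_sum1`) at both zeros, so
`LL · 1 = 0` at both zeros (`gg_zero_iff`), contradiction to `LL_two`.
`adj1`: the same with the edges 1 and 2, the faces 2 and 3 exchanged (or use `TA.perm`).
`opp`: only the edge 0 is in the class of 5: `sta_six` with `e = 5`: `(T 2 + T 3) g 0 + g 5 = 0`, so `T 2 + T 3 ≥ 1` and
`uu 5 = (T 2 + T 3) uu 0`: the same value at both zeros; not 2 by `TA.share`.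
(The versions for the faces 2 and 3 are in `C13bAdj.lean`.)
-/

open Real Set
open Pool.Agent.Helper1.Tet
open Pool.Agent.Helper22.ST (PP ZZ cr dt ind)

namespace Pool.Agent.Helper22.PN

variable {a c : Fin 3 → ℝ}

private theorem C13_tf (x y z : Fin 4 → ℝ) (t : ℝ) (v : Fin 4) :
    (tf x y z t v = 0 ∧ ff x y z t v ≠ 0) ∨ (tf x y z t v = 1 ∧ ff x y z t v = 0) := by
  by_cases h : ff x y z t v = 0
  · exact Or.inr ⟨tf_one h, h⟩
  · exact Or.inl ⟨tf_zero h, h⟩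

/-- `g5 = - m g'` and `|g5| u' = |g'| u5` imply `u5 = m u'` -/
private theorem C13_uu {g g' u u' m : ℝ} (hg : g ≠ 0) (hm : 0 ≤ m) (h1 : m * g' + g = 0)
    (h2 : |g| * u' = |g'| * u) : u = m * u' := by
  have e1 : g = -(m * g') := by linarith
  have hg' : g' ≠ 0 := by
    intro h0
    apply hg
    rw [e1, h0, mul_zero, neg_zero]
  have hp : 0 < |g'| := abs_pos.2 hg'
  have e2 : |g| = m * |g'| := by rw [e1, abs_neg, abs_mul, abs_of_nonneg hm]
  rw [e2] at h2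
  have h3 : |g'| * u = |g'| * (m * u') := by rw [← h2]; ring
  exact mul_left_cancel₀ hp.ne' h3

/-- the star relation of the class of the edge 5 at a zero of the face 1 -/
private theorem C13_sta (h : TA a c) {t : ℝ} (h0 : t ≠ 0) (h1 : t ≠ -1)
    (ht : ff (n3 a) ny (n3 c) t 1 = 0) :
    ind (SC (n3 a) ny (n3 c) 5 0) ((tf (n3 a) ny (n3 c) t 2 + tf (n3 a) ny (n3 c) t 3) *
      gg (n3 a) ny (n3 c) t 0) +
    ind (SC (n3 a) ny (n3 c) 5 1) ((1 + tf (n3 a) ny (n3 c) t 3) * gg (n3 a) ny (n3 c) t 1) +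
    ind (SC (n3 a) ny (n3 c) 5 2) ((1 + tf (n3 a) ny (n3 c) t 2) * gg (n3 a) ny (n3 c) t 2) +
      gg (n3 a) ny (n3 c) t 5 = 0 := by
  have hb := h.base
  have k := sta_six h.hy.sta 5 h1
  rw [tf_zero (h.ff0 h0), tf_one ht, ST.ind_neg (fun hh => hb.2.1 (SC.symm' hh)),
    ST.ind_neg (fun hh => hb.2.2 (SC.symm' hh)), ST.ind_pos (SC.refl' _ _ _ 5)] at k
  linarith

private theorem C13_g5 (h : TA a c) (ho : om a c 1 2 ≠ 0) {t : ℝ} (h0 : t ≠ 0) :
    gg (n3 a) ny (n3 c) t 5 ≠ 0 := fun hh => ho ((h.gg_base h0).2.2.1 hh)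

/-- face 1 (edges 1, 2, 5), partner 2 only -/
theorem TA.adj2 (h : TA a c) (ho : om a c 1 2 ≠ 0) (s2 : SC (n3 a) ny (n3 c) 5 2)
    (s0 : ¬ SC (n3 a) ny (n3 c) 5 0) (s1 : ¬ SC (n3 a) ny (n3 c) 5 1) : False := by
  have hd := h.hy.1
  have hu2 := (uu_pos (n3 a) ny (n3 c) hd 2).2
  have key : ∀ t : ℝ, t ≠ 0 → t ≠ -1 → ff (n3 a) ny (n3 c) t 1 = 0 →
      (1 + tf (n3 a) ny (n3 c) t 2) * gg (n3 a) ny (n3 c) t 2 + gg (n3 a) ny (n3 c) t 5 = 0 ∧
      uu (n3 a) ny (n3 c) 5 = (1 + tf (n3 a) ny (n3 c) t 2) * uu (n3 a) ny (n3 c) 2 := by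
    intro t h0 h1 ht
    have k := C13_sta h h0 h1 ht
    rw [ST.ind_neg s0, ST.ind_neg s1, ST.ind_pos s2, zero_add, zero_add] at k
    refine ⟨k, C13_uu (C13_g5 h ho h0) ?_ k (SC_abs hd s2 (Or.inr ht) (Or.inl ht))⟩
    rcases C13_tf (n3 a) ny (n3 c) t 2 with ⟨e, -⟩ | ⟨e, -⟩ <;> rw [e] <;> norm_num
  obtain ⟨r, s, hr1, hr0, hs1, hr, hs⟩ := h.roots1 ho
  have hrs : r ≠ s := by intro e; linarith
  have hr0' : r ≠ 0 := by intro e; linarith
  have hr1' : r ≠ -1 := by intro e; linarith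
  have hs0' : s ≠ 0 := by intro e; linarith
  have hs1' : s ≠ -1 := by intro e; linarith
  obtain ⟨kr, ur⟩ := key r hr0' hr1' hr
  obtain ⟨ks, us⟩ := key s hs0' hs1' hs
  rcases C13_tf (n3 a) ny (n3 c) r 2 with ⟨er, fr⟩ | ⟨er, fr⟩
  · rcases C13_tf (n3 a) ny (n3 c) s 2 with ⟨es, fs⟩ | ⟨es, fs⟩
    · rw [er] at kr
      rw [es] at ks
      have gr : gg (n3 a) ny (n3 c) r 1 = 0 := by
        have := face_sum1 (n3 a) ny (n3 c) r
        rw [hr] at this
        linarith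
      have gs : gg (n3 a) ny (n3 c) s 1 = 0 := by
        have := face_sum1 (n3 a) ny (n3 c) s
        rw [hs] at this
        linarith
      exact LL_two hd hrs ((gg_zero_iff hd hr0' hr1' (j := 1) (Or.inl hr)).1 gr)
        ((gg_zero_iff hd hs0' hs1' (j := 1) (Or.inl hs)).1 gs)
    · rw [er] at ur
      rw [es] at us
      linarith
  · rcases C13_tf (n3 a) ny (n3 c) s 2 with ⟨es, fs⟩ | ⟨es, fs⟩
    · rw [er] at ur
      rw [es] at us
      linarith
    · exact h.share (v := 1) (w := 2) (by decide) (by decide) (by decide) hrs hr hs fr fs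

/-- face 1 (edges 1, 2, 5), partner 1 only -/
theorem TA.adj1 (h : TA a c) (ho : om a c 1 2 ≠ 0) (s1 : SC (n3 a) ny (n3 c) 5 1)
    (s0 : ¬ SC (n3 a) ny (n3 c) 5 0) (s2 : ¬ SC (n3 a) ny (n3 c) 5 2) : False := by
  have hd := h.hy.1
  have hu1 := (uu_pos (n3 a) ny (n3 c) hd 1).2
  have key : ∀ t : ℝ, t ≠ 0 → t ≠ -1 → ff (n3 a) ny (n3 c) t 1 = 0 →
      (1 + tf (n3 a) ny (n3 c) t 3) * gg (n3 a) ny (n3 c) t 1 + gg (n3 a) ny (n3 c) t 5 = 0 ∧
      uu (n3 a) ny (n3 c) 5 = (1 + tf (n3 a) ny (n3 c) t 3) * uu (n3 a) ny (n3 c) 1 := by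
    intro t h0 h1 ht
    have k := C13_sta h h0 h1 ht
    rw [ST.ind_neg s0, ST.ind_neg s2, ST.ind_pos s1, zero_add, add_zero] at k
    refine ⟨k, C13_uu (C13_g5 h ho h0) ?_ k (SC_abs hd s1 (Or.inr ht) (Or.inl ht))⟩
    rcases C13_tf (n3 a) ny (n3 c) t 3 with ⟨e, -⟩ | ⟨e, -⟩ <;> rw [e] <;> norm_num
  obtain ⟨r, s, hr1, hr0, hs1, hr, hs⟩ := h.roots1 ho
  have hrs : r ≠ s := by intro e; linarith
  have hr0' : r ≠ 0 := by intro e; linarith
  have hr1' : r ≠ -1 := by intro e; linarith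
  have hs0' : s ≠ 0 := by intro e; linarith
  have hs1' : s ≠ -1 := by intro e; linarith
  obtain ⟨kr, ur⟩ := key r hr0' hr1' hr
  obtain ⟨ks, us⟩ := key s hs0' hs1' hs
  rcases C13_tf (n3 a) ny (n3 c) r 3 with ⟨er, fr⟩ | ⟨er, fr⟩
  · rcases C13_tf (n3 a) ny (n3 c) s 3 with ⟨es, fs⟩ | ⟨es, fs⟩
    · rw [er] at kr
      rw [es] at ks
      have gr : gg (n3 a) ny (n3 c) r 2 = 0 := by
        have := face_sum1 (n3 a) ny (n3 c) r
        rw [hr] at this
        linarith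
      have gs : gg (n3 a) ny (n3 c) s 2 = 0 := by
        have := face_sum1 (n3 a) ny (n3 c) s
        rw [hs] at this
        linarith
      exact LL_two hd hrs ((gg_zero_iff hd hr0' hr1' (j := 2) (Or.inl hr)).1 gr)
        ((gg_zero_iff hd hs0' hs1' (j := 2) (Or.inl hs)).1 gs)
    · rw [er] at ur
      rw [es] at us
      linarith
  · rcases C13_tf (n3 a) ny (n3 c) s 3 with ⟨es, fs⟩ | ⟨es, fs⟩
    · rw [er] at ur
      rw [es] at us
      linarith
    · exact h.share (v := 1) (w := 3) (by decide) (by decide) (by decide) hrs hr hs fr fs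

/-- face 1, partner 0 only: at each zero of the face 1 exactly one of the faces 2, 3 is tangent, and the edges 5 and 0 have the
same length functions -/
theorem TA.opp (h : TA a c) (ho : om a c 1 2 ≠ 0) (s0 : SC (n3 a) ny (n3 c) 5 0)
    (s1 : ¬ SC (n3 a) ny (n3 c) 5 1) (s2 : ¬ SC (n3 a) ny (n3 c) 5 2) :
    uu (n3 a) ny (n3 c) 5 = uu (n3 a) ny (n3 c) 0 ∧
    ∀ t : ℝ, t ≠ 0 → t ≠ -1 → ff (n3 a) ny (n3 c) t 1 = 0 →
      gg (n3 a) ny (n3 c) t 5 = -gg (n3 a) ny (n3 c) t 0 ∧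
      ((ff (n3 a) ny (n3 c) t 2 = 0 ∧ ff (n3 a) ny (n3 c) t 3 ≠ 0) ∨
        (ff (n3 a) ny (n3 c) t 2 ≠ 0 ∧ ff (n3 a) ny (n3 c) t 3 = 0)) := by
  have hd := h.hy.1
  have hu0 := (uu_pos (n3 a) ny (n3 c) hd 0).2
  -- at each zero exactly one or both of the faces 2, 3 are tangent
  have key : ∀ t : ℝ, t ≠ 0 → t ≠ -1 → ff (n3 a) ny (n3 c) t 1 = 0 →
      (uu (n3 a) ny (n3 c) 5 = uu (n3 a) ny (n3 c) 0 ∧
        gg (n3 a) ny (n3 c) t 5 = -gg (n3 a) ny (n3 c) t 0 ∧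
        ((ff (n3 a) ny (n3 c) t 2 = 0 ∧ ff (n3 a) ny (n3 c) t 3 ≠ 0) ∨
          (ff (n3 a) ny (n3 c) t 2 ≠ 0 ∧ ff (n3 a) ny (n3 c) t 3 = 0))) ∨
      (uu (n3 a) ny (n3 c) 5 = 2 * uu (n3 a) ny (n3 c) 0 ∧ ff (n3 a) ny (n3 c) t 2 = 0) := by
    intro t h0 h1 ht
    have k := C13_sta h h0 h1 ht
    rw [ST.ind_neg s1, ST.ind_neg s2, ST.ind_pos s0, add_zero, add_zero] at k
    have hg := C13_g5 h ho h0
    rcases C13_tf (n3 a) ny (n3 c) t 2 with ⟨e2, f2⟩ | ⟨e2, f2⟩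
    · rcases C13_tf (n3 a) ny (n3 c) t 3 with ⟨e3, f3⟩ | ⟨e3, f3⟩
      · exfalso
        apply hg
        rw [e2, e3] at k
        linarith
      · left
        rw [e2, e3, zero_add] at k
        have hu := C13_uu hg (by norm_num) k (SC_abs hd s0 (Or.inr ht) (Or.inr f3))
        exact ⟨by linarith, by linarith, Or.inr ⟨f2, f3⟩⟩
    · rcases C13_tf (n3 a) ny (n3 c) t 3 with ⟨e3, f3⟩ | ⟨e3, f3⟩
      · left
        rw [e2, e3, add_zero] at k
        have hu := C13_uu hg (by norm_num) k (SC_abs hd s0 (Or.inr ht) (Or.inl f2))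
        exact ⟨by linarith, by linarith, Or.inl ⟨f2, f3⟩⟩
      · right
        rw [e2, e3] at k
        have hu := C13_uu hg (by norm_num) k (SC_abs hd s0 (Or.inr ht) (Or.inl f2))
        exact ⟨by linarith, f2⟩
  obtain ⟨r, s, hr1, hr0, hs1, hr, hs⟩ := h.roots1 ho
  have hrs : r ≠ s := by intro e; linarith
  have hr0' : r ≠ 0 := by intro e; linarith
  have hr1' : r ≠ -1 := by intro e; linarith
  have hs0' : s ≠ 0 := by intro e; linarith
  have hs1' : s ≠ -1 := by intro e; linarith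
  have hu : uu (n3 a) ny (n3 c) 5 = uu (n3 a) ny (n3 c) 0 := by
    rcases key r hr0' hr1' hr with k | k
    · exact k.1
    · rcases key s hs0' hs1' hs with k' | k'
      · exact k'.1
      · exact (h.share (v := 1) (w := 2) (by decide) (by decide) (by decide) hrs hr hs
          k.2 k'.2).elim
  refine ⟨hu, fun t h0 h1 ht => ?_⟩
  rcases key t h0 h1 ht with k | k
  · exact k.2
  · exfalso
    have := k.1
    linarith

end Pool.Agent.Helper22.PN
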