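import Pool.Agent.Helper22.PN.C12TA

/-!
# PN-C13b: the statements of C13 for the faces 2 and 3

The same proofs as for the face 1 (see `C13Adj.lean`), with the edges and faces renamed (or by `TA.perm`):
* face 2: edges 0, 2 (at the apex) and 4 (base), opposite edge 1; the other faces: 3 (at the edge 0), 1 (at the edge 2);
  `sta_six` with `e = 4`;
* face 3: edges 0, 1 (at the apex) and 3 (base), opposite edge 2; the other faces: 2 (at the edge 0), 1 (at the edge 1);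
  `sta_six` with `e = 3`.
-/

open Real Set
open Pool.Agent.Helper1.Tet
open Pool.Agent.Helper22.ST (PP ZZ cr dt ind)

namespace Pool.Agent.Helper22.PN

variable {a c : Fin 3 → ℝ}

private theorem bAdj_tf {x y z : Fin 4 → ℝ} (t : ℝ) (v : Fin 4) :
    (ff x y z t v = 0 ∧ tf x y z t v = 1) ∨ (ff x y z t v ≠ 0 ∧ tf x y z t v = 0) := by
  by_cases h : ff x y z t v = 0
  · exact Or.inl ⟨h, tf_one h⟩
  · exact Or.inr ⟨h, tf_zero h⟩

private theorem bAdj_tan {x y z : Fin 4 → ℝ} {t : ℝ} {v : Fin 4} {j : Fin 6} (hv : ff x y z t v = 0)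
    (h : inF v j) : ff x y z t (ec j) = 0 ∨ ff x y z t (ed j) = 0 := by
  rcases h with h | h
  · left
    rw [h]
    exact hv
  · right
    rw [h]
    exact hv

/-- the ratio of the lengths from a relation between the forms -/
private theorem bAdj_len {x y z : Fin 4 → ℝ} (hd : dt x y z ≠ 0) {t m : ℝ} {e k : Fin 6}
    (hk : SC x y z e k) (he : ff x y z t (ec e) = 0 ∨ ff x y z t (ed e) = 0)
    (hk' : ff x y z t (ec k) = 0 ∨ ff x y z t (ed k) = 0) (hm : 0 ≤ m)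
    (rel : m * gg x y z t k + gg x y z t e = 0) (ge : gg x y z t e ≠ 0) :
    uu x y z e = m * uu x y z k := by
  have h1 := SC_abs hd hk he hk'
  have h2 : gg x y z t e = -(m * gg x y z t k) := by linarith
  have h3 : gg x y z t k ≠ 0 := by
    intro h
    apply ge
    rw [h2, h]
    ring
  have h4 : 0 < |gg x y z t k| := abs_pos.2 h3
  have h5 : |gg x y z t e| = m * |gg x y z t k| := by
    rw [h2, abs_neg, abs_mul, abs_of_nonneg hm]
  rw [h5] at h1
  have h6 : |gg x y z t k| * (uu x y z e - m * uu x y z k) = 0 := by linarith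
  rcases mul_eq_zero.1 h6 with h7 | h7
  · exact absurd h7 h4.ne'
  · linarith

private theorem bAdj_single (h : TA a c) {e k l : Fin 6} {v w : Fin 4} {r s : ℝ} (hv : v ≠ 0)
    (hw : w ≠ 0) (hvw : v ≠ w) (r0 : r ≠ 0) (r1 : r ≠ -1) (s0 : s ≠ 0) (s1 : s ≠ -1) (hrs : r ≠ s)
    (hr : ff (n3 a) ny (n3 c) r v = 0) (hs : ff (n3 a) ny (n3 c) s v = 0)
    (hk : SC (n3 a) ny (n3 c) e k) (ie : inF v e) (ik : inF v k) (il : inF v l)
    (sum : ∀ t, ff (n3 a) ny (n3 c) t v = 0 →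
      gg (n3 a) ny (n3 c) t k + gg (n3 a) ny (n3 c) t l + gg (n3 a) ny (n3 c) t e = 0)
    (ge : ∀ t, t ≠ 0 → gg (n3 a) ny (n3 c) t e ≠ 0)
    (rel : ∀ t, t ≠ 0 → t ≠ -1 → ff (n3 a) ny (n3 c) t v = 0 →
      (1 + tf (n3 a) ny (n3 c) t w) * gg (n3 a) ny (n3 c) t k + gg (n3 a) ny (n3 c) t e = 0) :
    False := by
  have hd := h.hy.1
  have uk := (uu_pos _ _ _ hd k).2
  have key : ∀ t, t ≠ 0 → t ≠ -1 → ff (n3 a) ny (n3 c) t v = 0 →
      uu (n3 a) ny (n3 c) e = (1 + tf (n3 a) ny (n3 c) t w) * uu (n3 a) ny (n3 c) k := by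
    intro t t0 t1 ht
    refine bAdj_len hd hk (bAdj_tan ht ie) (bAdj_tan ht ik) ?_ (rel t t0 t1 ht) (ge t t0)
    rcases bAdj_tf (x := n3 a) (y := ny) (z := n3 c) t w with h1 | h1
    · rw [h1.2]
      norm_num
    · rw [h1.2]
      norm_num
  have zero : ∀ t, t ≠ 0 → t ≠ -1 → ff (n3 a) ny (n3 c) t v = 0 →
      tf (n3 a) ny (n3 c) t w = 0 → LL (n3 a) ny (n3 c) t l = 0 := by
    intro t t0 t1 ht h0
    have h1 := rel t t0 t1 ht
    rw [h0] at h1
    have h2 := sum t ht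
    have h3 : gg (n3 a) ny (n3 c) t l = 0 := by linarith
    exact (gg_zero_iff hd t0 t1 (bAdj_tan ht il)).1 h3
  have kr := key r r0 r1 hr
  have ks := key s s0 s1 hs
  rcases bAdj_tf (x := n3 a) (y := ny) (z := n3 c) r w with h1 | h1
  · rcases bAdj_tf (x := n3 a) (y := ny) (z := n3 c) s w with h2 | h2
    · exact h.share hv hw hvw hrs hr hs h1.1 h2.1
    · rw [h1.2] at kr
      rw [h2.2] at ks
      linarith
  · rcases bAdj_tf (x := n3 a) (y := ny) (z := n3 c) s w with h2 | h2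
    · rw [h1.2] at kr
      rw [h2.2] at ks
      linarith
    · exact LL_two hd hrs (zero r r0 r1 hr h1.2) (zero s s0 s1 hs h2.2)

private theorem bAdj_opp (h : TA a c) {e k : Fin 6} {v w w' : Fin 4} {r s : ℝ}
    (hw : w ≠ 0) (hw' : w' ≠ 0) (hww : w ≠ w') (r0 : r ≠ 0) (r1 : r ≠ -1) (s0 : s ≠ 0)
    (s1 : s ≠ -1) (hrs : r ≠ s)
    (hr : ff (n3 a) ny (n3 c) r v = 0) (hs : ff (n3 a) ny (n3 c) s v = 0)
    (hk : SC (n3 a) ny (n3 c) e k) (ie : inF v e) (ik : inF w k) (ik' : inF w' k)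
    (ge : ∀ t, t ≠ 0 → gg (n3 a) ny (n3 c) t e ≠ 0)
    (rel : ∀ t, t ≠ 0 → t ≠ -1 → ff (n3 a) ny (n3 c) t v = 0 →
      (tf (n3 a) ny (n3 c) t w + tf (n3 a) ny (n3 c) t w') * gg (n3 a) ny (n3 c) t k +
        gg (n3 a) ny (n3 c) t e = 0) {t : ℝ} (t0 : t ≠ 0) (t1 : t ≠ -1)
    (ht : ff (n3 a) ny (n3 c) t v = 0) :
    (ff (n3 a) ny (n3 c) t w = 0 ∧ ff (n3 a) ny (n3 c) t w' ≠ 0) ∨
      (ff (n3 a) ny (n3 c) t w ≠ 0 ∧ ff (n3 a) ny (n3 c) t w' = 0) := by
  have hd := h.hy.1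
  have uk := (uu_pos _ _ _ hd k).2
  have key : ∀ t, t ≠ 0 → t ≠ -1 → ff (n3 a) ny (n3 c) t v = 0 →
      uu (n3 a) ny (n3 c) e =
        (tf (n3 a) ny (n3 c) t w + tf (n3 a) ny (n3 c) t w') * uu (n3 a) ny (n3 c) k ∧
      (ff (n3 a) ny (n3 c) t w = 0 ∨ ff (n3 a) ny (n3 c) t w' = 0) := by
    intro t t0 t1 ht
    have h3 := rel t t0 t1 ht
    have h4 := ge t t0
    rcases bAdj_tf (x := n3 a) (y := ny) (z := n3 c) t w with h1 | h1
    · refine ⟨bAdj_len hd hk (bAdj_tan ht ie) (bAdj_tan h1.1 ik) ?_ h3 h4, Or.inl h1.1⟩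
      rcases bAdj_tf (x := n3 a) (y := ny) (z := n3 c) t w' with h2 | h2
      · rw [h1.2, h2.2]
        norm_num
      · rw [h1.2, h2.2]
        norm_num
    · rcases bAdj_tf (x := n3 a) (y := ny) (z := n3 c) t w' with h2 | h2
      · refine ⟨bAdj_len hd hk (bAdj_tan ht ie) (bAdj_tan h2.1 ik') ?_ h3 h4, Or.inr h2.1⟩
        rw [h1.2, h2.2]
        norm_num
      · exfalso
        rw [h1.2, h2.2] at h3
        apply h4
        linarith
  obtain ⟨k1, k2⟩ := key t t0 t1 ht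
  by_cases hc : ff (n3 a) ny (n3 c) t w = 0 ∧ ff (n3 a) ny (n3 c) t w' = 0
  · exfalso
    rw [tf_one hc.1, tf_one hc.2] at k1
    have both : ∀ t, t ≠ 0 → t ≠ -1 → ff (n3 a) ny (n3 c) t v = 0 →
        ff (n3 a) ny (n3 c) t w = 0 ∧ ff (n3 a) ny (n3 c) t w' = 0 := by
      intro u u0 u1 hu
      have k3 := (key u u0 u1 hu).1
      rcases bAdj_tf (x := n3 a) (y := ny) (z := n3 c) u w with h1 | h1
      · rcases bAdj_tf (x := n3 a) (y := ny) (z := n3 c) u w' with h2 | h2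
        · exact ⟨h1.1, h2.1⟩
        · rw [h1.2, h2.2] at k3
          exfalso
          linarith
      · rcases bAdj_tf (x := n3 a) (y := ny) (z := n3 c) u w' with h2 | h2
        · rw [h1.2, h2.2] at k3
          exfalso
          linarith
        · rw [h1.2, h2.2] at k3
          exfalso
          linarith
    have b1 := both r r0 r1 hr
    have b2 := both s s0 s1 hs
    exact h.share hw hw' hww hrs b1.1 b2.1 b1.2 b2.2
  · rcases k2 with k2 | k2
    · exact Or.inl ⟨k2, fun h5 => hc ⟨k2, h5⟩⟩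
    · exact Or.inr ⟨fun h5 => hc ⟨h5, k2⟩, k2⟩

theorem TA.single2 (h : TA a c) (ho : om a c 0 2 ≠ 0) (s1 : ¬ SC (n3 a) ny (n3 c) 4 1)
    (s : ¬ SC (n3 a) ny (n3 c) 4 0 ∨ ¬ SC (n3 a) ny (n3 c) 4 2) : False := by
  obtain ⟨r, q, hr1, hr2, hq1, hr, hq⟩ := h.roots2 ho
  obtain ⟨b34, b35, b45⟩ := h.base
  have b43 : ¬ SC (n3 a) ny (n3 c) 4 3 := fun h1 => b34 h1.symm'
  have ge : ∀ t, t ≠ 0 → gg (n3 a) ny (n3 c) t 4 ≠ 0 := fun t t0 h1 =>
    ho ((h.gg_base t0).2.1.1 h1)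
  have p := h.partner2 ho
  by_cases c0 : SC (n3 a) ny (n3 c) 4 0
  · have c2 : ¬ SC (n3 a) ny (n3 c) 4 2 := by
      rcases s with s | s
      · exact absurd c0 s
      · exact s
    refine bAdj_single h (e := 4) (k := 0) (l := 2) (v := 2) (w := 3) (r := r) (s := q) (by decide)
      (by decide) (by decide) hr2.ne (by linarith) (by linarith) hq1.ne (by linarith) hr hq c0
      (by decide) (by decide) (by decide) ?_ ge ?_
    · intro t ht
      have := face_sum2 (n3 a) ny (n3 c) t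
      linarith
    · intro t t0 t1 ht
      have h6 := sta_six h.hy.sta 4 t1
      rw [ST.ind_pos c0, ST.ind_neg s1, ST.ind_neg c2, ST.ind_neg b43,
        ST.ind_pos (SC.refl' _ _ _ _), ST.ind_neg b45, tf_zero (h.ff0 t0), tf_one ht] at h6
      linarith
  · have c2 : SC (n3 a) ny (n3 c) 4 2 := by
      rcases p with p | p | p
      · exact absurd p c0
      · exact absurd p s1
      · exact p
    refine bAdj_single h (e := 4) (k := 2) (l := 0) (v := 2) (w := 1) (r := r) (s := q) (by decide)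
      (by decide) (by decide) hr2.ne (by linarith) (by linarith) hq1.ne (by linarith) hr hq c2
      (by decide) (by decide) (by decide) ?_ ge ?_
    · intro t ht
      have := face_sum2 (n3 a) ny (n3 c) t
      linarith
    · intro t t0 t1 ht
      have h6 := sta_six h.hy.sta 4 t1
      rw [ST.ind_neg c0, ST.ind_neg s1, ST.ind_pos c2, ST.ind_neg b43,
        ST.ind_pos (SC.refl' _ _ _ _), ST.ind_neg b45, tf_zero (h.ff0 t0), tf_one ht] at h6
      linarith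

theorem TA.opp2 (h : TA a c) (ho : om a c 0 2 ≠ 0) (s1 : SC (n3 a) ny (n3 c) 4 1)
    (s0 : ¬ SC (n3 a) ny (n3 c) 4 0) (s2 : ¬ SC (n3 a) ny (n3 c) 4 2) {t : ℝ} (h0 : t ≠ 0)
    (h1 : t ≠ -1) (ht : ff (n3 a) ny (n3 c) t 2 = 0) :
    (ff (n3 a) ny (n3 c) t 1 = 0 ∧ ff (n3 a) ny (n3 c) t 3 ≠ 0) ∨
      (ff (n3 a) ny (n3 c) t 1 ≠ 0 ∧ ff (n3 a) ny (n3 c) t 3 = 0) := by
  obtain ⟨r, q, hr1, hr2, hq1, hr, hq⟩ := h.roots2 ho
  obtain ⟨b34, b35, b45⟩ := h.base
  have b43 : ¬ SC (n3 a) ny (n3 c) 4 3 := fun h1 => b34 h1.symm'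
  have ge : ∀ t, t ≠ 0 → gg (n3 a) ny (n3 c) t 4 ≠ 0 := fun t t0 h1 =>
    ho ((h.gg_base t0).2.1.1 h1)
  refine bAdj_opp h (e := 4) (k := 1) (v := 2) (w := 1) (w' := 3) (r := r) (s := q) (by decide)
    (by decide) (by decide) hr2.ne (by linarith) (by linarith) hq1.ne (by linarith) hr hq s1
    (by decide) (by decide) (by decide) ge ?_ h0 h1 ht
  intro t t0 t1 ht
  have h6 := sta_six h.hy.sta 4 t1
  rw [ST.ind_neg s0, ST.ind_pos s1, ST.ind_neg s2, ST.ind_neg b43,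
    ST.ind_pos (SC.refl' _ _ _ _), ST.ind_neg b45, tf_zero (h.ff0 t0), tf_one ht] at h6
  linarith

theorem TA.single3 (h : TA a c) (ho : om a c 0 1 ≠ 0) (s2 : ¬ SC (n3 a) ny (n3 c) 3 2)
    (s : ¬ SC (n3 a) ny (n3 c) 3 0 ∨ ¬ SC (n3 a) ny (n3 c) 3 1) : False := by
  obtain ⟨r, q, hr1, hr2, hq1, hr, hq⟩ := h.roots3 ho
  obtain ⟨b34, b35, b45⟩ := h.base
  have ge : ∀ t, t ≠ 0 → gg (n3 a) ny (n3 c) t 3 ≠ 0 := fun t t0 h1 =>
    ho ((h.gg_base t0).1.1 h1)
  have p := h.partner3 ho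
  by_cases c0 : SC (n3 a) ny (n3 c) 3 0
  · have c1 : ¬ SC (n3 a) ny (n3 c) 3 1 := by
      rcases s with s | s
      · exact absurd c0 s
      · exact s
    refine bAdj_single h (e := 3) (k := 0) (l := 1) (v := 3) (w := 2) (r := r) (s := q) (by decide)
      (by decide) (by decide) hr2.ne (by linarith) (by linarith) hq1.ne (by linarith) hr hq c0
      (by decide) (by decide) (by decide) ?_ ge ?_
    · intro t ht
      have := face_sum3 (n3 a) ny (n3 c) t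
      linarith
    · intro t t0 t1 ht
      have h6 := sta_six h.hy.sta 3 t1
      rw [ST.ind_pos c0, ST.ind_neg c1, ST.ind_neg s2, ST.ind_pos (SC.refl' _ _ _ _),
        ST.ind_neg b34, ST.ind_neg b35, tf_zero (h.ff0 t0), tf_one ht] at h6
      linarith
  · have c1 : SC (n3 a) ny (n3 c) 3 1 := by
      rcases p with p | p | p
      · exact absurd p c0
      · exact p
      · exact absurd p s2
    refine bAdj_single h (e := 3) (k := 1) (l := 0) (v := 3) (w := 1) (r := r) (s := q) (by decide)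
      (by decide) (by decide) hr2.ne (by linarith) (by linarith) hq1.ne (by linarith) hr hq c1
      (by decide) (by decide) (by decide) ?_ ge ?_
    · intro t ht
      have := face_sum3 (n3 a) ny (n3 c) t
      linarith
    · intro t t0 t1 ht
      have h6 := sta_six h.hy.sta 3 t1
      rw [ST.ind_neg c0, ST.ind_pos c1, ST.ind_neg s2, ST.ind_pos (SC.refl' _ _ _ _),
        ST.ind_neg b34, ST.ind_neg b35, tf_zero (h.ff0 t0), tf_one ht] at h6
      linarith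

theorem TA.opp3 (h : TA a c) (ho : om a c 0 1 ≠ 0) (s2 : SC (n3 a) ny (n3 c) 3 2)
    (s0 : ¬ SC (n3 a) ny (n3 c) 3 0) (s1 : ¬ SC (n3 a) ny (n3 c) 3 1) {t : ℝ} (h0 : t ≠ 0)
    (h1 : t ≠ -1) (ht : ff (n3 a) ny (n3 c) t 3 = 0) :
    (ff (n3 a) ny (n3 c) t 1 = 0 ∧ ff (n3 a) ny (n3 c) t 2 ≠ 0) ∨
      (ff (n3 a) ny (n3 c) t 1 ≠ 0 ∧ ff (n3 a) ny (n3 c) t 2 = 0) := by
  obtain ⟨r, q, hr1, hr2, hq1, hr, hq⟩ := h.roots3 ho
  obtain ⟨b34, b35, b45⟩ := h.base
  have ge : ∀ t, t ≠ 0 → gg (n3 a) ny (n3 c) t 3 ≠ 0 := fun t t0 h1 =>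
    ho ((h.gg_base t0).1.1 h1)
  refine bAdj_opp h (e := 3) (k := 2) (v := 3) (w := 1) (w' := 2) (r := r) (s := q) (by decide)
    (by decide) (by decide) hr2.ne (by linarith) (by linarith) hq1.ne (by linarith) hr hq s2
    (by decide) (by decide) (by decide) ge ?_ h0 h1 ht
  intro t t0 t1 ht
  have h6 := sta_six h.hy.sta 3 t1
  rw [ST.ind_neg s0, ST.ind_neg s1, ST.ind_pos s2, ST.ind_pos (SC.refl' _ _ _ _),
    ST.ind_neg b34, ST.ind_neg b35, tf_zero (h.ff0 t0), tf_one ht] at h6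
  linarith

end Pool.Agent.Helper22.PN
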