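import Pool.Agent.Helper22.PN.C13Adj
import Pool.Agent.Helper22.PN.C13bAdj

/-!
# PN-C14: the generic case: no side line passes through the origin

Each base edge 3, 4, 5 has a partner among the edges 0, 1, 2 (`TA.partner1` etc.), the classes of 3, 4, 5 are different (`TA.base`,
`SC.trans'`), so each has exactly one partner and they are different.  By `adj1`, `adj2`, `single2`, `single3` the partners
are the opposite ones: `5 ~ 0`, `4 ~ 1`, `3 ~ 2`.  By `opp`, `opp2`, `opp3` at each zero of one of the faces 1, 2, 3 exactly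
one of the two other faces is tangent.  Consider the zeros `r1, r2, r3` in `(-1, 0)` (`TA.roots1`, ...; unique, `root_unique_pos`):
say the face 2 is tangent at `r1`, the face 3 not: then `r2 = r1 ≠ r3`, but at `r3` one of the faces 1, 2 is tangent, so
`r3 = r1` or `r3 = r2`, a contradiction; similarly if the face 3 is tangent at `r1` and the face 2 is not.
-/

open Real Set
open Pool.Agent.Helper1.Tet
open Pool.Agent.Helper22.ST (PP ZZ cr dt ind)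

namespace Pool.Agent.Helper22.PN

variable {a c : Fin 3 → ℝ}

private theorem C14_logic {A0 A1 A2 B0 B1 B2 C0 C1 C2 : Prop} (hA : A0 ∨ A1 ∨ A2)
    (a0 : ¬(A0 ∧ B0)) (a1 : ¬(A1 ∧ B1)) (a2 : ¬(A2 ∧ B2)) (b0 : ¬(A0 ∧ C0)) (b2 : ¬(A2 ∧ C2))
    (c1 : ¬(B1 ∧ C1)) (c2 : ¬(B2 ∧ C2))
    (u2 : A2 → ¬A0 → ¬A1 → False) (u1 : A1 → ¬A0 → ¬A2 → False)
    (v : ¬B1 → (¬B0 ∨ ¬B2) → False) (w : ¬C2 → (¬C0 ∨ ¬C1) → False) :
    (A0 ∧ ¬A1 ∧ ¬A2) ∧ (B1 ∧ ¬B0 ∧ ¬B2) ∧ (C2 ∧ ¬C0 ∧ ¬C1) := by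
  by_cases x0 : A0 <;> by_cases x1 : A1 <;> by_cases x2 : A2 <;> by_cases y0 : B0 <;>
    by_cases y1 : B1 <;> by_cases y2 : B2 <;> by_cases z0 : C0 <;> by_cases z1 : C1 <;>
    by_cases z2 : C2 <;> simp_all

theorem TA.no_gen (h : TA a c) (h01 : om a c 0 1 ≠ 0) (h02 : om a c 0 2 ≠ 0)
    (h12 : om a c 1 2 ≠ 0) : False := by
  have hd : dt (n3 a) ny (n3 c) ≠ 0 := h.hy.1
  obtain ⟨k34, k35, k45⟩ := h.base
  have d54 : ∀ i, ¬(SC (n3 a) ny (n3 c) 5 i ∧ SC (n3 a) ny (n3 c) 4 i) := fun i hi =>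
    k45 (SC.trans' hd hi.2 (SC.symm' hi.1))
  have d53 : ∀ i, ¬(SC (n3 a) ny (n3 c) 5 i ∧ SC (n3 a) ny (n3 c) 3 i) := fun i hi =>
    k35 (SC.trans' hd hi.2 (SC.symm' hi.1))
  have d43 : ∀ i, ¬(SC (n3 a) ny (n3 c) 4 i ∧ SC (n3 a) ny (n3 c) 3 i) := fun i hi =>
    k34 (SC.trans' hd hi.2 (SC.symm' hi.1))
  obtain ⟨⟨s50, s51, s52⟩, ⟨s41, s40, s42⟩, ⟨s32, s30, s31⟩⟩ :=
    C14_logic (h.partner1 h12) (d54 0) (d54 1) (d54 2) (d53 0) (d53 2) (d43 1) (d43 2)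
      (fun p q r => h.adj2 h12 p q r) (fun p q r => h.adj1 h12 p q r)
      (fun p q => h.single2 h02 p q) (fun p q => h.single3 h01 p q)
  obtain ⟨r1, -, r1a, r1b, -, f1, -⟩ := h.roots1 h12
  obtain ⟨r2, -, r2a, r2b, -, f2, -⟩ := h.roots2 h02
  obtain ⟨r3, -, r3a, r3b, -, f3, -⟩ := h.roots3 h01
  have o1 := ((h.opp h12 s50 s51 s52).2 r1 r1b.ne r1a.ne' f1).2
  have o2 := h.opp2 h02 s41 s40 s42 r2b.ne r2a.ne' f2
  have o3 := h.opp3 h01 s32 s30 s31 r3b.ne r3a.ne' f3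
  rcases o1 with ⟨p, q⟩ | ⟨p, q⟩
  · have e21 : r2 = r1 := root_unique_pos hd r2a r1a f2 p
    rcases o3 with ⟨p', -⟩ | ⟨-, q'⟩
    · have e31 : r3 = r1 := root_unique_pos hd r3a r1a p' f1
      exact q (e31 ▸ f3)
    · have e32 : r3 = r2 := root_unique_pos hd r3a r2a q' f2
      exact q ((e32.trans e21) ▸ f3)
  · have e31 : r3 = r1 := root_unique_pos hd r3a r1a f3 q
    rcases o2 with ⟨p', -⟩ | ⟨-, q'⟩
    · have e21 : r2 = r1 := root_unique_pos hd r2a r1a p' f1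
      exact p (e21 ▸ f2)
    · have e23 : r2 = r3 := root_unique_pos hd r2a r3a q' f3
      exact p ((e23.trans e31) ▸ f2)

end Pool.Agent.Helper22.PN
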