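import Pool.Agent.Helper22.PN.C13Adj

/-!
# PN-C15: one side line through the origin, partner opposite

`om a c 0 1 = 0`: the face 3 (edges 0, 1, 3) has the normal `(c 0 - c 1, 0, a 1 - a 0)`,
`ff t 3 = (t + 1) ((c 0 - c 1)² + t (a 0 - a 1)²)`: at most one zero `ρ ≠ -1`, and `LL ρ 3 = 0`, `gg ρ 3 = 0` (`TA.gg_base`).
By `TA.opp` at each of the two zeros of the face 1 exactly one of the faces 2, 3 is tangent; not the face 2 at both (`TA.share`), not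
the face 3 at both; so at one zero (`t = ρ`) the face 3, at the other one (`ρ'`) the face 2.  Write `g j = gg t j`.
At `ρ` (`T 1 = T 3 = 1`, `T 2 = T 0 = 0`): `g 3 = 0`, `g 0 + g 1 = 0` (`face_sum3`), `g 5 = - g 0`, so `g 2 = -2 g 1`
(`face_sum1`), `g 1 ≠ 0` (`double_ne`).  `sta_six` with `e = 1`: `2 g 1 + [1 ~ 2] g 2 + [1 ~ 0] g 0 + [1 ~ 5] g 5 = 0`; `1 ≁ 5`, `1 ≁ 0`
(`5 ~ 0`), so `1 ~ 2` and `uu 2 = 2 uu 1` (`SC_abs`).
At `ρ'` (`T 1 = T 2 = 1`, `T 3 = T 0 = 0`): `g 5 = - g 0`, `g 0 + g 2 + g 4 = 0`, `g 1 + g 2 + g 5 = 0`; `sta_six` with `e = 4`: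
`g 4 + [4 ~ 1] g 1 + [4 ~ 2] 2 g 2 = 0` (`4 ≁ 5`, so `4 ≁ 0`), `g 4 ≠ 0` (`om a c 0 2 ≠ 0`), so `4 ~ 1 ~ 2` and `g 4 = - g 1 - 2 g 2` with
`|g 1| = |g 2| / 2`: `uu 4 = 3 uu 1` or `uu 4 = 5 uu 1`; by `uu_tri` `uu 4 < uu 0 + uu 2`, `uu 0 = uu 5 < uu 1 + uu 2`, so `uu 4 < 5 uu 1` and
`uu 4 = 3 uu 1`.
With `SC_lin`/`SC_eq`, `PP_norm`: for `u = a` and for `u = c`:
`1 + (u 2)² = 4 (1 + (u 1)²)`, `(u 1 - u 2)² = 1 + (u 0)²`, `(u 0 - u 2)² = 9 (1 + (u 1)²)`.  Since `(a 1, c 1) ≠ 0` (`om a c 1 2 ≠ 0`) and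
`om a c 0 1 = 0` there is `λ` with `a 0 = λ a 1`, `c 0 = λ c 1`.  Elimination of `u 2`: `2 (u 1) (u 2) = (5 - λ²) (u 1)² + 2` and
`(u 1)² (λ + 1) (λ² - 5) = 2 (λ + 3)`.  Subtract the equations for `a` and `c`: `(a 1)² = (c 1)²` (then
`(c 0 - c 1)² = (a 0 - a 1)²`, excluded by `hm`) or `(λ + 1) (λ² - 5) = 0` and `λ = -3`, impossible.
-/

open Real Set
open Pool.Agent.Helper1.Tet
open Pool.Agent.Helper22.ST (PP ZZ cr dt ind)

namespace Pool.Agent.Helper22.PN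

variable {a c : Fin 3 → ℝ}

/-- the algebraic part -/
theorem line_alg {a0 a1 a2 c0 c1 c2 : ℝ} (ho : c0 * a1 = a0 * c1) (hn : a1 ≠ 0 ∨ c1 ≠ 0)
    (e1 : 1 + a2 ^ 2 = 4 * (1 + a1 ^ 2)) (e2 : (a1 - a2) ^ 2 = 1 + a0 ^ 2)
    (e3 : (a0 - a2) ^ 2 = 9 * (1 + a1 ^ 2)) (f1 : 1 + c2 ^ 2 = 4 * (1 + c1 ^ 2))
    (f2 : (c1 - c2) ^ 2 = 1 + c0 ^ 2) (f3 : (c0 - c2) ^ 2 = 9 * (1 + c1 ^ 2)) :
    (c0 - c1) ^ 2 = (a0 - a1) ^ 2 := by
  obtain ⟨l, h0, h0'⟩ : ∃ l : ℝ, a0 = l * a1 ∧ c0 = l * c1 := by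
    rcases hn with hn | hn
    · refine ⟨a0 / a1, by field_simp, ?_⟩
      field_simp
      linarith
    · refine ⟨c0 / c1, ?_, by field_simp⟩
      field_simp
      linarith
  subst h0
  subst h0'
  have key : ∀ u v : ℝ, 1 + v ^ 2 = 4 * (1 + u ^ 2) → (u - v) ^ 2 = 1 + (l * u) ^ 2 →
      (l * u - v) ^ 2 = 9 * (1 + u ^ 2) → (l + 1) * (l ^ 2 - 5) * u ^ 2 = 2 * (l + 3) := by
    intro u v g1 g2 g3
    have h2 : 2 * (u * v) = (5 - l ^ 2) * u ^ 2 + 2 := by nlinarith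
    have h3 : l * (2 * (u * v)) = l * ((5 - l ^ 2) * u ^ 2 + 2) := by rw [h2]
    nlinarith
  have k1 := key a1 a2 e1 e2 e3
  have k2 := key c1 c2 f1 f2 f3
  have k3 : (l + 1) * (l ^ 2 - 5) * (a1 ^ 2 - c1 ^ 2) = 0 := by linarith
  rcases mul_eq_zero.1 k3 with k | k
  · exfalso
    rw [k] at k1
    have hl : l = -3 := by linarith
    rw [hl] at k
    norm_num at k
  · have : c1 ^ 2 = a1 ^ 2 := by linarith
    calc (l * c1 - c1) ^ 2 = (l - 1) ^ 2 * c1 ^ 2 := by ring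
      _ = (l - 1) ^ 2 * a1 ^ 2 := by rw [this]
      _ = (l * a1 - a1) ^ 2 := by ring

/-- at the zero of the face 3 -/
private theorem line_rho (h : TA a c) (h01 : om a c 0 1 = 0)
    (s0 : SC (n3 a) ny (n3 c) 5 0) (s1 : ¬ SC (n3 a) ny (n3 c) 5 1) {t : ℝ} (t0 : t ≠ 0)
    (t1 : t ≠ -1) (z1 : ff (n3 a) ny (n3 c) t 1 = 0) (z2 : ff (n3 a) ny (n3 c) t 2 ≠ 0)
    (z3 : ff (n3 a) ny (n3 c) t 3 = 0)
    (g50 : gg (n3 a) ny (n3 c) t 5 = -gg (n3 a) ny (n3 c) t 0) :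
    SC (n3 a) ny (n3 c) 1 2 ∧ uu (n3 a) ny (n3 c) 2 = 2 * uu (n3 a) ny (n3 c) 1 := by
  have hd := h.hy.1
  have z0 := h.ff0 t0
  have g3 := ((h.gg_base t0).1).2 h01
  have fs3 := face_sum3 (n3 a) ny (n3 c) t
  have fs1 := face_sum1 (n3 a) ny (n3 c) t
  rw [z3, g3] at fs3
  rw [z1, g50] at fs1
  have g1 : gg (n3 a) ny (n3 c) t 1 ≠ 0 := double_ne hd t0 t1 (j := 1) z1 z3
  have g0e : gg (n3 a) ny (n3 c) t 0 = -gg (n3 a) ny (n3 c) t 1 := by linarith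
  have g2e : gg (n3 a) ny (n3 c) t 2 = -(2 * gg (n3 a) ny (n3 c) t 1) := by linarith
  have hs := sta_six h.hy.sta 1 t1
  rw [tf_zero z0, tf_one z1, tf_zero z2, tf_one z3] at hs
  have n15 : ¬ SC (n3 a) ny (n3 c) 1 5 := fun q => s1 q.symm'
  have n10 : ¬ SC (n3 a) ny (n3 c) 1 0 := fun q => s1 (s0.trans' hd q.symm')
  rw [ST.ind_neg n15, ST.ind_neg n10, ST.ind_pos (SC.refl' _ _ _ 1), g3, g2e] at hs
  have n12 : SC (n3 a) ny (n3 c) 1 2 := by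
    by_contra q
    rw [ST.ind_neg q] at hs
    apply g1
    have e3 : ind (SC (n3 a) ny (n3 c) 1 3) ((0 + 1) * (0 : ℝ)) = 0 := by
      rw [mul_zero]
      by_cases q3 : SC (n3 a) ny (n3 c) 1 3
      · rw [ST.ind_pos q3]
      · rw [ST.ind_neg q3]
    have e4 : ind (SC (n3 a) ny (n3 c) 1 4) ((0 + 0) * gg (n3 a) ny (n3 c) t 4) = 0 := by
      rw [add_zero, zero_mul]
      by_cases q3 : SC (n3 a) ny (n3 c) 1 4
      · rw [ST.ind_pos q3]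
      · rw [ST.ind_neg q3]
    rw [e3, e4] at hs
    linarith
  refine ⟨n12, ?_⟩
  have hab := SC_abs hd n12 (t := t) (Or.inl z1) (Or.inl z1)
  rw [g2e, abs_neg, abs_mul, abs_two] at hab
  have hp : 0 < |gg (n3 a) ny (n3 c) t 1| := abs_pos.2 g1
  have : |gg (n3 a) ny (n3 c) t 1| * uu (n3 a) ny (n3 c) 2 =
      |gg (n3 a) ny (n3 c) t 1| * (2 * uu (n3 a) ny (n3 c) 1) := by linarith
  exact mul_left_cancel₀ hp.ne' this

/-- at the zero of the face 2 -/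
private theorem line_rho' (h : TA a c) (h02 : om a c 0 2 ≠ 0)
    (s0 : SC (n3 a) ny (n3 c) 5 0) (n12 : SC (n3 a) ny (n3 c) 1 2)
    (u12 : uu (n3 a) ny (n3 c) 2 = 2 * uu (n3 a) ny (n3 c) 1)
    (u50 : uu (n3 a) ny (n3 c) 5 = uu (n3 a) ny (n3 c) 0) {t : ℝ} (t0 : t ≠ 0)
    (t1 : t ≠ -1) (z1 : ff (n3 a) ny (n3 c) t 1 = 0) (z2 : ff (n3 a) ny (n3 c) t 2 = 0)
    (z3 : ff (n3 a) ny (n3 c) t 3 ≠ 0) :
    SC (n3 a) ny (n3 c) 4 1 ∧ uu (n3 a) ny (n3 c) 4 = 3 * uu (n3 a) ny (n3 c) 1 := by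
  have hd := h.hy.1
  have z0 := h.ff0 t0
  have g4 : gg (n3 a) ny (n3 c) t 4 ≠ 0 := fun q => h02 (((h.gg_base t0).2.1).1 q)
  have hs := sta_six h.hy.sta 4 t1
  rw [tf_zero z0, tf_one z1, tf_one z2, tf_zero z3] at hs
  have n45 : ¬ SC (n3 a) ny (n3 c) 4 5 := h.base.2.2
  have n40 : ¬ SC (n3 a) ny (n3 c) 4 0 := fun q => n45 (q.trans' hd s0.symm')
  have e3 : ind (SC (n3 a) ny (n3 c) 4 3) ((0 + 0) * gg (n3 a) ny (n3 c) t 3) = 0 := by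
    rw [add_zero, zero_mul]
    by_cases q3 : SC (n3 a) ny (n3 c) 4 3
    · rw [ST.ind_pos q3]
    · rw [ST.ind_neg q3]
  rw [ST.ind_neg n45, ST.ind_neg n40, ST.ind_pos (SC.refl' _ _ _ 4), e3] at hs
  have n41 : SC (n3 a) ny (n3 c) 4 1 := by
    by_contra q
    have q2 : ¬ SC (n3 a) ny (n3 c) 4 2 := fun q' => q (q'.trans' hd n12.symm')
    rw [ST.ind_neg q, ST.ind_neg q2] at hs
    apply g4
    linarith
  have n42 : SC (n3 a) ny (n3 c) 4 2 := n41.trans' hd n12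
  rw [ST.ind_pos n41, ST.ind_pos n42] at hs
  refine ⟨n41, ?_⟩
  have h12 := SC_abs hd n12 (t := t) (Or.inl z1) (Or.inl z1)
  have h41 := SC_abs hd n41 (t := t) (Or.inr z2) (Or.inl z1)
  have p1 := (uu_pos (n3 a) ny (n3 c) hd 1).2
  have tri := uu_tri (x := n3 a) (y := ny) (z := n3 c) hd
  have u4lt : uu (n3 a) ny (n3 c) 4 < 5 * uu (n3 a) ny (n3 c) 1 := by
    have q1 := tri.2.2.1.2.2
    have q2 := tri.2.1.2.2
    linarith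
  rw [u12] at h12
  have habs : |gg (n3 a) ny (n3 c) t 2| = |2 * gg (n3 a) ny (n3 c) t 1| := by
    rw [abs_mul, abs_two]
    have : |gg (n3 a) ny (n3 c) t 2| * uu (n3 a) ny (n3 c) 1 =
      (2 * |gg (n3 a) ny (n3 c) t 1|) * uu (n3 a) ny (n3 c) 1 := by linarith
    exact mul_right_cancel₀ p1.ne' this
  have g1 : gg (n3 a) ny (n3 c) t 1 ≠ 0 := by
    intro q
    rw [q, mul_zero, abs_zero, abs_eq_zero] at habs
    apply g4
    rw [q, habs] at hs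
    linarith
  have g1p : 0 < |gg (n3 a) ny (n3 c) t 1| := abs_pos.2 g1
  rcases abs_eq_abs.1 habs with hc | hc
  · exfalso
    have g4e : gg (n3 a) ny (n3 c) t 4 = -(5 * gg (n3 a) ny (n3 c) t 1) := by
      rw [hc] at hs
      linarith
    rw [g4e, abs_neg, abs_mul, abs_of_pos (by norm_num : (0 : ℝ) < 5)] at h41
    have : |gg (n3 a) ny (n3 c) t 1| * uu (n3 a) ny (n3 c) 4 =
      |gg (n3 a) ny (n3 c) t 1| * (5 * uu (n3 a) ny (n3 c) 1) := by linarith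
    have := mul_left_cancel₀ g1p.ne' this
    linarith
  · have g4e : gg (n3 a) ny (n3 c) t 4 = 3 * gg (n3 a) ny (n3 c) t 1 := by
      rw [hc] at hs
      linarith
    rw [g4e, abs_mul, abs_of_pos (by norm_num : (0 : ℝ) < 3)] at h41
    have : |gg (n3 a) ny (n3 c) t 1| * uu (n3 a) ny (n3 c) 4 =
      |gg (n3 a) ny (n3 c) t 1| * (3 * uu (n3 a) ny (n3 c) 1) := by linarith
    exact mul_left_cancel₀ g1p.ne' this

/-- proportional edges: squared components -/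
private theorem line_sq (h : TA a c) {i j : Fin 6} (hs : SC (n3 a) ny (n3 c) i j) {k : ℝ}
    (hk : 0 ≤ k) (hu : uu (n3 a) ny (n3 c) i = k * uu (n3 a) ny (n3 c) j) :
    PP (n3 a) ny i = k ^ 2 * PP (n3 a) ny j ∧ PP ny (n3 c) i = k ^ 2 * PP ny (n3 c) j := by
  have hd := h.hy.1
  have pj := (uu_pos (n3 a) ny (n3 c) hd j).2
  obtain ⟨q1, q2⟩ := SC_lin hd hs
  have nn : ∀ (x y : Fin 4 → ℝ) (j : Fin 6), 0 ≤ PP x y j := fun x y j => by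
    unfold PP
    positivity
  rw [hu] at q1 q2
  have r1 : √(PP (n3 a) ny i) = k * √(PP (n3 a) ny j) := by
    apply mul_right_cancel₀ pj.ne'
    linarith
  have r2 : √(PP ny (n3 c) i) = k * √(PP ny (n3 c) j) := by
    apply mul_right_cancel₀ pj.ne'
    linarith
  constructor
  · calc PP (n3 a) ny i = √(PP (n3 a) ny i) ^ 2 := (Real.sq_sqrt (nn _ _ _)).symm
      _ = k ^ 2 * √(PP (n3 a) ny j) ^ 2 := by rw [r1]; ring
      _ = k ^ 2 * PP (n3 a) ny j := by rw [Real.sq_sqrt (nn _ _ _)]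
  · calc PP ny (n3 c) i = √(PP ny (n3 c) i) ^ 2 := (Real.sq_sqrt (nn _ _ _)).symm
      _ = k ^ 2 * √(PP ny (n3 c) j) ^ 2 := by rw [r2]; ring
      _ = k ^ 2 * PP ny (n3 c) j := by rw [Real.sq_sqrt (nn _ _ _)]

private theorem line_end (h : TA a c) (h01 : om a c 0 1 = 0) (h02 : om a c 0 2 ≠ 0)
    (h12 : om a c 1 2 ≠ 0) (hm : (c 0 - c 1) ^ 2 ≠ (a 0 - a 1) ^ 2)
    (s0 : SC (n3 a) ny (n3 c) 5 0) (s1 : ¬ SC (n3 a) ny (n3 c) 5 1)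
    (u50 : uu (n3 a) ny (n3 c) 5 = uu (n3 a) ny (n3 c) 0) {r s : ℝ} (r0 : r ≠ 0) (r1 : r ≠ -1)
    (t0 : s ≠ 0) (t1 : s ≠ -1)
    (z1 : ff (n3 a) ny (n3 c) r 1 = 0) (z2 : ff (n3 a) ny (n3 c) r 2 ≠ 0)
    (z3 : ff (n3 a) ny (n3 c) r 3 = 0)
    (g50 : gg (n3 a) ny (n3 c) r 5 = -gg (n3 a) ny (n3 c) r 0)
    (w1 : ff (n3 a) ny (n3 c) s 1 = 0) (w2 : ff (n3 a) ny (n3 c) s 2 = 0)
    (w3 : ff (n3 a) ny (n3 c) s 3 ≠ 0) : False := by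
  obtain ⟨n12, u12⟩ := line_rho h h01 s0 s1 r0 r1 z1 z2 z3 g50
  obtain ⟨n41, u41⟩ := line_rho' h h02 s0 n12 u12 u50 t0 t1 w1 w2 w3
  obtain ⟨A1, C1⟩ := line_sq h n12.symm' (by norm_num : (0 : ℝ) ≤ 2) u12
  obtain ⟨A2, C2⟩ := line_sq h n41 (by norm_num : (0 : ℝ) ≤ 3) u41
  obtain ⟨A3, C3⟩ := line_sq h s0 (by norm_num : (0 : ℝ) ≤ 1) (by rw [one_mul]; exact u50)
  obtain ⟨⟨P0, P1, P2, P3, P4, P5⟩, Q0, Q1, Q2, Q3, Q4, Q5⟩ := PP_norm a c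
  rw [P2, P1] at A1
  rw [P4, P1] at A2
  rw [P5, P0] at A3
  rw [Q2, Q1] at C1
  rw [Q4, Q1] at C2
  rw [Q5, Q0] at C3
  apply hm
  unfold om at h01 h12
  refine line_alg (a2 := a 2) (c2 := c 2) (by linarith) ?_ (by linarith) (by linarith)
    (by linarith) (by linarith) (by linarith) (by linarith)
  by_contra q
  rw [not_or, not_not, not_not] at q
  rw [q.1, q.2] at h12
  apply h12
  ring

theorem TA.no_line (h : TA a c) (h01 : om a c 0 1 = 0) (h02 : om a c 0 2 ≠ 0)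
    (h12 : om a c 1 2 ≠ 0) (hm : (c 0 - c 1) ^ 2 ≠ (a 0 - a 1) ^ 2)
    (s0 : SC (n3 a) ny (n3 c) 5 0) (s1 : ¬ SC (n3 a) ny (n3 c) 5 1)
    (s2 : ¬ SC (n3 a) ny (n3 c) 5 2) : False := by
  obtain ⟨u50, ho⟩ := h.opp h12 s0 s1 s2
  obtain ⟨r, s, r1, r0, s1', zr, zs⟩ := h.roots1 h12
  have r0' : r ≠ 0 := r0.ne
  have r1' : r ≠ -1 := r1.ne'
  have s0' : s ≠ 0 := by linarith
  have s1'' : s ≠ -1 := s1'.ne
  have hrs : r ≠ s := by linarith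
  obtain ⟨gr, hr⟩ := ho r r0' r1' zr
  obtain ⟨gs, hs⟩ := ho s s0' s1'' zs
  rcases hr with ⟨r2, r3⟩ | ⟨r2, r3⟩
  · rcases hs with ⟨q2, q3⟩ | ⟨q2, q3⟩
    · exact h.share (v := 1) (w := 2) (by decide) (by decide) (by decide) hrs zr zs r2 q2
    · exact line_end h h01 h02 h12 hm s0 s1 u50 s0' s1'' r0' r1' zs q2 q3 gs zr r2 r3
  · rcases hs with ⟨q2, q3⟩ | ⟨q2, q3⟩
    · exact line_end h h01 h02 h12 hm s0 s1 u50 r0' r1' s0' s1'' zr r2 r3 gr zs q2 q3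
    · -- the face 3 has only one zero different from `-1`
      exfalso
      obtain ⟨⟨-, -, -, k1⟩, ⟨-, -, -, k2⟩, -, -, k3, -⟩ := cr_norm a c
      have hz : cr (n3 c) (n3 a) 3 = 0 := by
        rw [k3]
        exact h01
      unfold ff at r3 q3
      rw [k1, k2, hz] at r3 q3
      have e1 : (r + 1) * ((c 0 - c 1) ^ 2 + r * (a 1 - a 0) ^ 2) = 0 := by linarith
      have e2 : (s + 1) * ((c 0 - c 1) ^ 2 + s * (a 1 - a 0) ^ 2) = 0 := by linarith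
      have hr1 : r + 1 ≠ 0 := fun q => r1' (by linarith)
      have hs1 : s + 1 ≠ 0 := fun q => s1'' (by linarith)
      have e3 := (mul_eq_zero.1 e1).resolve_left hr1
      have e4 := (mul_eq_zero.1 e2).resolve_left hs1
      have e5 : (r - s) * (a 1 - a 0) ^ 2 = 0 := by linarith
      have e6 := (mul_eq_zero.1 e5).resolve_left (sub_ne_zero.2 hrs)
      have e7 : a 1 - a 0 = 0 := by
        rcases pow_eq_zero_iff (two_ne_zero) |>.1 e6 with q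
        exact q
      exact h.na 1 0 (by decide) (by linarith)

end Pool.Agent.Helper22.PN
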