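import Pool.Agent.Helper22.PN.C12TA

/-!
# PN-C16: one side line through the origin with slope `± 1`

`om a c 0 1 = 0` and `(c 0 - c 1)² = (a 0 - a 1)² ≠ 0` give `(a 0)² = (c 0)²` and `(a 1)² = (c 1)²` (both points are on the line through the
origin with this slope).  So the edges 0, 1, 3 have `PP (n3 a) ny j = PP ny (n3 c) j`.  The edges 4 and 5 do not (`ms` with the edge 3).  By
`TA.partner2`, `TA.partner1` the classes of 4 and 5 contain an edge at the apex, not 0 or 1, so both contain the edge 2, and `4 ~ 5`, contradiction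
to `TA.base`.
-/

open Real Set
open Pool.Agent.Helper1.Tet
open Pool.Agent.Helper22.ST (PP ZZ cr dt ind)

namespace Pool.Agent.Helper22.PN

variable {a c : Fin 3 → ℝ}

theorem TA.no_line1 (h : TA a c) (h01 : om a c 0 1 = 0) (h02 : om a c 0 2 ≠ 0)
    (h12 : om a c 1 2 ≠ 0) (hm : (c 0 - c 1) ^ 2 = (a 0 - a 1) ^ 2) : False := by
  have ha : a 0 - a 1 ≠ 0 := sub_ne_zero.2 (h.na 0 1 (by decide))
  have hc : c 0 * a 1 - a 0 * c 1 = 0 := h01
  have key : a 0 ^ 2 = c 0 ^ 2 ∧ a 1 ^ 2 = c 1 ^ 2 := by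
    rcases sq_eq_sq_iff_eq_or_eq_neg.1 hm with e | e
    · have e1 : c 1 = c 0 - (a 0 - a 1) := by linarith
      rw [e1] at hc
      have e2 : (c 0 - a 0) * (a 0 - a 1) = 0 := by linear_combination -hc
      rcases mul_eq_zero.1 e2 with e3 | e3
      · have e4 : c 0 = a 0 := by linarith
        refine ⟨by rw [e4], ?_⟩
        rw [e1, e4]
        ring
      · exact absurd e3 ha
    · have e1 : c 1 = c 0 + (a 0 - a 1) := by linarith
      rw [e1] at hc
      have e2 : (c 0 + a 0) * (a 0 - a 1) = 0 := by linear_combination -hc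
      rcases mul_eq_zero.1 e2 with e3 | e3
      · have e4 : c 0 = -a 0 := by linarith
        refine ⟨by rw [e4]; ring, ?_⟩
        rw [e1, e4]
        ring
      · exact absurd e3 ha
  obtain ⟨k0, k1⟩ := key
  obtain ⟨⟨x0, x1, x2, x3, x4, x5⟩, z0, z1, z2, z3, z4, z5⟩ := PP_norm a c
  obtain ⟨b34, b35, b45⟩ := h.base
  have p1 := h.partner1 h12
  have p2 := h.partner2 h02
  unfold SC at b34 b35 b45 p1 p2
  simp only [x0, x1, x2, x3, x4, x5, z0, z1, z2, z3, z4, z5] at b34 b35 b45 p1 p2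
  have n0 : (1 + c 0 ^ 2) ≠ 0 := by positivity
  have n1 : (1 + c 1 ^ 2) ≠ 0 := by positivity
  have n2 : (1 + c 2 ^ 2) ≠ 0 := by positivity
  have m2 : (1 + a 2 ^ 2) ≠ 0 := by positivity
  -- an edge equivalent to 0 or 1 has equal squares, so it is equivalent to 3
  have f4 : (a 0 - a 2) ^ 2 * (1 + c 2 ^ 2) = (1 + a 2 ^ 2) * (c 0 - c 2) ^ 2 := by
    rcases p2 with e | e | e
    · rw [k0, mul_comm] at e
      have e' := mul_left_cancel₀ n0 e
      exact absurd (by rw [hm, e']; ring) b34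
    · rw [k1, mul_comm] at e
      have e' := mul_left_cancel₀ n1 e
      exact absurd (by rw [hm, e']; ring) b34
    · exact e
  have f5 : (a 1 - a 2) ^ 2 * (1 + c 2 ^ 2) = (1 + a 2 ^ 2) * (c 1 - c 2) ^ 2 := by
    rcases p1 with e | e | e
    · rw [k0, mul_comm] at e
      have e' := mul_left_cancel₀ n0 e
      exact absurd (by rw [hm, e']; ring) b35
    · rw [k1, mul_comm] at e
      have e' := mul_left_cancel₀ n1 e
      exact absurd (by rw [hm, e']; ring) b35
    · exact e
  apply b45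
  apply mul_right_cancel₀ n2
  linear_combination (c 1 - c 2) ^ 2 * f4 - (c 0 - c 2) ^ 2 * f5

end Pool.Agent.Helper22.PN
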