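import Pool.Agent.Helper22.PN.C12TA
import Pool.Agent.Helper22.PN.B07Alone

/-!
# PN-C17: two side lines through the origin

`om a c 0 1 = 0`, `om a c 0 2 = 0` give `a 0 = 0`, `c 0 = 0` (otherwise the three points are on a line, `dt = 0`: `dt_norm`), and
`om a c 1 2 ≠ 0`.  `PP (n3 a) ny 0 = PP ny (n3 c) 0 = 1`, edge 3: `(a 1)²`, `(c 1)²`, edge 4: `(a 2)²`, `(c 2)²`.
`ff t 3 = (t + 1) ((c 1)² + t (a 1)²)`, `ff t 2 = (t + 1) ((c 2)² + t (a 2)²)`.
The face 1 has two zeros (`TA.roots1`), it is not alone at both (`two_alone`), `ff t 0 ≠ 0` (`TA.ff0`); so at one of them, `ρ`, the face 3 or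
the face 2 is tangent; by symmetry (`TA.perm`, exchange of the points 1 and 2) the face 3.  The face 2 is not tangent at `ρ`
(`(c 1)² + ρ (a 1)² = 0` and `(c 2)² + ρ (a 2)² = 0` contradict `ms`).  With `g j = gg ρ j`: `g 3 = 0` (`TA.gg_base`),
`g 0 + g 1 = 0`, `g 1 + g 2 + g 5 = 0`, `g 1 ≠ 0` (`double_ne`).  `1 ≁ 0`: otherwise `(a 1)² = (c 1)²` and `ρ = -1`.
`sta_six` at `e = 1`: `2 g 1 + [1~2] g 2 + [1~5] g 5 = 0`, at `e = 0`: `g 0 + [0~2] g 2 + [0~5] g 5 = 0` (`T 2 = T 0 = 0`, `T 1 = T 3 = 1`).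
Cases: both `1~2`, `1~5`: `g 1 = 0`, no.  Only `1~5`: `g 5 = -2 g 1`, `g 2 = g 1 = -g 0`, then `0~2`, `uu 2 = uu 0`, so
(`SC_eq`) `1 + (a 2)² = 1`, `a 2 = 0 = a 0`, no.  Only `1~2`: `g 2 = -2 g 1`, `g 5 = g 1`, `0~5`: `1 + (a 2)² = 4 (1 + (a 1)²)` and
`(a 1 - a 2)² = 1`, impossible.  Neither: `g 1 = 0`, no.
-/

open Real Set
open Pool.Agent.Helper1.Tet
open Pool.Agent.Helper22.ST (PP ZZ cr dt ind)

namespace Pool.Agent.Helper22.PN

variable {a c : Fin 3 → ℝ}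

/-- proportional edges: squared components -/
private theorem c17_sq (hd : dt (n3 a) ny (n3 c) ≠ 0) {i j : Fin 6}
    (hs : SC (n3 a) ny (n3 c) i j) {k : ℝ}
    (hu : uu (n3 a) ny (n3 c) i = k * uu (n3 a) ny (n3 c) j) :
    PP (n3 a) ny i = k ^ 2 * PP (n3 a) ny j ∧ PP ny (n3 c) i = k ^ 2 * PP ny (n3 c) j := by
  have pj := (uu_pos (n3 a) ny (n3 c) hd j).2
  obtain ⟨q1, q2⟩ := SC_lin hd hs
  have nn : ∀ (x y : Fin 4 → ℝ) (j : Fin 6), 0 ≤ PP x y j := fun x y j => by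
    unfold PP
    positivity
  rw [hu] at q1 q2
  have r1 : √(PP (n3 a) ny i) = k * √(PP (n3 a) ny j) := by
    apply mul_right_cancel₀ pj.ne'
    linarith
  have r2 : √(PP ny (n3 c) i) = k * √(PP ny (n3 c) j) := by
    apply mul_right_cancel₀ pj.ne'
    linarith
  constructor
  · calc PP (n3 a) ny i = √(PP (n3 a) ny i) ^ 2 := (Real.sq_sqrt (nn _ _ _)).symm
      _ = k ^ 2 * √(PP (n3 a) ny j) ^ 2 := by rw [r1]; ring
      _ = k ^ 2 * PP (n3 a) ny j := by rw [Real.sq_sqrt (nn _ _ _)]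
  · calc PP ny (n3 c) i = √(PP ny (n3 c) i) ^ 2 := (Real.sq_sqrt (nn _ _ _)).symm
      _ = k ^ 2 * √(PP ny (n3 c) j) ^ 2 := by rw [r2]; ring
      _ = k ^ 2 * PP ny (n3 c) j := by rw [Real.sq_sqrt (nn _ _ _)]

/-- both lines through the origin: the common point is the origin -/
private theorem c17_zero (h : TA a c) (h01 : om a c 0 1 = 0) (h02 : om a c 0 2 = 0) :
    om a c 1 2 ≠ 0 ∧ a 0 = 0 ∧ c 0 = 0 := by
  have hd := h.hy.1
  rw [dt_norm] at hd
  unfold om at h01 h02 ⊢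
  have ho : c 1 * a 2 - a 1 * c 2 ≠ 0 := by
    intro q
    apply hd
    rw [q]
    have : c 2 * a 0 - a 2 * c 0 = 0 := by linarith
    rw [this, h01]
    ring
  refine ⟨ho, ?_, ?_⟩
  · have : a 0 * (c 1 * a 2 - a 1 * c 2) = 0 := by
      have e1 : a 0 * (c 1 * a 2 - a 1 * c 2) =
        a 1 * (c 0 * a 2 - a 0 * c 2) - a 2 * (c 0 * a 1 - a 0 * c 1) := by ring
      rw [e1, h01, h02]
      ring
    exact (mul_eq_zero.1 this).resolve_right ho
  · have : c 0 * (c 1 * a 2 - a 1 * c 2) = 0 := by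
      have e1 : c 0 * (c 1 * a 2 - a 1 * c 2) =
        c 1 * (c 0 * a 2 - a 0 * c 2) - c 2 * (c 0 * a 1 - a 0 * c 1) := by ring
      rw [e1, h01, h02]
      ring
    exact (mul_eq_zero.1 this).resolve_right ho

/-- the form of the face 3 -/
private theorem c17_ff3 (a0 : a 0 = 0) (c0 : c 0 = 0) (t : ℝ) :
    ff (n3 a) ny (n3 c) t 3 = (t + 1) * (c 1 ^ 2 + t * a 1 ^ 2) := by
  obtain ⟨⟨-, -, -, k1⟩, ⟨-, -, -, k2⟩, -, -, k3, -⟩ := cr_norm a c
  unfold ff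
  rw [k1, k2, k3, a0, c0]
  ring

/-- the form of the face 2 -/
private theorem c17_ff2 (a0 : a 0 = 0) (c0 : c 0 = 0) (t : ℝ) :
    ff (n3 a) ny (n3 c) t 2 = (t + 1) * (c 2 ^ 2 + t * a 2 ^ 2) := by
  obtain ⟨⟨-, -, k1, -⟩, ⟨-, -, k2, -⟩, -, k3, -, -⟩ := cr_norm a c
  unfold ff
  rw [k1, k2, k3, a0, c0]
  ring

private theorem c17_ff1 (t : ℝ) :
    ff (n3 a) ny (n3 c) t 1 = (t + 1) * (c 1 - c 2) ^ 2 + t * (c 1 * a 2 - a 1 * c 2) ^ 2 +
      t * (t + 1) * (a 2 - a 1) ^ 2 := by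
  obtain ⟨⟨-, k1, -, -⟩, ⟨-, k2, -, -⟩, k3, -, -, -⟩ := cr_norm a c
  unfold ff
  rw [k1, k2, k3]

private theorem c17_ind0 (p : Prop) (g : ℝ) : ind p (0 * g) = 0 := by
  rw [zero_mul]
  by_cases q : p
  · rw [ST.ind_pos q]
  · rw [ST.ind_neg q]

/-- the face 3 is tangent at a zero of the face 1 -/
private theorem c17_core (h : TA a c) (h01 : om a c 0 1 = 0) (a0 : a 0 = 0) (c0 : c 0 = 0)
    {t : ℝ} (t0 : t ≠ 0) (t1 : t ≠ -1) (z1 : ff (n3 a) ny (n3 c) t 1 = 0)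
    (z3 : ff (n3 a) ny (n3 c) t 3 = 0) : False := by
  have hd := h.hy.1
  have z0 := h.ff0 t0
  have t1' : t + 1 ≠ 0 := fun q => t1 (by linarith)
  have hz : c 1 ^ 2 + t * a 1 ^ 2 = 0 := by
    have := z3
    rw [c17_ff3 a0 c0] at this
    exact (mul_eq_zero.1 this).resolve_left t1'
  have z2 : ff (n3 a) ny (n3 c) t 2 ≠ 0 := by
    intro q
    rw [c17_ff2 a0 c0] at q
    have q2 := (mul_eq_zero.1 q).resolve_left t1'
    apply h.ms 1 0 2 (by decide) (by decide) (by decide)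
    rw [a0, c0]
    have e1 : c 1 ^ 2 = -(t * a 1 ^ 2) := by linarith
    have e2 : c 2 ^ 2 = -(t * a 2 ^ 2) := by linarith
    calc (c 1 - 0) ^ 2 * (0 - a 2) ^ 2 = c 1 ^ 2 * a 2 ^ 2 := by ring
      _ = a 1 ^ 2 * c 2 ^ 2 := by rw [e1, e2]; ring
      _ = (a 1 - 0) ^ 2 * (0 - c 2) ^ 2 := by ring
  obtain ⟨⟨P0, P1, P2, P3, P4, P5⟩, Q0, Q1, Q2, Q3, Q4, Q5⟩ := PP_norm a c
  have g3 := ((h.gg_base t0).1).2 h01
  have fs3 := face_sum3 (n3 a) ny (n3 c) t
  have fs1 := face_sum1 (n3 a) ny (n3 c) t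
  rw [z3, g3] at fs3
  rw [z1] at fs1
  have g1 : gg (n3 a) ny (n3 c) t 1 ≠ 0 := double_ne hd t0 t1 (j := 1) z1 z3
  have g0e : gg (n3 a) ny (n3 c) t 0 = -gg (n3 a) ny (n3 c) t 1 := by linarith
  have g1p : 0 < |gg (n3 a) ny (n3 c) t 1| := abs_pos.2 g1
  have n10 : ¬ SC (n3 a) ny (n3 c) 1 0 := by
    intro q
    unfold SC at q
    rw [P0, P1, Q0, Q1, a0, c0] at q
    have q1 : a 1 ^ 2 = c 1 ^ 2 := by linarith
    rw [← q1] at hz
    have q2 : (t + 1) * a 1 ^ 2 = 0 := by linarith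
    have q3 := (mul_eq_zero.1 q2).resolve_left t1'
    have q4 : a 1 = 0 := by
      rcases pow_eq_zero_iff (two_ne_zero) |>.1 q3 with q
      exact q
    exact h.na 1 0 (by decide) (by rw [q4, a0])
  have hs := sta_six h.hy.sta 1 t1
  rw [tf_zero z0, tf_one z1, tf_zero z2, tf_one z3, g3, ST.ind_neg n10,
    ST.ind_pos (SC.refl' _ _ _ 1)] at hs
  have e3 : ind (SC (n3 a) ny (n3 c) 1 3) ((0 + 1) * (0 : ℝ)) = 0 := by
    rw [mul_comm]
    exact c17_ind0 _ _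
  have e4 : ∀ e : Fin 6, ind (SC (n3 a) ny (n3 c) e 4) ((0 + 0) * gg (n3 a) ny (n3 c) t 4) = 0 := by
    intro e
    rw [add_zero]
    exact c17_ind0 _ _
  rw [e3, e4] at hs
  have n01 : ¬ SC (n3 a) ny (n3 c) 0 1 := fun q => n10 q.symm'
  have hs0 := sta_six h.hy.sta 0 t1
  rw [tf_zero z0, tf_one z1, tf_zero z2, tf_one z3, g3, ST.ind_neg n01,
    ST.ind_pos (SC.refl' _ _ _ 0)] at hs0
  have e3' : ind (SC (n3 a) ny (n3 c) 0 3) ((0 + 1) * (0 : ℝ)) = 0 := by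
    rw [mul_comm]
    exact c17_ind0 _ _
  rw [e3', e4] at hs0
  by_cases q2 : SC (n3 a) ny (n3 c) 1 2
  · rw [ST.ind_pos q2] at hs
    have n02 : ¬ SC (n3 a) ny (n3 c) 0 2 := fun q => n10 (q2.trans' hd q.symm')
    rw [ST.ind_neg n02] at hs0
    by_cases q5 : SC (n3 a) ny (n3 c) 1 5
    · rw [ST.ind_pos q5] at hs
      apply g1
      linarith
    · rw [ST.ind_neg q5] at hs
      have g2e : gg (n3 a) ny (n3 c) t 2 = -(2 * gg (n3 a) ny (n3 c) t 1) := by linarith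
      have g5e : gg (n3 a) ny (n3 c) t 5 = gg (n3 a) ny (n3 c) t 1 := by linarith
      have s05 : SC (n3 a) ny (n3 c) 0 5 := by
        by_contra q
        rw [ST.ind_neg q] at hs0
        apply g1
        linarith
      have u2 : uu (n3 a) ny (n3 c) 2 = 2 * uu (n3 a) ny (n3 c) 1 := by
        have hab := SC_abs hd q2 (t := t) (Or.inl z1) (Or.inl z1)
        rw [g2e, abs_neg, abs_mul, abs_two] at hab
        apply mul_left_cancel₀ g1p.ne'
        linarith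
      have u5 : uu (n3 a) ny (n3 c) 5 = uu (n3 a) ny (n3 c) 0 := by
        have hab := SC_abs hd s05 (t := t) (Or.inr z3) (Or.inr z1)
        rw [g5e, g0e, abs_neg] at hab
        exact mul_left_cancel₀ g1p.ne' hab
      have A1 := (c17_sq hd q2.symm' u2).1
      have A2 := (c17_sq hd s05.symm' (k := 1) (by rw [one_mul]; exact u5)).1
      rw [P2, P1] at A1
      rw [P5, P0, a0] at A2
      nlinarith [sq_nonneg (3 * a 1 - (a 1 - a 2)), sq_nonneg (3 * a 1 + (a 1 - a 2))]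
  · rw [ST.ind_neg q2] at hs
    by_cases q5 : SC (n3 a) ny (n3 c) 1 5
    · rw [ST.ind_pos q5] at hs
      have n05 : ¬ SC (n3 a) ny (n3 c) 0 5 := fun q => n10 (q5.trans' hd q.symm')
      rw [ST.ind_neg n05] at hs0
      have g2e : gg (n3 a) ny (n3 c) t 2 = gg (n3 a) ny (n3 c) t 1 := by linarith
      have s02 : SC (n3 a) ny (n3 c) 0 2 := by
        by_contra q
        rw [ST.ind_neg q] at hs0
        apply g1
        linarith
      have u2 : uu (n3 a) ny (n3 c) 2 = uu (n3 a) ny (n3 c) 0 := by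
        have hab := SC_abs hd s02 (t := t) (Or.inr z3) (Or.inl z1)
        rw [g2e, g0e, abs_neg] at hab
        exact mul_left_cancel₀ g1p.ne' hab
      have A2 := (c17_sq hd s02.symm' (k := 1) (by rw [one_mul]; exact u2)).1
      rw [P2, P0, a0] at A2
      have q3 : a 2 ^ 2 = 0 := by linarith
      have q4 : a 2 = 0 := by
        rcases pow_eq_zero_iff (two_ne_zero) |>.1 q3 with q
        exact q
      exact h.na 2 0 (by decide) (by rw [q4, a0])
    · rw [ST.ind_neg q5] at hs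
      apply g1
      linarith

theorem TA.no_vertex (h : TA a c) (h01 : om a c 0 1 = 0) (h02 : om a c 0 2 = 0) : False := by
  obtain ⟨h12, a0, c0⟩ := c17_zero h h01 h02
  obtain ⟨r, s, r1, r0, s1, zr, zs⟩ := h.roots1 h12
  have r0' : r ≠ 0 := r0.ne
  have r1' : r ≠ -1 := r1.ne'
  have s0' : s ≠ 0 := by linarith
  have s1' : s ≠ -1 := s1.ne
  have hrs : r ≠ s := by linarith
  -- the face 2 or the face 3 is tangent at a zero of the face 1
  have key : ∀ t : ℝ, t ≠ 0 → t ≠ -1 → ff (n3 a) ny (n3 c) t 1 = 0 →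
      ∀ w : Fin 4, w ≠ 1 → ff (n3 a) ny (n3 c) t w ≠ 0 := by
    intro t t0 t1 z1 w hw
    have n3' : ff (n3 a) ny (n3 c) t 3 ≠ 0 := fun z3 => c17_core h h01 a0 c0 t0 t1 z1 z3
    have n2' : ff (n3 a) ny (n3 c) t 2 ≠ 0 := by
      intro z2
      set τ : Equiv.Perm (Fin 3) := Equiv.swap 1 2 with hτ
      have τ0 : τ 0 = 0 := by rw [hτ]; decide
      have τ1 : τ 1 = 2 := by rw [hτ]; decide
      have τ2 : τ 2 = 1 := by rw [hτ]; decide
      have h' := h.perm τ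
      have b0 : (a ∘ τ) 0 = 0 := by rw [Function.comp_apply, τ0, a0]
      have d0 : (c ∘ τ) 0 = 0 := by rw [Function.comp_apply, τ0, c0]
      refine c17_core h' ?_ b0 d0 t0 t1 ?_ ?_
      · unfold om
        rw [b0, d0]
        ring
      · rw [c17_ff1, Function.comp_apply, Function.comp_apply, Function.comp_apply,
          Function.comp_apply, τ1, τ2, ← z1, c17_ff1]
        ring
      · rw [c17_ff3 b0 d0, Function.comp_apply, Function.comp_apply, τ1, ← z2, c17_ff2 a0 c0]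
    fin_cases w
    · exact h.ff0 t0
    · exact absurd rfl hw
    · exact n2'
    · exact n3'
  exact two_alone h.hy.1 h.hy.sta hrs r0' r1' s0' s1' zr (key r r0' r1' zr) zs
    (key s s0' s1' zs)

end Pool.Agent.Helper22.PN
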