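import Pool.Agent.Helper22.PN.C14Gen
import Pool.Agent.Helper22.PN.C15Line
import Pool.Agent.Helper22.PN.C16Line1
import Pool.Agent.Helper22.PN.C17Vertex

/-!
# PN-C18: same apex, same middle point: assembly

`om a c j i = - om a c i j`.  None of the three vanishes: `TA.no_gen`.  At least two vanish: by `TA.perm` `TA.no_vertex`.  Exactly one: by `TA.perm`
`om a c 0 1 = 0`.  If `(c 0 - c 1)² = (a 0 - a 1)²`: `TA.no_line1`.  Otherwise: the edges 4 and 5 have partners among the edges 0, 1, 2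
(`TA.partner1`, `TA.partner2`), no common one (`TA.base`), so one of them has exactly one partner.  If this is 5: it is 0 (`TA.adj1`, `TA.adj2`) and
`TA.no_line` applies.  If it is 4: exchange the points 0 and 1 (`TA.perm`; the edges 0, 1 and the edges 4, 5 are exchanged).
-/

open Real Set
open Pool.Agent.Helper1.Tet
open Pool.Agent.Helper22.ST (PP ZZ cr dt ind)

namespace Pool.Agent.Helper22.PN

variable {a c : Fin 3 → ℝ}

private theorem C18_om (a c : Fin 3 → ℝ) (i j : Fin 3) : om a c j i = -om a c i j := by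
  unfold om
  ring

/-- the edge 5 has exactly one partner -/
private theorem C18_five (h : TA a c) (h01 : om a c 0 1 = 0) (h02 : om a c 0 2 ≠ 0)
    (h12 : om a c 1 2 ≠ 0) (hm : (c 0 - c 1) ^ 2 ≠ (a 0 - a 1) ^ 2)
    (s : (¬ SC (n3 a) ny (n3 c) 5 1 ∧ ¬ SC (n3 a) ny (n3 c) 5 2) ∨
      (¬ SC (n3 a) ny (n3 c) 5 0 ∧ ¬ SC (n3 a) ny (n3 c) 5 2) ∨
      (¬ SC (n3 a) ny (n3 c) 5 0 ∧ ¬ SC (n3 a) ny (n3 c) 5 1)) : False := by
  have p := h.partner1 h12
  rcases s with ⟨s1, s2⟩ | ⟨s0, s2⟩ | ⟨s0, s1⟩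
  · rcases p with q | q | q
    · exact h.no_line h01 h02 h12 hm q s1 s2
    · exact s1 q
    · exact s2 q
  · rcases p with q | q | q
    · exact s0 q
    · exact h.adj1 h12 q s0 s2
    · exact s2 q
  · rcases p with q | q | q
    · exact s0 q
    · exact s1 q
    · exact h.adj2 h12 q s0 s1

/-- exchange of the points 0 and 1 -/
private theorem C18_swap (a c : Fin 3 → ℝ) :
    (SC (n3 (a ∘ Equiv.swap 0 1)) ny (n3 (c ∘ Equiv.swap 0 1)) 5 0 ↔ SC (n3 a) ny (n3 c) 4 1) ∧
    (SC (n3 (a ∘ Equiv.swap 0 1)) ny (n3 (c ∘ Equiv.swap 0 1)) 5 1 ↔ SC (n3 a) ny (n3 c) 4 0) ∧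
    (SC (n3 (a ∘ Equiv.swap 0 1)) ny (n3 (c ∘ Equiv.swap 0 1)) 5 2 ↔ SC (n3 a) ny (n3 c) 4 2) := by
  have e0 : (Equiv.swap (0 : Fin 3) 1) 0 = 1 := by decide
  have e1 : (Equiv.swap (0 : Fin 3) 1) 1 = 0 := by decide
  have e2 : (Equiv.swap (0 : Fin 3) 1) 2 = 2 := by decide
  obtain ⟨⟨x0, x1, x2, x3, x4, x5⟩, z0, z1, z2, z3, z4, z5⟩ := PP_norm a c
  obtain ⟨⟨x0', x1', x2', x3', x4', x5'⟩, z0', z1', z2', z3', z4', z5'⟩ :=
    PP_norm (a ∘ Equiv.swap 0 1) (c ∘ Equiv.swap 0 1)
  simp only [Function.comp, e0, e1, e2] at x0' x1' x2' x3' x4' x5' z0' z1' z2' z3' z4' z5'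
  unfold SC
  rw [x0', x1', x2', x5', z0', z1', z2', z5', x0, x1, x2, x4, z0, z1, z2, z4]
  exact ⟨Iff.rfl, Iff.rfl, Iff.rfl⟩

/-- exactly one side line through the origin -/
private theorem C18_one (h : TA a c) (h01 : om a c 0 1 = 0) (h02 : om a c 0 2 ≠ 0)
    (h12 : om a c 1 2 ≠ 0) : False := by
  by_cases hm : (c 0 - c 1) ^ 2 = (a 0 - a 1) ^ 2
  · exact h.no_line1 h01 h02 h12 hm
  have hd : dt (n3 a) ny (n3 c) ≠ 0 := h.hy.1
  have k45 := h.base.2.2
  have d54 : ∀ i, ¬(SC (n3 a) ny (n3 c) 5 i ∧ SC (n3 a) ny (n3 c) 4 i) := fun i hi =>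
    k45 (SC.trans' hd hi.2 (SC.symm' hi.1))
  have d0 := d54 0
  have d1 := d54 1
  have d2 := d54 2
  by_cases s : (¬ SC (n3 a) ny (n3 c) 5 1 ∧ ¬ SC (n3 a) ny (n3 c) 5 2) ∨
      (¬ SC (n3 a) ny (n3 c) 5 0 ∧ ¬ SC (n3 a) ny (n3 c) 5 2) ∨
      (¬ SC (n3 a) ny (n3 c) 5 0 ∧ ¬ SC (n3 a) ny (n3 c) 5 1)
  · exact C18_five h h01 h02 h12 hm s
  · have e0 : (Equiv.swap (0 : Fin 3) 1) 0 = 1 := by decide
    have e1 : (Equiv.swap (0 : Fin 3) 1) 1 = 0 := by decide
    have e2 : (Equiv.swap (0 : Fin 3) 1) 2 = 2 := by decide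
    obtain ⟨w0, w1, w2⟩ := C18_swap a c
    refine C18_five (h.perm (Equiv.swap 0 1)) ?_ ?_ ?_ ?_ ?_
    · have : om (a ∘ Equiv.swap 0 1) (c ∘ Equiv.swap 0 1) 0 1 = om a c 1 0 := by
        simp only [om, Function.comp, e0, e1]
      rw [this, C18_om, h01, neg_zero]
    · have : om (a ∘ Equiv.swap 0 1) (c ∘ Equiv.swap 0 1) 0 2 = om a c 1 2 := by
        simp only [om, Function.comp, e0, e2]
      rw [this]
      exact h12
    · have : om (a ∘ Equiv.swap 0 1) (c ∘ Equiv.swap 0 1) 1 2 = om a c 0 2 := by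
        simp only [om, Function.comp, e1, e2]
      rw [this]
      exact h02
    · simp only [Function.comp, e0, e1]
      intro e
      apply hm
      linear_combination e
    · rw [w0, w1, w2]
      tauto

theorem TA.false (h : TA a c) : False := by
  by_cases h01 : om a c 0 1 = 0
  · by_cases h02 : om a c 0 2 = 0
    · exact h.no_vertex h01 h02
    · by_cases h12 : om a c 1 2 = 0
      · have e0 : (Equiv.swap (0 : Fin 3) 1) 0 = 1 := by decide
        have e1 : (Equiv.swap (0 : Fin 3) 1) 1 = 0 := by decide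
        have e2 : (Equiv.swap (0 : Fin 3) 1) 2 = 2 := by decide
        refine (h.perm (Equiv.swap 0 1)).no_vertex ?_ ?_
        · have : om (a ∘ Equiv.swap 0 1) (c ∘ Equiv.swap 0 1) 0 1 = om a c 1 0 := by
            simp only [om, Function.comp, e0, e1]
          rw [this, C18_om, h01, neg_zero]
        · have : om (a ∘ Equiv.swap 0 1) (c ∘ Equiv.swap 0 1) 0 2 = om a c 1 2 := by
            simp only [om, Function.comp, e0, e2]
          rw [this]
          exact h12
      · exact C18_one h h01 h02 h12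
  · by_cases h02 : om a c 0 2 = 0
    · by_cases h12 : om a c 1 2 = 0
      · have e0 : (Equiv.swap (0 : Fin 3) 2) 0 = 2 := by decide
        have e1 : (Equiv.swap (0 : Fin 3) 2) 1 = 1 := by decide
        have e2 : (Equiv.swap (0 : Fin 3) 2) 2 = 0 := by decide
        refine (h.perm (Equiv.swap 0 2)).no_vertex ?_ ?_
        · have : om (a ∘ Equiv.swap 0 2) (c ∘ Equiv.swap 0 2) 0 1 = om a c 2 1 := by
            simp only [om, Function.comp, e0, e1]
          rw [this, C18_om, h12, neg_zero]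
        · have : om (a ∘ Equiv.swap 0 2) (c ∘ Equiv.swap 0 2) 0 2 = om a c 2 0 := by
            simp only [om, Function.comp, e0, e2]
          rw [this, C18_om, h02, neg_zero]
      · have e0 : (Equiv.swap (1 : Fin 3) 2) 0 = 0 := by decide
        have e1 : (Equiv.swap (1 : Fin 3) 2) 1 = 2 := by decide
        have e2 : (Equiv.swap (1 : Fin 3) 2) 2 = 1 := by decide
        refine C18_one (h.perm (Equiv.swap 1 2)) ?_ ?_ ?_
        · have : om (a ∘ Equiv.swap 1 2) (c ∘ Equiv.swap 1 2) 0 1 = om a c 0 2 := by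
            simp only [om, Function.comp, e0, e1]
          rw [this]
          exact h02
        · have : om (a ∘ Equiv.swap 1 2) (c ∘ Equiv.swap 1 2) 0 2 = om a c 0 1 := by
            simp only [om, Function.comp, e0, e2]
          rw [this]
          exact h01
        · have : om (a ∘ Equiv.swap 1 2) (c ∘ Equiv.swap 1 2) 1 2 = om a c 2 1 := by
            simp only [om, Function.comp, e1, e2]
          rw [this, C18_om]
          exact neg_ne_zero.2 h12
    · by_cases h12 : om a c 1 2 = 0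
      · have e0 : (Equiv.swap (0 : Fin 3) 2) 0 = 2 := by decide
        have e1 : (Equiv.swap (0 : Fin 3) 2) 1 = 1 := by decide
        have e2 : (Equiv.swap (0 : Fin 3) 2) 2 = 0 := by decide
        refine C18_one (h.perm (Equiv.swap 0 2)) ?_ ?_ ?_
        · have : om (a ∘ Equiv.swap 0 2) (c ∘ Equiv.swap 0 2) 0 1 = om a c 2 1 := by
            simp only [om, Function.comp, e0, e1]
          rw [this, C18_om, h12, neg_zero]
        · have : om (a ∘ Equiv.swap 0 2) (c ∘ Equiv.swap 0 2) 0 2 = om a c 2 0 := by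
            simp only [om, Function.comp, e0, e2]
          rw [this, C18_om]
          exact neg_ne_zero.2 h02
        · have : om (a ∘ Equiv.swap 0 2) (c ∘ Equiv.swap 0 2) 1 2 = om a c 1 0 := by
            simp only [om, Function.comp, e1, e2]
          rw [this, C18_om]
          exact neg_ne_zero.2 h01
      · exact h.no_gen h01 h02 h12

end Pool.Agent.Helper22.PN
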