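import Mathlib

/-!
# PN-C20: six distances of a plane configuration (pure real arithmetic)

`CF p q r x y z`: distances `p, q, r` from an apex to three points of a line with distances `x`, `y` between consecutive ones and
`z = x + y`; `AF p q r x y z`: the points at distances `x = p + q` (with the point `0` between them at distances `p, q`) and an apex at
distances `z, y` from them and `r` from the point `0`.  `st` is Stewart's theorem.
* `o1`: `st` gives `r² = p² + y z`, so `(z - y)² = 4 p²`, `x = 2 p`, contradiction to `x < p + q`.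
* `o3`: `CF`: `p < q + x`, `p = z = x + y`, so `y < q`; `AF`: `x' = p' + q' < y' + z' = y' + p'`, so `q' < y'`; with `q y' = y q'` a contradiction.
* `o4`: `AF`: `st` gives `(3 q' - p') (r'² - p'²) = 0`; `r' = p'` is excluded by `z' = 2 r' < r' + p'`; so `p' = 3 q'`, `y' = 2 q'`,
  `p = 3 q`, `y = 2 q`; `CF`: `st` gives `(x - 4 q)² (x + 4 q) = 0`, `x = 4 q = p + q`, a contradiction.
* `o5`: `p = q + z > q + x`.  * `o6`: `q < r + y`, `q = 2 r`, so `r < y`, `p = y + z > r + z`.
* `x1`: `x = 2 p`, `y = p`, `z = 3 q`: `q = p`, `x = p + q`.  `x2`: `x = 3 p`, `y = p`, `z = 2 q`: `q = 2 p`, `x = p + q`.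
-/

namespace Pool.Agent.Helper22.PN

structure CF (p q r x y z : ℝ) : Prop where
  p0 : 0 < p
  q0 : 0 < q
  r0 : 0 < r
  x0 : 0 < x
  y0 : 0 < y
  hz : z = x + y
  a1 : p < q + x
  a2 : q < p + x
  a3 : x < p + q
  b1 : q < r + y
  b2 : r < q + y
  b3 : y < q + r
  c1 : p < r + z
  c2 : r < p + z
  c3 : z < p + r
  st : p ^ 2 * y + r ^ 2 * x = z * (q ^ 2 + x * y)

structure AF (p q r x y z : ℝ) : Prop where
  p0 : 0 < p
  q0 : 0 < q
  r0 : 0 < r
  y0 : 0 < y
  z0 : 0 < z
  hx : x = p + q
  a1 : r < p + z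
  a2 : z < r + p
  a3 : p < r + z
  b1 : r < q + y
  b2 : y < r + q
  b3 : q < r + y
  c1 : x < y + z
  c2 : y < x + z
  c3 : z < x + y
  st : z ^ 2 * q + y ^ 2 * p = x * (r ^ 2 + p * q)

theorem o1 {p q r x y z : ℝ} (h : CF p q r x y z) (h1 : p = q) (h2 : 2 * r = y + z) : False := by
  obtain ⟨p0, q0, r0, x0, y0, hz, a1, a2, a3, b1, b2, b3, c1, c2, c3, st⟩ := h
  subst h1
  have hr : r = (y + z) / 2 := by linarith
  subst hr
  subst hz
  have h3 : x * (x ^ 2 - 4 * p ^ 2) = 0 := by nlinarith [st]
  have h4 : x ^ 2 - 4 * p ^ 2 = 0 := by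
    rcases mul_eq_zero.1 h3 with h | h
    · exact absurd h x0.ne'
    · exact h
  have h5 : (x - 2 * p) * (x + 2 * p) = 0 := by linarith [h4, mul_self_nonneg x]
  rcases mul_eq_zero.1 h5 with h | h
  · linarith
  · linarith

theorem o3 {p q r x y z p' q' r' x' y' z' : ℝ} (h : CF p q r x y z) (h' : AF p' q' r' x' y' z')
    (h1 : p = z) (h2 : p' = z') (h3 : q * y' = y * q') : False := by
  have e1 : y < q := by
    have := h.a1
    have := h.hz
    linarith
  have e2 : q' < y' := by
    have := h'.c1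
    have := h'.hx
    linarith
  have e3 : q * q' < q * y' := mul_lt_mul_of_pos_left e2 h.q0
  have e4 : y * q' < q * q' := mul_lt_mul_of_pos_right e1 h'.q0
  linarith

theorem o4 {p q r x y z p' q' r' x' y' z' : ℝ} (h : CF p q r x y z) (h' : AF p' q' r' x' y' z')
    (h1 : p = q + y) (h2 : 2 * r = z) (h1' : p' = q' + y') (h2' : 2 * r' = z')
    (h3 : p * q' = q * p') (h4 : y * q' = q * y') : False := by
  have hst' := h'.st
  have hx' := h'.hx
  have hy' : y' = p' - q' := by linarith
  rw [hx', hy', ← h2'] at hst'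
  have e1 : (3 * q' - p') * (r' ^ 2 - p' ^ 2) = 0 := by linear_combination hst'
  have e2 : p' = 3 * q' := by
    rcases mul_eq_zero.1 e1 with h3 | h3
    · linarith
    · exfalso
      have h4 : (r' - p') * (r' + p') = 0 := by linear_combination h3
      have := h'.r0
      have := h'.p0
      have := h'.a2
      rcases mul_eq_zero.1 h4 with h5 | h5
      · linarith
      · linarith
  have e3 : y' = 2 * q' := by linarith
  have q0' : q' ≠ 0 := h'.q0.ne'
  have e4 : p = 3 * q := by
    apply mul_right_cancel₀ q0'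
    rw [h3, e2]
    ring
  have e5 : y = 2 * q := by
    apply mul_right_cancel₀ q0'
    rw [h4, e3]
    ring
  have hst := h.st
  have hz := h.hz
  have hr : r = (x + 2 * q) / 2 := by linarith
  have hz' : z = x + 2 * q := by linarith
  rw [e4, e5, hr, hz'] at hst
  have e6 : (x - 4 * q) ^ 2 * (x + 4 * q) = 0 := by linear_combination 4 * hst
  have x0 := h.x0
  have q0 := h.q0
  have a3 := h.a3
  rcases mul_eq_zero.1 e6 with h5 | h5
  · have := pow_eq_zero_iff (two_ne_zero) |>.1 h5
    linarith
  · linarith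

theorem o5 {p q r x y z : ℝ} (h : CF p q r x y z) (h1 : p = q + z) : False := by
  have := h.a1
  have := h.hz
  have := h.y0
  linarith

theorem o6 {p q r x y z : ℝ} (h : CF p q r x y z) (h1 : p = y + z) (h2 : 2 * r = q) : False := by
  have := h.b1
  have := h.c1
  linarith

theorem x1 {p q r x y z : ℝ} (h : CF p q r x y z) (h1 : x = 2 * p) (h2 : y = p)
    (h3 : z = 3 * q) : False := by
  have := h.hz
  have := h.a3
  linarith

theorem x2 {p q r x y z : ℝ} (h : CF p q r x y z) (h1 : x = 3 * p) (h2 : y = p)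
    (h3 : z = 2 * q) : False := by
  have := h.hz
  have := h.a3
  linarith

end Pool.Agent.Helper22.PN
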