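import Pool.Agent.Helper22.PN.B01Ends
import Pool.Agent.Helper22.PN.B02Split
import Pool.Agent.Helper22.PN.B04Be
import Pool.Agent.Helper22.PN.C20Real

/-!
# PN-C21: the case `Flat y z 0 2`, `Flat x y 3 0`

Edges: `0 = 01`, `1 = 02`, `2 = 03`, `3 = 12`, `4 = 13`, `5 = 23`; names `P, Q, R, x, z, y`.
`rel`: `be = pat 0 2 = (π, 0, π, π/2, π/2, π/2)`, `be' = pat 3 0 = (π/2, π/2, 0, π/2, π, π)` (`be_flat`, `be_flat'`), `Hy.ends`.
`cf`: `dd y z (ea j) (eb j) = √(PP y z j)`; `flat_mid` with `V = 0`, `m = 2`, `p = 1`, `r = 3`; `flat_tri` for the pairs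
`(1, 2)`, `(2, 3)`, `(1, 3)`; `stewart`.  `af`: `Flat x y 3 0` with `p = 1`, `r = 2`: the point `0` is between `1` and `2`, the apex is `3`.
`cases`: `split` for `c = (1, -1, 2, 0, -1, -1)` (multiply `rel`).  In the class of the edge 1 (of 4, of 5) there must be a
positive coefficient: it is in the class of 0 or of 2.  If `0 ~ 2`: all five edges are in one class.  If not: the edges 1, 4, 5 are
distributed to the classes of 0 and 2, both not empty: six cases.
-/

open Real Set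
open Pool.Agent.Helper1.Tet
open Pool.Agent.Helper22.ST (PP ZZ cr dt ind)

namespace Pool.Agent.Helper22.PN

structure TB (x y z : Fin 4 → ℝ) : Prop where
  hy : Hy x y z
  fc : Flat y z 0 2
  fa : Flat x y 3 0

variable {x y z : Fin 4 → ℝ}

private theorem C21_pat (j : Fin 6) :
    pat 0 2 j - pat 3 0 j = ![π / 2, -(π / 2), π, 0, -(π / 2), -(π / 2)] j := by
  have hp : π - π / 2 = π / 2 := by ring
  fin_cases j
  · show pat 0 2 0 - pat 3 0 0 = π / 2
    unfold pat
    rw [if_pos (by decide), if_neg (by decide), if_neg (by decide)]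
    exact hp
  · show pat 0 2 1 - pat 3 0 1 = -(π / 2)
    unfold pat
    rw [if_pos (by decide), if_pos (by decide), if_neg (by decide)]
    ring
  · show pat 0 2 2 - pat 3 0 2 = π
    unfold pat
    rw [if_pos (by decide), if_neg (by decide), if_pos (by decide), if_pos (by decide)]
    ring
  · show pat 0 2 3 - pat 3 0 3 = 0
    unfold pat
    rw [if_neg (by decide), if_neg (by decide)]
    ring
  · show pat 0 2 4 - pat 3 0 4 = -(π / 2)
    unfold pat
    rw [if_neg (by decide), if_pos (by decide), if_neg (by decide)]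
    ring
  · show pat 0 2 5 - pat 3 0 5 = -(π / 2)
    unfold pat
    rw [if_neg (by decide), if_pos (by decide), if_neg (by decide)]
    ring

theorem TB.rel (h : TB x y z) {s : ℝ} (hs : 0 < s) :
    √(LL x y z s 0) + 2 * √(LL x y z s 2) =
      √(LL x y z s 1) + √(LL x y z s 4) + √(LL x y z s 5) := by
  have h1 := h.hy.ends hs
  have h2 : ∀ j, be x y z j - be z y x j = ![π / 2, -(π / 2), π, 0, -(π / 2), -(π / 2)] j := by
    intro j
    rw [be_flat h.fc j, be_flat' h.fa j, C21_pat]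
  simp only [h2, Fin.sum_univ_six] at h1
  have h3 : √(LL x y z s 0) * (π / 2) + √(LL x y z s 1) * (-(π / 2)) + √(LL x y z s 2) * π +
      √(LL x y z s 3) * 0 + √(LL x y z s 4) * (-(π / 2)) + √(LL x y z s 5) * (-(π / 2)) = 0 := h1
  have h4 : π * (√(LL x y z s 0) + 2 * √(LL x y z s 2) -
      (√(LL x y z s 1) + √(LL x y z s 4) + √(LL x y z s 5))) = 0 := by
    linear_combination 2 * h3
  have h5 := (mul_eq_zero.1 h4).resolve_left Real.pi_ne_zero
  linarith

theorem TB.cf (h : TB x y z) : CF √(PP y z 0) √(PP y z 1) √(PP y z 2) √(PP y z 3) √(PP y z 5)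
    √(PP y z 4) := by
  have e0 : √(PP y z 0) = dd y z 0 1 := rfl
  have e1 : √(PP y z 1) = dd y z 0 2 := rfl
  have e2 : √(PP y z 2) = dd y z 0 3 := rfl
  have e3 : √(PP y z 3) = dd y z 1 2 := rfl
  have e4 : √(PP y z 4) = dd y z 1 3 := rfl
  have e5 : √(PP y z 5) = dd y z 2 3 := rfl
  have m := flat_mid h.fc (p := 1) (r := 3) (by decide) (by decide) (by decide) (by decide) (by decide)
  have t12 := flat_tri h.fc (p := 1) (r := 2) (by decide) (by decide) (by decide)
  have t21 := flat_tri h.fc (p := 2) (r := 1) (by decide) (by decide) (by decide)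
  have t23 := flat_tri h.fc (p := 2) (r := 3) (by decide) (by decide) (by decide)
  have t32 := flat_tri h.fc (p := 3) (r := 2) (by decide) (by decide) (by decide)
  have t13 := flat_tri h.fc (p := 1) (r := 3) (by decide) (by decide) (by decide)
  have t31 := flat_tri h.fc (p := 3) (r := 1) (by decide) (by decide) (by decide)
  have st := stewart h.fc (p := 1) (r := 3) (by decide) (by decide) (by decide) (by decide)
    (by decide)
  have c21 := dd_comm y z 2 1
  have c32 := dd_comm y z 3 2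
  have c31 := dd_comm y z 3 1
  rw [c21] at t12 t21
  rw [c32] at t23 t32
  rw [c31] at t13 t31
  rw [e0, e1, e2, e3, e4, e5]
  exact ⟨t12.1, t21.1, t31.1, m.1, m.2.1, m.2.2, t12.2.1, t21.2.1, t12.2.2, t23.2.1, by linarith [t32.2.1],
    t23.2.2, t13.2.1, by linarith [t31.2.1], t13.2.2, st⟩

theorem TB.af (h : TB x y z) : AF √(PP x y 0) √(PP x y 1) √(PP x y 2) √(PP x y 3) √(PP x y 5)
    √(PP x y 4) := by
  have e0 : √(PP x y 0) = dd x y 0 1 := rfl
  have e1 : √(PP x y 1) = dd x y 0 2 := rfl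
  have e2 : √(PP x y 2) = dd x y 0 3 := rfl
  have e3 : √(PP x y 3) = dd x y 1 2 := rfl
  have e4 : √(PP x y 4) = dd x y 1 3 := rfl
  have e5 : √(PP x y 5) = dd x y 2 3 := rfl
  have m := flat_mid h.fa (p := 1) (r := 2) (by decide) (by decide) (by decide) (by decide) (by decide)
  have t01 := flat_tri h.fa (p := 0) (r := 1) (by decide) (by decide) (by decide)
  have t10 := flat_tri h.fa (p := 1) (r := 0) (by decide) (by decide) (by decide)
  have t02 := flat_tri h.fa (p := 0) (r := 2) (by decide) (by decide) (by decide)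
  have t20 := flat_tri h.fa (p := 2) (r := 0) (by decide) (by decide) (by decide)
  have t12 := flat_tri h.fa (p := 1) (r := 2) (by decide) (by decide) (by decide)
  have t21 := flat_tri h.fa (p := 2) (r := 1) (by decide) (by decide) (by decide)
  have st := stewart h.fa (p := 1) (r := 2) (by decide) (by decide) (by decide) (by decide)
    (by decide)
  rw [dd_comm x y 3 0, dd_comm x y 3 1, dd_comm x y 1 0] at t01
  rw [dd_comm x y 3 0, dd_comm x y 3 1] at t10
  rw [dd_comm x y 3 0, dd_comm x y 3 2, dd_comm x y 2 0] at t02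
  rw [dd_comm x y 3 0, dd_comm x y 3 2] at t20
  rw [dd_comm x y 3 1, dd_comm x y 3 2, dd_comm x y 2 1] at t12
  rw [dd_comm x y 3 1, dd_comm x y 3 2] at t21
  rw [dd_comm x y 3 1, dd_comm x y 3 2, dd_comm x y 3 0, dd_comm x y 1 0] at st
  rw [dd_comm x y 1 0] at m t10
  rw [dd_comm x y 2 0] at t20
  rw [e0, e1, e2, e3, e4, e5]
  refine ⟨m.1, m.2.1, t01.1, t21.1, t12.1, m.2.2, ?_, ?_, ?_, ?_, ?_, ?_, ?_, ?_, ?_, ?_⟩
  all_goals linarith [t01.2.1, t01.2.2, t10.2.1, t10.2.2, t02.2.1, t02.2.2, t20.2.1, t20.2.2, t12.2.1,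
    t12.2.2, t21.2.1, t21.2.2, st]

private theorem C21_ind0 {p : Prop} {a : ℝ} (h : ¬ p) : ind p a = 0 := ST.ind_neg h a

theorem TB.cases (h : TB x y z) :
    (SC x y z 0 1 ∧ SC x y z 0 2 ∧ SC x y z 0 4 ∧ SC x y z 0 5) ∨
    (SC x y z 0 1 ∧ SC x y z 2 4 ∧ SC x y z 2 5 ∧ uu x y z 0 = uu x y z 1 ∧
      2 * uu x y z 2 = uu x y z 4 + uu x y z 5) ∨
    (SC x y z 0 5 ∧ SC x y z 2 1 ∧ SC x y z 2 4 ∧ ¬ SC x y z 0 2 ∧ uu x y z 0 = uu x y z 5 ∧
      2 * uu x y z 2 = uu x y z 1 + uu x y z 4) ∨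
    (SC x y z 0 4 ∧ SC x y z 2 1 ∧ SC x y z 2 5 ∧ uu x y z 0 = uu x y z 4 ∧
      2 * uu x y z 2 = uu x y z 1 + uu x y z 5) ∨
    (SC x y z 0 1 ∧ SC x y z 0 5 ∧ SC x y z 2 4 ∧ uu x y z 0 = uu x y z 1 + uu x y z 5 ∧
      2 * uu x y z 2 = uu x y z 4) ∨
    (SC x y z 0 1 ∧ SC x y z 0 4 ∧ SC x y z 2 5 ∧ uu x y z 0 = uu x y z 1 + uu x y z 4 ∧
      2 * uu x y z 2 = uu x y z 5) ∨
    (SC x y z 0 4 ∧ SC x y z 0 5 ∧ SC x y z 2 1 ∧ uu x y z 0 = uu x y z 4 + uu x y z 5 ∧
      2 * uu x y z 2 = uu x y z 1) := by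
  have hd : dt x y z ≠ 0 := h.hy.1
  have hu : ∀ j, 0 < uu x y z j := fun j => (uu_pos x y z hd j).2
  have key : ∀ e : Fin 6, ind (SC x y z e 0) (uu x y z 0) + 2 * ind (SC x y z e 2) (uu x y z 2) =
      ind (SC x y z e 1) (uu x y z 1) + ind (SC x y z e 4) (uu x y z 4) +
        ind (SC x y z e 5) (uu x y z 5) := by
    intro e
    have h1 := (split hd ![1, -1, 2, 0, -1, -1] (fun s hs => by
      have h2 := h.rel hs
      rw [Fin.sum_univ_six]
      show √(LL x y z s 0) * 1 + √(LL x y z s 1) * (-1) + √(LL x y z s 2) * 2 +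
        √(LL x y z s 3) * 0 + √(LL x y z s 4) * (-1) + √(LL x y z s 5) * (-1) = 0
      linarith) e).1
    rw [Fin.sum_univ_six] at h1
    have h3 : ind (SC x y z e 0) (uu x y z 0 * 1) + ind (SC x y z e 1) (uu x y z 1 * (-1)) +
        ind (SC x y z e 2) (uu x y z 2 * 2) + ind (SC x y z e 3) (uu x y z 3 * 0) +
        ind (SC x y z e 4) (uu x y z 4 * (-1)) + ind (SC x y z e 5) (uu x y z 5 * (-1)) = 0 := h1
    rw [mul_comm (uu x y z 0), mul_comm (uu x y z 1), mul_comm (uu x y z 2), mul_comm (uu x y z 3),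
      mul_comm (uu x y z 4), mul_comm (uu x y z 5), ST.ind_mul, ST.ind_mul, ST.ind_mul, ST.ind_mul,
      ST.ind_mul, ST.ind_mul] at h3
    linarith
  have nn : ∀ e j, 0 ≤ ind (SC x y z e j) (uu x y z j) := by
    intro e j
    by_cases h1 : SC x y z e j
    · rw [ST.ind_pos h1]
      exact (hu j).le
    · rw [ST.ind_neg h1]
  have part : ∀ e : Fin 6, (e = 1 ∨ e = 4 ∨ e = 5) → SC x y z 0 e ∨ SC x y z 2 e := by
    intro e he
    by_contra hc
    push Not at hc
    have h1 : ¬ SC x y z e 0 := fun h => hc.1 h.symm'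
    have h2 : ¬ SC x y z e 2 := fun h => hc.2 h.symm'
    have h3 := key e
    rw [ST.ind_neg h1, ST.ind_neg h2] at h3
    have h4 : 0 < ind (SC x y z e e) (uu x y z e) := by
      rw [ST.ind_pos (SC.refl' x y z e)]
      exact hu e
    have a1 := nn e 1
    have a4 := nn e 4
    have a5 := nn e 5
    rcases he with rfl | rfl | rfl <;> linarith
  have tr : ∀ {i j k : Fin 6}, SC x y z i j → SC x y z j k → SC x y z i k := fun a b => a.trans' hd b
  by_cases h02 : SC x y z 0 2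
  · left
    refine ⟨?_, h02, ?_, ?_⟩
    · exact (part 1 (by decide)).elim id (fun h => tr h02 h)
    · exact (part 4 (by decide)).elim id (fun h => tr h02 h)
    · exact (part 5 (by decide)).elim id (fun h => tr h02 h)
  · right
    have excl : ∀ e, SC x y z 0 e → ¬ SC x y z 2 e := fun e h1 h2 => h02 (tr h1 h2.symm')
    have excl' : ∀ e, SC x y z 2 e → ¬ SC x y z 0 e := fun e h1 h2 => h02 (tr h2 h1.symm')
    have k0 := key 0
    have k2 := key 2
    rw [ST.ind_pos (SC.refl' x y z 0), ST.ind_neg h02] at k0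
    rw [ST.ind_neg (fun h => h02 h.symm'), ST.ind_pos (SC.refl' x y z 2)] at k2
    have u0 := hu 0
    have u2 := hu 2
    rcases part 1 (by decide) with a1 | a1 <;> rcases part 4 (by decide) with a4 | a4 <;>
      rcases part 5 (by decide) with a5 | a5
    · rw [ST.ind_neg (excl _ a1), ST.ind_neg (excl _ a4), ST.ind_neg (excl _ a5)] at k2
      linarith
    · rw [ST.ind_pos a1, ST.ind_pos a4, ST.ind_neg (excl' _ a5)] at k0
      rw [ST.ind_neg (excl _ a1), ST.ind_neg (excl _ a4), ST.ind_pos a5] at k2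
      exact Or.inr (Or.inr (Or.inr (Or.inr (Or.inl ⟨a1, a4, a5, by linarith, by linarith⟩))))
    · rw [ST.ind_pos a1, ST.ind_neg (excl' _ a4), ST.ind_pos a5] at k0
      rw [ST.ind_neg (excl _ a1), ST.ind_pos a4, ST.ind_neg (excl _ a5)] at k2
      exact Or.inr (Or.inr (Or.inr (Or.inl ⟨a1, a5, a4, by linarith, by linarith⟩)))
    · rw [ST.ind_pos a1, ST.ind_neg (excl' _ a4), ST.ind_neg (excl' _ a5)] at k0
      rw [ST.ind_neg (excl _ a1), ST.ind_pos a4, ST.ind_pos a5] at k2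
      exact Or.inl ⟨a1, a4, a5, by linarith, by linarith⟩
    · rw [ST.ind_neg (excl' _ a1), ST.ind_pos a4, ST.ind_pos a5] at k0
      rw [ST.ind_pos a1, ST.ind_neg (excl _ a4), ST.ind_neg (excl _ a5)] at k2
      exact Or.inr (Or.inr (Or.inr (Or.inr (Or.inr ⟨a4, a5, a1, by linarith, by linarith⟩))))
    · rw [ST.ind_neg (excl' _ a1), ST.ind_pos a4, ST.ind_neg (excl' _ a5)] at k0
      rw [ST.ind_pos a1, ST.ind_neg (excl _ a4), ST.ind_pos a5] at k2
      exact Or.inr (Or.inr (Or.inl ⟨a4, a1, a5, by linarith, by linarith⟩))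
    · rw [ST.ind_neg (excl' _ a1), ST.ind_neg (excl' _ a4), ST.ind_pos a5] at k0
      rw [ST.ind_pos a1, ST.ind_pos a4, ST.ind_neg (excl _ a5)] at k2
      exact Or.inr (Or.inl ⟨a5, a1, a4, h02, by linarith, by linarith⟩)
    · rw [ST.ind_neg (excl' _ a1), ST.ind_neg (excl' _ a4), ST.ind_neg (excl' _ a5)] at k0
      linarith

end Pool.Agent.Helper22.PN
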