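import Pool.Agent.Helper22.PN.B06Roots
import Pool.Agent.Helper22.PN.B07Alone
import Pool.Agent.Helper22.PN.B08Sta
import Pool.Agent.Helper22.PN.B09Six
import Pool.Agent.Helper22.PN.C21TB

/-!
# PN-C22: all of the edges 0, 1, 2, 4, 5 in one class

The three edges 0, 2, 4 of the face 2 are in one class, and the edges 1, 2, 5 of the face 1: by `three_same` these faces are not tangent at
any `t ≠ 0, -1`, so (`special`; `cr y z`, `cr x y` are not zero there: `Flat`) `cr z x 2 = 0`, `cr z x 1 = 0`.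
Then `cr z x 0 = - cr z x 3 ≠ 0` (`comp_ne`, `ST.cr_sum`).  The face 0 (`cr y z 0 = 0`, `cr x y 0 ≠ 0`) has a zero `s < -1` (`root_neg`).  At `s` the
face 3 (`cr x y 3 = 0`) has `ff s 3 = (s + 1) N1² + s N2² < 0`.  So the face 0 (edges 3, 4, 5) is alone at `s`: `alone`:
`LL s a = 0` and the two other edges have the same `PP`.  If `a = 4` or `a = 5`: both `LL s 4 = 0` and `LL s 5 = 0` (`SC_zero`), so
`gg s 4 = gg s 5 = 0` (`gg_zero_iff`), contradiction to `one_zero`.  If `a = 3`: `PP y z 4 = PP y z 5`, but `√(PP y z 4) = √(PP y z 3) + √(PP y z 5)`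
(`TB.cf`).
-/

open Real Set
open Pool.Agent.Helper1.Tet
open Pool.Agent.Helper22.ST (PP ZZ cr dt ind)

namespace Pool.Agent.Helper22.PN

variable {x y z : Fin 4 → ℝ}

private theorem C22_face2 (h : TB x y z) (h2 : SC x y z 0 2) (h4 : SC x y z 0 4) :
    ∀ t : ℝ, t ≠ 0 → t ≠ -1 → ff x y z t 2 ≠ 0 := by
  intro t t0 t1 hv
  have hd := h.hy.1
  have k : ∀ i, inF 2 i → SC x y z 0 i := by
    intro i hi
    rcases (in_faces i).2.2.1.1 hi with rfl | rfl | rfl
    · exact SC.refl' x y z 0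
    · exact h2
    · exact h4
  exact three_same hd t0 t1 hv fun i j hi hj => (k i hi).symm'.trans' hd (k j hj)

private theorem C22_face1 (h : TB x y z) (h1 : SC x y z 0 1) (h2 : SC x y z 0 2)
    (h5 : SC x y z 0 5) : ∀ t : ℝ, t ≠ 0 → t ≠ -1 → ff x y z t 1 ≠ 0 := by
  intro t t0 t1 hv
  have hd := h.hy.1
  have k : ∀ i, inF 1 i → SC x y z 0 i := by
    intro i hi
    rcases (in_faces i).2.1.1 hi with rfl | rfl | rfl
    · exact h1
    · exact h2
    · exact h5
  exact three_same hd t0 t1 hv fun i j hi hj => (k i hi).symm'.trans' hd (k j hj)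

theorem TB.no_K (h : TB x y z) (h1 : SC x y z 0 1) (h2 : SC x y z 0 2) (h4 : SC x y z 0 4)
    (h5 : SC x y z 0 5) : False := by
  have hd := h.hy.1
  have f1 := C22_face1 h h1 h2 h5
  have f2 := C22_face2 h h2 h4
  obtain ⟨-, yz0, yzn, -⟩ := h.fc
  obtain ⟨-, xy3, xyn, -⟩ := h.fa
  have z1 : cr z x 1 = 0 := (special (yzn 1 (by decide)) (xyn 1 (by decide)) f1).1
  have z2 : cr z x 2 = 0 := (special (yzn 2 (by decide)) (xyn 2 (by decide)) f2).1
  have zs := ST.cr_sum z x
  have z0 : cr z x 0 ≠ 0 := by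
    intro k
    have z3 : cr z x 3 = 0 := by linarith
    obtain ⟨v, hv⟩ := (comp_ne x y z hd).2.1
    fin_cases v
    · exact hv k
    · exact hv z1
    · exact hv z2
    · exact hv z3
  obtain ⟨s, hs, fs⟩ := root_neg yz0 z0 (xyn 0 (by decide))
  have s0 : s ≠ 0 := by
    intro k
    linarith
  have s1 : s ≠ -1 := hs.ne
  have f3 : ff x y z s 3 ≠ 0 := by
    have p := yzn 3 (by decide)
    have p1 : 0 < cr y z 3 ^ 2 := by positivity
    have e1 : (s + 1) * cr y z 3 ^ 2 < 0 := mul_neg_of_neg_of_pos (by linarith) p1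
    have e2 : s * cr z x 3 ^ 2 ≤ 0 := mul_nonpos_of_nonpos_of_nonneg (by linarith) (sq_nonneg _)
    have e3 : ff x y z s 3 = (s + 1) * cr y z 3 ^ 2 + s * cr z x 3 ^ 2 := by
      unfold ff
      rw [xy3]
      ring
    rw [e3]
    exact (by linarith : (s + 1) * cr y z 3 ^ 2 + s * cr z x 3 ^ 2 < 0).ne
  have ho : ∀ w, w ≠ 0 → ff x y z s w ≠ 0 := by
    intro w hw
    fin_cases w
    · exact absurd rfl hw
    · exact f1 s s0 s1
    · exact f2 s s0 s1
    · exact f3
  obtain ⟨a, b, c, ab, bc, ac, ia, ib, ic, la, -, pe⟩ := alone hd h.hy.sta s0 s1 fs ho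
  have s45 : SC x y z 4 5 := h4.symm'.trans' hd h5
  have not45 : LL x y z s 4 = 0 → False := by
    intro l4
    have l5 : LL x y z s 5 = 0 := (SC_zero hd s45).1 l4
    have g4 : gg x y z s 4 = 0 := (gg_zero_iff hd s0 s1 (j := 4) (Or.inl fs)).2 l4
    have g5 : gg x y z s 5 = 0 := (gg_zero_iff hd s0 s1 (j := 5) (Or.inl fs)).2 l5
    rcases one_zero hd s0 s1 fs (i := 4) (j := 5) (Or.inl rfl) (Or.inl rfl) (by decide) with k | k
    · exact k g4
    · exact k g5
  have ne : PP y z 4 ≠ PP y z 5 := by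
    intro k
    have cf := h.cf
    have e := cf.hz
    have x0 := cf.x0
    rw [k] at e
    linarith
  rcases (in_faces a).1.1 ia with rfl | rfl | rfl
  · rcases (in_faces b).1.1 ib with rfl | rfl | rfl
    · exact ab rfl
    · rcases (in_faces c).1.1 ic with rfl | rfl | rfl
      · exact ac rfl
      · exact bc rfl
      · exact ne pe
    · rcases (in_faces c).1.1 ic with rfl | rfl | rfl
      · exact ac rfl
      · exact ne pe.symm
      · exact bc rfl
  · exact not45 la
  · exact not45 ((SC_zero hd s45).2 la)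

end Pool.Agent.Helper22.PN
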