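import Pool.Agent.Helper22.PN.C22K

/-!
# PN-C23: reduction to one type

`TB.tb2`: `TB.cases`; the first alternative is `TB.no_K`, the third one is `TB2`, the others are excluded with `o1`, `o3`, `o4`, `o5`, `o6`
applied to `TB.cf` and `TB.af`: the relations between the `uu` in one class hold for the `√(PP y z ·)` and for the `√(PP x y ·)` as well
(`SC_lin`; e.g. if `SC i j`, `SC i k` and `uu i = uu j + uu k` then `√(PP y z i) = √(PP y z j) + √(PP y z k)`).
-/

open Real Set
open Pool.Agent.Helper1.Tet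
open Pool.Agent.Helper22.ST (PP ZZ cr dt ind)

namespace Pool.Agent.Helper22.PN

structure TB2 (x y z : Fin 4 → ℝ) : Prop where
  tb : TB x y z
  s05 : SC x y z 0 5
  s21 : SC x y z 2 1
  s24 : SC x y z 2 4
  n02 : ¬ SC x y z 0 2
  e05 : uu x y z 0 = uu x y z 5
  e2 : 2 * uu x y z 2 = uu x y z 1 + uu x y z 4

variable {x y z : Fin 4 → ℝ}

private theorem C23_two {a b u v m : ℝ} (hv : 0 < u) (h : a * v = b * u) (e : m * u = v) :
    m * a = b := by
  apply mul_right_cancel₀ hv.ne'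
  linear_combination h + a * e

private theorem C23_three {a b c u v w m : ℝ} (hu : 0 < u) (h1 : a * v = b * u)
    (h2 : a * w = c * u) (e : m * u = v + w) : m * a = b + c := by
  apply mul_right_cancel₀ hu.ne'
  linear_combination h1 + h2 + a * e

private theorem C23_cross {a b a' b' u v : ℝ} (hu : 0 < u) (h : a * v = b * u)
    (h' : a' * v = b' * u) : a * b' = b * a' := by
  apply mul_right_cancel₀ hu.ne'
  linear_combination a' * h - a * h'

theorem TB.tb2 (h : TB x y z) : TB2 x y z := by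
  have hd : dt x y z ≠ 0 := h.hy.1
  have hu : ∀ j, 0 < uu x y z j := fun j => (uu_pos x y z hd j).2
  rcases h.cases with ⟨a1, a2, a4, a5⟩ | ⟨a1, a4, a5, e0, e2⟩ | ⟨a5, a1, a4, n, e0, e2⟩ |
    ⟨a4, a1, a5, e0, e2⟩ | ⟨a1, a5, a4, e0, e2⟩ | ⟨a1, a4, a5, e0, e2⟩ | ⟨a4, a5, a1, e0, e2⟩
  · exact (h.no_K a1 a2 a4 a5).elim
  · exfalso
    have k1 := SC_lin hd a1
    have k4 := SC_lin hd a4
    have k5 := SC_lin hd a5
    have r0 : 1 * √(PP y z 0) = √(PP y z 1) := C23_two (hu 0) k1.2 (by linarith)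
    have r2 : 2 * √(PP y z 2) = √(PP y z 4) + √(PP y z 5) := C23_three (hu 2) k4.2 k5.2 e2
    exact o1 h.cf (by linarith) (by linarith)
  · exact ⟨h, a5, a1, a4, n, e0, e2⟩
  · exfalso
    have k4 := SC_lin hd a4
    have k15 := SC_lin hd (a1.symm'.trans' hd a5)
    have r0 : 1 * √(PP y z 0) = √(PP y z 4) := C23_two (hu 0) k4.2 (by linarith)
    have s0 : 1 * √(PP x y 0) = √(PP x y 4) := C23_two (hu 0) k4.1 (by linarith)
    exact o3 h.cf h.af (by linarith) (by linarith) (C23_cross (hu 1) k15.2 k15.1)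
  · exfalso
    have k1 := SC_lin hd a1
    have k5 := SC_lin hd a5
    have k4 := SC_lin hd a4
    have k51 := SC_lin hd (a5.symm'.trans' hd a1)
    have r0 : 1 * √(PP y z 0) = √(PP y z 1) + √(PP y z 5) :=
      C23_three (hu 0) k1.2 k5.2 (by linarith)
    have s0 : 1 * √(PP x y 0) = √(PP x y 1) + √(PP x y 5) :=
      C23_three (hu 0) k1.1 k5.1 (by linarith)
    have r2 : 2 * √(PP y z 2) = √(PP y z 4) := C23_two (hu 2) k4.2 e2
    have s2 : 2 * √(PP x y 2) = √(PP x y 4) := C23_two (hu 2) k4.1 e2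
    exact o4 h.cf h.af (by linarith) r2 (by linarith) s2 (C23_cross (hu 0) k1.2 k1.1)
      (C23_cross (hu 5) k51.2 k51.1)
  · exfalso
    have k1 := SC_lin hd a1
    have k4 := SC_lin hd a4
    have r0 : 1 * √(PP y z 0) = √(PP y z 1) + √(PP y z 4) :=
      C23_three (hu 0) k1.2 k4.2 (by linarith)
    exact o5 h.cf (by linarith)
  · exfalso
    have k1 := SC_lin hd a1
    have k4 := SC_lin hd a4
    have k5 := SC_lin hd a5
    have r0 : 1 * √(PP y z 0) = √(PP y z 4) + √(PP y z 5) :=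
      C23_three (hu 0) k4.2 k5.2 (by linarith)
    have r2 : 2 * √(PP y z 2) = √(PP y z 1) := C23_two (hu 2) k1.2 e2
    exact o6 h.cf (by linarith) r2

end Pool.Agent.Helper22.PN
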