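import Pool.Agent.Helper22.PN.C23TB2

/-!
# PN-C24: inequalities between the lengths

Write `p = uu 0 = uu 5`, `q = uu 1`, `r = uu 2`, `w = uu 3`, `z' = uu 4 = 2 r - q`; classes `{0, 5}`, `{1, 2, 4}`, the edge 3 in one of
them or in neither (`x3`).  `C` and `A` denote the corresponding numbers `√(PP y z ·)` and `√(PP x y ·)`; in a class all three are
proportional (`SC_lin`).
`qr`: `C`: `2 r = q + z = q + x + y = q + x + p > 2 q` (`TB.cf`).
`wp`: if `3 ~ 0`: `A`: `x = p + q > p`.  `wq`: if `3 ~ 1`: `A`: `x > q`; `C`: `z = x + y > x`.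
`d1`: if `3 ~ 0`, `w = 2 p`, `z' = 3 q`: `C`: `x = 2 p`, `y = p`, `z = 3 q`: `x1`.  `d2`: `x2`.
Proved by helper64.
-/

open Real Set
open Pool.Agent.Helper1.Tet
open Pool.Agent.Helper22.ST (PP ZZ cr dt ind)

namespace Pool.Agent.Helper22.PN

variable {x y z : Fin 4 → ℝ}

private theorem TB2.pos (h : TB2 x y z) (j : Fin 6) : 0 < uu x y z j :=
  (uu_pos x y z h.tb.hy.1 j).2

private theorem TB2.c5 (h : TB2 x y z) : √(PP y z 5) = √(PP y z 0) := by
  rw [(SC_eq h.tb.hy.1 h.s05 h.e05).2]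

private theorem lt_of_scaled {a b u w : ℝ} (ha : 0 < a) (hu : 0 < u) (h : a * w = b * u)
    (hab : b < a) : w < u := by
  by_contra hlt
  push Not at hlt
  have h1 : b * u < a * u := mul_lt_mul_of_pos_right hab hu
  have h2 : a * u ≤ a * w := mul_le_mul_of_nonneg_left hlt ha.le
  linarith

theorem TB2.qr (h : TB2 x y z) : uu x y z 1 < uu x y z 2 := by
  have cf := h.tb.cf
  have hd := h.tb.hy.1
  have h21 := (SC_lin hd h.s21).2
  have h24 := (SC_lin hd h.s24).2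
  have hp := h.pos 2
  have e2 := h.e2
  have h3 : 2 * √(PP y z 2) = √(PP y z 1) + √(PP y z 4) := by
    have : (2 * √(PP y z 2)) * uu x y z 2 = (√(PP y z 1) + √(PP y z 4)) * uu x y z 2 := by
      linear_combination h21 + h24 + √(PP y z 2) * e2
    exact mul_right_cancel₀ hp.ne' this
  have h4 := cf.a2
  have h5 := cf.hz
  have h6 := h.c5
  exact lt_of_scaled cf.r0 hp h21 (by linarith)

theorem TB2.wp (h : TB2 x y z) (h3 : SC x y z 3 0) : uu x y z 0 < uu x y z 3 := by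
  have af := h.tb.af
  have h1 := (SC_lin h.tb.hy.1 h3).1
  have h2 := af.hx
  have h4 := af.p0
  have h5 := af.q0
  exact lt_of_scaled (by linarith) (h.pos 3) h1 (by linarith)

private theorem TB2.s14 (h : TB2 x y z) : SC x y z 1 4 :=
  SC.trans' h.tb.hy.1 (SC.symm' h.s21) h.s24

theorem TB2.wq (h : TB2 x y z) (h3 : SC x y z 3 1) :
    uu x y z 1 < uu x y z 3 ∧ uu x y z 3 < uu x y z 4 := by
  have af := h.tb.af
  have cf := h.tb.cf
  have h1 := (SC_lin h.tb.hy.1 h3).1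
  have h2 := af.hx
  have h4 := af.p0
  have h5 := af.q0
  have h6 := (SC_lin h.tb.hy.1 (SC.symm' (SC.trans' h.tb.hy.1 h3 h.s14))).2
  have h7 := cf.hz
  have h8 := cf.x0
  have h9 := cf.y0
  exact ⟨lt_of_scaled (by linarith) (h.pos 3) h1 (by linarith),
    lt_of_scaled (by linarith) (h.pos 4) h6 (by linarith)⟩

theorem TB2.x3 (h : TB2 x y z) : ¬ (SC x y z 3 0 ∧ SC x y z 3 1) := by
  rintro ⟨h0, h1⟩
  have hd := h.tb.hy.1
  exact h.n02 (SC.trans' hd (SC.trans' hd (SC.symm' h0) h1) (SC.symm' h.s21))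

private theorem eq_of_scaled {a b c u w : ℝ} (hu : 0 < u) (h : a * u = b * w) (hw : w = c * u) :
    a = c * b := by
  have : a * u = (c * b) * u := by rw [h, hw]; ring
  exact mul_right_cancel₀ hu.ne' this

theorem TB2.d1 (h : TB2 x y z) (h3 : SC x y z 3 0) (h1 : uu x y z 3 = 2 * uu x y z 0)
    (h2 : uu x y z 4 = 3 * uu x y z 1) : False := by
  have hd := h.tb.hy.1
  exact Pool.Agent.Helper22.PN.x1 h.tb.cf
    (eq_of_scaled (h.pos 0) (SC_lin hd h3).2 h1) h.c5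
    (eq_of_scaled (h.pos 1) (SC_lin hd (SC.symm' h.s14)).2 h2)

theorem TB2.d2 (h : TB2 x y z) (h3 : SC x y z 3 0) (h1 : uu x y z 3 = 3 * uu x y z 0)
    (h2 : uu x y z 4 = 2 * uu x y z 1) : False := by
  have hd := h.tb.hy.1
  exact Pool.Agent.Helper22.PN.x2 h.tb.cf
    (eq_of_scaled (h.pos 0) (SC_lin hd h3).2 h1) h.c5
    (eq_of_scaled (h.pos 1) (SC_lin hd (SC.symm' h.s14)).2 h2)

/-- the classes -/
theorem TB2.classes (h : TB2 x y z) :
    (¬ SC x y z 0 1 ∧ ¬ SC x y z 0 2 ∧ ¬ SC x y z 0 4 ∧ SC x y z 0 5) ∧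
    (¬ SC x y z 1 0 ∧ SC x y z 1 2 ∧ SC x y z 1 4 ∧ ¬ SC x y z 1 5) ∧
    (SC x y z 0 3 ↔ SC x y z 3 0) ∧ (SC x y z 1 3 ↔ SC x y z 3 1) := by
  have hd := h.tb.hy.1
  have s12 := SC.symm' h.s21
  have n01 : ¬ SC x y z 0 1 := fun h1 => h.n02 (SC.trans' hd h1 s12)
  have n04 : ¬ SC x y z 0 4 := fun h1 => h.n02 (SC.trans' hd h1 (SC.symm' h.s24))
  refine ⟨⟨n01, h.n02, n04, h.s05⟩, ⟨fun h1 => n01 (SC.symm' h1), s12, h.s14, fun h1 => ?_⟩,
    ⟨SC.symm', SC.symm'⟩, ⟨SC.symm', SC.symm'⟩⟩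
  exact n01 (SC.trans' hd h.s05 (SC.symm' h1))

end Pool.Agent.Helper22.PN
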