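import Pool.Agent.Helper22.PN.C24Basic

/-!
# PN-C25: no face is alone

`alone` gives edges `a, b, c` of the face with `LL t a = 0`, `PP x y b = PP x y c`, `PP y z b = PP y z c`; so `SC b c` and `uu b = uu c`.
Face 0 (edges 3, 4, 5): `4, 5`: different classes; `3, 4`: `C`: `z = x + y`, so `y = 0`; `3, 5`: then `3 ~ 0` and `w = p`, against `TB2.wp`.
Face 3 (edges 0, 1, 3): `1, 3`: `3 ~ 1` and `w = q`, against `TB2.wq`; `0, 3`: against `TB2.wp`; `0, 1`: different classes.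
Face 2 (edges 0, 2, 4): `2, 4`: `r = 2 r - q`, against `TB2.qr`; `0, 4` and `0, 2`: different classes.
Face 1 (edges 1, 2, 5): `2, 5`, `1, 5`: different classes; `1, 2`: against `TB2.qr`.
Proved by helper69.
-/

open Real Set
open Pool.Agent.Helper1.Tet
open Pool.Agent.Helper22.ST (PP ZZ cr dt ind)

namespace Pool.Agent.Helper22.PN

variable {x y z : Fin 4 → ℝ}

private theorem C25_pair (h : TB2 x y z) {b c : Fin 6} (hlt : b < c)
    (e1 : PP x y b = PP x y c) (e2 : PP y z b = PP y z c) :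
    (b = 0 ∧ c = 5) ∨ (b = 1 ∧ c = 4) ∨ (b = 2 ∧ c = 3) := by
  have hd := h.tb.hy.1
  have sc : SC x y z b c := by
    unfold SC
    rw [e1, e2]
  have hu : uu x y z b = uu x y z c := by
    unfold uu
    rw [e1, e2]
  have cf := h.tb.cf
  obtain ⟨⟨n01, n02, n04, s05⟩, ⟨n10, s12, s14, n15⟩, -, -⟩ := h.classes
  have p45 : SC x y z 4 5 → False := fun h1 =>
    n04 (SC.trans' hd s05 (SC.symm' h1))
  have p34 : PP y z 3 = PP y z 4 → False := fun h1 => by
    have h2 := cf.hz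
    have h3 := cf.y0
    rw [h1] at h2
    linarith
  have p35 : SC x y z 3 5 → uu x y z 3 = uu x y z 5 → False := fun h1 h2 => by
    have h3 := h.wp (SC.trans' hd h1 (SC.symm' s05))
    have h4 := h.e05
    linarith
  have p13 : SC x y z 1 3 → uu x y z 1 = uu x y z 3 → False := fun h1 h2 => by
    have h3 := (h.wq (SC.symm' h1)).1
    linarith
  have p03 : SC x y z 0 3 → uu x y z 0 = uu x y z 3 → False := fun h1 h2 => by
    have h3 := h.wp (SC.symm' h1)
    linarith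
  have p24 : uu x y z 2 = uu x y z 4 → False := fun h1 => by
    have h3 := h.qr
    have h4 := h.e2
    linarith
  have p12 : uu x y z 1 = uu x y z 2 → False := fun h1 => by
    have h3 := h.qr
    linarith
  have p25 : SC x y z 2 5 → False := fun h1 =>
    n02 (SC.trans' hd s05 (SC.symm' h1))
  have hall : ∀ b : Fin 6, b = 0 ∨ b = 1 ∨ b = 2 ∨ b = 3 ∨ b = 4 ∨ b = 5 := by decide
  have hb := hall b
  have hc := hall c
  rcases hb with rfl | rfl | rfl | rfl | rfl | rfl <;>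
    rcases hc with rfl | rfl | rfl | rfl | rfl | rfl <;>
    first
      | exact absurd hlt (by decide)
      | exact Or.inl ⟨rfl, rfl⟩
      | exact Or.inr (Or.inl ⟨rfl, rfl⟩)
      | exact Or.inr (Or.inr ⟨rfl, rfl⟩)
      | exact (n01 sc).elim
      | exact (n02 sc).elim
      | exact (n04 sc).elim
      | exact (n15 sc).elim
      | exact (p45 sc).elim
      | exact (p25 sc).elim
      | exact (p34 e2).elim
      | exact (p35 sc hu).elim
      | exact (p13 sc hu).elim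
      | exact (p03 sc hu).elim
      | exact (p24 hu).elim
      | exact (p12 hu).elim

theorem TB2.not_alone (h : TB2 x y z) {t : ℝ} (h0 : t ≠ 0) (h1 : t ≠ -1) {v : Fin 4}
    (hv : ff x y z t v = 0) : ∃ w, w ≠ v ∧ ff x y z t w = 0 := by
  by_contra hcon
  have ho : ∀ w, w ≠ v → ff x y z t w ≠ 0 := fun w hw hw' => hcon ⟨w, hw, hw'⟩
  obtain ⟨a, b, c, -, hbc, -, -, ib, ic, -, e1, e2⟩ := alone h.tb.hy.1 h.tb.hy.sta h0 h1 hv ho
  have key : (b = 0 ∧ c = 5) ∨ (b = 1 ∧ c = 4) ∨ (b = 2 ∧ c = 3) ∨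
      (c = 0 ∧ b = 5) ∨ (c = 1 ∧ b = 4) ∨ (c = 2 ∧ b = 3) := by
    rcases lt_or_gt_of_ne hbc with hlt | hlt
    · rcases C25_pair h hlt e1 e2 with k | k | k
      · exact Or.inl k
      · exact Or.inr (Or.inl k)
      · exact Or.inr (Or.inr (Or.inl k))
    · rcases C25_pair h hlt e1.symm e2.symm with k | k | k
      · exact Or.inr (Or.inr (Or.inr (Or.inl k)))
      · exact Or.inr (Or.inr (Or.inr (Or.inr (Or.inl k))))
      · exact Or.inr (Or.inr (Or.inr (Or.inr (Or.inr k))))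
  have dec : ∀ v : Fin 4, (inF v 0 → inF v 5 → False) ∧ (inF v 1 → inF v 4 → False) ∧
      (inF v 2 → inF v 3 → False) := by
    decide
  obtain ⟨d1, d2, d3⟩ := dec v
  rcases key with ⟨rfl, rfl⟩ | ⟨rfl, rfl⟩ | ⟨rfl, rfl⟩ | ⟨rfl, rfl⟩ | ⟨rfl, rfl⟩ | ⟨rfl, rfl⟩
  · exact d1 ib ic
  · exact d2 ib ic
  · exact d3 ib ic
  · exact d1 ic ib
  · exact d2 ic ib
  · exact d3 ic ib

/-- where the faces 0 and 3 are not tangent -/
theorem TB2.ff03 (h : TB2 x y z) {t : ℝ} (h0 : t < 0) (h1 : t ≠ -1) :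
    (-1 < t → ff x y z t 0 ≠ 0) ∧ (t < -1 → ff x y z t 3 ≠ 0) := by
  have c0 : cr y z 0 = 0 := h.tb.fc.2.1
  have c0' : cr x y 0 ≠ 0 := h.tb.fa.2.2.1 0 (by decide)
  have c3 : cr x y 3 = 0 := h.tb.fa.2.1
  have c3' : cr y z 3 ≠ 0 := h.tb.fc.2.2.1 3 (by decide)
  constructor
  · intro ht hf
    unfold ff at hf
    rw [c0] at hf
    have s1 : 0 < cr x y 0 ^ 2 := by positivity
    have s2 := sq_nonneg (cr z x 0)
    have s3 : 0 < cr z x 0 ^ 2 + (t + 1) * cr x y 0 ^ 2 := by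
      have : 0 < (t + 1) * cr x y 0 ^ 2 := mul_pos (by linarith) s1
      linarith
    have s4 : t * (cr z x 0 ^ 2 + (t + 1) * cr x y 0 ^ 2) = 0 := by linear_combination hf
    rcases mul_eq_zero.1 s4 with k | k
    · exact h0.ne k
    · exact s3.ne' k
  · intro ht hf
    unfold ff at hf
    rw [c3] at hf
    have s1 : 0 < cr y z 3 ^ 2 := by positivity
    have s2 := sq_nonneg (cr z x 3)
    have s3 : (t + 1) * cr y z 3 ^ 2 < 0 := mul_neg_of_neg_of_pos (by linarith) s1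
    have s4 : t * cr z x 3 ^ 2 ≤ 0 := mul_nonpos_of_nonpos_of_nonneg h0.le s2
    nlinarith

end Pool.Agent.Helper22.PN
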