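import Pool.Agent.Helper22.PN.C25Alone

/-!
# PN-C26: common zeros in `(-1, 0)`

Notation: `g j = gg x y z t j`, `p = uu 0 = uu 5`, `q = uu 1`, `r = uu 2`, `w = uu 3`, `uu 4 = 2 r - q`; classes (`TB2.classes`) `I = {0, 5}`,
`II = {1, 2, 4}`, and `3` in `I`, in `II` or alone.  The face 0 is not tangent (`TB2.ff03`).  Use `sta_six` with `e = 0` (class `I`), `e = 1`
(class `II`) and `e = 3`; `face_sum*`; `SC_pm`/`SC_abs` (in one class the `|g j|` are proportional to the `uu j`), `uu_tri`.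
`no32` (faces 3 and 2 tangent, 1 not): `g 0 + g 1 + g 3 = 0`, `g 0 + g 2 + g 4 = 0`, `g 0 ≠ 0`; class `I`: `2 g 0 + [3 ~ 0] g 3 = 0`, so
`3 ~ 0`, `g 3 = -2 g 0`, `w = 2 p`, `g 1 = g 0`; `g 2 + g 4 = - g 1` with `|g 1| : |g 2| : |g 4| = q : r : (2 r - q)`,
`q < r < 2 r - q`: `(2 r - q) - r = q`, `r = 2 q`, `uu 4 = 3 q`.  Face 3: `w < p + q`, so `p < q`; face 2: `uu 4 < p + r`, so `q < p`.
`no321` (faces 1, 2, 3): signs by `sign_pos` and `Flat y z 0 2`: `g 0 < 0`, `g 1 > 0`, `g 2 < 0`.  Class `I`: `2 g 0 + g 5 + [3 ~ 0] g 3 = 0`, class `II`: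
`2 g 1 + 2 g 2 + g 4 + [3 ~ 1] g 3 = 0`.  If `3 ≁ 0`: `uu 5 = 2 uu 0`, no.  If `3 ~ 0`: `3 ≁ 1`; `g 4 = -(g 0 + g 2) > 0`, so
`2 q - 2 r + (2 r - q) = 0`, no.
`b31` (faces 3 and 1 tangent, 2 not): `g 0 + g 1 + g 3 = 0`, `g 1 + g 2 + g 5 = 0`, `g 1 ≠ 0`; class `I`: `g 0 + g 5 + [3 ~ 0] g 3 = 0`,
class `II`: `2 g 1 + g 2 + [3 ~ 1] g 3 = 0`.
 * `3` in neither: `sta_six` with `e = 3`: `g 3 = 0`, so `LL t 3 = 0`, `g 2 = -2 g 1`, `r = 2 q`.
 * `3 ~ 0`: `g 2 = -2 g 1`, `r = 2 q`, `uu 4 = 3 q`, `g 5 = g 1`, `g 0 + g 3 = - g 1`, `|g 0| = |g 5| = |g 1|`: `g 0 = - g 1` would give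
   `g 3 = 0`, no (`SC_zero`); so `g 0 = g 1`, `g 3 = -2 g 1`, `w = 2 p`: `TB2.d1`.
 * `3 ~ 1`: `g 0 + g 5 = 0`, `g 2 + g 3 = -2 g 1`: `± r ± w = 2 q`: `r + w = 2 q` contradicts `q < r`, `q < w`; `r = 2 q + w`:
   by `uu_tri` `r < q + p`, `p < q + w`; `w = 2 q + r`: `w < p + q`, `p < q + r`.
-/

open Real Set
open Pool.Agent.Helper1.Tet
open Pool.Agent.Helper22.ST (PP ZZ cr dt ind)

namespace Pool.Agent.Helper22.PN

variable {x y z : Fin 4 → ℝ}

private theorem C26_kill {g a : ℝ} (hg : g ≠ 0) (h : g * a = 0) : a = 0 :=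
  (mul_eq_zero.1 h).resolve_left hg

theorem TB2.no32 (h : TB2 x y z) {t : ℝ} (h1 : -1 < t) (h0 : t < 0) (f3 : ff x y z t 3 = 0)
    (f2 : ff x y z t 2 = 0) (f1 : ff x y z t 1 ≠ 0) : False := by
  have hd := h.tb.hy.1
  have hs := h.tb.hy.sta
  have t0 : t ≠ 0 := h0.ne
  have t1 : t ≠ -1 := h1.ne'
  have f0 : ff x y z t 0 ≠ 0 := (h.ff03 h0 t1).1 h1
  obtain ⟨⟨a1, a2, a4, a5⟩, ⟨b0, b2, b4, b5⟩, c3, d3⟩ := h.classes
  have s0 := sta_six hs 0 t1
  rw [tf_zero f0, tf_zero f1, tf_one f2, tf_one f3, ST.ind_pos (SC.refl' x y z 0), ST.ind_neg a1,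
    ST.ind_neg a2, ST.ind_neg a4, ST.ind_pos a5] at s0
  have g0 : gg x y z t 0 ≠ 0 := double_ne hd t0 t1 (j := 0) f2 f3
  have u0 := (uu_pos x y z hd 0).2
  have u1 := (uu_pos x y z hd 1).2
  have u2 := (uu_pos x y z hd 2).2
  have u3 := (uu_pos x y z hd 3).2
  have u4 := (uu_pos x y z hd 4).2
  have qr := h.qr
  have e2 := h.e2
  have F2 := face_sum2 x y z t
  have F3 := face_sum3 x y z t
  rw [f2] at F2
  rw [f3] at F3
  by_cases c : SC x y z 0 3
  · rw [ST.ind_pos c] at s0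
    have g3 : gg x y z t 3 = -2 * gg x y z t 0 := by linarith
    have g1 : gg x y z t 1 = gg x y z t 0 := by linarith
    have p30 := SC_pm (t := t) hd (SC.symm' c) (Or.inr f3) (Or.inl f2)
    have w : uu x y z 3 = 2 * uu x y z 0 := by
      rw [g3] at p30
      rcases p30 with p | p
      · exfalso
        have := C26_kill (a := uu x y z 3 + 2 * uu x y z 0) g0 (by linarith)
        linarith
      · have := C26_kill (a := uu x y z 3 - 2 * uu x y z 0) g0 (by linarith)
        linarith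
    have p21 := SC_pm (t := t) hd h.s21 (Or.inr f2) (Or.inr f3)
    have p41 := SC_pm (t := t) hd (SC.symm' b4) (Or.inr f2) (Or.inr f3)
    rw [g1] at p21 p41
    have hh : (gg x y z t 0 + gg x y z t 2 + gg x y z t 4) * uu x y z 1 = 0 := by
      have : gg x y z t 0 + gg x y z t 2 + gg x y z t 4 = 0 := by linarith
      rw [this, zero_mul]
    rcases p21 with p | p <;> rcases p41 with p' | p'
    · have := C26_kill (a := uu x y z 1 + uu x y z 2 + uu x y z 4) g0 (by linarith)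
      linarith
    · have := C26_kill (a := uu x y z 1 + uu x y z 2 - uu x y z 4) g0 (by linarith)
      exact h.d1 (c3.1 c) w (by linarith)
    · have := C26_kill (a := uu x y z 1 - uu x y z 2 + uu x y z 4) g0 (by linarith)
      linarith
    · have := C26_kill (a := uu x y z 1 - uu x y z 2 - uu x y z 4) g0 (by linarith)
      linarith
  · rw [ST.ind_neg c] at s0
    apply g0
    linarith

theorem TB2.no321 (h : TB2 x y z) {t : ℝ} (h1 : -1 < t) (h0 : t < 0) (f3 : ff x y z t 3 = 0)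
    (f2 : ff x y z t 2 = 0) (f1 : ff x y z t 1 = 0) : False := by
  have hd := h.tb.hy.1
  have hs := h.tb.hy.sta
  have t0 : t ≠ 0 := h0.ne
  have t1 : t ≠ -1 := h1.ne'
  have f0 : ff x y z t 0 ≠ 0 := (h.ff03 h0 t1).1 h1
  obtain ⟨⟨a1, a2, a4, a5⟩, ⟨b0, b2, b4, b5⟩, c3, d3⟩ := h.classes
  have s0 := sta_six hs 0 t1
  have s1 := sta_six hs 1 t1
  rw [tf_zero f0, tf_one f1, tf_one f2, tf_one f3, ST.ind_pos (SC.refl' x y z 0), ST.ind_neg a1,
    ST.ind_neg a2, ST.ind_neg a4, ST.ind_pos a5] at s0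
  rw [tf_zero f0, tf_one f1, tf_one f2, tf_one f3, ST.ind_neg b0, ST.ind_pos (SC.refl' x y z 1),
    ST.ind_pos b2, ST.ind_pos b4, ST.ind_neg b5] at s1
  obtain ⟨-, -, -, fc4⟩ := h.tb.fc
  have c13 := (fc4 1 3 (by decide) (by decide) (by decide) (by decide) (by decide)).1
  have c12 := (fc4 1 3 (by decide) (by decide) (by decide) (by decide) (by decide)).2
  have c32 := (fc4 3 1 (by decide) (by decide) (by decide) (by decide) (by decide)).2
  have S0 : 0 < gg x y z t 0 * (cr y z 2 * cr y z 3) := sign_pos hd h1 h0 (j := 0) f2 f3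
  have S1 : 0 < gg x y z t 1 * (cr y z 1 * cr y z 3) := sign_pos hd h1 h0 (j := 1) f1 f3
  have S2 : 0 < gg x y z t 2 * (cr y z 1 * cr y z 2) := sign_pos hd h1 h0 (j := 2) f1 f2
  have g0 : gg x y z t 0 < 0 := by
    have : cr y z 2 * cr y z 3 < 0 := by linarith [mul_comm (cr y z 2) (cr y z 3)]
    exact (neg_iff_neg_of_mul_pos S0).2 this
  have g1 : 0 < gg x y z t 1 := (pos_iff_pos_of_mul_pos S1).2 c13
  have g2 : gg x y z t 2 < 0 := (neg_iff_neg_of_mul_pos S2).2 c12
  have u0 := (uu_pos x y z hd 0).2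
  have u1 := (uu_pos x y z hd 1).2
  have u2 := (uu_pos x y z hd 2).2
  have u3 := (uu_pos x y z hd 3).2
  have u4 := (uu_pos x y z hd 4).2
  have u5 := (uu_pos x y z hd 5).2
  have qr := h.qr
  have e2 := h.e2
  have e05 := h.e05
  have F2 := face_sum2 x y z t
  rw [f2] at F2
  have g4 : 0 < gg x y z t 4 := by linarith
  by_cases c : SC x y z 0 3
  · rw [ST.ind_pos c] at s0
    have c' : ¬ SC x y z 1 3 := fun k => h.x3 ⟨c3.1 c, d3.1 k⟩
    rw [ST.ind_neg c'] at s1
    have p14 := SC_pm (t := t) hd b4 (Or.inl f1) (Or.inr f2)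
    have p24 := SC_pm (t := t) hd h.s24 (Or.inl f1) (Or.inr f2)
    have q14 : gg x y z t 1 * uu x y z 4 = gg x y z t 4 * uu x y z 1 := by
      rcases p14 with p | p
      · exact p
      · exfalso
        have := mul_pos g1 u4
        have := mul_pos g4 u1
        linarith
    have q24 : gg x y z t 2 * uu x y z 4 = -(gg x y z t 4 * uu x y z 2) := by
      rcases p24 with p | p
      · exfalso
        have := mul_neg_of_neg_of_pos g2 u4
        have := mul_pos g4 u2
        linarith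
      · exact p
    have hh : (2 * gg x y z t 1 + 2 * gg x y z t 2 + gg x y z t 4) * uu x y z 4 = 0 := by
      have : 2 * gg x y z t 1 + 2 * gg x y z t 2 + gg x y z t 4 = 0 := by linarith
      rw [this, zero_mul]
    have := C26_kill (a := 2 * uu x y z 1 - 2 * uu x y z 2 + uu x y z 4) g4.ne' (by linarith)
    linarith
  · rw [ST.ind_neg c] at s0
    have p05 := SC_pm (t := t) hd a5 (Or.inl f2) (Or.inr f1)
    rw [← e05] at p05
    have hh : (2 * gg x y z t 0 + gg x y z t 5) * uu x y z 0 = 0 := by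
      have : 2 * gg x y z t 0 + gg x y z t 5 = 0 := by linarith
      rw [this, zero_mul]
    rcases p05 with p | p
    · have := C26_kill (a := uu x y z 0) g0.ne (by linarith)
      linarith
    · have := C26_kill (a := uu x y z 0) g0.ne (by linarith)
      linarith

theorem TB2.b31 (h : TB2 x y z) {t : ℝ} (h1 : -1 < t) (h0 : t < 0) (f3 : ff x y z t 3 = 0)
    (f1 : ff x y z t 1 = 0) (f2 : ff x y z t 2 ≠ 0) :
    uu x y z 2 = 2 * uu x y z 1 ∧ LL x y z t 3 = 0 := by
  have hd := h.tb.hy.1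
  have hs := h.tb.hy.sta
  have t0 : t ≠ 0 := h0.ne
  have t1 : t ≠ -1 := h1.ne'
  have f0 : ff x y z t 0 ≠ 0 := (h.ff03 h0 t1).1 h1
  obtain ⟨⟨a1, a2, a4, a5⟩, ⟨b0, b2, b4, b5⟩, c3, d3⟩ := h.classes
  have s0 := sta_six hs 0 t1
  have s1 := sta_six hs 1 t1
  rw [tf_zero f0, tf_one f1, tf_zero f2, tf_one f3, ST.ind_pos (SC.refl' x y z 0), ST.ind_neg a1,
    ST.ind_neg a2, ST.ind_neg a4, ST.ind_pos a5] at s0
  rw [tf_zero f0, tf_one f1, tf_zero f2, tf_one f3, ST.ind_neg b0, ST.ind_pos (SC.refl' x y z 1),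
    ST.ind_pos b2, ST.ind_pos b4, ST.ind_neg b5] at s1
  have g1 : gg x y z t 1 ≠ 0 := double_ne hd t0 t1 (j := 1) f1 f3
  have u0 := (uu_pos x y z hd 0).2
  have u1 := (uu_pos x y z hd 1).2
  have u2 := (uu_pos x y z hd 2).2
  have u3 := (uu_pos x y z hd 3).2
  have u4 := (uu_pos x y z hd 4).2
  have u5 := (uu_pos x y z hd 5).2
  have qr := h.qr
  have e2 := h.e2
  have e05 := h.e05
  have F1 := face_sum1 x y z t
  have F3 := face_sum3 x y z t
  rw [f1] at F1
  rw [f3] at F3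
  have p21 := SC_pm (t := t) hd h.s21 (Or.inl f1) (Or.inl f1)
  by_cases d : SC x y z 1 3
  · -- the edge 3 in the class of 1
    exfalso
    have c' : ¬ SC x y z 0 3 := fun k => h.x3 ⟨c3.1 k, d3.1 d⟩
    rw [ST.ind_neg c'] at s0
    rw [ST.ind_pos d] at s1
    obtain ⟨wq, -⟩ := h.wq (d3.1 d)
    obtain ⟨-, ⟨-, T2, T5⟩, -, ⟨T0, -, T3⟩⟩ := uu_tri hd
    have p31 := SC_pm (t := t) hd (SC.symm' d) (Or.inr f3) (Or.inl f1)
    have hh : (2 * gg x y z t 1 + gg x y z t 2 + gg x y z t 3) * uu x y z 1 = 0 := by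
      have : 2 * gg x y z t 1 + gg x y z t 2 + gg x y z t 3 = 0 := by linarith
      rw [this, zero_mul]
    rcases p21 with p | p <;> rcases p31 with p' | p'
    · have := C26_kill (a := 2 * uu x y z 1 + uu x y z 2 + uu x y z 3) g1 (by linarith)
      linarith
    · have := C26_kill (a := 2 * uu x y z 1 + uu x y z 2 - uu x y z 3) g1 (by linarith)
      linarith
    · have := C26_kill (a := 2 * uu x y z 1 - uu x y z 2 + uu x y z 3) g1 (by linarith)
      linarith
    · have := C26_kill (a := 2 * uu x y z 1 - uu x y z 2 - uu x y z 3) g1 (by linarith)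
      linarith
  · rw [ST.ind_neg d] at s1
    have g2 : gg x y z t 2 = -2 * gg x y z t 1 := by linarith
    have r : uu x y z 2 = 2 * uu x y z 1 := by
      rw [g2] at p21
      rcases p21 with p | p
      · exfalso
        have := C26_kill (a := uu x y z 2 + 2 * uu x y z 1) g1 (by linarith)
        linarith
      · have := C26_kill (a := uu x y z 2 - 2 * uu x y z 1) g1 (by linarith)
        linarith
    refine ⟨r, ?_⟩
    by_cases c : SC x y z 0 3
    · exfalso
      rw [ST.ind_pos c] at s0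
      have g5 : gg x y z t 5 = gg x y z t 1 := by linarith
      have p05 := SC_pm (t := t) hd a5 (Or.inr f3) (Or.inr f1)
      rw [← e05, g5] at p05
      rcases p05 with p | p
      · have g0 : gg x y z t 0 = gg x y z t 1 := by
          have : uu x y z 0 * (gg x y z t 0 - gg x y z t 1) = 0 := by linarith
          have := C26_kill u0.ne' this
          linarith
        have g3 : gg x y z t 3 = -2 * gg x y z t 1 := by linarith
        have p30 := SC_pm (t := t) hd (SC.symm' c) (Or.inr f3) (Or.inr f3)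
        rw [g3, g0] at p30
        refine h.d1 (c3.1 c) ?_ (by linarith)
        rcases p30 with p' | p'
        · have := C26_kill (a := uu x y z 3 + 2 * uu x y z 0) g1 (by linarith)
          linarith
        · have := C26_kill (a := uu x y z 3 - 2 * uu x y z 0) g1 (by linarith)
          linarith
      · have g0 : gg x y z t 0 = -gg x y z t 1 := by
          have : uu x y z 0 * (gg x y z t 0 + gg x y z t 1) = 0 := by linarith
          have := C26_kill u0.ne' this
          linarith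
        have g3 : gg x y z t 3 = 0 := by linarith
        have l3 := (gg_zero_iff hd t0 t1 (j := 3) (Or.inr f3)).1 g3
        have l0 := (SC_zero hd c).2 l3
        have k0 := (gg_zero_iff hd t0 t1 (j := 0) (Or.inr f3)).2 l0
        apply g1
        linarith
    · have e0 : ¬ SC x y z 3 0 := fun k => c (c3.2 k)
      have e1 : ¬ SC x y z 3 1 := fun k => d (d3.2 k)
      have e2' : ¬ SC x y z 3 2 := fun k => e1 (SC.trans' hd k (SC.symm' b2))
      have e4 : ¬ SC x y z 3 4 := fun k => e1 (SC.trans' hd k (SC.symm' b4))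
      have e5 : ¬ SC x y z 3 5 := fun k => e0 (SC.trans' hd k (SC.symm' a5))
      have s3 := sta_six hs 3 t1
      rw [tf_zero f0, tf_one f1, tf_zero f2, tf_one f3, ST.ind_neg e0, ST.ind_neg e1,
        ST.ind_neg e2', ST.ind_pos (SC.refl' x y z 3), ST.ind_neg e4, ST.ind_neg e5] at s3
      exact (gg_zero_iff hd t0 t1 (j := 3) (Or.inr f3)).1 (by linarith)

end Pool.Agent.Helper22.PN
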