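import Pool.Agent.Helper22.PN.C25Alone

/-!
# PN-C27: common zeros `t < -1`

Notation as in `C26Pos.lean`: `g j = gg x y z t j`, `p = uu 0 = uu 5`, `q = uu 1`, `r = uu 2`, `w = uu 3`, `uu 4 = 2 r - q =: z'`, `q < r < z'`; classes
`I = {0, 5}`, `II = {1, 2, 4}`, and `3` in `I`, in `II` or alone.  The face 3 is not tangent (`TB2.ff03`).
`no02` (faces 0 and 2 tangent, 1 not): `g 3 + g 4 + g 5 = 0`, `g 0 + g 2 + g 4 = 0`, `g 4 ≠ 0`; class `II`: `2 g 4 + g 2 + [3 ~ 1] g 3 = 0`.  If `3 ≁ 1`: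
`r = 2 z'`, no.  If `3 ~ 1`: `± r ± w = 2 z'` with `r < z'`, `w < z'` (`TB2.wq`): impossible.
`no01` (faces 0 and 1 tangent, 2 not): `g 3 + g 4 + g 5 = 0`, `g 1 + g 2 + g 5 = 0`, `g 5 ≠ 0`; class `I` (the edge 0 is on no tangent face):
`2 g 5 + [3 ~ 0] g 3 = 0`, so `3 ~ 0`, `g 3 = -2 g 5`, `w = 2 p`, `g 4 = g 5`; `g 1 + g 2 = - g 4` with `|g 1| : |g 2| : |g 4| = q : r : (2 r - q)`:
`q + r = 2 r - q` (then `r = 2 q`, `z' = 3 q`, `TB2.d1`) or `r - q = 2 r - q`, no.
`no021` (faces 0, 1, 2): signs by `sign_neg` and `Flat x y 3 0`: `g 2 > 0`, `g 4 < 0`, `g 5 < 0`.  `g 3 = -(g 4 + g 5) > 0`.  Class `I`: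
`g 0 + 2 g 5 + [3 ~ 0] g 3 = 0`, class `II`: `g 1 + 2 g 2 + 2 g 4 + [3 ~ 1] g 3 = 0`.  If `3 ≁ 0`: `uu 0 = 2 uu 5`, no.  If `3 ~ 0` (so `3 ≁ 1`):
`± q + 2 r - 2 (2 r - q) = 0`, so `2 r = 3 q` (or `2 r = q`, no), `z' = 2 q`; `± p - 2 p + w = 0`, `w > p` (`TB2.wp`), so `w = 3 p`: `TB2.d2`.
-/

open Real Set
open Pool.Agent.Helper1.Tet
open Pool.Agent.Helper22.ST (PP ZZ cr dt ind)

namespace Pool.Agent.Helper22.PN

variable {x y z : Fin 4 → ℝ}

theorem TB2.no02 (h : TB2 x y z) {t : ℝ} (h1 : t < -1) (f0 : ff x y z t 0 = 0)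
    (f2 : ff x y z t 2 = 0) (f1 : ff x y z t 1 ≠ 0) : False := by
  have hd := h.tb.hy.1
  have hs := h.tb.hy.sta
  have t0 : t ≠ 0 := by intro hh; linarith
  have t1 : t ≠ -1 := by intro hh; linarith
  have f3 : ff x y z t 3 ≠ 0 := (h.ff03 (by linarith) t1).2 h1
  obtain ⟨⟨a1, a2, a4, a5⟩, ⟨b0, b2, b4, b5⟩, c3, d3⟩ := h.classes
  have s1 := sta_six hs 1 t1
  rw [tf_one f0, tf_zero f1, tf_one f2, tf_zero f3, ST.ind_neg b0, ST.ind_pos (SC.refl' x y z 1),
    ST.ind_pos b2, ST.ind_pos b4, ST.ind_neg b5] at s1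
  have g4 : gg x y z t 4 ≠ 0 := double_ne hd t0 t1 (j := 4) f0 f2
  have u4 := (uu_pos x y z hd 4).2
  have u2 := (uu_pos x y z hd 2).2
  have qr := h.qr
  have e2 := h.e2
  have p24 := SC_pm (t := t) hd h.s24 (Or.inr f2) (Or.inl f0)
  by_cases c : SC x y z 1 3
  · rw [ST.ind_pos c] at s1
    obtain ⟨-, w4⟩ := h.wq (d3.1 c)
    have u3 := (uu_pos x y z hd 3).2
    have p34 := SC_pm (t := t) hd (SC.trans' hd (SC.symm' c) b4) (Or.inl f0) (Or.inl f0)
    have hh : (gg x y z t 2 + gg x y z t 3 + 2 * gg x y z t 4) * uu x y z 4 = 0 := by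
      have : gg x y z t 2 + gg x y z t 3 + 2 * gg x y z t 4 = 0 := by linarith
      rw [this, zero_mul]
    rcases p24 with p | p <;> rcases p34 with p' | p'
    · have : gg x y z t 4 * (uu x y z 2 + uu x y z 3 + 2 * uu x y z 4) = 0 := by linarith
      rcases mul_eq_zero.1 this with k | k
      · exact g4 k
      · linarith
    · have : gg x y z t 4 * (uu x y z 2 - uu x y z 3 + 2 * uu x y z 4) = 0 := by linarith
      rcases mul_eq_zero.1 this with k | k
      · exact g4 k
      · linarith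
    · have : gg x y z t 4 * (-uu x y z 2 + uu x y z 3 + 2 * uu x y z 4) = 0 := by linarith
      rcases mul_eq_zero.1 this with k | k
      · exact g4 k
      · linarith
    · have : gg x y z t 4 * (-uu x y z 2 - uu x y z 3 + 2 * uu x y z 4) = 0 := by linarith
      rcases mul_eq_zero.1 this with k | k
      · exact g4 k
      · linarith
  · rw [ST.ind_neg c] at s1
    have hh : (gg x y z t 2 + 2 * gg x y z t 4) * uu x y z 4 = 0 := by
      have : gg x y z t 2 + 2 * gg x y z t 4 = 0 := by linarith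
      rw [this, zero_mul]
    rcases p24 with p | p
    · have : gg x y z t 4 * (uu x y z 2 + 2 * uu x y z 4) = 0 := by linarith
      rcases mul_eq_zero.1 this with k | k
      · exact g4 k
      · linarith
    · have : gg x y z t 4 * (-uu x y z 2 + 2 * uu x y z 4) = 0 := by linarith
      rcases mul_eq_zero.1 this with k | k
      · exact g4 k
      · linarith

theorem TB2.no01 (h : TB2 x y z) {t : ℝ} (h1 : t < -1) (f0 : ff x y z t 0 = 0)
    (f1 : ff x y z t 1 = 0) (f2 : ff x y z t 2 ≠ 0) : False := by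
  have hd := h.tb.hy.1
  have hs := h.tb.hy.sta
  have t0 : t ≠ 0 := by intro hh; linarith
  have t1 : t ≠ -1 := by intro hh; linarith
  have f3 : ff x y z t 3 ≠ 0 := (h.ff03 (by linarith) t1).2 h1
  obtain ⟨⟨a1, a2, a4, a5⟩, ⟨b0, b2, b4, b5⟩, c3, d3⟩ := h.classes
  have s0 := sta_six hs 0 t1
  rw [tf_one f0, tf_one f1, tf_zero f2, tf_zero f3, ST.ind_pos (SC.refl' x y z 0), ST.ind_neg a1,
    ST.ind_neg a2, ST.ind_neg a4, ST.ind_pos a5] at s0
  have g5 : gg x y z t 5 ≠ 0 := double_ne hd t0 t1 (j := 5) f0 f1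
  have u1 := (uu_pos x y z hd 1).2
  have u2 := (uu_pos x y z hd 2).2
  have u3 := (uu_pos x y z hd 3).2
  have u4 := (uu_pos x y z hd 4).2
  have u5 := (uu_pos x y z hd 5).2
  have qr := h.qr
  have e2 := h.e2
  have e05 := h.e05
  have F0 := face_sum0 x y z t
  have F1 := face_sum1 x y z t
  rw [f0] at F0
  rw [f1] at F1
  by_cases c : SC x y z 0 3
  · rw [ST.ind_pos c] at s0
    have g3 : gg x y z t 3 = -2 * gg x y z t 5 := by linarith
    have g4 : gg x y z t 4 = gg x y z t 5 := by linarith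
    have p35 := SC_pm (t := t) hd (SC.trans' hd (SC.symm' c) a5) (Or.inl f0) (Or.inl f0)
    have w : uu x y z 3 = 2 * uu x y z 0 := by
      rw [g3] at p35
      rcases p35 with p | p
      · exfalso
        have : gg x y z t 5 * (uu x y z 3 + 2 * uu x y z 5) = 0 := by linarith
        rcases mul_eq_zero.1 this with k | k
        · exact g5 k
        · linarith
      · have : gg x y z t 5 * (uu x y z 3 - 2 * uu x y z 5) = 0 := by linarith
        rcases mul_eq_zero.1 this with k | k
        · exact absurd k g5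
        · linarith
    have p14 := SC_pm (t := t) hd b4 (Or.inl f1) (Or.inl f0)
    have p24 := SC_pm (t := t) hd h.s24 (Or.inl f1) (Or.inl f0)
    rw [g4] at p14 p24
    have hh : (gg x y z t 1 + gg x y z t 2 + gg x y z t 5) * uu x y z 4 = 0 := by
      have : gg x y z t 1 + gg x y z t 2 + gg x y z t 5 = 0 := by linarith
      rw [this, zero_mul]
    rcases p14 with p | p <;> rcases p24 with p' | p'
    · have : gg x y z t 5 * (uu x y z 1 + uu x y z 2 + uu x y z 4) = 0 := by linarith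
      rcases mul_eq_zero.1 this with k | k
      · exact g5 k
      · linarith
    · have : gg x y z t 5 * (uu x y z 1 - uu x y z 2 + uu x y z 4) = 0 := by linarith
      rcases mul_eq_zero.1 this with k | k
      · exact g5 k
      · linarith
    · have : gg x y z t 5 * (-uu x y z 1 + uu x y z 2 + uu x y z 4) = 0 := by linarith
      rcases mul_eq_zero.1 this with k | k
      · exact g5 k
      · linarith
    · have : gg x y z t 5 * (-uu x y z 1 - uu x y z 2 + uu x y z 4) = 0 := by linarith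
      rcases mul_eq_zero.1 this with k | k
      · exact g5 k
      · exact h.d1 (c3.1 c) w (by linarith)
  · rw [ST.ind_neg c] at s0
    apply g5
    linarith

theorem TB2.no021 (h : TB2 x y z) {t : ℝ} (h1 : t < -1) (f0 : ff x y z t 0 = 0)
    (f2 : ff x y z t 2 = 0) (f1 : ff x y z t 1 = 0) : False := by
  have hd := h.tb.hy.1
  have hs := h.tb.hy.sta
  have t0 : t ≠ 0 := by intro hh; linarith
  have t1 : t ≠ -1 := by intro hh; linarith
  have f3 : ff x y z t 3 ≠ 0 := (h.ff03 (by linarith) t1).2 h1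
  obtain ⟨⟨a1, a2, a4, a5⟩, ⟨b0, b2, b4, b5⟩, c3, d3⟩ := h.classes
  have s0 := sta_six hs 0 t1
  have s1 := sta_six hs 1 t1
  rw [tf_one f0, tf_one f1, tf_one f2, tf_zero f3, ST.ind_pos (SC.refl' x y z 0), ST.ind_neg a1,
    ST.ind_neg a2, ST.ind_neg a4, ST.ind_pos a5] at s0
  rw [tf_one f0, tf_one f1, tf_one f2, tf_zero f3, ST.ind_neg b0, ST.ind_pos (SC.refl' x y z 1),
    ST.ind_pos b2, ST.ind_pos b4, ST.ind_neg b5] at s1
  have fa := h.tb.fa
  obtain ⟨-, -, -, fa4⟩ := fa
  have c12 := (fa4 1 2 (by decide) (by decide) (by decide) (by decide) (by decide)).1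
  have c10 := (fa4 1 2 (by decide) (by decide) (by decide) (by decide) (by decide)).2
  have c20 := (fa4 2 1 (by decide) (by decide) (by decide) (by decide) (by decide)).2
  have S2 : 0 < gg x y z t 2 * (cr x y 1 * cr x y 2) := sign_neg hd h1 (j := 2) f1 f2
  have S4 : 0 < gg x y z t 4 * (cr x y 0 * cr x y 2) := sign_neg hd h1 (j := 4) f0 f2
  have S5 : 0 < gg x y z t 5 * (cr x y 0 * cr x y 1) := sign_neg hd h1 (j := 5) f0 f1
  have g2 : 0 < gg x y z t 2 := (pos_iff_pos_of_mul_pos S2).2 c12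
  have g4 : gg x y z t 4 < 0 := by
    have : cr x y 0 * cr x y 2 < 0 := by linarith [mul_comm (cr x y 0) (cr x y 2)]
    exact (neg_iff_neg_of_mul_pos S4).2 this
  have g5 : gg x y z t 5 < 0 := by
    have : cr x y 0 * cr x y 1 < 0 := by linarith [mul_comm (cr x y 0) (cr x y 1)]
    exact (neg_iff_neg_of_mul_pos S5).2 this
  have u0 := (uu_pos x y z hd 0).2
  have u1 := (uu_pos x y z hd 1).2
  have u2 := (uu_pos x y z hd 2).2
  have u3 := (uu_pos x y z hd 3).2
  have u4 := (uu_pos x y z hd 4).2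
  have u5 := (uu_pos x y z hd 5).2
  have qr := h.qr
  have e2 := h.e2
  have e05 := h.e05
  have F0 := face_sum0 x y z t
  rw [f0] at F0
  have g3 : 0 < gg x y z t 3 := by linarith
  have p05 := SC_pm (t := t) hd a5 (Or.inl f2) (Or.inl f0)
  rw [← e05] at p05
  by_cases c : SC x y z 0 3
  · rw [ST.ind_pos c] at s0
    have c' : ¬ SC x y z 1 3 := fun k => h.x3 ⟨c3.1 c, d3.1 k⟩
    rw [ST.ind_neg c'] at s1
    have p14 := SC_pm (t := t) hd b4 (Or.inl f1) (Or.inl f0)
    have p24 := SC_pm (t := t) hd h.s24 (Or.inl f1) (Or.inl f0)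
    have p35 := SC_pm (t := t) hd (SC.trans' hd (SC.symm' c) a5) (Or.inl f0) (Or.inl f0)
    have q24 : gg x y z t 2 * uu x y z 4 = -(gg x y z t 4 * uu x y z 2) := by
      rcases p24 with p | p
      · exfalso
        have := mul_pos g2 u4
        have := mul_neg_of_neg_of_pos g4 u2
        linarith
      · exact p
    have q35 : gg x y z t 3 * uu x y z 5 = -(gg x y z t 5 * uu x y z 3) := by
      rcases p35 with p | p
      · exfalso
        have := mul_pos g3 u5
        have := mul_neg_of_neg_of_pos g5 u3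
        linarith
      · exact p
    have hh : (gg x y z t 1 + 2 * gg x y z t 2 + 2 * gg x y z t 4) * uu x y z 4 = 0 := by
      have : gg x y z t 1 + 2 * gg x y z t 2 + 2 * gg x y z t 4 = 0 := by linarith
      rw [this, zero_mul]
    have z4 : uu x y z 4 = 2 * uu x y z 1 := by
      rcases p14 with p | p
      · exfalso
        have : gg x y z t 4 * (uu x y z 1 - 2 * uu x y z 2 + 2 * uu x y z 4) = 0 := by linarith
        rcases mul_eq_zero.1 this with k | k
        · linarith
        · linarith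
      · have : gg x y z t 4 * (-uu x y z 1 - 2 * uu x y z 2 + 2 * uu x y z 4) = 0 := by linarith
        rcases mul_eq_zero.1 this with k | k
        · linarith
        · linarith
    have wp := h.wp (c3.1 c)
    have hh' : (gg x y z t 0 + 2 * gg x y z t 5 + gg x y z t 3) * uu x y z 0 = 0 := by
      have : gg x y z t 0 + 2 * gg x y z t 5 + gg x y z t 3 = 0 := by linarith
      rw [this, zero_mul]
    rw [← e05] at q35
    rcases p05 with p | p
    · have : gg x y z t 5 * (3 * uu x y z 0 - uu x y z 3) = 0 := by linarith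
      rcases mul_eq_zero.1 this with k | k
      · linarith
      · exact h.d2 (c3.1 c) (by linarith) z4
    · have : gg x y z t 5 * (uu x y z 0 - uu x y z 3) = 0 := by linarith
      rcases mul_eq_zero.1 this with k | k
      · linarith
      · linarith
  · rw [ST.ind_neg c] at s0
    have hh' : (gg x y z t 0 + 2 * gg x y z t 5) * uu x y z 0 = 0 := by
      have : gg x y z t 0 + 2 * gg x y z t 5 = 0 := by linarith
      rw [this, zero_mul]
    rcases p05 with p | p
    · have : gg x y z t 5 * uu x y z 0 = 0 := by linarith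
      rcases mul_eq_zero.1 this with k | k
      · linarith
      · linarith
    · have : gg x y z t 5 * uu x y z 0 = 0 := by linarith
      rcases mul_eq_zero.1 this with k | k
      · linarith
      · linarith

end Pool.Agent.Helper22.PN
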