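import Pool.Agent.Helper22.PN.C26Pos
import Pool.Agent.Helper22.PN.C27Neg

/-!
# PN-C28: end of the case `TB`

Let `h : TB2 x y z` (`TB.tb2`).  For every zero `t ≠ 0, -1` of some `ff · v` (`t < 0`: `root_nonpos`), by `not_alone`, `ff03`, `no32`, `no321`, `no02`,
`no01`, `no021` the set of the tangent faces at `t` is `{1, 2}`, or (`-1 < t < 0`) `{1, 3}`; in the latter case `b31`.  In particular the face 0 is never
tangent, so `cr z x 0 = 0` (`root_neg`; `cr y z 0 = 0`, `cr x y 0 ≠ 0`).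
Case `cr z x 3 = 0`: then `cr z x 1 = - cr z x 2 ≠ 0` (`comp_ne`, `ST.cr_sum`); the faces 1 and 2 have two zeros each (`two_roots`), and at each of them the other
one is tangent (the face 3 has no zero `≠ -1`, `0`: `ff t 3 = (t + 1) N1²`), so by `share_two` `cr y z 1 ^ 2 * cr x y 2 ^ 2 = cr y z 2 ^ 2 * cr x y 1 ^ 2` and
`cr x y 1 ^ 2 = cr x y 2 ^ 2`, so `cr y z 1 ^ 2 = cr y z 2 ^ 2`; by `Flat y z 0 2` they have opposite signs, so `cr y z 1 + cr y z 2 = 0` and, as `cr y z 0 = 0`,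
`cr y z 3 = 0`, contradiction to `Flat`.
Case `cr z x 3 ≠ 0`: the face 3 has a zero `ρ` in `(-1, 0)` (`root_pos`), there the face 1 is tangent and the face 2 is not.  The face 2 has no zero in
`(-1, 0)` (the face 1 would be tangent there, at `ρ` by `root_unique_pos`), so `cr z x 2 = 0` (`two_roots`).  So the normals of the faces 0 and 2 have second component
`0`: the common edge 4 is parallel to the second axis: `x 1 = x 3`, `z 1 = z 3` (see `par_edge`: the cross product of the normals is `± dt` times the edge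
vector).  So `PP x y 4 = PP y z 4`, and as `2 ~ 4`: `PP x y 2 = PP y z 2`, `(x 0 - x 3)² = (z 0 - z 3)²`, so `(x 0 - x 1)² = (z 0 - z 1)²`,
`PP x y 0 = PP y z 0`, and `SC 0 2`, contradiction.
-/

open Real Set
open Pool.Agent.Helper1.Tet
open Pool.Agent.Helper22.ST (PP ZZ cr dt ind)

namespace Pool.Agent.Helper22.PN

variable {x y z : Fin 4 → ℝ}

/-- the tangent faces -/
theorem TB2.tangent (h : TB2 x y z) {t : ℝ} (h0 : t ≠ 0) (h1 : t ≠ -1) :
    ff x y z t 0 ≠ 0 ∧ (ff x y z t 3 = 0 → -1 < t ∧ ff x y z t 1 = 0 ∧ ff x y z t 2 ≠ 0) ∧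
      (ff x y z t 2 = 0 → ff x y z t 1 = 0 ∧ ff x y z t 3 ≠ 0) ∧
        (ff x y z t 1 = 0 → ff x y z t 2 = 0 ∨ ff x y z t 3 = 0) := by
  have hd : dt x y z ≠ 0 := h.tb.hy.1
  have neg : ∀ v, ff x y z t v = 0 → t < 0 := fun v hv =>
    lt_of_le_of_ne (root_nonpos hd hv) h0
  have P1 : ff x y z t 0 ≠ 0 := by
    intro f0
    have ht := neg 0 f0
    have hlt : t < -1 := by
      rcases lt_trichotomy t (-1) with hl | hl | hl
      · exact hl
      · exact absurd hl h1
      · exact absurd f0 ((h.ff03 ht h1).1 hl)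
    have f3 := (h.ff03 ht h1).2 hlt
    obtain ⟨w, hw, fw⟩ := h.not_alone h0 h1 f0
    by_cases f1 : ff x y z t 1 = 0
    · by_cases f2 : ff x y z t 2 = 0
      · exact h.no021 hlt f0 f2 f1
      · exact h.no01 hlt f0 f1 f2
    · by_cases f2 : ff x y z t 2 = 0
      · exact h.no02 hlt f0 f2 f1
      · fin_cases w
        · exact hw rfl
        · exact f1 fw
        · exact f2 fw
        · exact f3 fw
  have P2 : ff x y z t 3 = 0 → -1 < t ∧ ff x y z t 1 = 0 ∧ ff x y z t 2 ≠ 0 := by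
    intro f3
    have ht := neg 3 f3
    have hgt : -1 < t := by
      rcases lt_trichotomy t (-1) with hl | hl | hl
      · exact absurd f3 ((h.ff03 ht h1).2 hl)
      · exact absurd hl h1
      · exact hl
    have f2 : ff x y z t 2 ≠ 0 := by
      intro f2
      by_cases f1 : ff x y z t 1 = 0
      · exact h.no321 hgt ht f3 f2 f1
      · exact h.no32 hgt ht f3 f2 f1
    refine ⟨hgt, ?_, f2⟩
    obtain ⟨w, hw, fw⟩ := h.not_alone h0 h1 f3
    fin_cases w
    · exact absurd fw P1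
    · exact fw
    · exact absurd fw f2
    · exact absurd rfl hw
  refine ⟨P1, P2, ?_, ?_⟩
  · intro f2
    have f3 : ff x y z t 3 ≠ 0 := fun f3 => (P2 f3).2.2 f2
    refine ⟨?_, f3⟩
    obtain ⟨w, hw, fw⟩ := h.not_alone h0 h1 f2
    fin_cases w
    · exact absurd fw P1
    · exact fw
    · exact absurd rfl hw
    · exact absurd fw f3
  · intro f1
    obtain ⟨w, hw, fw⟩ := h.not_alone h0 h1 f1
    fin_cases w
    · exact absurd fw P1
    · exact absurd rfl hw
    · exact Or.inl fw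
    · exact Or.inr fw

private theorem C28_dt_cyc (x y z : Fin 4 → ℝ) : dt z x y = dt x y z := by
  simp only [dt, cr, Matrix.cons_val_one, Matrix.cons_val_zero]
  ring

private theorem C28_dt_zero {x y z : Fin 4 → ℝ} (hx : x 1 = x 3) (hy : y 1 = y 3)
    (hz : z 1 = z 3) : dt x y z = 0 := by
  simp only [dt, cr, Matrix.cons_val_one, Matrix.cons_val_zero, hx, hy, hz]
  ring

theorem TB.false (h : TB x y z) : False := by
  have h2 := h.tb2
  have hd : dt x y z ≠ 0 := h.hy.1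
  obtain ⟨-, c0, cn, cs⟩ := h.fc
  obtain ⟨-, a3, an, as⟩ := h.fa
  have c1 : cr y z 1 ≠ 0 := cn 1 (by decide)
  have c2 : cr y z 2 ≠ 0 := cn 2 (by decide)
  have c3 : cr y z 3 ≠ 0 := cn 3 (by decide)
  have a0 : cr x y 0 ≠ 0 := an 0 (by decide)
  have a1 : cr x y 1 ≠ 0 := an 1 (by decide)
  have a2 : cr x y 2 ≠ 0 := an 2 (by decide)
  have z0 : cr z x 0 = 0 := by
    by_contra hz0
    obtain ⟨s, hs, hs0⟩ := root_neg c0 hz0 a0
    exact (h2.tangent (by linarith [hs] : s ≠ 0) (by linarith [hs] : s ≠ -1)).1 hs0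
  by_cases z3 : cr z x 3 = 0
  · have hsum := ST.cr_sum z x
    rw [z0, z3] at hsum
    have h12 : cr z x 1 = - cr z x 2 := by linarith
    have hz2 : cr z x 2 ≠ 0 := by
      intro hz2
      obtain ⟨v, hv⟩ := (comp_ne x y z hd).2.1
      have hz1 : cr z x 1 = 0 := by rw [h12, hz2, neg_zero]
      fin_cases v
      · exact hv z0
      · exact hv hz1
      · exact hv hz2
      · exact hv z3
    have hz1 : cr z x 1 ≠ 0 := by rw [h12]; exact neg_ne_zero.2 hz2
    obtain ⟨r, s, hr1, hr0, hs1, fr, fs⟩ := two_roots c1 hz1 a1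
    have tr := h2.tangent hr0.ne hr1.ne'
    have ts := h2.tangent (by linarith : s ≠ 0) hs1.ne
    have fr2 : ff x y z r 2 = 0 := by
      rcases tr.2.2.2 fr with hh | hh
      · exact hh
      · exfalso
        have : ff x y z r 3 = (r + 1) * cr y z 3 ^ 2 := by
          simp only [ff, z3, a3]
          ring
        rw [this] at hh
        rcases mul_eq_zero.1 hh with h3 | h3
        · linarith
        · exact c3 (pow_eq_zero_iff (two_ne_zero) |>.1 h3)
    have fs2 : ff x y z s 2 = 0 := by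
      rcases ts.2.2.2 fs with hh | hh
      · exact hh
      · exact absurd (ts.2.1 hh).1 (by linarith)
    obtain ⟨e1, e2⟩ := share_two a1 a2 (by linarith : r ≠ s) fr fs fr2 fs2
    have e3 : cr x y 2 ^ 2 = cr x y 1 ^ 2 := by
      rw [h12, neg_sq] at e2
      exact mul_left_cancel₀ (pow_ne_zero 2 hz2) e2
    rw [e3] at e1
    have e4 : cr y z 1 ^ 2 = cr y z 2 ^ 2 := mul_right_cancel₀ (pow_ne_zero 2 a1) e1
    have e5 : cr y z 1 * cr y z 2 < 0 :=
      (cs 1 3 (by decide) (by decide) (by decide) (by decide) (by decide)).2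
    have e6 : cr y z 1 = - cr y z 2 := by
      rcases sq_eq_sq_iff_eq_or_eq_neg.1 e4 with h3 | h3
      · rw [h3] at e5
        nlinarith [sq_nonneg (cr y z 2)]
      · exact h3
    have hs := ST.cr_sum y z
    rw [c0, e6] at hs
    exact c3 (by linarith)
  · obtain ⟨ρ, hρ1, hρ0, fρ⟩ := root_pos c3 z3 a3
    have tρ := h2.tangent hρ0.ne hρ1.ne'
    obtain ⟨-, f1, f2⟩ := tρ.2.1 fρ
    have z2 : cr z x 2 = 0 := by
      by_contra hz2
      obtain ⟨r, s, hr1, hr0, hs1, fr, fs⟩ := two_roots c2 hz2 a2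
      have tr := h2.tangent hr0.ne hr1.ne'
      have fr1 := (tr.2.2.1 fr).1
      have := root_unique_pos hd hr1 hρ1 fr1 f1
      rw [this] at fr
      exact f2 fr
    have hp : PP z x 4 = 0 := par_edge (k := y) (by rw [C28_dt_cyc]; exact hd) 4
      (by simpa [ec] using z0) (by simpa [ed] using z2)
    have hp' : (z 1 - z 3) ^ 2 + (x 1 - x 3) ^ 2 = 0 := hp
    have hx : x 1 = x 3 := by nlinarith [sq_nonneg (z 1 - z 3), sq_nonneg (x 1 - x 3)]
    have hz : z 1 = z 3 := by nlinarith [sq_nonneg (z 1 - z 3), sq_nonneg (x 1 - x 3)]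
    have hy : y 1 - y 3 ≠ 0 := by
      intro hy
      exact hd (C28_dt_zero hx (sub_eq_zero.1 hy) hz)
    have s24 : ((x 0 - x 3) ^ 2 + (y 0 - y 3) ^ 2) * ((y 1 - y 3) ^ 2 + (z 1 - z 3) ^ 2) =
      ((x 1 - x 3) ^ 2 + (y 1 - y 3) ^ 2) * ((y 0 - y 3) ^ 2 + (z 0 - z 3) ^ 2) := h2.s24
    rw [hx, hz] at s24
    have e1 : (x 0 - x 3) ^ 2 = (z 0 - z 3) ^ 2 := by
      have h3 : ((x 0 - x 3) ^ 2 - (z 0 - z 3) ^ 2) * (y 1 - y 3) ^ 2 = 0 := by
        linear_combination s24
      rcases mul_eq_zero.1 h3 with h4 | h4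
      · linarith
      · exact absurd h4 (pow_ne_zero 2 hy)
    apply h2.n02
    change ((x 0 - x 1) ^ 2 + (y 0 - y 1) ^ 2) * ((y 0 - y 3) ^ 2 + (z 0 - z 3) ^ 2) =
      ((x 0 - x 3) ^ 2 + (y 0 - y 3) ^ 2) * ((y 0 - y 1) ^ 2 + (z 0 - z 1) ^ 2)
    rw [hx, hz, e1]
    ring

end Pool.Agent.Helper22.PN
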