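import Pool.Agent.Helper22.PN.B01Ends
import Pool.Agent.Helper22.PN.B02Split
import Pool.Agent.Helper22.PN.B04Be

/-!
# PN-C29: the excluded combinations of ends

`Hy.ends` with `be_flat`, `be_flat'`, and `split_tot` (second sum, `√(PP y z ·)`); `pat 0 2 = (π, 0, π, π/2, π/2, π/2)` for the edges
`01, 02, 03, 12, 13, 23`.
* `no_20`: `pat 2 0 = (π/2, 0, π/2, π, π/2, π)`: difference `π/2 (1, 0, 1, -1, 0, -1)`: `|01| + |03| = |12| + |23| = |13|` in the plane
  configuration `(y, z)` (`flat_mid`), contradiction to `flat_tri` (`|13| < |01| + |03|`).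
* `no_31`: `pat 3 1 = (π/2, π/2, π, π/2, 0, π)`: difference `π/2 (1, -1, 0, 0, 1, -1)`: `|01| + |13| = |02| + |23|`, with `|13| = |12| + |23|`:
  `|01| + |12| = |02|`, contradiction to `flat_tri`.
* `no_32`: `pat 3 2 = (π/2, π/2, π, π/2, π, 0)`: difference `π/2 (1, -1, 0, 0, -1, 1)`: `|01| + |23| = |02| + |13|`, so `|01| = |02| + |12|`.
-/

open Real Set
open Pool.Agent.Helper1.Tet
open Pool.Agent.Helper22.ST (PP ZZ cr dt ind)

namespace Pool.Agent.Helper22.PN

variable {x y z : Fin 4 → ℝ}

private theorem c29_pi (V m : Fin 4) (j : Fin 6) (h : ea j = V ∨ eb j = V)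
    (h' : ¬ (ea j = m ∨ eb j = m)) : pat V m j = π := by
  unfold pat
  rw [if_pos h, if_neg h']

private theorem c29_zero (V m : Fin 4) (j : Fin 6) (h : ea j = V ∨ eb j = V)
    (h' : ea j = m ∨ eb j = m) : pat V m j = 0 := by
  unfold pat
  rw [if_pos h, if_pos h']

private theorem c29_half (V m : Fin 4) (j : Fin 6) (h : ¬ (ea j = V ∨ eb j = V)) :
    pat V m j = π / 2 := by
  unfold pat
  rw [if_neg h]

private theorem c29_sum (h : Hy x y z) {V m : Fin 4} (h1 : Flat y z 0 2) (h2 : Flat x y V m) :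
    dd y z 0 1 * (π - pat V m 0) + dd y z 0 2 * (0 - pat V m 1) + dd y z 0 3 * (π - pat V m 2) +
      dd y z 1 2 * (π / 2 - pat V m 3) + dd y z 1 3 * (π / 2 - pat V m 4) +
      dd y z 2 3 * (π / 2 - pat V m 5) = 0 := by
  have e := (split_tot h.1 (fun j => be x y z j - be z y x j) (fun s hs => h.ends hs)).2
  rw [Fin.sum_univ_six] at e
  simp only [be_flat h1, be_flat' h2] at e
  rw [c29_pi 0 2 0 (by decide) (by decide), c29_zero 0 2 1 (by decide) (by decide),
    c29_pi 0 2 2 (by decide) (by decide), c29_half 0 2 3 (by decide), c29_half 0 2 4 (by decide),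
    c29_half 0 2 5 (by decide)] at e
  exact e

theorem no_20 (h : Hy x y z) (h1 : Flat y z 0 2) (h2 : Flat x y 2 0) : False := by
  have e := c29_sum h h1 h2
  rw [c29_half 2 0 0 (by decide), c29_zero 2 0 1 (by decide) (by decide),
    c29_half 2 0 2 (by decide), c29_pi 2 0 3 (by decide) (by decide), c29_half 2 0 4 (by decide),
    c29_pi 2 0 5 (by decide) (by decide)] at e
  have e1 := (flat_mid h1 (p := 1) (r := 3) (by decide) (by decide) (by decide) (by decide)
    (by decide)).2.2
  have e2 := (flat_tri h1 (p := 1) (r := 3) (by decide) (by decide) (by decide)).2.2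
  have hπ := Real.pi_pos
  have e3 : π / 2 * (dd y z 0 1 + dd y z 0 3 - dd y z 1 2 - dd y z 2 3) = 0 := by
    linear_combination e
  have e4 := (mul_eq_zero.1 e3).resolve_left (by positivity)
  linarith

theorem no_31 (h : Hy x y z) (h1 : Flat y z 0 2) (h2 : Flat x y 3 1) : False := by
  have e := c29_sum h h1 h2
  rw [c29_half 3 1 0 (by decide), c29_half 3 1 1 (by decide),
    c29_pi 3 1 2 (by decide) (by decide), c29_half 3 1 3 (by decide),
    c29_zero 3 1 4 (by decide) (by decide), c29_pi 3 1 5 (by decide) (by decide)] at e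
  have e1 := (flat_mid h1 (p := 1) (r := 3) (by decide) (by decide) (by decide) (by decide)
    (by decide)).2.2
  have e2 := (flat_tri h1 (p := 2) (r := 1) (by decide) (by decide) (by decide)).2.1
  have hπ := Real.pi_pos
  have e3 : π / 2 * (dd y z 0 1 - dd y z 0 2 + dd y z 1 3 - dd y z 2 3) = 0 := by
    linear_combination e
  have e4 := (mul_eq_zero.1 e3).resolve_left (by positivity)
  linarith

theorem no_32 (h : Hy x y z) (h1 : Flat y z 0 2) (h2 : Flat x y 3 2) : False := by
  have e := c29_sum h h1 h2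
  rw [c29_half 3 2 0 (by decide), c29_half 3 2 1 (by decide),
    c29_pi 3 2 2 (by decide) (by decide), c29_half 3 2 3 (by decide),
    c29_pi 3 2 4 (by decide) (by decide), c29_zero 3 2 5 (by decide) (by decide)] at e
  have e1 := (flat_mid h1 (p := 1) (r := 3) (by decide) (by decide) (by decide) (by decide)
    (by decide)).2.2
  have e2 := (flat_tri h1 (p := 1) (r := 2) (by decide) (by decide) (by decide)).2.1
  have hπ := Real.pi_pos
  have e5 := dd_comm y z 2 1
  have e3 : π / 2 * (dd y z 0 1 - dd y z 0 2 - dd y z 1 3 + dd y z 2 3) = 0 := by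
    linear_combination e
  have e4 := (mul_eq_zero.1 e3).resolve_left (by positivity)
  linarith

end Pool.Agent.Helper22.PN
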