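import Pool.Agent.Helper22.PN.C11TypeC
import Pool.Agent.Helper22.PN.C18TypeA
import Pool.Agent.Helper22.PN.C28TypeB
import Pool.Agent.Helper22.PN.C29Excl

/-!
# PN-C30: both ends flat: assembly

`no_ff0`: `V = 0`, middle `2`.  Cases for `(W, m)`:
* `W = 0`: `cr y z 0 = 0`, `cr x y 0 = 0`: `norm_VV`; `m = 2`: `ta_of_flat`, `TA.false`; `m = 3`: `no_c`; `m = 1`: exchange the vertices 1 and 3
  (`Hy.perm`, `Flat.perm` with `Equiv.swap 1 3`), then `no_c`.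
* `W = 3`: `m = 0`: `TB.false`; `m = 1`: `no_31`; `m = 2`: `no_32`.
* `W = 1`: exchange 1 and 3.
* `W = 2`: `m = 0`: `no_20`; `m = 3`: exchange 1 and 3; `m = 1`: apply `TB.false` to `(z ∘ τ, y ∘ τ, x ∘ τ)`, `τ 0 = 2`, `τ 1 = 3`, `τ 2 = 1`, `τ 3 = 0`
  (`Hy.swap`, `Hy.perm`, `Flat.swap`, `Flat.perm`): `Flat y x 2 1` becomes `Flat _ _ 0 2`, `Flat z y 0 2` becomes `Flat _ _ 3 0`.
`no_ff`: choose `σ` with `σ 0 = V`, `σ 2 = m`.
-/

open Real Set
open Pool.Agent.Helper1.Tet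
open Pool.Agent.Helper22.ST (PP ZZ cr dt ind)

namespace Pool.Agent.Helper22.PN

variable {x y z : Fin 4 → ℝ}

private lemma c30_w0 (h : Hy x y z) {m : Fin 4} (h1 : Flat y z 0 2) (h2 : Flat x y 0 m)
    (hm : m ≠ 1) : False := by
  obtain ⟨a, c, hy, f1, f2⟩ := norm_VV h h1.2.1 h2.2.1
  have h0 : (0 : Fin 4) ≠ m := h2.1
  fin_cases m
  · exact h0 rfl
  · exact hm rfl
  · exact TA.false (ta_of_flat hy (f1 2 h1) (f2 2 h2))
  · exact no_c a c hy (f1 2 h1) (f2 3 h2)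

private lemma c30_w3 (h : Hy x y z) {m : Fin 4} (h1 : Flat y z 0 2) (h2 : Flat x y 3 m) :
    False := by
  have h0 : (3 : Fin 4) ≠ m := h2.1
  fin_cases m
  · exact TB.false ⟨h, h1, h2⟩
  · exact no_31 h h1 h2
  · exact no_32 h h1 h2
  · exact h0 rfl

private def c30_t : Equiv.Perm (Fin 4) := ⟨![2, 3, 1, 0], ![3, 2, 0, 1], by decide, by decide⟩

private lemma c30_21 (h : Hy x y z) (h1 : Flat y z 0 2) (h2 : Flat x y 2 1) : False := by
  have a1 := h.swap.perm c30_t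
  have a2 := h2.swap.perm c30_t
  have a3 := h1.swap.perm c30_t
  exact TB.false ⟨a1, a2, a3⟩

theorem no_ff0 (h : Hy x y z) {W m : Fin 4} (h1 : Flat y z 0 2) (h2 : Flat x y W m) : False := by
  have g := h.perm (Equiv.swap 1 3)
  have g1 : Flat (y ∘ (Equiv.swap 1 3 : Equiv.Perm (Fin 4))) (z ∘ (Equiv.swap 1 3)) 0 2 :=
    h1.perm (Equiv.swap 1 3)
  have g2 := h2.perm (Equiv.swap 1 3)
  have h0 : W ≠ m := h2.1
  fin_cases W
  · by_cases hm : m = 1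
    · subst hm
      exact c30_w0 g g1 g2 (by decide)
    · exact c30_w0 h h1 h2 hm
  · exact c30_w3 g g1 g2
  · fin_cases m
    · exact no_20 h h1 h2
    · exact c30_21 h h1 h2
    · exact h0 rfl
    · exact c30_21 g g1 g2
  · exact c30_w3 h h1 h2

private lemma c30_perm : ∀ V m : Fin 4, V ≠ m →
    (Equiv.swap 0 V * Equiv.swap 2 (Equiv.swap 0 V m)).symm V = 0 ∧
      (Equiv.swap 0 V * Equiv.swap 2 (Equiv.swap 0 V m)).symm m = 2 := by decide

theorem no_ff (h : Hy x y z) {V m W m' : Fin 4} (h1 : Flat y z V m) (h2 : Flat x y W m') :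
    False := by
  obtain ⟨e1, e2⟩ := c30_perm V m h1.1
  have a1 := h1.perm (Equiv.swap 0 V * Equiv.swap 2 (Equiv.swap 0 V m))
  rw [e1, e2] at a1
  exact no_ff0 (h.perm _) a1 (h2.perm _)

end Pool.Agent.Helper22.PN
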