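import Pool.Agent.Helper22.PN.C03NoDD
import Pool.Agent.Helper22.PN.C06NoDF
import Pool.Agent.Helper22.PN.C30FF

/-!
# PN-C31: the main theorem in the normal form
-/

open Real Set
open Pool.Agent.Helper1.Tet
open Pool.Agent.Helper22.ST (PP ZZ cr dt ind)

namespace Pool.Agent.Helper22.PN

theorem dt_cyc (x y z : Fin 4 → ℝ) : dt y z x = dt x y z := by
  unfold ST.dt
  simp only [ST.cr, Matrix.cons_val_one, Matrix.cons_val_zero]
  ring

theorem no_hy {x y z : Fin 4 → ℝ} (h : Hy x y z) : False := by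
  have hd := h.1
  have hd' : dt y z x ≠ 0 := by rw [dt_cyc]; exact hd
  rcases flat_or hd' h.exists_par with ⟨V, m, h1⟩ | ⟨j, h1⟩
  · rcases flat_or hd h.exists_par' with ⟨W, m', h2⟩ | ⟨k, h2⟩
    · exact no_ff h h1 h2
    · exact no_fd h h1 h2
  · rcases flat_or hd h.exists_par' with ⟨W, m', h2⟩ | ⟨k, h2⟩
    · exact no_df h h1 h2
    · exact no_dd h h1 h2

end Pool.Agent.Helper22.PN
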