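import Pool.Agent.Helper22.ST.A03Indep

/-!
# PN: pencils of tetrahedra (MP_8ae016_co) — definitions

Normal form of a family of tetrahedra whose squared edge lengths depend linearly on a parameter: the
tetrahedron `pt x y z t`, `t > 0`, has the squared edge lengths `t X_j + (t + 1) Y_j + Z_j`, where
`X_j, Y_j, Z_j` are the squared differences of the coordinates `x, y, z` at the ends of the edge `j`.
For `t → 0` it degenerates to the plane configuration with coordinates `(y, z)`, for `t → ∞` (after division by
`√t`) to the plane configuration with coordinates `(x, y)`.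
With `N_v = (cr y z v, cr z x v, cr x y v)` (normals of the faces for the coordinates `x, y, z`)
the form `(t + 1) N_1 N_1' + t N_2 N_2' + t (t + 1) N_3 N_3'` is the inner product of the normals of the
faces of `pt x y z t`.
All letters `PP, ZZ, cr, dt, ind` are those of `ST/Defs.lean`.
-/

open Real Set
open Pool.Agent.Helper1.Tet
open Pool.Agent.Helper22.ST (PP ZZ cr dt ind)

namespace Pool.Agent.Helper22.PN

/-- the tetrahedron with the squared edge lengths `t X_j + (t + 1) Y_j + Z_j` -/
noncomputable def pt (x y z : Fin 4 → ℝ) (t : ℝ) : Fin 4 → E3 :=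
  fun i => !₂[√t * x i, √(t + 1) * y i, z i]

/-- the parameters for which the tetrahedron tiles space -/
def Tl (x y z : Fin 4 → ℝ) : Set ℝ :=
  {t | 0 < t ∧ TilesSpace (convexHull ℝ (range (pt x y z t)))}

/-- the hypothesis of the main theorem: infinitely many members in a compact part of the family tile
space -/
def Hy (x y z : Fin 4 → ℝ) : Prop :=
  dt x y z ≠ 0 ∧ ∃ a b : ℝ, 0 < a ∧ (Tl x y z ∩ Icc a b).Infinite

/-- squared length of the edge `j`: `t A_j + C_j`, `A_j = X_j + Y_j`, `C_j = Y_j + Z_j` -/
def LL (x y z : Fin 4 → ℝ) (t : ℝ) (j : Fin 6) : ℝ := t * PP x y j + PP y z j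

/-- the form of the face opposite to `v` (squared length of the normal) -/
def ff (x y z : Fin 4 → ℝ) (t : ℝ) (v : Fin 4) : ℝ :=
  (t + 1) * cr y z v ^ 2 + t * cr z x v ^ 2 + t * (t + 1) * cr x y v ^ 2

/-- derivative of `ff` with respect to `t` -/
def ff' (x y z : Fin 4 → ℝ) (t : ℝ) (v : Fin 4) : ℝ :=
  cr y z v ^ 2 + cr z x v ^ 2 + (2 * t + 1) * cr x y v ^ 2

/-- the inner product of the normals of the two faces at the edge `j` -/
def gg (x y z : Fin 4 → ℝ) (t : ℝ) (j : Fin 6) : ℝ :=
  (t + 1) * (cr y z (ec j) * cr y z (ed j)) + t * (cr z x (ec j) * cr z x (ed j)) +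
    t * (t + 1) * (cr x y (ec j) * cr x y (ed j))

/-- derivative of `gg` with respect to `t` -/
def gg' (x y z : Fin 4 → ℝ) (t : ℝ) (j : Fin 6) : ℝ :=
  cr y z (ec j) * cr y z (ed j) + cr z x (ec j) * cr z x (ed j) +
    (2 * t + 1) * (cr x y (ec j) * cr x y (ed j))

/-- the derivative of the dihedral angle at the edge `j` with respect to `t` -/
noncomputable def dl (x y z : Fin 4 → ℝ) (t : ℝ) (j : Fin 6) : ℝ :=
  (gg' x y z t j - gg x y z t j * ff' x y z t (ec j) / (2 * ff x y z t (ec j)) -
      gg x y z t j * ff' x y z t (ed j) / (2 * ff x y z t (ed j))) /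
    (√(t * (t + 1)) * |dt x y z| * √(LL x y z t j))

/-- the two-variable identity: the edge lengths of one tetrahedron of the family are orthogonal to
the derivatives of the angles of any other -/
def Ort (x y z : Fin 4 → ℝ) : Prop :=
  ∀ s t : ℝ, 0 < s → 0 < t → ∑ j, √(LL x y z s j) * dl x y z t j = 0

/-- the edges `i` and `j` are in the same class: the functions `LL` are proportional -/
def SC (x y z : Fin 4 → ℝ) (i j : Fin 6) : Prop :=
  PP x y i * PP y z j = PP x y j * PP y z i

/-- the rational relations, one for each class of edges -/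
def RatR (x y z : Fin 4 → ℝ) : Prop :=
  ∀ (e : Fin 6) (t : ℝ), 0 < t → ∑ j, ind (SC x y z e j)
    (2 * gg' x y z t j - gg x y z t j * ff' x y z t (ec j) / ff x y z t (ec j) -
      gg x y z t j * ff' x y z t (ed j) / ff x y z t (ed j)) = 0

/-- the number of the faces at the edge `j` whose form vanishes at `t` (tangent faces) -/
noncomputable def nn (x y z : Fin 4 → ℝ) (t : ℝ) (j : Fin 6) : ℝ :=
  ind (ff x y z t (ec j) = 0) 1 + ind (ff x y z t (ed j) = 0) 1

/-- the star relations: residues of the rational relations at `t` -/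
def Sta (x y z : Fin 4 → ℝ) : Prop :=
  ∀ (e : Fin 6) (t : ℝ), t ≠ -1 →
    ∑ j, ind (SC x y z e j) (nn x y z t j * gg x y z t j) = 0

/-- edge length of the member `t = 1` -/
noncomputable def uu (x y z : Fin 4 → ℝ) (j : Fin 6) : ℝ := √(PP x y j + PP y z j)

/-- the edge `j` belongs to the face opposite to the vertex `v` -/
def inF (v : Fin 4) (j : Fin 6) : Prop := ec j = v ∨ ed j = v

instance (v : Fin 4) (j : Fin 6) : Decidable (inF v j) := by unfold inF; infer_instance

/-- the limits of the exterior angles `π - α_j` for `t → 0` -/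
noncomputable def be (x y z : Fin 4 → ℝ) (j : Fin 6) : ℝ := by
  classical
  exact if PP y z j = 0 then π / 2 - arctan ((cr z x (ec j) * cr z x (ed j) +
      cr x y (ec j) * cr x y (ed j)) / (|dt x y z| * √(PP x y j)))
    else if cr y z (ec j) * cr y z (ed j) = 0 then π / 2
    else if 0 < cr y z (ec j) * cr y z (ed j) then 0 else π

/-- the plane configuration with coordinates `(f, g)`: the vertices other than `V` are different points
of a line which does not contain `V`, and `m` is the one in the middle -/
def Flat (f g : Fin 4 → ℝ) (V m : Fin 4) : Prop :=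
  V ≠ m ∧ cr f g V = 0 ∧ (∀ v, v ≠ V → cr f g v ≠ 0) ∧
    ∀ p r, p ≠ V → r ≠ V → p ≠ m → r ≠ m → p ≠ r →
      0 < cr f g p * cr f g r ∧ cr f g p * cr f g m < 0

/-- the limits of the exterior angles in the situation `Flat _ _ V m` -/
noncomputable def pat (V m : Fin 4) (j : Fin 6) : ℝ :=
  if ea j = V ∨ eb j = V then (if ea j = m ∨ eb j = m then 0 else π) else π / 2

/-- similarity of the configurations, coordinate by coordinate (with relabelling, signs, translations
and a common factor) -/
def PSim (x y z x' y' z' : Fin 4 → ℝ) : Prop :=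
  ∃ (σ : Equiv.Perm (Fin 4)) (k : ℝ), 0 < k ∧ ∀ i j,
    (x' i - x' j) ^ 2 = k ^ 2 * (x (σ i) - x (σ j)) ^ 2 ∧
      (y' i - y' j) ^ 2 = k ^ 2 * (y (σ i) - y (σ j)) ^ 2 ∧
        (z' i - z' j) ^ 2 = k ^ 2 * (z (σ i) - z (σ j)) ^ 2

end Pool.Agent.Helper22.PN
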