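import Pool.Agent.Helper22.PN.R00Defs

/-!
# PN-R01: simultaneous diagonalisation

`e i = p (i + 1) - p 0` (`i : Fin 3`) is a basis of `E3` (`affineIndependent_iff_linearIndependent_vsub`,
`basisOfLinearIndependentOfCardEqFinrank`), `M` the linear map with `M (e i) = q (i + 1) - q 0` (`Basis.constr`), injective.
`A = adjoint M ∘ M` is symmetric and positive definite; orthonormal basis of eigenvectors
(`LinearMap.IsSymmetric.eigenvectorBasis`), eigenvalues positive; sort them (exchange coordinates).  `x i, y i, z i` are the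
coordinates of `p i` in this basis (the inner products with the basis vectors); `q i - q j = M (p i - p j)`, and
`‖M v‖² = ⟪A v, v⟫ = a v₁² + b v₂² + c v₃²`.  `dt x y z ≠ 0`: the tuple of the coordinates `!₂[x i, y i, z i] = ST.tet x y z 1 i` is the image
of `p` under a linear isometry, so affinely independent: `ST.dt_ne`.
-/

open Real Set
open scoped RealInnerProductSpace
open Pool.Agent.Helper1.Tet
open Pool.Agent.Helper22.ST (PP ZZ cr dt ind gold1' gold2' gold3')

namespace Pool.Agent.Helper22.PN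

private theorem R01_lin (p : Fin 4 → E3) (hp : AffineIndependent ℝ p) :
    LinearIndependent ℝ (fun i : Fin 3 => p i.succ - p 0) := by
  have h := (affineIndependent_iff_linearIndependent_vsub ℝ p 0).1 hp
  have h2 := h.comp (fun i : Fin 3 => (⟨i.succ, Fin.succ_ne_zero i⟩ : {x : Fin 4 // x ≠ 0}))
    (by
      intro i j hij
      have := congrArg Subtype.val hij
      exact Fin.succ_injective _ this)
  exact h2

private theorem R01_map (p q : Fin 4 → E3) (hp : AffineIndependent ℝ p)
    (hq : AffineIndependent ℝ q) :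
    ∃ M : E3 →ₗ[ℝ] E3, Function.Injective M ∧ ∀ i j, M (p i - p j) = q i - q j := by
  have hf : Fintype.card (Fin 3) = Module.finrank ℝ E3 := by simp
  let b := basisOfLinearIndependentOfCardEqFinrank (R01_lin p hp) hf
  let b' := basisOfLinearIndependentOfCardEqFinrank (R01_lin q hq) hf
  have hb : ∀ i, b i = p i.succ - p 0 := fun i => by
    simp [b, coe_basisOfLinearIndependentOfCardEqFinrank]
  have hb' : ∀ i, b' i = q i.succ - q 0 := fun i => by
    simp [b', coe_basisOfLinearIndependentOfCardEqFinrank]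
  let M := b.equiv b' (Equiv.refl _)
  have h0 : ∀ i, M (p i - p 0) = q i - q 0 := by
    intro i
    refine Fin.cases ?_ (fun i => ?_) i
    · simp
    · rw [← hb, ← hb']
      simp [M]
  refine ⟨(M : E3 →ₗ[ℝ] E3), M.injective, fun i j => ?_⟩
  have h1 : p i - p j = (p i - p 0) - (p j - p 0) := by abel
  rw [h1]
  show M _ = _
  rw [map_sub, h0, h0]
  abel

theorem diag (p q : Fin 4 → E3) (hp : AffineIndependent ℝ p) (hq : AffineIndependent ℝ q) :
    ∃ (x y z : Fin 4 → ℝ) (a b c : ℝ), 0 < a ∧ a ≤ b ∧ b ≤ c ∧ dt x y z ≠ 0 ∧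
      (∀ i j, dist (p i) (p j) ^ 2 = (x i - x j) ^ 2 + (y i - y j) ^ 2 + (z i - z j) ^ 2) ∧
      ∀ i j, dist (q i) (q j) ^ 2 =
        a * (x i - x j) ^ 2 + b * (y i - y j) ^ 2 + c * (z i - z j) ^ 2 := by
  obtain ⟨M, hMi, hM⟩ := R01_map p q hp hq
  have hA : (LinearMap.adjoint M * M).IsSymmetric := LinearMap.isSymmetric_adjoint_mul_self M
  have hn : Module.finrank ℝ E3 = 3 := by simp
  let B := hA.eigenvectorBasis hn
  let lam := hA.eigenvalues hn
  have hB : ∀ i, (LinearMap.adjoint M * M) (B i) = (lam i : ℝ) • B i := fun i =>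
    hA.apply_eigenvectorBasis hn i
  have hanti : Antitone lam := hA.eigenvalues_antitone hn
  have hq2 : ∀ v : E3, ‖M v‖ ^ 2 = ∑ i, lam i * (⟪B i, v⟫) ^ 2 := by
    intro v
    have h1 : ‖M v‖ ^ 2 = ⟪(LinearMap.adjoint M * M) v, v⟫ := by
      rw [← real_inner_self_eq_norm_sq, Module.End.mul_apply, LinearMap.adjoint_inner_left]
    rw [h1, ← B.sum_inner_mul_inner]
    refine Finset.sum_congr rfl fun i _ => ?_
    rw [hA v (B i), hB, inner_smul_right, real_inner_comm (B i) v]
    ring
  have hpos : ∀ i, 0 < lam i := by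
    intro i
    have h1 := hq2 (B i)
    have h2 : ∑ j, lam j * (⟪B j, B i⟫) ^ 2 = lam i := by
      rw [Finset.sum_eq_single i]
      · rw [real_inner_self_eq_norm_sq, B.orthonormal.1 i]; ring
      · intro j _ hj
        rw [B.orthonormal.2 hj]; ring
      · intro h; exact absurd (Finset.mem_univ i) h
    rw [h2] at h1
    have h3 : M (B i) ≠ 0 := by
      intro h0
      have : B i = 0 := hMi (by rw [h0, map_zero])
      have h4 := B.orthonormal.1 i
      rw [this, norm_zero] at h4
      exact zero_ne_one h4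
    rw [← h1]
    positivity
  let Φ : E3 ≃ₗᵢ[ℝ] E3 := (B.reindex Fin.revPerm).repr
  have hΦ : ∀ (v : E3) (i : Fin 3), (Φ v) i = ⟪B (Fin.rev i), v⟫ := by
    intro v i
    simp only [Φ]
    rw [OrthonormalBasis.repr_apply_apply, OrthonormalBasis.reindex_apply]
    simp
  have hsub : ∀ (i j : Fin 4) (k : Fin 3), (Φ (p i)) k - (Φ (p j)) k = (Φ (p i - p j)) k := by
    intro i j k
    rw [map_sub]; rfl
  refine ⟨ST.cx Φ p, ST.cy Φ p, ST.cz Φ p, lam 2, lam 1, lam 0, hpos 2, hanti (by decide),
    hanti (by decide), ST.dt_coord Φ p hp, fun i j => ?_, fun i j => ?_⟩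
  · rw [dist_eq_norm, ← Φ.norm_map (p i - p j), EuclideanSpace.norm_sq_eq, Fin.sum_univ_three]
    simp only [ST.cx, ST.cy, ST.cz, hsub, Real.norm_eq_abs, sq_abs]
  · rw [dist_eq_norm, ← hM, hq2, Fin.sum_univ_three]
    simp only [ST.cx, ST.cy, ST.cz, hΦ, inner_sub_right]
    have e0 : Fin.rev (0 : Fin 3) = 2 := rfl
    have e1 : Fin.rev (1 : Fin 3) = 1 := rfl
    have e2 : Fin.rev (2 : Fin 3) = 0 := rfl
    rw [e0, e1, e2]
    ring

end Pool.Agent.Helper22.PN
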