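import Pool.Agent.Helper22.PN.R02Dp
import Pool.Agent.Helper22.PN.R01Diag
import Pool.Agent.Helper22.ST.F02Pub

/-!
# PN-R07: the easy directions

`easy_smr`: `dist (r i) (r j) ^ 2 = ((1 - s) + s t²) dist (p i) (p j) ^ 2`, the factor is positive (`r 0 ≠ r 1`), `tiles_of_dist`.
`gold_tiles`: `ST.GoldU ST.e3 (gold1' h)` with `σ = 1`, `t = 1` (`⟪e3, v⟫ = v 2`), `ST.ax_of_goldU` (the tuple is affinely independent: e.g. it is
`tet gx gy gz1 h`, `ST.dt_g1`, `ST.tet_indep`), `ST.tiles_of_ax` with the factor `1` (`stretch u 1 x = x`).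
`easy_gp`: with `R i j = hor gx gy i j` and `H i j = (gz1 i - gz1 j)²`: `dist (r (σ i)) (r (σ j)) ^ 2 = E R + F H`,
`E = (1 - s) t² + s t'²`, `F = (1 - s) t² h² + s t'² k²`.  `F > 0`: `P 0` and `P 3` have `R = 0`, `H > 0`, and `r` is injective.  `E > 0`: the triangle
`r (σ 0), r (σ 1), r (σ 3)` is not degenerate (its `heron`/Gram determinant is a positive multiple of `E F`), or: `r (σ 0) - 2 r (σ 1) + r (σ 2) ≠ 0`
in the first family, with squared length `9 E` (parallelogram identity), similarly in the others.  So `r ∘ σ` is similar to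
`gold1' √(F / E)`: `tiles_of_dist` (apply it to `p := gold1' ..`, `q := r`, with `σ⁻¹`).
`exists_btw`: `diag`, `dp_btw`, `dp_indep`.
-/

open Real Set
open scoped RealInnerProductSpace
open Pool.Agent.Helper1.Tet
open Pool.Agent.Helper22.ST (PP ZZ cr dt ind gold1' gold2' gold3' gx gy gy2 gz1 gz2 gz3)

namespace Pool.Agent.Helper22.PN

theorem easy_smr {p q : Fin 4 → E3} (hp : AffineIndependent ℝ p) (h : Smr p q)
    (hT : TilesSpace (convexHull ℝ (range p))) (s : ℝ) (r : Fin 4 → E3)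
    (hr : AffineIndependent ℝ r) (hb : Btw p q s r) : TilesSpace (convexHull ℝ (range r)) := by
  obtain ⟨t, ht, h⟩ := h
  have key : ∀ i j, dist (r i) (r j) ^ 2 = ((1 - s) + s * t ^ 2) * dist (p i) (p j) ^ 2 := by
    intro i j
    rw [hb i j, h i j]
    ring
  have hc : 0 < (1 - s) + s * t ^ 2 := by
    have h1 : 0 < dist (r 0) (r 1) := dist_pos.2 (fun h => by
      have := hr.injective h
      exact absurd this (by decide))
    have h2 := key 0 1
    have h3 : 0 < ((1 - s) + s * t ^ 2) * dist (p 0) (p 1) ^ 2 := by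
      rw [← h2]
      positivity
    exact pos_of_mul_pos_left h3 (sq_nonneg _)
  refine tiles_of_dist p r hp hr 1 (Real.sqrt_pos.2 hc) (fun i j => ?_) hT
  rw [Equiv.Perm.one_apply, Equiv.Perm.one_apply]
  refine (sq_eq_sq₀ dist_nonneg (by positivity)).1 ?_
  rw [mul_pow, Real.sq_sqrt hc.le, key]

private theorem R07_tet {x y z : Fin 4 → ℝ} (hd : dt x y z ≠ 0) {h : ℝ} (hh : 0 < h)
    {q : Fin 4 → E3} (hq : ∀ i, q i = !₂[x i, y i, h * z i]) : AffineIndependent ℝ q := by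
  have h1 : q = ST.tet x y z h := by
    funext i
    rw [hq]
    rfl
  rw [h1]
  exact ST.tet_indep x y z hd hh

private theorem R07_e3 : ‖ST.e3‖ = 1 := by
  unfold ST.e3
  simp

private theorem R07_simA (q : Fin 4 → E3) : ST.SimA ST.e3 q q := by
  refine ⟨1, 1, one_ne_zero, fun i j => ⟨by simp, ?_⟩⟩
  rw [ST.inner_e3, Equiv.Perm.one_apply, Equiv.Perm.one_apply, one_mul]
  rfl

theorem gold_tiles {h : ℝ} (hh : 0 < h) :
    (AffineIndependent ℝ (gold1' h) ∧ TilesSpace (convexHull ℝ (range (gold1' h)))) ∧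
    (AffineIndependent ℝ (gold2' h) ∧ TilesSpace (convexHull ℝ (range (gold2' h)))) ∧
    (AffineIndependent ℝ (gold3' h) ∧ TilesSpace (convexHull ℝ (range (gold3' h)))) := by
  have h1 : AffineIndependent ℝ (gold1' h) := R07_tet ST.dt_g1 hh (fun i => by
    fin_cases i <;> simp [gold1', gx, gy, gz1, mul_comm])
  have h2 : AffineIndependent ℝ (gold2' h) := R07_tet ST.dt_g2 hh (fun i => by
    fin_cases i <;> simp [gold2', gx, gy2, gz2, mul_comm])
  have h3 : AffineIndependent ℝ (gold3' h) := R07_tet ST.dt_g3 hh (fun i => by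
    fin_cases i <;> simp [gold3', gx, gy, gz3, mul_comm])
  exact ⟨⟨h1, (ST.ax_of_goldU _ h1 _ R07_e3 ⟨h, hh, Or.inl (R07_simA _)⟩).tiles⟩,
    ⟨h2, (ST.ax_of_goldU _ h2 _ R07_e3 ⟨h, hh, Or.inr (Or.inl (R07_simA _))⟩).tiles⟩,
    ⟨h3, (ST.ax_of_goldU _ h3 _ R07_e3 ⟨h, hh, Or.inr (Or.inr (R07_simA _))⟩).tiles⟩⟩

private theorem R07_ne {q : Fin 4 → E3} (hq : AffineIndependent ℝ q) (a b c : ℝ)
    (hs : a + b + c = 0) (ha : a ≠ 0) : a • q 0 + b • q 1 + c • q 2 ≠ 0 := by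
  intro h0
  rw [affineIndependent_iff_of_fintype] at hq
  have hw : ∑ i, (![a, b, c, 0] : Fin 4 → ℝ) i = 0 := by
    rw [Fin.sum_univ_four]
    simp
    exact hs
  have h1 := hq ![a, b, c, 0] hw (by
    rw [Finset.weightedVSub_eq_linear_combination (hw := hw), Fin.sum_univ_four]
    simpa using h0) 0
  exact ha (by simpa using h1)

/-- from the squared distances -/
private theorem R07_sq (x y z : E3) (a b : ℝ) :
    ‖a • (x - y) + b • (y - z)‖ ^ 2 =
      (a ^ 2 - a * b) * dist x y ^ 2 + (b ^ 2 - a * b) * dist y z ^ 2 + a * b * dist x z ^ 2 := by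
  have h1 : ‖x - z‖ ^ 2 = ‖x - y‖ ^ 2 + 2 * ⟪x - y, y - z⟫ + ‖y - z‖ ^ 2 := by
    rw [← norm_add_sq_real]
    congr 2
    abel
  rw [norm_add_sq_real, norm_smul, norm_smul, mul_pow, mul_pow, inner_smul_left, inner_smul_right,
    dist_eq_norm, dist_eq_norm, dist_eq_norm, h1]
  simp only [Real.norm_eq_abs, sq_abs, conj_trivial]
  ring

private theorem R07_main {G : ℝ → Fin 4 → E3} {R Z : Fin 4 → Fin 4 → ℝ}
    (hG : ∀ h i j, dist (G h i) (G h j) ^ 2 = R i j + h ^ 2 * Z i j)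
    (hGi : ∀ h, 0 < h → AffineIndependent ℝ (G h) ∧ TilesSpace (convexHull ℝ (range (G h))))
    {w m : ℝ} (hR03 : R 0 3 = 0) (hZ03 : 0 < Z 0 3) (hm : 0 < m)
    (hR : (1 - w) * R 0 1 + (w ^ 2 - w) * R 1 2 + w * R 0 2 = m)
    (hZ : (1 - w) * Z 0 1 + (w ^ 2 - w) * Z 1 2 + w * Z 0 2 = 0)
    {p q : Fin 4 → E3} {σ : Equiv.Perm (Fin 4)} {h k : ℝ}
    (hp : Smr (G h) (p ∘ σ)) (hq : Smr (G k) (q ∘ σ)) (s : ℝ) (r : Fin 4 → E3)
    (hr : AffineIndependent ℝ r) (hb : Btw p q s r) : TilesSpace (convexHull ℝ (range r)) := by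
  obtain ⟨t, ht, hp⟩ := hp
  obtain ⟨t', ht', hq⟩ := hq
  set E : ℝ := (1 - s) * t ^ 2 + s * t' ^ 2 with hE
  set F : ℝ := (1 - s) * t ^ 2 * h ^ 2 + s * t' ^ 2 * k ^ 2 with hF
  have hr' : AffineIndependent ℝ (r ∘ σ) := hr.comp_embedding σ.toEmbedding
  have key : ∀ i j, dist (r (σ i)) (r (σ j)) ^ 2 = E * R i j + F * Z i j := by
    intro i j
    have h1 := hp i j
    have h2 := hq i j
    simp only [Function.comp_apply] at h1 h2
    rw [hb, h1, h2, mul_pow, mul_pow, hG, hG, hE, hF]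
    ring
  have hF0 : 0 < F := by
    have h1 : 0 < dist (r (σ 0)) (r (σ 3)) := dist_pos.2 (fun h => by
      have := σ.injective (hr.injective h)
      exact absurd this (by decide))
    have h2 := key 0 3
    rw [hR03, mul_zero, zero_add] at h2
    have h3 : 0 < F * Z 0 3 := by
      rw [← h2]
      positivity
    exact pos_of_mul_pos_left h3 hZ03.le
  have hE0 : 0 < E := by
    have h1 := R07_ne hr' 1 (w - 1) (-w) (by ring) one_ne_zero
    have h2 := R07_sq (r (σ 0)) (r (σ 1)) (r (σ 2)) 1 w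
    have h3 : (1 : ℝ) • (r (σ 0) - r (σ 1)) + w • (r (σ 1) - r (σ 2)) ≠ 0 := by
      intro h4
      apply h1
      simp only [Function.comp_apply]
      rw [← h4]
      module
    have h4 : 0 < ‖(1 : ℝ) • (r (σ 0) - r (σ 1)) + w • (r (σ 1) - r (σ 2))‖ ^ 2 := by
      have := norm_pos_iff.2 h3
      positivity
    rw [h2, key, key, key] at h4
    have h5 : 0 < E * m := by
      rw [← hR]
      nlinarith [h4, hZ, congrArg (fun x => F * x) hZ]
    exact pos_of_mul_pos_left h5 hm.le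
  have hFE : 0 < F / E := div_pos hF0 hE0
  obtain ⟨hi, hT⟩ := hGi (√(F / E)) (Real.sqrt_pos.2 hFE)
  refine tiles_of_dist (G (√(F / E))) r hi hr σ⁻¹ (Real.sqrt_pos.2 hE0) (fun i j => ?_) hT
  refine (sq_eq_sq₀ dist_nonneg (by positivity)).1 ?_
  have h1 := key (σ⁻¹ i) (σ⁻¹ j)
  rw [show σ (σ⁻¹ i) = i by simp, show σ (σ⁻¹ j) = j by simp] at h1
  rw [mul_pow, Real.sq_sqrt hE0.le, hG, Real.sq_sqrt hFE.le, h1]
  field_simp

private theorem R07_dist (x y z : Fin 4 → ℝ) (q : Fin 4 → E3) (h : ℝ)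
    (hq : ∀ i, q i = !₂[x i, y i, h * z i]) (i j : Fin 4) :
    dist (q i) (q j) ^ 2 = ((x i - x j) ^ 2 + (y i - y j) ^ 2) + h ^ 2 * (z i - z j) ^ 2 := by
  rw [EuclideanSpace.dist_sq_eq, Fin.sum_univ_three, hq, hq]
  simp only [Real.dist_eq, sq_abs]
  simp
  ring

theorem easy_gp {p q : Fin 4 → E3} (h : GP p q) (s : ℝ) (r : Fin 4 → E3)
    (hr : AffineIndependent ℝ r) (hb : Btw p q s r) : TilesSpace (convexHull ℝ (range r)) := by
  have h3 : (√3 : ℝ) ^ 2 = 3 := Real.sq_sqrt (by norm_num)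
  obtain ⟨σ, h, k, hh, hk, ⟨h1, h2⟩ | ⟨h1, h2⟩ | ⟨h1, h2⟩⟩ := h
  · refine R07_main (G := gold1') (w := -1) (m := 9) (fun h i j => R07_dist gx gy gz1 _ h ?_ i j)
      (fun h hh => (gold_tiles hh).1) ?_ ?_ (by norm_num) ?_ ?_ h1 h2 s r hr hb
    · intro i
      fin_cases i <;> simp [gold1', gx, gy, gz1, mul_comm]
    · simp [gx, gy]
    · simp [gz1]
    · simp [gx, gy]
      linear_combination (9/4) * h3
    · simp [gz1]
      norm_num
  · refine R07_main (G := gold2') (w := -2) (m := 9) (fun h i j => R07_dist gx gy2 gz2 _ h ?_ i j)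
      (fun h hh => (gold_tiles hh).2.1) ?_ ?_ (by norm_num) ?_ ?_ h1 h2 s r hr hb
    · intro i
      fin_cases i <;> simp [gold2', gx, gy2, gz2, mul_comm]
    · simp [gx, gy2]
    · simp [gz2]
    · simp [gx, gy2]
      linear_combination (9/4) * h3
    · simp [gz2]
      norm_num
  · refine R07_main (G := gold3') (w := -1) (m := 9) (fun h i j => R07_dist gx gy gz3 _ h ?_ i j)
      (fun h hh => (gold_tiles hh).2.2) ?_ ?_ (by norm_num) ?_ ?_ h1 h2 s r hr hb
    · intro i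
      fin_cases i <;> simp [gold3', gx, gy, gz3, mul_comm]
    · simp [gx, gy]
    · simp [gz3]
    · simp [gx, gy]
      linear_combination (9/4) * h3
    · simp [gz3]
      norm_num

theorem exists_btw {p q : Fin 4 → E3} (hp : AffineIndependent ℝ p) (hq : AffineIndependent ℝ q)
    {s : ℝ} (hs : s ∈ Icc (0 : ℝ) 1) : ∃ r, AffineIndependent ℝ r ∧ Btw p q s r := by
  obtain ⟨x, y, z, a, b, c, ha, hab, hbc, hd, h1, h2⟩ := diag p q hp hq
  have hb : 0 < b := ha.trans_le hab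
  have hc : 0 < c := hb.trans_le hbc
  obtain ⟨⟨ha', hb', hc'⟩, h3⟩ := dp_btw ha hb hc h1 h2 hs
  exact ⟨_, dp_indep hd ha' hb' hc', h3⟩

end Pool.Agent.Helper22.PN
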