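import Pool.Agent.Helper22.PN.R07Easy
import Pool.Agent.Helper22.ST.F03PubInf
import Pool.Agent.Helper22.FF.Isom

/-!
# PN-R08: axial tilings

`gp_ax`: let `p ∘ σ` be similar to `g h` with the factor `t > 0` and `q ∘ σ` to `g k` with the factor `t'`, `g = gold1'` etc.  The tuples
`p ∘ σ` and `t • g h` have the same distances: `exists_isometry` (Helper22/FF/Isom; `t • g h` affinely independent, `gold_tiles`) gives
`φ : E3 ≃ᵢ E3` with `p (σ i) = φ (t • g h i)`; let `L` be its linear part (`toRealAffineIsometryEquiv`, `linearIsometryEquiv`) and `u = L e3`.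
`⟪u, p (σ i) - p (σ j)⟫ = t (g h i 2 - g h j 2)`, so `ST.SimA u p (g h)`, `ST.GoldU u p`, `ST.ax_of_goldU`.  With `κ = k / h`: `ST.dist_stretch`:
`dist (stretch u κ (p (σ i))) (..) ^ 2 = t² (R + h² H) + (κ² - 1) t² h² H = t² dist (g k i) (g k j) ^ 2` where
`dist (g h i) (g h j) ^ 2 = R + h² H`.  So `q` is similar to `stretch u κ ∘ p` with the factor `t' / t`.
`ax_gp`: `ST.tiles_of_ax` for all factors and `ST.goldU_of_inf` (on `[1, 2]`) give `ST.GoldU u p`: `σ, t, h₀`; the same computation shows that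
`stretch u h ∘ p ∘ σ` is similar to `g (h h₀)` with the factor `|t|`.
-/

open Real Set
open scoped RealInnerProductSpace
open Pool.Agent.Helper1.Tet
open Pool.Agent.Helper22.ST (PP ZZ cr dt ind gold1' gold2' gold3')

namespace Pool.Agent.Helper22.PN

private def R08Axial_Fam (g : ℝ → Fin 4 → E3) : Prop :=
  ∃ x y z : Fin 4 → ℝ, ∀ h i, g h i = !₂[x i, y i, h * z i]

private theorem R08Axial_fam1 : R08Axial_Fam gold1' := by
  refine ⟨ST.gx, ST.gy, ST.gz1, fun h i => ?_⟩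
  fin_cases i <;> simp [gold1', ST.gx, ST.gy, ST.gz1, mul_comm]

private theorem R08Axial_fam2 : R08Axial_Fam gold2' := by
  refine ⟨ST.gx, ST.gy2, ST.gz2, fun h i => ?_⟩
  fin_cases i <;> simp [gold2', ST.gx, ST.gy2, ST.gz2, mul_comm]

private theorem R08Axial_fam3 : R08Axial_Fam gold3' := by
  refine ⟨ST.gx, ST.gy, ST.gz3, fun h i => ?_⟩
  fin_cases i <;> simp [gold3', ST.gx, ST.gy, ST.gz3, mul_comm]

private theorem R08Axial_dist {g : ℝ → Fin 4 → E3} {x y z : Fin 4 → ℝ}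
    (hg : ∀ h i, g h i = !₂[x i, y i, h * z i]) (h : ℝ) (i j : Fin 4) :
    dist (g h i) (g h j) ^ 2 = ST.hor x y i j + (h * (z i - z j)) ^ 2 := by
  rw [EuclideanSpace.dist_sq_eq, Fin.sum_univ_three, hg, hg]
  simp only [Real.dist_eq, sq_abs, ST.hor]
  simp
  ring

private theorem R08Axial_z {g : ℝ → Fin 4 → E3} {x y z : Fin 4 → ℝ}
    (hg : ∀ h i, g h i = !₂[x i, y i, h * z i]) (h : ℝ) (i j : Fin 4) :
    g h i 2 - g h j 2 = h * (z i - z j) := by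
  rw [hg, hg]
  simp
  ring

/-- the stretched tuple has the distances of the member with the parameter `κ h` -/
private theorem R08Axial_str {g : ℝ → Fin 4 → E3} (hg : R08Axial_Fam g) {u : E3} (hu : ‖u‖ = 1)
    {h κ t : ℝ} {a b : E3} {i j : Fin 4}
    (h1 : dist a b = |t| * dist (g h i) (g h j)) (h2 : ⟪u, a - b⟫ = t * (g h i 2 - g h j 2)) :
    dist (ST.stretch u κ a) (ST.stretch u κ b) = |t| * dist (g (κ * h) i) (g (κ * h) j) := by
  obtain ⟨x, y, z, hg⟩ := hg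
  have e1 := ST.dist_stretch u hu κ a b
  rw [h1, h2, R08Axial_z hg, mul_pow, R08Axial_dist hg, sq_abs] at e1
  have e2 : dist (ST.stretch u κ a) (ST.stretch u κ b) ^ 2 =
      (|t| * dist (g (κ * h) i) (g (κ * h) j)) ^ 2 := by
    rw [e1, mul_pow |t|, R08Axial_dist hg, sq_abs]
    ring
  exact (sq_eq_sq₀ dist_nonneg (mul_nonneg (abs_nonneg _) dist_nonneg)).1 e2

private theorem R08Axial_simA {g : ℝ → Fin 4 → E3} (hg : R08Axial_Fam g) {p q : Fin 4 → E3}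
    (hp : AffineIndependent ℝ p) (σ : Equiv.Perm (Fin 4)) {h k : ℝ} (hh : 0 < h)
    (hp' : Smr (g h) (p ∘ σ)) (hq' : Smr (g k) (q ∘ σ)) :
    ∃ u : E3, ‖u‖ = 1 ∧ ST.SimA u p (g h) ∧
      Smr (fun i => ST.stretch u (k / h) (p i)) q := by
  obtain ⟨t, ht, h1⟩ := hp'
  obtain ⟨t', ht', h2⟩ := hq'
  have hps : AffineIndependent ℝ (p ∘ σ) := hp.comp_embedding σ.toEmbedding
  obtain ⟨φ, hφ⟩ := Pool.Agent.Helper22.FF.exists_isometry (p ∘ σ) (fun i => t • g h i) hps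
    (fun a b => by rw [h1, dist_smul₀, Real.norm_eq_abs, abs_of_pos ht])
  obtain ⟨L, hL⟩ : ∃ L : E3 ≃ₗᵢ[ℝ] E3, ∀ x y, φ x - φ y = L (x - y) := by
    refine ⟨φ.toRealAffineIsometryEquiv.linearIsometryEquiv, fun x y => ?_⟩
    have := φ.toRealAffineIsometryEquiv.map_vsub x y
    rw [vsub_eq_sub, vsub_eq_sub] at this
    rw [this]
    rfl
  have hin : ∀ i j, ⟪L.symm ST.e3, p (σ i) - p (σ j)⟫ = t * (g h i 2 - g h j 2) := by
    intro i j
    have e1 : ⟪L.symm ST.e3, p (σ i) - p (σ j)⟫ = ⟪ST.e3, L (p (σ i) - p (σ j))⟫ := by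
      rw [← L.inner_map_map, L.apply_symm_apply]
    have e2 : φ (p (σ i)) = t • g h i := (congrFun hφ i).symm
    have e3 : φ (p (σ j)) = t • g h j := (congrFun hφ j).symm
    rw [e1, ← hL, e2, e3, ST.inner_e3, ← smul_sub]
    simp
  have hu : ‖L.symm ST.e3‖ = 1 := by rw [L.symm.norm_map, ST.norm_e3]
  have h1' : ∀ i j, dist (p (σ i)) (p (σ j)) = |t| * dist (g h i) (g h j) := fun i j => by
    rw [abs_of_pos ht]
    exact h1 i j
  refine ⟨L.symm ST.e3, hu, ⟨σ, t, ht.ne', fun i j => ⟨h1' i j, hin i j⟩⟩, t' / t,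
    div_pos ht' ht, fun i j => ?_⟩
  obtain ⟨a, rfl⟩ := σ.surjective i
  obtain ⟨b, rfl⟩ := σ.surjective j
  have e4 := R08Axial_str hg hu (κ := k / h) (h1' a b) (hin a b)
  rw [div_mul_cancel₀ _ hh.ne', abs_of_pos ht] at e4
  show dist (q (σ a)) (q (σ b)) = t' / t * dist (ST.stretch _ _ (p (σ a))) (ST.stretch _ _ (p (σ b)))
  rw [e4]
  have e5 : dist (q (σ a)) (q (σ b)) = t' * dist (g k a) (g k b) := h2 a b
  rw [e5]
  field_simp

theorem gp_ax {p q : Fin 4 → E3} (hp : AffineIndependent ℝ p) (h : GP p q) :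
    ∃ u : E3, ‖u‖ = 1 ∧ ST.AxT u (convexHull ℝ (range p)) ∧
      ∃ κ : ℝ, 0 < κ ∧ Smr (fun i => ST.stretch u κ (p i)) q := by
  obtain ⟨σ, h, k, hh, hk, ⟨h1, h2⟩ | ⟨h1, h2⟩ | ⟨h1, h2⟩⟩ := h
  · obtain ⟨u, hu, hS, hs⟩ := R08Axial_simA R08Axial_fam1 hp σ hh h1 h2
    exact ⟨u, hu, ST.ax_of_goldU p hp u hu ⟨h, hh, Or.inl hS⟩, k / h, div_pos hk hh, hs⟩
  · obtain ⟨u, hu, hS, hs⟩ := R08Axial_simA R08Axial_fam2 hp σ hh h1 h2
    exact ⟨u, hu, ST.ax_of_goldU p hp u hu ⟨h, hh, Or.inr (Or.inl hS)⟩, k / h, div_pos hk hh, hs⟩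
  · obtain ⟨u, hu, hS, hs⟩ := R08Axial_simA R08Axial_fam3 hp σ hh h1 h2
    exact ⟨u, hu, ST.ax_of_goldU p hp u hu ⟨h, hh, Or.inr (Or.inr hS)⟩, k / h, div_pos hk hh, hs⟩

private theorem R08Axial_back {g : ℝ → Fin 4 → E3} (hg : R08Axial_Fam g) {p q : Fin 4 → E3}
    {u : E3} (hu : ‖u‖ = 1) {κ h : ℝ} (hS : ST.SimA u p (g h))
    (hq : Smr (fun i => ST.stretch u κ (p i)) q) :
    ∃ σ : Equiv.Perm (Fin 4), Smr (g h) (p ∘ σ) ∧ Smr (g (κ * h)) (q ∘ σ) := by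
  obtain ⟨σ, t, ht, hS⟩ := hS
  obtain ⟨t', ht', hq⟩ := hq
  refine ⟨σ, ⟨|t|, abs_pos.2 ht, fun i j => (hS i j).1⟩, t' * |t|,
    mul_pos ht' (abs_pos.2 ht), fun i j => ?_⟩
  have e1 := R08Axial_str hg hu (κ := κ) (hS i j).1 (hS i j).2
  have e2 : dist (q (σ i)) (q (σ j)) =
      t' * dist (ST.stretch u κ (p (σ i))) (ST.stretch u κ (p (σ j))) := hq _ _
  show dist (q (σ i)) (q (σ j)) = _
  rw [e2, e1, mul_assoc]

theorem ax_gp {p q : Fin 4 → E3} (hp : AffineIndependent ℝ p) {u : E3} (hu : ‖u‖ = 1)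
    (hA : ST.AxT u (convexHull ℝ (range p))) {κ : ℝ} (hκ : 0 < κ)
    (h : Smr (fun i => ST.stretch u κ (p i)) q) : GP p q := by
  have hG : ST.GoldU u p := by
    refine ST.goldU_of_inf p hp u hu (a := 1) (b := 2) one_pos ?_
    have e : {h : ℝ | h ∈ Icc (1 : ℝ) 2 ∧ TilesSpace (ST.stretch u h '' convexHull ℝ (range p))} =
        Icc 1 2 := by
      ext s
      exact ⟨fun hs => hs.1, fun hs => ⟨hs, ST.tiles_of_ax p u hu hA s (one_pos.trans_le hs.1)⟩⟩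
    rw [e]
    exact Icc_infinite one_lt_two
  obtain ⟨h₀, hh₀, hS | hS | hS⟩ := hG
  · obtain ⟨σ, h1, h2⟩ := R08Axial_back R08Axial_fam1 hu hS h
    exact ⟨σ, h₀, κ * h₀, hh₀, mul_pos hκ hh₀, Or.inl ⟨h1, h2⟩⟩
  · obtain ⟨σ, h1, h2⟩ := R08Axial_back R08Axial_fam2 hu hS h
    exact ⟨σ, h₀, κ * h₀, hh₀, mul_pos hκ hh₀, Or.inr (Or.inl ⟨h1, h2⟩)⟩
  · obtain ⟨σ, h1, h2⟩ := R08Axial_back R08Axial_fam3 hu hS h
    exact ⟨σ, h₀, κ * h₀, hh₀, mul_pos hκ hh₀, Or.inr (Or.inr ⟨h1, h2⟩)⟩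

end Pool.Agent.Helper22.PN
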