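import Pool.Agent.Helper22.PN.R06Hard
import Pool.Agent.Helper22.PN.R07Easy
import Pool.Agent.Helper22.PN.R08Axial

/-!
# PN: the main theorem (internal form)
-/

open Real Set
open Pool.Agent.Helper1.Tet

namespace Pool.Agent.Helper22.PN

theorem main_tfae (p q : Fin 4 → E3) (hp : AffineIndependent ℝ p) (hq : AffineIndependent ℝ q) :
    List.TFAE [
      {s : ℝ | s ∈ Icc (0 : ℝ) 1 ∧ ∃ r, Btw p q s r ∧
        TilesSpace (convexHull ℝ (range r))}.Infinite,
      ∀ (s : ℝ) (r : Fin 4 → E3), AffineIndependent ℝ r → Btw p q s r →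
        TilesSpace (convexHull ℝ (range r)),
      (Smr p q ∧ TilesSpace (convexHull ℝ (range p))) ∨ GP p q,
      (Smr p q ∧ TilesSpace (convexHull ℝ (range p))) ∨ ∃ u : E3, ‖u‖ = 1 ∧
        ST.AxT u (convexHull ℝ (range p)) ∧
        ∃ κ : ℝ, 0 < κ ∧ Smr (fun i => ST.stretch u κ (p i)) q] := by
  tfae_have 1 → 3 := line_hard hp hq
  tfae_have 3 → 2 := by
    rintro (⟨h1, h2⟩ | h) s r hr hb
    · exact easy_smr hp h1 h2 s r hr hb
    · exact easy_gp h s r hr hb
  tfae_have 2 → 1 := by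
    intro h
    refine (Icc_infinite (zero_lt_one : (0 : ℝ) < 1)).mono ?_
    intro s hs
    obtain ⟨r, hr, hb⟩ := exists_btw hp hq hs
    exact ⟨hs, r, hb, h s r hr hb⟩
  tfae_have 3 → 4 := by
    rintro (h | h)
    · exact Or.inl h
    · exact Or.inr (gp_ax hp h)
  tfae_have 4 → 3 := by
    rintro (h | ⟨u, hu, hA, κ, hκ, h⟩)
    · exact Or.inl h
    · exact Or.inr (ax_gp hp hu hA hκ h)
  tfae_finish

end Pool.Agent.Helper22.PN
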