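import Pool.Agent.Helper22.PN.Defs
import Pool.Agent.Helper22.ST.F02Pub

/-!
# PN-R00: segments between two tetrahedra — definitions
-/

open Real Set
open scoped RealInnerProductSpace
open Pool.Agent.Helper1.Tet
open Pool.Agent.Helper22.ST (PP ZZ cr dt ind gold1' gold2' gold3')

namespace Pool.Agent.Helper22.PN

/-- the squared edge lengths of `r` are the combination with parameter `s` of those of `p` and `q` -/
def Btw (p q : Fin 4 → E3) (s : ℝ) (r : Fin 4 → E3) : Prop :=
  ∀ i j, dist (r i) (r j) ^ 2 = (1 - s) * dist (p i) (p j) ^ 2 + s * dist (q i) (q j) ^ 2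

/-- similar (as labelled tetrahedra) -/
def Smr (p q : Fin 4 → E3) : Prop :=
  ∃ t : ℝ, 0 < t ∧ ∀ i j, dist (q i) (q j) = t * dist (p i) (p j)

/-- both tetrahedra belong to the same one of Goldberg's families, with the same labelling -/
def GP (p q : Fin 4 → E3) : Prop :=
  ∃ (σ : Equiv.Perm (Fin 4)) (h k : ℝ), 0 < h ∧ 0 < k ∧
    ((Smr (gold1' h) (p ∘ σ) ∧ Smr (gold1' k) (q ∘ σ)) ∨
      (Smr (gold2' h) (p ∘ σ) ∧ Smr (gold2' k) (q ∘ σ)) ∨
      (Smr (gold3' h) (p ∘ σ) ∧ Smr (gold3' k) (q ∘ σ)))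

/-- the tetrahedron with the squared edge lengths `a X + b Y + c Z` -/
noncomputable def dp (x y z : Fin 4 → ℝ) (a b c : ℝ) : Fin 4 → E3 :=
  fun i => !₂[√a * x i, √b * y i, √c * z i]

end Pool.Agent.Helper22.PN
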