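import Pool.Agent.Helper22.PN.R00Defs
import Pool.Agent.Helper22.PN.A14Sim
import Pool.Agent.Helper22.FF.Isom

/-!
# PN-R02: the members of a segment in diagonal coordinates

`dp_dist`: as `dist_pt_sq`.  `dp_indep`: `dp x y z a b c` is `ST.tet` with scaled coordinates (`h = 1`), `dt_scale`, `ST.tet_indep`.
`indep_of_dist`: `exists_isometry` (Helper22/FF/Isom).
`tiles_dp`: `tiles_of_dist` (PN/A14Sim) with `k = 1`, `σ = 1`: `r` and `dp ...` have the same distances (`Btw`, `dp_dist`).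
-/

open Real Set
open scoped RealInnerProductSpace
open Pool.Agent.Helper1.Tet
open Pool.Agent.Helper22.ST (PP ZZ cr dt ind gold1' gold2' gold3')

namespace Pool.Agent.Helper22.PN

theorem dp_dist (x y z : Fin 4 → ℝ) {a b c : ℝ} (ha : 0 ≤ a) (hb : 0 ≤ b) (hc : 0 ≤ c)
    (i j : Fin 4) : dist (dp x y z a b c i) (dp x y z a b c j) ^ 2 =
      a * (x i - x j) ^ 2 + b * (y i - y j) ^ 2 + c * (z i - z j) ^ 2 := by
  rw [EuclideanSpace.dist_eq, Real.sq_sqrt (Finset.sum_nonneg fun _ _ => sq_nonneg _),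
    Fin.sum_univ_three]
  simp only [dp, Real.dist_eq, sq_abs]
  simp
  linear_combination (x i - x j) ^ 2 * Real.sq_sqrt ha + (y i - y j) ^ 2 * Real.sq_sqrt hb +
    (z i - z j) ^ 2 * Real.sq_sqrt hc

theorem dp_indep {x y z : Fin 4 → ℝ} (hd : dt x y z ≠ 0) {a b c : ℝ} (ha : 0 < a) (hb : 0 < b)
    (hc : 0 < c) : AffineIndependent ℝ (dp x y z a b c) := by
  have h1 : dp x y z a b c =
      ST.tet (fun i => √a * x i) (fun i => √b * y i) (fun i => √c * z i) 1 := by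
    funext i
    simp [dp, ST.tet]
  rw [h1]
  refine ST.tet_indep _ _ _ ?_ one_pos
  rw [dt_scale]
  have h2 := Real.sqrt_pos.2 ha
  have h3 := Real.sqrt_pos.2 hb
  have h4 := Real.sqrt_pos.2 hc
  exact mul_ne_zero (mul_ne_zero (mul_ne_zero h2.ne' h3.ne') h4.ne') hd

theorem indep_of_dist {p q : Fin 4 → E3} (hp : AffineIndependent ℝ p)
    (h : ∀ i j, dist (p i) (p j) = dist (q i) (q j)) : AffineIndependent ℝ q := by
  obtain ⟨g, rfl⟩ := Pool.Agent.Helper22.FF.exists_isometry p q hp h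
  have h1 := hp.map' g.toRealAffineIsometryEquiv.toAffineEquiv.toAffineMap
    g.toRealAffineIsometryEquiv.toAffineEquiv.injective
  have h2 : (g.toRealAffineIsometryEquiv.toAffineEquiv.toAffineMap : E3 → E3) ∘ p = g ∘ p := by
    funext i
    simp
  rw [h2] at h1
  exact h1

/-- the member with parameter `s` of the segment from `p` to `q` -/
theorem dp_btw {p q : Fin 4 → E3} {x y z : Fin 4 → ℝ} {a b c : ℝ} (ha : 0 < a) (hb : 0 < b)
    (hc : 0 < c)
    (hp : ∀ i j, dist (p i) (p j) ^ 2 = (x i - x j) ^ 2 + (y i - y j) ^ 2 + (z i - z j) ^ 2)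
    (hq : ∀ i j, dist (q i) (q j) ^ 2 =
      a * (x i - x j) ^ 2 + b * (y i - y j) ^ 2 + c * (z i - z j) ^ 2) {s : ℝ}
    (hs : s ∈ Icc (0 : ℝ) 1) : (0 < 1 + s * (a - 1) ∧ 0 < 1 + s * (b - 1) ∧ 0 < 1 + s * (c - 1)) ∧
      Btw p q s (dp x y z (1 + s * (a - 1)) (1 + s * (b - 1)) (1 + s * (c - 1))) := by
  obtain ⟨hs0, hs1⟩ := hs
  have key : ∀ u : ℝ, 0 < u → 0 < 1 + s * (u - 1) := by
    intro u hu
    rcases hs0.eq_or_lt with h | h
    · rw [← h]
      simp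
    · have h2 := mul_pos h hu
      nlinarith
  refine ⟨⟨key a ha, key b hb, key c hc⟩, ?_⟩
  intro i j
  rw [dp_dist x y z (key a ha).le (key b hb).le (key c hc).le, hp, hq]
  ring

theorem tiles_dp {p q : Fin 4 → E3} {x y z : Fin 4 → ℝ} {a b c : ℝ} (hd : dt x y z ≠ 0)
    (ha : 0 < a) (hb : 0 < b) (hc : 0 < c)
    (hp : ∀ i j, dist (p i) (p j) ^ 2 = (x i - x j) ^ 2 + (y i - y j) ^ 2 + (z i - z j) ^ 2)
    (hq : ∀ i j, dist (q i) (q j) ^ 2 =
      a * (x i - x j) ^ 2 + b * (y i - y j) ^ 2 + c * (z i - z j) ^ 2) {s : ℝ}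
    (hs : s ∈ Icc (0 : ℝ) 1) {r : Fin 4 → E3} (hr : Btw p q s r)
    (hT : TilesSpace (convexHull ℝ (range r))) :
    TilesSpace (convexHull ℝ
      (range (dp x y z (1 + s * (a - 1)) (1 + s * (b - 1)) (1 + s * (c - 1))))) := by
  obtain ⟨⟨h1, h2, h3⟩, h4⟩ := dp_btw ha hb hc hp hq hs
  have h5 := dp_indep hd h1 h2 h3
  have h6 : ∀ i j, dist (dp x y z (1 + s * (a - 1)) (1 + s * (b - 1)) (1 + s * (c - 1)) i)
      (dp x y z (1 + s * (a - 1)) (1 + s * (b - 1)) (1 + s * (c - 1)) j) =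
        dist (r i) (r j) := by
    intro i j
    have h7 := (h4 i j).trans (hr i j).symm
    exact (pow_left_inj₀ dist_nonneg dist_nonneg two_ne_zero).1 h7
  refine tiles_of_dist r _ (indep_of_dist h5 h6) h5 1 one_pos ?_ hT
  intro i j
  rw [one_mul]
  exact h6 i j

end Pool.Agent.Helper22.PN
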