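import Pool.Agent.Helper22.PN.R02Dp

/-!
# PN-R03: three different eigenvalues

`e1 = 1 + s (a - 1)`, `e2 = 1 + s (b - 1)`, `e3 = 1 + s (c - 1)`, all positive on `[0, 1]`; with `α = (c - b) / (c - a) > 0`,
`β = (b - a) / (c - a) > 0`: `e2 = α e1 + β e3`.  Put `x' = √(β / α) x`, `y' = √β y`, `z' = z` and `t = (α / β) (e1 / e3)`; then
`e1 X + e2 Y + e3 Z = e3 (t X' + (t + 1) Y' + Z')`, so `dp x y z e1 e2 e3` and `pt x' y' z' t` are similar with factor `√e3` and
`t ∈ Tl x' y' z'` (`tiles_of_dist`, `dp_dist`, `dist_pt_sq`).  The map `s ↦ t(s)` is injective on `[0, 1]` (Möbius map with determinant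
`≠ 0` as `a ≠ c`), continuous and positive, so its values are in a compact interval of positive numbers
(e.g. `α a / (β (1 + c)) ≤ t ≤ ...` or by compactness).  `dt x' y' z' ≠ 0`: `dt_scale`.
-/

open Real Set
open scoped RealInnerProductSpace
open Pool.Agent.Helper1.Tet
open Pool.Agent.Helper22.ST (PP ZZ cr dt ind gold1' gold2' gold3')

namespace Pool.Agent.Helper22.PN

private theorem R03_dist {x y z : Fin 4 → ℝ} {α β e1 e2 e3 : ℝ} (hα : 0 < α) (hβ : 0 < β)
    (h1 : 0 < e1) (h2 : 0 < e2) (h3 : 0 < e3) (he : e2 = α * e1 + β * e3) (i j : Fin 4) :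
    dist (pt (fun i => √(β / α) * x i) (fun i => √β * y i) z (α / β * (e1 / e3)) i)
        (pt (fun i => √(β / α) * x i) (fun i => √β * y i) z (α / β * (e1 / e3)) j) =
      (√e3)⁻¹ * dist (dp x y z e1 e2 e3 i) (dp x y z e1 e2 e3 j) := by
  have ht : 0 < α / β * (e1 / e3) := by positivity
  have hs3 : 0 < √e3 := Real.sqrt_pos.2 h3
  have q3 : √e3 ^ 2 = e3 := Real.sq_sqrt h3.le
  have qb : √β ^ 2 = β := Real.sq_sqrt hβ.le
  have qa : √(β / α) ^ 2 = β / α := Real.sq_sqrt (div_pos hβ hα).le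
  have key : dist (pt (fun i => √(β / α) * x i) (fun i => √β * y i) z (α / β * (e1 / e3)) i)
        (pt (fun i => √(β / α) * x i) (fun i => √β * y i) z (α / β * (e1 / e3)) j) ^ 2 =
      ((√e3)⁻¹ * dist (dp x y z e1 e2 e3 i) (dp x y z e1 e2 e3 j)) ^ 2 := by
    rw [dist_pt_sq _ _ _ ht, mul_pow, dp_dist x y z h1.le h2.le h3.le, inv_pow, q3]
    have k1 : (√(β / α) * x i - √(β / α) * x j) ^ 2 = β / α * (x i - x j) ^ 2 := by
      rw [← mul_sub, mul_pow, qa]
    have k2 : (√β * y i - √β * y j) ^ 2 = β * (y i - y j) ^ 2 := by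
      rw [← mul_sub, mul_pow, qb]
    rw [k1, k2, he]
    field_simp
    try ring
  have n1 : 0 ≤ (√e3)⁻¹ * dist (dp x y z e1 e2 e3 i) (dp x y z e1 e2 e3 j) := by positivity
  exact (sq_eq_sq₀ dist_nonneg n1).1 key

theorem three {x y z : Fin 4 → ℝ} {a b c : ℝ} (hd : dt x y z ≠ 0) (ha : 0 < a) (hab : a < b)
    (hbc : b < c) {S : Set ℝ} (hS : S.Infinite) (hs : ∀ s ∈ S, s ∈ Icc (0 : ℝ) 1 ∧
      TilesSpace (convexHull ℝ
        (range (dp x y z (1 + s * (a - 1)) (1 + s * (b - 1)) (1 + s * (c - 1)))))) :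
    ∃ x' y' z' : Fin 4 → ℝ, Hy x' y' z' := by
  have hac : 0 < c - a := by linarith
  obtain ⟨α, hαd⟩ : ∃ α, α = (c - b) / (c - a) := ⟨_, rfl⟩
  obtain ⟨β, hβd⟩ : ∃ β, β = (b - a) / (c - a) := ⟨_, rfl⟩
  have hα : 0 < α := by rw [hαd]; exact div_pos (by linarith) hac
  have hβ : 0 < β := by rw [hβd]; exact div_pos (by linarith) hac
  have hrel : ∀ s : ℝ, 1 + s * (b - 1) = α * (1 + s * (a - 1)) + β * (1 + s * (c - 1)) := by
    intro s
    rw [hαd, hβd]
    field_simp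
    ring
  -- bounds
  have hpos : ∀ (u s : ℝ), 0 < u → s ∈ Icc (0 : ℝ) 1 →
      min 1 u ≤ 1 + s * (u - 1) ∧ 1 + s * (u - 1) ≤ max 1 u := by
    intro u s hu hs
    obtain ⟨h0, h1⟩ := hs
    have m1 : min 1 u ≤ 1 := min_le_left _ _
    have m2 : min 1 u ≤ u := min_le_right _ _
    have m3 : 1 ≤ max 1 u := le_max_left _ _
    have m4 : u ≤ max 1 u := le_max_right _ _
    constructor
    · nlinarith [mul_nonneg h0 (sub_nonneg.2 m2), mul_nonneg (sub_nonneg.2 h1) (sub_nonneg.2 m1)]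
    · nlinarith [mul_nonneg h0 (sub_nonneg.2 m4), mul_nonneg (sub_nonneg.2 h1) (sub_nonneg.2 m3)]
  have hc : 0 < c := by linarith
  have hb : 0 < b := by linarith
  have hma : 0 < min 1 a := lt_min one_pos ha
  have hmb : 0 < min 1 b := lt_min one_pos hb
  have hmc : 0 < min 1 c := lt_min one_pos hc
  have hMa : 0 < max 1 a := lt_of_lt_of_le one_pos (le_max_left _ _)
  have hMc : 0 < max 1 c := lt_of_lt_of_le one_pos (le_max_left _ _)
  refine ⟨fun i => √(β / α) * x i, fun i => √β * y i, z, ?_, α / β * (min 1 a / max 1 c),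
    α / β * (max 1 a / min 1 c), by positivity, ?_⟩
  · have h := dt_scale x y z (√(β / α)) (√β) 1
    simp only [one_mul, mul_one] at h
    rw [h]
    have q1 : √(β / α) ≠ 0 := (Real.sqrt_pos.2 (div_pos hβ hα)).ne'
    have q2 : √β ≠ 0 := (Real.sqrt_pos.2 hβ).ne'
    exact mul_ne_zero (mul_ne_zero q1 q2) hd
  · have hinj : Set.InjOn (fun s : ℝ => α / β * ((1 + s * (a - 1)) / (1 + s * (c - 1)))) S := by
      intro s hsS s' hsS' h
      have e3 := lt_of_lt_of_le hmc (hpos c s hc (hs s hsS).1).1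
      have e3' := lt_of_lt_of_le hmc (hpos c s' hc (hs s' hsS').1).1
      have hαβ : α / β ≠ 0 := (div_pos hα hβ).ne'
      have h' := mul_left_cancel₀ hαβ h
      rw [div_eq_div_iff e3.ne' e3'.ne'] at h'
      have h'' : (s - s') * (a - c) = 0 := by linear_combination h'
      rcases mul_eq_zero.1 h'' with k | k
      · linarith
      · exact absurd k (by linarith)
    refine (hS.image hinj).mono ?_
    rintro t ⟨s, hsS, rfl⟩
    obtain ⟨hsI, hT⟩ := hs s hsS
    obtain ⟨l1, u1⟩ := hpos a s ha hsI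
    obtain ⟨l2, u2⟩ := hpos b s hb hsI
    obtain ⟨l3, u3⟩ := hpos c s hc hsI
    have p1 := lt_of_lt_of_le hma l1
    have p2 := lt_of_lt_of_le hmb l2
    have p3 := lt_of_lt_of_le hmc l3
    have hαβ : 0 < α / β := div_pos hα hβ
    have ht : 0 < α / β * ((1 + s * (a - 1)) / (1 + s * (c - 1))) := by positivity
    refine ⟨⟨ht, ?_⟩, ?_, ?_⟩
    · refine tiles_of_dist (dp x y z (1 + s * (a - 1)) (1 + s * (b - 1)) (1 + s * (c - 1))) _
        (dp_indep hd p1 p2 p3) ?_ (Equiv.refl _) (inv_pos.2 (Real.sqrt_pos.2 p3)) ?_ hT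
      · refine pt_indep _ _ _ ?_ ht
        have h := dt_scale x y z (√(β / α)) (√β) 1
        simp only [one_mul, mul_one] at h
        rw [h]
        have q1 : √(β / α) ≠ 0 := (Real.sqrt_pos.2 (div_pos hβ hα)).ne'
        have q2 : √β ≠ 0 := (Real.sqrt_pos.2 hβ).ne'
        exact mul_ne_zero (mul_ne_zero q1 q2) hd
      · intro i j
        exact R03_dist hα hβ p1 p2 p3 (hrel s) i j
    · exact mul_le_mul_of_nonneg_left (div_le_div₀ p1.le l1 p3 u3) hαβ.le
    · exact mul_le_mul_of_nonneg_left (div_le_div₀ hMa.le u1 hmc l3) hαβ.le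

end Pool.Agent.Helper22.PN
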