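import Pool.Agent.Helper22.PN.R02Dp
import Pool.Agent.Helper22.ST.D11HTInf

/-!
# PN-R04: two equal eigenvalues: a stretched family

`e = 1 + s (a - 1)`, `e3 = 1 + s (c - 1)`, positive on `[0, 1]`; `dp x y z e e e3` and `ST.tet x y z h`, `h = √(e3 / e)`, are similar with factor
`√e` (`dp_dist`, `ST.dist_tet_sq`, `tiles_of_dist`), so `h ∈ ST.HT x y z`.  `s ↦ h` is injective on `[0, 1]` (`a ≠ c`), its values are in a
compact interval of positive numbers.
-/

open Real Set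
open scoped RealInnerProductSpace
open Pool.Agent.Helper1.Tet
open Pool.Agent.Helper22.ST (PP ZZ cr dt ind gold1' gold2' gold3')

namespace Pool.Agent.Helper22.PN

theorem two {x y z : Fin 4 → ℝ} {a c : ℝ} (hd : dt x y z ≠ 0) (ha : 0 < a) (hc : 0 < c)
    (hac : a ≠ c) {S : Set ℝ} (hS : S.Infinite) (hs : ∀ s ∈ S, s ∈ Icc (0 : ℝ) 1 ∧
      TilesSpace (convexHull ℝ
        (range (dp x y z (1 + s * (a - 1)) (1 + s * (a - 1)) (1 + s * (c - 1)))))) :
    ST.InfHT x y z := by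
  have pos : ∀ b : ℝ, 0 < b → ∀ s ∈ Icc (0 : ℝ) 1,
      0 < min 1 b ∧ min 1 b ≤ 1 + s * (b - 1) ∧ 1 + s * (b - 1) ≤ max 1 b := by
    intro b hb s hs
    obtain ⟨h0, h1⟩ := hs
    refine ⟨lt_min one_pos hb, ?_, ?_⟩
    · rcases le_total 1 b with h | h
      · rw [min_eq_left h]; nlinarith
      · rw [min_eq_right h]; nlinarith
    · rcases le_total 1 b with h | h
      · rw [max_eq_right h]; nlinarith
      · rw [max_eq_left h]; nlinarith
  have hA : 0 < max 1 a := lt_of_lt_of_le one_pos (le_max_left _ _)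
  refine ⟨√(min 1 c / max 1 a), √(max 1 c / min 1 a), ?_, ?_⟩
  · exact Real.sqrt_pos.2 (div_pos (lt_min one_pos hc) hA)
  have hinj : InjOn (fun s : ℝ => √((1 + s * (c - 1)) / (1 + s * (a - 1)))) S := by
    intro s h s' h' hss
    obtain ⟨hI, -⟩ := hs s h
    obtain ⟨hI', -⟩ := hs s' h'
    obtain ⟨p1, p2, -⟩ := pos a ha s hI
    obtain ⟨q1, q2, -⟩ := pos a ha s' hI'
    obtain ⟨p3, p4, -⟩ := pos c hc s hI
    obtain ⟨q3, q4, -⟩ := pos c hc s' hI'
    have e1 : 0 < 1 + s * (a - 1) := by linarith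
    have e2 : 0 < 1 + s' * (a - 1) := by linarith
    have e3 : 0 < 1 + s * (c - 1) := by linarith
    have e4 : 0 < 1 + s' * (c - 1) := by linarith
    have h1 : (1 + s * (c - 1)) / (1 + s * (a - 1)) = (1 + s' * (c - 1)) / (1 + s' * (a - 1)) :=
      (Real.sqrt_inj (div_pos e3 e1).le (div_pos e4 e2).le).1 hss
    rw [div_eq_div_iff e1.ne' e2.ne'] at h1
    have h2 : (s - s') * (a - c) = 0 := by linarith
    rcases mul_eq_zero.1 h2 with h3 | h3
    · linarith
    · exact absurd (by linarith) hac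
  refine (hS.image hinj).mono ?_
  rintro _ ⟨s, h, rfl⟩
  obtain ⟨hI, hT⟩ := hs s h
  obtain ⟨p1, p2, p3⟩ := pos a ha s hI
  obtain ⟨q1, q2, q3⟩ := pos c hc s hI
  have e1 : 0 < 1 + s * (a - 1) := by linarith
  have e3 : 0 < 1 + s * (c - 1) := by linarith
  have hq : 0 < √((1 + s * (c - 1)) / (1 + s * (a - 1))) := Real.sqrt_pos.2 (div_pos e3 e1)
  refine ⟨⟨hq, ?_⟩, ?_, ?_⟩
  · have hk : 0 < √(1 + s * (a - 1))⁻¹ := Real.sqrt_pos.2 (inv_pos.2 e1)
    refine tiles_of_dist (dp x y z (1 + s * (a - 1)) (1 + s * (a - 1)) (1 + s * (c - 1))) _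
      (dp_indep hd e1 e1 e3) (ST.tet_indep x y z hd hq) 1 hk ?_ hT
    intro i j
    simp only [Equiv.Perm.coe_one, id_eq]
    have h1 := ST.dist_tet_sq x y z (√((1 + s * (c - 1)) / (1 + s * (a - 1)))) i j
    have h2 := dp_dist x y z e1.le e1.le e3.le i j
    rw [Real.sq_sqrt (div_pos e3 e1).le, ST.hor] at h1
    have h3 : dist (ST.tet x y z (√((1 + s * (c - 1)) / (1 + s * (a - 1)))) i)
        (ST.tet x y z (√((1 + s * (c - 1)) / (1 + s * (a - 1)))) j) ^ 2 =
        (√(1 + s * (a - 1))⁻¹ * dist (dp x y z (1 + s * (a - 1)) (1 + s * (a - 1))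
          (1 + s * (c - 1)) i) (dp x y z (1 + s * (a - 1)) (1 + s * (a - 1))
          (1 + s * (c - 1)) j)) ^ 2 := by
      rw [mul_pow, Real.sq_sqrt (inv_pos.2 e1).le, h1, h2]
      field_simp
    exact (pow_left_inj₀ dist_nonneg (mul_nonneg hk.le dist_nonneg) two_ne_zero).1 h3
  · apply Real.sqrt_le_sqrt
    exact div_le_div₀ e3.le q2 e1 p3
  · apply Real.sqrt_le_sqrt
    exact div_le_div₀ (le_trans e3.le q3) q3 p1 p2

end Pool.Agent.Helper22.PN
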