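import Pool.Agent.Helper22.PN.R00Defs

/-!
# PN-R05: from the three families in coordinates to pairs of Goldberg tetrahedra

`Gold3 x y z` (ST/D00Sim): `Sim3 x y z gx gy gz1` etc. with data `σ, t > 0, k ≠ 0`:
`hor x y (σ i) (σ j) = t² hor gx gy i j`, `z (σ i) - z (σ j) = k (gz1 i - gz1 j)`.
`dist (gold1' h i) (gold1' h j) ^ 2 = hor gx gy i j + h² (gz1 i - gz1 j)²` (16 cases, or `gold1' h i = !₂[gx i, gy i, h * gz1 i]`).
So `p ∘ σ` is similar to `gold1' (|k| / t)` with the factor `t`, and `q ∘ σ` to `gold1' (√(c / a) |k| / t)` with the factor `√a t`.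
-/

open Real Set
open scoped RealInnerProductSpace
open Pool.Agent.Helper1.Tet
open Pool.Agent.Helper22.ST (PP ZZ cr dt ind gold1' gold2' gold3')

namespace Pool.Agent.Helper22.PN

private theorem R05_dist (x y z : Fin 4 → ℝ) (q : Fin 4 → E3) (h : ℝ)
    (hq : ∀ i, q i = !₂[x i, y i, h * z i]) (i j : Fin 4) :
    dist (q i) (q j) ^ 2 = ST.hor x y i j + h ^ 2 * (z i - z j) ^ 2 := by
  rw [EuclideanSpace.dist_sq_eq, Fin.sum_univ_three, hq, hq]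
  simp only [Real.dist_eq, sq_abs, ST.hor]
  simp
  ring

private theorem R05_smr {p q : Fin 4 → E3} {s : ℝ} (hs : 0 < s)
    (H : ∀ i j, dist (p i) (p j) ^ 2 = s ^ 2 * dist (q i) (q j) ^ 2) : Smr q p := by
  refine ⟨s, hs, fun i j => ?_⟩
  have h1 : dist (p i) (p j) ^ 2 = (s * dist (q i) (q j)) ^ 2 := by
    rw [H, mul_pow]
  exact (sq_eq_sq₀ dist_nonneg (mul_nonneg hs.le dist_nonneg)).1 h1

private theorem R05_sim {p q : Fin 4 → E3} {x y z x' y' z' : Fin 4 → ℝ} {a c : ℝ} (ha : 0 < a)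
    (hc : 0 < c) (g : ℝ → Fin 4 → E3) (hg : ∀ h i, g h i = !₂[x' i, y' i, h * z' i])
    (hS : ST.Sim3 x y z x' y' z')
    (hp : ∀ i j, dist (p i) (p j) ^ 2 = (x i - x j) ^ 2 + (y i - y j) ^ 2 + (z i - z j) ^ 2)
    (hq : ∀ i j, dist (q i) (q j) ^ 2 =
      a * ((x i - x j) ^ 2 + (y i - y j) ^ 2) + c * (z i - z j) ^ 2) :
    ∃ (σ : Equiv.Perm (Fin 4)) (h k : ℝ), 0 < h ∧ 0 < k ∧ Smr (g h) (p ∘ σ) ∧
      Smr (g k) (q ∘ σ) := by
  obtain ⟨σ, t, k, ht, hk, H⟩ := hS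
  have hk' : 0 < |k| := abs_pos.2 hk
  have hsa : 0 < √a := Real.sqrt_pos.2 ha
  have hsc : 0 < √c := Real.sqrt_pos.2 hc
  have ha2 : √a ^ 2 = a := Real.sq_sqrt ha.le
  have hc2 : √c ^ 2 = c := Real.sq_sqrt hc.le
  have hk2 : |k| ^ 2 = k ^ 2 := sq_abs k
  refine ⟨σ, |k| / t, √c * |k| / (√a * t), div_pos hk' ht,
    div_pos (mul_pos hsc hk') (mul_pos hsa ht), R05_smr ht fun i j => ?_,
    R05_smr (mul_pos hsa ht) fun i j => ?_⟩
  · obtain ⟨H1, H2⟩ := H i j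
    rw [R05_dist x' y' z' _ _ (hg _), Function.comp_apply, Function.comp_apply, hp, H2]
    have H3 : (x (σ i) - x (σ j)) ^ 2 + (y (σ i) - y (σ j)) ^ 2 = t ^ 2 * ST.hor x' y' i j := H1
    rw [H3, div_pow, hk2]
    field_simp
  · obtain ⟨H1, H2⟩ := H i j
    rw [R05_dist x' y' z' _ _ (hg _), Function.comp_apply, Function.comp_apply, hq, H2]
    have H3 : (x (σ i) - x (σ j)) ^ 2 + (y (σ i) - y (σ j)) ^ 2 = t ^ 2 * ST.hor x' y' i j := H1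
    have H4 : (√a * t) ^ 2 = a * t ^ 2 := by rw [mul_pow, ha2]
    have H5 : (√c * |k| / (√a * t)) ^ 2 = c * k ^ 2 / (a * t ^ 2) := by
      rw [div_pow, H4, mul_pow, hc2, hk2]
    rw [H3, H5, H4]
    field_simp

theorem gp_of_gold {p q : Fin 4 → E3} {x y z : Fin 4 → ℝ} {a c : ℝ} (ha : 0 < a) (hc : 0 < c)
    (hG : ST.Gold3 x y z)
    (hp : ∀ i j, dist (p i) (p j) ^ 2 = (x i - x j) ^ 2 + (y i - y j) ^ 2 + (z i - z j) ^ 2)
    (hq : ∀ i j, dist (q i) (q j) ^ 2 =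
      a * ((x i - x j) ^ 2 + (y i - y j) ^ 2) + c * (z i - z j) ^ 2) : GP p q := by
  rcases hG with hG | hG | hG
  · obtain ⟨σ, h, k, hh, hk, h1, h2⟩ := R05_sim ha hc gold1' (by
      intro h i
      fin_cases i <;> simp [gold1', ST.gx, ST.gy, ST.gz1, mul_comm]) hG hp hq
    exact ⟨σ, h, k, hh, hk, Or.inl ⟨h1, h2⟩⟩
  · obtain ⟨σ, h, k, hh, hk, h1, h2⟩ := R05_sim ha hc gold2' (by
      intro h i
      fin_cases i <;> simp [gold2', ST.gx, ST.gy2, ST.gz2, mul_comm]) hG hp hq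
    exact ⟨σ, h, k, hh, hk, Or.inr (Or.inl ⟨h1, h2⟩)⟩
  · obtain ⟨σ, h, k, hh, hk, h1, h2⟩ := R05_sim ha hc gold3' (by
      intro h i
      fin_cases i <;> simp [gold3', ST.gx, ST.gy, ST.gz3, mul_comm]) hG hp hq
    exact ⟨σ, h, k, hh, hk, Or.inr (Or.inr ⟨h1, h2⟩)⟩

end Pool.Agent.Helper22.PN
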