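import Pool.Agent.Helper22.PN.C31Main
import Pool.Agent.Helper22.PN.R01Diag
import Pool.Agent.Helper22.PN.R03Three
import Pool.Agent.Helper22.PN.R04Two
import Pool.Agent.Helper22.PN.R05Pair
import Pool.Agent.Helper22.ST.D12MainInf

/-!
# PN-R06: the hard direction

`diag`, `tiles_dp`.  `a < b < c`: `three` and `no_hy`.  `a = b < c`: `two`, `ST.main_coord_inf`, `gp_of_gold`.  `a < b = c`: the same with the
coordinates `(y, z, x)` (`dt_cyc`; `tiles_dp` is applied to the coordinates `(y, z, x)` with rearranged `hp`, `hq`).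
`a = b = c`: `q` is similar to `p` with factor `√a`, and some member `r` of the
segment (same distances as `dp x y z e e e`, `e = 1 + s (a - 1)`) tiles, so `p` tiles (`tiles_of_dist`).
-/

open Real Set
open scoped RealInnerProductSpace
open Pool.Agent.Helper1.Tet
open Pool.Agent.Helper22.ST (PP ZZ cr dt ind gold1' gold2' gold3')

namespace Pool.Agent.Helper22.PN

/-- two equal eigenvalues -/
private lemma line_hard_two {p q : Fin 4 → E3} {x y z : Fin 4 → ℝ} {a c : ℝ}
    (hd : dt x y z ≠ 0) (ha : 0 < a) (hc : 0 < c) (hac : a ≠ c)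
    (hp : ∀ i j, dist (p i) (p j) ^ 2 = (x i - x j) ^ 2 + (y i - y j) ^ 2 + (z i - z j) ^ 2)
    (hq : ∀ i j, dist (q i) (q j) ^ 2 =
      a * (x i - x j) ^ 2 + a * (y i - y j) ^ 2 + c * (z i - z j) ^ 2)
    (h : {s : ℝ | s ∈ Icc (0 : ℝ) 1 ∧ ∃ r, Btw p q s r ∧
      TilesSpace (convexHull ℝ (range r))}.Infinite) : GP p q := by
  have hu : ST.InfHT x y z := by
    refine two hd ha hc hac h ?_
    rintro s ⟨hs, r, hr, hT⟩
    exact ⟨hs, tiles_dp hd ha ha hc hp hq hs hr hT⟩
  refine gp_of_gold ha hc (ST.main_coord_inf x y z hd hu) hp ?_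
  intro i j
  rw [hq i j]
  ring

/-- three equal eigenvalues -/
private lemma line_hard_one {p q : Fin 4 → E3} (hp' : AffineIndependent ℝ p)
    {x y z : Fin 4 → ℝ} {a : ℝ} (hd : dt x y z ≠ 0) (ha : 0 < a)
    (hp : ∀ i j, dist (p i) (p j) ^ 2 = (x i - x j) ^ 2 + (y i - y j) ^ 2 + (z i - z j) ^ 2)
    (hq : ∀ i j, dist (q i) (q j) ^ 2 =
      a * (x i - x j) ^ 2 + a * (y i - y j) ^ 2 + a * (z i - z j) ^ 2)
    (h : {s : ℝ | s ∈ Icc (0 : ℝ) 1 ∧ ∃ r, Btw p q s r ∧
      TilesSpace (convexHull ℝ (range r))}.Infinite) :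
    Smr p q ∧ TilesSpace (convexHull ℝ (range p)) := by
  constructor
  · refine ⟨√a, Real.sqrt_pos.2 ha, fun i j => ?_⟩
    have e : dist (q i) (q j) ^ 2 = (√a * dist (p i) (p j)) ^ 2 := by
      rw [mul_pow, Real.sq_sqrt ha.le, hp i j, hq i j]
      ring
    exact (pow_left_inj₀ dist_nonneg (by positivity) two_ne_zero).1 e
  · obtain ⟨s, hs, r, hr, hT⟩ := h.nonempty
    obtain ⟨⟨he, -, -⟩, -⟩ := dp_btw ha ha ha hp hq hs
    set e : ℝ := 1 + s * (a - 1) with hedef
    have hre : ∀ i j, dist (r i) (r j) ^ 2 = e * dist (p i) (p j) ^ 2 := by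
      intro i j
      rw [hr i j, hp i j, hq i j, hedef]
      ring
    have hrd : AffineIndependent ℝ r := by
      refine indep_of_dist (dp_indep hd he he he) ?_
      intro i j
      refine (pow_left_inj₀ dist_nonneg dist_nonneg two_ne_zero).1 ?_
      rw [dp_dist x y z he.le he.le he.le i j, hre i j, hp i j]
      ring
    refine tiles_of_dist r p hrd hp' 1 (k := (√e)⁻¹) (inv_pos.2 (Real.sqrt_pos.2 he)) ?_ hT
    intro i j
    have hse : √e ≠ 0 := (Real.sqrt_pos.2 he).ne'
    have e1 : dist (r i) (r j) = √e * dist (p i) (p j) := by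
      refine (pow_left_inj₀ dist_nonneg (by positivity) two_ne_zero).1 ?_
      rw [mul_pow, Real.sq_sqrt he.le, hre i j]
    simp only [Equiv.Perm.coe_one, id_eq]
    rw [e1, inv_mul_cancel_left₀ hse]

theorem line_hard {p q : Fin 4 → E3} (hp : AffineIndependent ℝ p) (hq : AffineIndependent ℝ q)
    (h : {s : ℝ | s ∈ Icc (0 : ℝ) 1 ∧ ∃ r, Btw p q s r ∧
      TilesSpace (convexHull ℝ (range r))}.Infinite) :
    (Smr p q ∧ TilesSpace (convexHull ℝ (range p))) ∨ GP p q := by
  obtain ⟨x, y, z, a, b, c, ha, hab, hbc, hd, hp', hq'⟩ := diag p q hp hq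
  have hb : 0 < b := ha.trans_le hab
  have hc : 0 < c := hb.trans_le hbc
  rcases hab.eq_or_lt with hab | hab
  · subst hab
    rcases hbc.eq_or_lt with hbc | hbc
    · subst hbc
      exact Or.inl (line_hard_one hp hd ha hp' hq' h)
    · exact Or.inr (line_hard_two hd ha hc hbc.ne hp' hq' h)
  · rcases hbc.eq_or_lt with hbc | hbc
    · subst hbc
      right
      refine line_hard_two (x := y) (y := z) (z := x) (a := b) (c := a) ?_ hb ha hab.ne' ?_ ?_ h
      · rw [dt_cyc]; exact hd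
      · intro i j
        rw [hp' i j]; ring
      · intro i j
        rw [hq' i j]; ring
    · exfalso
      obtain ⟨x', y', z', hy⟩ := three hd ha hab hbc h (by
        rintro s ⟨hs, r, hr, hT⟩
        exact ⟨hs, tiles_dp hd ha hb hc hp' hq' hs hr hT⟩)
      exact no_hy hy

end Pool.Agent.Helper22.PN
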